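import Pool.Agent.Q267.MW.D11

set_option autoImplicit false

/-!
# The curve `y² = x³ - 30 x + 56` and its endomorphism of degree two with square `-2`
-/

namespace Pool.Agent.Q267.MW

open Polynomial

-- REL hal al [T,al] al^2 - (-2)

section alg

variable {K : Type*} [Field K]

/-- first coordinate of the endomorphism `√-2` -/
def x8 (T : K) : K := -(T * (T - 4) + 18) / (2 * (T - 4))

/-- second coordinate of the endomorphism -/
def y8 (al T : K) : K := al * ((T - 4) ^ 2 - 18) / (4 * (T - 4) ^ 2)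

/-- first coordinate of `1 - √-2` -/
def x8b (al T : K) : K := (2 * al - 1) * ((T * (T - (2 + al)) + 24 * (al - 2)) *
  (T - (2 + al)) - 16 * (2 + 5 * al)) / (9 * (T - (2 + al)) ^ 2)

theorem d8_eqn (T al : K) (hal : al ^ 2 = -2) (h2 : (2 : K) ≠ 0) (hT : T - 4 ≠ 0) :
    (T ^ 3 - 30 * T + 56) * (y8 al T) ^ 2 = (x8 T) ^ 3 - 30 * x8 T + 56 := by
  obtain ⟨h4, -, -⟩ := pow2_ne h2
  unfold x8 y8
  have hd := mul_ne_zero h2 hT
  have hd' := mul_ne_zero h4 (pow_ne_zero 2 hT)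
  rw [div_pow, div_pow, mul_div_assoc', mul_div_assoc', div_sub_div _ _ (pow_ne_zero 3 hd) hd,
    div_add' _ _ _ (mul_ne_zero (pow_ne_zero 3 hd) hd), div_eq_div_iff (pow_ne_zero 2 hd')
      (mul_ne_zero (pow_ne_zero 3 hd) hd)]
  linear_combination (16 * T ^ 11 - 512 * T ^ 10 + 6112 * T ^ 9 - 27264 * T ^ 8 - 72768 * T ^ 7 + 1411584 * T ^ 6 - 6926208 * T ^ 5 + 16614912 * T ^ 4 - 18345984 * T ^ 3 + 3325952 * T ^ 2 + 5931008 * T + 917504) * hal

theorem d8_q (T al : K) (hal : al ^ 2 = -2) :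
    T ^ 2 - 4 * T + 6 = (T - (2 + al)) * (T - (2 - al)) := by
  linear_combination hal

theorem d8_lam (T al : K) (hal : al ^ 2 = -2) (h2 : (2 : K) ≠ 0) (h3 : (3 : K) ≠ 0)
    (hT : T - 4 ≠ 0) (hT' : T - (2 + al) ≠ 0) (hx : T - x8 T ≠ 0) :
    (1 - -(y8 al T)) / (T - x8 T) = (4 + al) * (T - 6 - al) / (6 * (T - 4) * (T - (2 + al))) := by
  obtain ⟨h4, -, -⟩ := pow2_ne h2
  have h6 : (6 : K) ≠ 0 := by
    have : (6 : K) = 2 * 3 := by norm_num
    rw [this]; exact mul_ne_zero h2 h3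
  have hd := mul_ne_zero h2 hT
  have hd' := mul_ne_zero h4 (pow_ne_zero 2 hT)
  rw [div_eq_div_iff hx (mul_ne_zero (mul_ne_zero h6 hT) hT')]
  unfold x8 y8
  rw [sub_neg_eq_add, add_div' _ _ _ hd', sub_div' hd, div_mul_eq_mul_div, mul_div_assoc',
    div_eq_div_iff hd' hd]
  linear_combination (48 * T ^ 3 - 288 * T ^ 2 + 1536) * hal

theorem d8_diff (T al : K) (hal : al ^ 2 = -2) (h2 : (2 : K) ≠ 0) (h3 : (3 : K) ≠ 0)
    (hT : T - 4 ≠ 0) (hT' : T - (2 + al) ≠ 0) :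
    (T ^ 3 - 30 * T + 56) * ((4 + al) * (T - 6 - al) / (6 * (T - 4) * (T - (2 + al)))) ^ 2 - T -
      x8 T = x8b al T := by
  obtain ⟨h9, -⟩ := pow3_ne h3
  have h6 : (6 : K) ≠ 0 := by
    have : (6 : K) = 2 * 3 := by norm_num
    rw [this]; exact mul_ne_zero h2 h3
  have hd := mul_ne_zero h2 hT
  have hd' := mul_ne_zero h9 (pow_ne_zero 2 hT')
  have hqq := pow_ne_zero 2 (mul_ne_zero (mul_ne_zero h6 hT) hT')
  unfold x8 x8b
  rw [div_pow, mul_div_assoc', sub_sub, add_div' _ _ _ hd, div_sub_div _ _ hqq hd,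
    div_eq_div_iff (mul_ne_zero hqq hd) hd']
  linear_combination (18 * T ^ 4 * al ^ 4 - 72 * T ^ 5 * al ^ 3 + 108 * T ^ 6 * al ^ 2 - 72 * T ^ 7 * al + 18 * T ^ 8 - 72 * T ^ 3 * al ^ 4 + 576 * T ^ 4 * al ^ 3 - 1296 * T ^ 5 * al ^ 2 + 1152 * T ^ 6 * al - 360 * T ^ 7 - 540 * T ^ 2 * al ^ 4 + 5616 * T ^ 3 * al ^ 3 - 12024 * T ^ 4 * al ^ 2 + 9360 * T ^ 5 * al - 2412 * T ^ 6 + 3168 * T * al ^ 4 - 74016 * T ^ 2 * al ^ 3 + 238176 * T ^ 3 * al ^ 2 - 263520 * T ^ 4 * al + 96192 * T ^ 5 + 267264 * T * al ^ 3 - 1281312 * T ^ 2 * al ^ 2 + 1873728 * T ^ 3 * al - 853056 * T ^ 4 - 4032 * al ^ 4 + 2891520 * T * al ^ 2 - 6125184 * T ^ 2 * al + 3633408 * T ^ 3 - 317952 * al ^ 3 + 9529344 * T * al - 8243136 * T ^ 2 - 2345472 * al ^ 2 + 9580032 * T - 5695488 * al - 4488192) * hal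

theorem d8_der (T al : K) (hal : al ^ 2 = -2) (h2 : (2 : K) ≠ 0) (hT : T - 4 ≠ 0) :
    (-(2 * T - 4) * (2 * (T - 4)) - -(T * (T - 4) + 18) * 2) / (2 * (T - 4)) ^ 2 =
      al * y8 al T := by
  obtain ⟨h4, -, -⟩ := pow2_ne h2
  have hd := mul_ne_zero h2 hT
  have hd' := mul_ne_zero h4 (pow_ne_zero 2 hT)
  unfold y8
  rw [mul_div_assoc', div_eq_div_iff (pow_ne_zero 2 hd) hd']
  linear_combination (-4 * T ^ 4 + 64 * T ^ 3 - 312 * T ^ 2 + 448 * T + 128) * hal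

end alg

noncomputable section

open WeierstrassCurve WeierstrassCurve.Affine WithZero Finset

variable {F : Type*} [Field F]

/-- numerator and denominator -/
def n8 : F[X] := C (-1) * (X * (X - C 4) + C 18)

def d8 : F[X] := C 2 * (X - C 4)

def n8b (al : F) : F[X] := C (2 * al - 1) * ((X * (X - C (2 + al)) + C (24 * (al - 2))) *
  (X - C (2 + al)) + C (-(16 * (2 + 5 * al))))

def d8b (al : F) : F[X] := C 9 * (X - C (2 + al)) ^ 2

theorem nd8 : io (n8 : F[X]) / io d8 = x8 (io X) := by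
  unfold n8 d8 x8
  simp only [map_mul, map_add, map_sub, map_neg, map_one, map_ofNat, C_neg]
  ring

theorem nd8b (al : F) : io (n8b al) / io (d8b al) = x8b (io (C al)) (io X) := by
  unfold n8b d8b x8b
  simp only [map_mul, map_add, map_sub, map_neg, map_one, map_ofNat, map_pow]
  ring

theorem six_two {h2 : (2 : F) ≠ 0} {h3 : (3 : F) ≠ 0} : (18 : F) ≠ 0 := by
  have : (18 : F) = 2 * 3 ^ 2 := by norm_num
  rw [this]
  exact mul_ne_zero h2 (pow_ne_zero 2 h3)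

theorem al8_one {al : F} (hal : al ^ 2 = -2) (h3 : (3 : F) ≠ 0) : 2 * al - 1 ≠ 0 := by
  intro h
  have : (9 : F) = 0 := by linear_combination (-(2 * al + 1)) * h + 4 * hal
  exact (pow3_ne h3).1 this

theorem al8_u {al : F} (hal : al ^ 2 = -2) (h2 : (2 : F) ≠ 0) (h3 : (3 : F) ≠ 0) :
    -(16 * (2 + 5 * al)) ≠ 0 := by
  have h16 : (16 : F) ≠ 0 := (pow2_ne h2).2.2
  refine neg_ne_zero.mpr (mul_ne_zero h16 ?_)
  intro h
  have : (2 : F) * 27 = 0 := by linear_combination (2 - 5 * al) * h + 25 * hal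
  exact mul_ne_zero h2 (pow3_ne h3).2 this

theorem n8_deg : (n8 : F[X]).natDegree = 2 := by
  unfold n8
  rw [natDegree_C_mul (neg_ne_zero.mpr one_ne_zero)]
  have : (X * (X - C 4) + C 18 : F[X]) = X ^ 2 + (C (-4) * X + C 18) := by
    rw [C_neg]; ring
  rw [this, natDegree_add_eq_left_of_natDegree_lt, natDegree_X_pow]
  rw [natDegree_X_pow]
  exact lt_of_le_of_lt natDegree_linear_le (by norm_num)

theorem d8_deg (h2 : (2 : F) ≠ 0) : (d8 : F[X]).natDegree = 1 := by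
  unfold d8
  rw [natDegree_C_mul h2, natDegree_X_sub_C]

theorem d8_ne (h2 : (2 : F) ≠ 0) : (d8 : F[X]) ≠ 0 := by
  intro h
  have := d8_deg h2
  rw [h, natDegree_zero] at this
  exact absurd this (by norm_num)

theorem n8b_deg {al : F} (h : 2 * al - 1 ≠ 0) : (n8b al).natDegree = 3 := by
  unfold n8b
  rw [natDegree_C_mul h]
  have : ((X * (X - C (2 + al)) + C (24 * (al - 2))) *
  (X - C (2 + al)) + C (-(16 * (2 + 5 * al))) : F[X]) =
      X ^ 3 + (C (-2 * (2 + al)) * X ^ 2 + C ((2 + al) ^ 2 + 24 * (al - 2)) * X +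
        C (-(24 * (al - 2)) * (2 + al) + -(16 * (2 + 5 * al)))) := by
    simp only [C_mul, C_neg, C_sub, C_add, C_pow, map_ofNat]
    ring
  rw [this, natDegree_add_eq_left_of_natDegree_lt, natDegree_X_pow]
  rw [natDegree_X_pow]
  exact lt_of_le_of_lt natDegree_quadratic_le (by norm_num)

theorem d8b_deg {al : F} (h9 : (9 : F) ≠ 0) : (d8b al).natDegree = 2 := by
  unfold d8b
  rw [natDegree_C_mul h9, natDegree_pow, natDegree_X_sub_C]

theorem d8b_ne {al : F} (h9 : (9 : F) ≠ 0) : d8b al ≠ 0 := by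
  intro h
  have := d8b_deg (al := al) h9
  rw [h, natDegree_zero] at this
  exact absurd this (by norm_num)

theorem cop8b {al : F} (h : 2 * al - 1 ≠ 0) (h9 : (9 : F) ≠ 0) (hu : -(16 * (2 + 5 * al)) ≠ 0) :
    IsCoprime (n8b al) (d8b al) := by
  have h' : IsCoprime (n8b al) (C 9 * (X - C (2 + al))) := cop_lin h h9 hu
  have h1 : IsCoprime (n8b al) (X - C (2 + al)) := h'.of_mul_right_right
  unfold d8b
  exact IsCoprime.mul_right h'.of_mul_right_left (h1.pow_right)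

theorem fk8 : io (fp (-30 : F) 56) = (io X) ^ 3 - 30 * io X + 56 := by
  unfold fp
  simp only [map_mul, map_add, map_neg, map_ofNat, map_pow]
  ring

theorem hΔ8 (h2 : (2 : F) ≠ 0) (h3 : (3 : F) ≠ 0) :
    4 * (-30 : F) ^ 3 + 27 * 56 ^ 2 ≠ 0 := by
  have : 4 * (-30 : F) ^ 3 + 27 * 56 ^ 2 = -(2 ^ 5 * 3 ^ 6) := by norm_num
  rw [this]
  exact neg_ne_zero.mpr (mul_ne_zero (pow_ne_zero _ h2) (pow_ne_zero _ h3))

theorem halk8 {al : F} (hal : al ^ 2 = -2) : (io (C al)) ^ 2 = -2 := by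
  rw [← map_pow, ← C_pow, hal, C_neg, map_neg, map_ofNat, map_ofNat]

theorem Te8 : io (X : F[X]) - 4 ≠ 0 := by
  have := Te (F := F) (e := 4)
  rwa [map_ofNat, map_ofNat] at this

theorem Te8' {al : F} : io (X : F[X]) - (2 + io (C al)) ≠ 0 := by
  have := Te (e := 2 + al)
  rwa [C_add, map_add, map_ofNat, map_ofNat] at this

theorem Tx8 (h2 : (2 : F) ≠ 0) (h3 : (3 : F) ≠ 0) :
    io (X : F[X]) - x8 (io X) ≠ 0 := by
  intro h
  rw [← nd8, sub_eq_zero, eq_div_iff (io_ne (d8_ne h2)), ← map_mul] at h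
  have h' := io_inj h
  have hc : IsCoprime (n8 : F[X]) d8 :=
    cop_lin (neg_ne_zero.mpr one_ne_zero) h2 (six_two (h2 := h2) (h3 := h3))
  have hu : IsUnit (d8 : F[X]) := hc.isUnit_of_dvd' (h' ▸ dvd_mul_left _ _) (dvd_refl _)
  have := natDegree_eq_zero_of_isUnit hu
  rw [d8_deg h2] at this
  exact absurd this (by norm_num)

theorem eqA8 {al : F} (hal : al ^ 2 = -2) (h2 : (2 : F) ≠ 0) :
    io (fp (-30 : F) 56) * (y8 (io (C al)) (io X)) ^ 2 =
      (x8 (io X)) ^ 3 + io (C (-30)) * x8 (io X) + io (C 56) := by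
  have := d8_eqn (io X) (io (C al)) (halk8 hal) (two_ne_K h2) Te8
  rw [fk8, this, C_neg, map_neg, map_ofNat, map_ofNat, map_ofNat, map_ofNat]
  ring

theorem goodA8 {al : F} (hal : al ^ 2 = -2) (h2 : (2 : F) ≠ 0) (h3 : (3 : F) ≠ 0) :
    Good al (pt h2 (hΔ8 h2 h3) (eqA8 hal h2)) := by
  apply good_pt
  · rw [← nd8]
    exact vi_pos (d8_ne h2) (by rw [n8_deg, d8_deg h2]; norm_num)
  · rw [← d8_der (io X) (io (C al)) (halk8 hal) (two_ne_K h2) Te8, ← nd8,
      rd_div _ _ (d8_ne h2)]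
    unfold n8 d8
    simp only [derivative_mul, derivative_C, derivative_add, derivative_sub, derivative_X, map_mul,
      map_add, map_sub, map_neg, map_one, map_ofNat, C_mul, C_add, C_sub, C_neg, map_zero,
      derivative_pow, map_pow, Nat.cast_ofNat]
    congr 1
    simp only [derivative_neg, derivative_one, derivative_C, derivative_ofNat, map_neg, map_zero,
      map_add, derivative_add]
    ring

open Classical in
theorem hgtA8 {al : F} (hal : al ^ 2 = -2) (h2 : (2 : F) ≠ 0) (h3 : (3 : F) ≠ 0) :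
    hgt (pt h2 (hΔ8 h2 h3) (eqA8 hal h2)) = 2 := by
  unfold pt
  rw [hgt_of _ (d8_ne h2) (cop_lin (neg_ne_zero.mpr one_ne_zero) h2 (six_two (h2 := h2) (h3 := h3)))
    (n := n8) (by rw [pt_X, nd8])]
  unfold mh
  rw [n8_deg, d8_deg h2]
  rfl

open Classical in
theorem hgtS8 {al : F} (hal : al ^ 2 = -2) (h2 : (2 : F) ≠ 0) (h3 : (3 : F) ≠ 0) :
    hgt (pt h2 (hΔ8 h2 h3) (P0_eq (-30) 56) + pt h2 (hΔ8 h2 h3) (eqA8 hal h2)) = 3 := by
  obtain ⟨h9, -⟩ := pow3_ne h3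
  have hpar := par h2 (hΔ8 h2 h3) (pt h2 (hΔ8 h2 h3) (P0_eq (-30) 56))
    (pt h2 (hΔ8 h2 h3) (eqA8 hal h2))
  rw [hgt_P0, hgtA8 hal h2 h3, sub_eq_add_neg, pt_neg] at hpar
  have hTx := Tx8 (F := F) h2 h3
  have hval : io (fp (-30 : F) 56) * ((1 - -(y8 (io (C al)) (io X))) /
      (io X - x8 (io X))) ^ 2 - io X - x8 (io X) =
      io (n8b al) / io (d8b al) := by
    rw [nd8b, fk8, d8_lam (io X) (io (C al)) (halk8 hal) (two_ne_K h2) (three_ne_K h3) Te8 Te8' hTx,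
      d8_diff (io X) (io (C al)) (halk8 hal) (two_ne_K h2) (three_ne_K h3) Te8 Te8']
  have hd := hgt_add (n := n8b al) (d := d8b al) h2 (hΔ8 h2 h3)
    (P0_eq (-30) 56) (neg_eqn (eqA8 hal h2))
    (fun h => hTx (sub_eq_zero.mpr h)) (d8b_ne (al := al) h9)
    (cop8b (al8_one hal h3) h9 (al8_u hal h2 h3)) hval
  unfold mh at hd
  rw [n8b_deg (al8_one hal h3), d8b_deg h9] at hd
  rw [hd] at hpar
  norm_num at hpar
  exact Nat.add_right_cancel (m := 3) (k := 3) hpar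

/-- **The trace of the curve of discriminant `-8`**, up to sign. -/
theorem trace8 (p : ℕ) [hp : Fact p.Prime] (hp2 : p ≠ 2) (hp3 : p ≠ 3) (r s : ℤ)
    (hrs : (p : ℤ) = r ^ 2 + 2 * s ^ 2) :
    (∑ x : ZMod p, quadraticChar (ZMod p) (x ^ 3 - 30 * x + 56) = 2 * r) ∨
    (∑ x : ZMod p, quadraticChar (ZMod p) (x ^ 3 - 30 * x + 56) = -(2 * r)) := by
  have hprime : ∀ q : ℕ, q.Prime → p ≠ q → ((q : ℕ) : ZMod p) ≠ 0 := by
    intro q hq hne h0
    rw [ZMod.natCast_eq_zero_iff] at h0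
    exact hne ((Nat.prime_dvd_prime_iff_eq hp.out hq).mp h0)
  have h2 : (2 : ZMod p) ≠ 0 := by exact_mod_cast hprime 2 Nat.prime_two hp2
  have h3 : (3 : ZMod p) ≠ 0 := by exact_mod_cast hprime 3 (by norm_num) hp3
  have hp5 : p ≠ 5 := by
    rintro rfl
    have h1 : r ^ 2 + 2 * s ^ 2 = 5 := by rw [← hrs]; norm_num
    have hs1 : s ≤ 1 := by nlinarith [sq_nonneg r]
    have hs2 : -1 ≤ s := by nlinarith [sq_nonneg r]
    have hr1 : r ≤ 2 := by nlinarith [sq_nonneg s]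
    have hr2 : -2 ≤ r := by nlinarith [sq_nonneg s]
    interval_cases s <;> interval_cases r <;> omega
  have hp7 : p ≠ 7 := by
    rintro rfl
    have h1 : r ^ 2 + 2 * s ^ 2 = 7 := by rw [← hrs]; norm_num
    have hs1 : s ≤ 1 := by nlinarith [sq_nonneg r]
    have hs2 : -1 ≤ s := by nlinarith [sq_nonneg r]
    have hr1 : r ≤ 2 := by nlinarith [sq_nonneg s]
    have hr2 : -2 ≤ r := by nlinarith [sq_nonneg s]
    interval_cases s <;> interval_cases r <;> omega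
  have h5 : (5 : ZMod p) ≠ 0 := by exact_mod_cast hprime 5 (by norm_num) hp5
  have h7 : (7 : ZMod p) ≠ 0 := by exact_mod_cast hprime 7 (by norm_num) hp7
  have ha : (-30 : ZMod p) ≠ 0 := by
    have : (-30 : ZMod p) = -(2 * 3 * 5) := by norm_num
    rw [this]
    exact neg_ne_zero.mpr (mul_ne_zero (mul_ne_zero h2 h3) h5)
  have hb : (56 : ZMod p) ≠ 0 := by
    have : (56 : ZMod p) = 2 ^ 3 * 7 := by norm_num
    rw [this]
    exact mul_ne_zero (pow_ne_zero 3 h2) h7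
  have hs0 : (s : ZMod p) ≠ 0 := by
    intro h
    have hps : (p : ℤ) ∣ s := (ZMod.intCast_zmod_eq_zero_iff_dvd s p).mp h
    have hpp : Prime (p : ℤ) := Nat.prime_iff_prime_int.mp hp.out
    have hr2 : (p : ℤ) ∣ r ^ 2 := by
      have : r ^ 2 = p - s * (2 * s) := by rw [hrs]; ring
      rw [this]
      exact dvd_sub (dvd_refl _) (hps.mul_right _)
    have hr : (p : ℤ) ∣ r := hpp.dvd_of_dvd_pow hr2
    have hpsq : (p : ℤ) ^ 2 ∣ p := by
      conv_rhs => rw [hrs]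
      obtain ⟨u, hu⟩ := hr
      obtain ⟨v, hv⟩ := hps
      exact ⟨u ^ 2 + 2 * v ^ 2, by rw [hu, hv]; ring⟩
    have h1 : (p : ℤ) ∣ 1 := by
      rw [pow_two] at hpsq
      have hp0 : (p : ℤ) ≠ 0 := by exact_mod_cast hp.out.ne_zero
      exact (mul_dvd_mul_iff_left hp0).mp (by rwa [mul_one])
    exact hpp.not_isUnit (isUnit_of_dvd_one h1)
  set al : ZMod p := -(r : ZMod p) / s with hal_def
  have hsal : (s : ZMod p) * al = -r := by rw [hal_def]; field_simp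
  have h0 : (r : ZMod p) + s * al = 0 := by rw [hsal]; ring
  have hrs' : (r : ZMod p) ^ 2 + 2 * s ^ 2 = 0 := by
    have := congrArg (Int.cast (R := ZMod p)) hrs
    push_cast at this
    rw [ZMod.natCast_self] at this
    exact this.symm
  have hal : al ^ 2 = -2 := by
    have : (s : ZMod p) ^ 2 * (al ^ 2 + 2) = 0 := by
      linear_combination (s * al - r) * hsal + hrs'
    have := (mul_eq_zero.mp this).resolve_left (pow_ne_zero 2 hs0)
    linear_combination this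
  have key := trace_endo h2 h3 ha hb (hΔ8 h2 h3) al (pt h2 (hΔ8 h2 h3) (eqA8 hal h2))
    (goodA8 hal h2 h3) 2 0 (by rw [hgtA8 hal h2 h3]; rfl)
    (by rw [hgtS8 hal h2 h3]; rfl) r s (by rw [hrs]; ring) h0
  have hev : ∀ x : ZMod p, (fp (-30 : ZMod p) 56).eval x = x ^ 3 - 30 * x + 56 := by
    intro x
    unfold fp
    simp only [eval_add, eval_mul, eval_pow, eval_X, eval_C]
    ring
  simp only [hev, mul_zero, add_zero] at key
  exact key

end

end Pool.Agent.Q267.MW
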