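import Mathlib

set_option autoImplicit false

/-!
# The addition-subtraction formula on `y² = x³ + A x + B`
-/

namespace Pool.Agent.Q267.MW

open WeierstrassCurve WeierstrassCurve.Affine

variable {K : Type*} [Field K]

/-- the curve `y² = x³ + A x + B` -/
abbrev SW (A B : K) : WeierstrassCurve.Affine K := ⟨0, 0, 0, A, B⟩

/-- proportional triples -/
def Pr3 (v0 v1 v2 g0 g1 g2 : K) : Prop := v0 * g1 = v1 * g0 ∧ v0 * g2 = v2 * g0 ∧ v1 * g2 = v2 * g1

def g0 (u0 u1 u2 : K) : K := u1 ^ 2 - 4 * u0 * u2

def g1 (A B u0 u1 u2 : K) : K := 2 * u1 * u2 + 2 * A * u0 * u1 + 4 * B * u0 ^ 2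

def g2 (A B u0 u1 u2 : K) : K := (u2 - A * u0) ^ 2 - 4 * B * u0 * u1

/-- the coordinates of the image of a point under `x` -/
def xr {A B : K} : (SW A B).Point → K × K
  | .zero => (1, 0)
  | .some x _ _ => (x, 1)

theorem xr_zero {A B : K} : xr (0 : (SW A B).Point) = (1, 0) := rfl

theorem xr_some {A B : K} {x y : K} (h : (SW A B).Nonsingular x y) :
    xr (Point.some x y h) = (x, 1) := rfl

theorem xr_neg {A B : K} (P : (SW A B).Point) : xr (-P) = xr P := by
  cases P with
  | zero => rfl
  | some x y h => rfl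

/-- the statement for two points and the values of sum and difference -/
def AS {A B : K} (P Q S D : (SW A B).Point) : Prop :=
  Pr3 ((xr S).2 * (xr D).2) ((xr S).1 * (xr D).2 + (xr D).1 * (xr S).2) ((xr S).1 * (xr D).1)
    (g0 ((xr P).2 * (xr Q).2) ((xr P).1 * (xr Q).2 + (xr Q).1 * (xr P).2) ((xr P).1 * (xr Q).1))
    (g1 A B ((xr P).2 * (xr Q).2) ((xr P).1 * (xr Q).2 + (xr Q).1 * (xr P).2)
      ((xr P).1 * (xr Q).1))
    (g2 A B ((xr P).2 * (xr Q).2) ((xr P).1 * (xr Q).2 + (xr Q).1 * (xr P).2)
      ((xr P).1 * (xr Q).1))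

theorem eqn {A B x y : K} (h : (SW A B).Nonsingular x y) : y ^ 2 = x ^ 3 + A * x + B := by
  have := (equation_iff _ _).mp h.1
  simpa using this

theorem negY_SW {A B x y : K} : (SW A B).negY x y = -y := by
  simp [negY]

theorem as_dbl [DecidableEq K] {A B : K} (P : (SW A B).Point) (h2 : (2 : K) ≠ 0) : AS P P (P + P) 0 := by
  cases P with
  | zero =>
    have : (Point.zero : (SW A B).Point) = 0 := rfl
    rw [this, add_zero]
    simp only [AS, Pr3, xr_zero, g0, g1, g2]
    refine ⟨by ring, by ring, by ring⟩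
  | some x y h =>
    have he := eqn h
    by_cases hy : y = 0
    · have hs : Point.some x y h + Point.some x y h = 0 :=
        Point.add_self_of_Y_eq (by rw [negY_SW, hy, neg_zero])
      rw [hs]
      simp only [AS, Pr3, xr_zero, xr_some, g0, g1, g2]
      rw [hy] at he
      refine ⟨by ring, by ring, ?_⟩
      linear_combination 4 * he
    · have hne : y ≠ (SW A B).negY x y := by
        rw [negY_SW]
        intro h'
        apply hy
        have : 2 * y = 0 := by linear_combination h'
        exact (mul_eq_zero.mp this).resolve_left h2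
      rw [Point.add_self_of_Y_ne hne]
      have hsl : (SW A B).slope x x y y = (3 * x ^ 2 + A) / (2 * y) := by
        rw [slope_of_Y_ne rfl hne, negY_SW]
        congr 1
        · simp
        · ring
      simp only [AS, Pr3, xr_zero, xr_some, g0, g1, g2, addX, hsl]
      refine ⟨by ring, by ring, ?_⟩
      field_simp
      have hB : B = y ^ 2 - x ^ 3 - A * x := by linear_combination -he
      rw [hB]
      ring

theorem as_main [DecidableEq K] {A B : K} (P Q : (SW A B).Point) (h2 : (2 : K) ≠ 0) : AS P Q (P + Q) (P - Q) := by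
  by_cases hP : P = 0
  · subst hP
    rw [zero_add, zero_sub]
    simp only [AS, Pr3, xr_zero, g0, g1, g2, xr_neg]
    refine ⟨by ring, by ring, by ring⟩
  by_cases hQ : Q = 0
  · subst hQ
    rw [add_zero, sub_zero]
    simp only [AS, Pr3, xr_zero, g0, g1, g2]
    refine ⟨by ring, by ring, by ring⟩
  by_cases hPQ : P = Q
  · subst hPQ
    rw [sub_self]
    exact as_dbl P h2
  by_cases hPQ' : P = -Q
  · have h1 : P + Q = 0 := by rw [hPQ']; exact neg_add_cancel Q
    have h2' : P - Q = P + P := by rw [sub_eq_add_neg, ← hPQ']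
    rw [h1, h2']
    have := as_dbl P h2
    have hx : xr Q = xr P := by rw [hPQ', xr_neg]
    unfold AS at this ⊢
    rw [hx]
    rw [mul_comm (xr (0 : (SW A B).Point)).2, mul_comm (xr (0 : (SW A B).Point)).1 (xr (P + P)).1,
      add_comm ((xr (0 : (SW A B).Point)).1 * (xr (P + P)).2)]
    exact this
  cases P with
  | zero => exact absurd rfl hP
  | some x1 y1 h1 =>
    cases Q with
    | zero => exact absurd rfl hQ
    | some x2 y2 h2' =>
      have hx : x1 ≠ x2 := by
        intro hx
        rcases Point.X_eq_iff.mp hx with h | h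
        · exact hPQ h
        · exact hPQ' h
      have hneg : -(Point.some x2 y2 h2') = Point.some x2 ((SW A B).negY x2 y2)
          ((nonsingular_neg ..).mpr h2') := rfl
      rw [sub_eq_add_neg, hneg, Point.add_of_X_ne hx, Point.add_of_X_ne hx]
      have e1 := eqn h1
      have e2 := eqn h2'
      have hd : x1 - x2 ≠ 0 := sub_ne_zero.mpr hx
      simp only [AS, Pr3, xr_some, g0, g1, g2, addX, slope_of_X_ne hx, negY_SW]
      have hA : A = ((y1 ^ 2 - y2 ^ 2) - (x1 ^ 3 - x2 ^ 3)) / (x1 - x2) := by
        field_simp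
        linear_combination e2 - e1
      have hB : B = y1 ^ 2 - x1 ^ 3 - A * x1 := by linear_combination -e1
      refine ⟨?_, ?_, ?_⟩
      · rw [hB, hA]
        field_simp
        ring
      · rw [hB, hA]
        field_simp
        ring
      · rw [hB, hA]
        field_simp
        ring

end Pool.Agent.Q267.MW
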