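import Pool.Agent.Q267.MW.Char

set_option autoImplicit false

/-!
# Binomial coefficients modulo `p²` and factorials modulo `p`
-/

namespace Pool.Agent.Q267.MW

open Finset Pool.Agent.Q267.CDE

variable (p : ℕ) [hp : Fact p.Prime]

theorem H_last (hodd : Odd p) : H (ZMod p) (p - 1) = 0 := by
  have h2 : (2 : ZMod p) ≠ 0 := by
    have hp2 := hp.out.two_le
    have : p ≠ 2 := by rintro rfl; exact absurd hodd (by decide)
    have := CDE.cast_ne p 2 (by norm_num) (by omega)
    exact_mod_cast this
  have h1 : H (ZMod p) (p - 1) = - H (ZMod p) (p - 1) := by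
    conv_lhs => unfold H
    rw [← sum_range_reflect]
    unfold H
    rw [← sum_neg_distrib]
    refine sum_congr rfl fun i hi => ?_
    have hi' := mem_range.mp hi
    have e : ((p - 1 - 1 - i : ℕ) : ZMod p) + 1 = -((i : ZMod p) + 1) := by
      have : (p - 1 - 1 - i) + 1 + (i + 1) = p := by omega
      have h := congrArg (Nat.cast : ℕ → ZMod p) this
      rw [ZMod.natCast_self] at h
      push_cast at h
      linear_combination h
    rw [e, inv_neg]
  have : (2 : ZMod p) * H (ZMod p) (p - 1) = 0 := by linear_combination h1
  exact (mul_eq_zero.mp this).resolve_left h2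

theorem H_refl (hodd : Odd p) (j : ℕ) (hj : j < p) : H (ZMod p) (p - 1 - j) = H (ZMod p) j := by
  induction j with
  | zero => rw [Nat.sub_zero, H_last p hodd, H_zero]
  | succ j ih =>
    have ih := ih (by omega)
    rw [show p - 1 - j = (p - 1 - (j + 1)) + 1 by omega, H_succ] at ih
    have e : ((p - 1 - (j + 1) : ℕ) : ZMod p) + 1 = -((j : ZMod p) + 1) := by
      have : (p - 1 - (j + 1)) + 1 + (j + 1) = p := by omega
      have h := congrArg (Nat.cast : ℕ → ZMod p) this
      rw [ZMod.natCast_self] at h
      push_cast at h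
      linear_combination h
    rw [e, inv_neg] at ih
    rw [H_succ]
    linear_combination ih

/-- `C(p-1-j, k)` modulo `p²` -/
theorem choose_neg (j k : ℕ) (hjk : j + k < p) :
    (((p - 1 - j).choose k : ℕ) : R p) = (-1) ^ k * (((j + k).choose k : ℕ) : R p) *
      (1 - p * lift p (H (ZMod p) (j + k) - H (ZMod p) j)) := by
  induction k with
  | zero =>
    have : (p : R p) * lift p (H (ZMod p) (j + 0) - H (ZMod p) j) = p * 0 := by
      apply p_mul_eq
      rw [red_lift, map_zero, Nat.add_zero, sub_self]
    rw [this]
    simp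
  | succ k ih =>
    have ih := ih (by omega)
    have hpp := p_sq p
    have h1 := Nat.choose_succ_right_eq (p - 1 - j) k
    have h1' := congrArg (Nat.cast : ℕ → R p) h1
    rw [Nat.cast_mul, Nat.cast_mul, show p - 1 - j - k = p - (j + k + 1) by omega,
      Nat.cast_sub (by omega)] at h1'
    have h2 := Nat.add_one_mul_choose_eq (j + k) k
    have h2' := congrArg (Nat.cast : ℕ → R p) h2
    push_cast at h1' h2'
    have hu : IsUnit ((k : R p) + 1) := by
      have := isUnit_nat p (k + 1) (by omega) (by omega)
      push_cast at this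
      exact this
    have hv := CDE.cast_ne p (j + k + 1) (by omega) (by omega)
    have h3 : (p : R p) * (((j : R p) + k + 1) * lift p (H (ZMod p) (j + (k + 1)) - H (ZMod p) j)) =
        p * (((j : R p) + k + 1) * lift p (H (ZMod p) (j + k) - H (ZMod p) j) + 1) := by
      apply p_mul_eq
      simp only [map_mul, red_lift, map_add, map_natCast, map_one]
      rw [show j + (k + 1) = j + k + 1 by ring, H_succ]
      push_cast at hv ⊢
      field_simp
      ring
    apply hu.mul_right_cancel
    rw [h1', ih, show j + (k + 1) = j + k + 1 by ring]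
    rw [show j + (k + 1) = j + k + 1 by ring] at h3
    rw [pow_succ (-1 : R p) k]
    set P : R p := (p : R p)
    set c : R p := (((j + k).choose k : ℕ) : R p)
    set c' : R p := (((j + k + 1).choose (k + 1) : ℕ) : R p)
    set l := lift p (H (ZMod p) (j + k) - H (ZMod p) j)
    set l' := lift p (H (ZMod p) (j + k + 1) - H (ZMod p) j)
    set s : R p := (-1) ^ k
    linear_combination (-s * c) * h3 - s * c * l * hpp - s * (1 - P * l') * h2'

/-- Wilson's theorem for products of complementary factorials -/
theorem fact_refl (j : ℕ) (hj : j < p) :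
    (((p - 1 - j).factorial : ℕ) : ZMod p) * ((j.factorial : ℕ) : ZMod p) = (-1) ^ (j + 1) := by
  induction j with
  | zero =>
    rw [Nat.sub_zero, ZMod.wilsons_lemma]
    simp
  | succ j ih =>
    have ih := ih (by omega)
    rw [show p - 1 - j = (p - 1 - (j + 1)) + 1 by omega, Nat.factorial_succ] at ih
    rw [Nat.factorial_succ]
    have e : ((p - 1 - (j + 1) : ℕ) : ZMod p) + 1 = -((j : ZMod p) + 1) := by
      have : (p - 1 - (j + 1)) + 1 + (j + 1) = p := by omega
      have h := congrArg (Nat.cast : ℕ → ZMod p) this
      rw [ZMod.natCast_self] at h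
      push_cast at h
      linear_combination h
    push_cast at ih ⊢
    rw [e] at ih
    rw [pow_succ]
    linear_combination (-1) * ih

theorem fact_ne (j : ℕ) (hj : j < p) : ((j.factorial : ℕ) : ZMod p) ≠ 0 := by
  rw [Ne, ZMod.natCast_eq_zero_iff, Nat.Prime.dvd_factorial hp.out]
  omega

end Pool.Agent.Q267.MW
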