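import Pool.Agent.Q267.MW.Trace

set_option autoImplicit false

/-!
# The curve `y² = x³ - 35 x - 98` and its endomorphism of degree two
-/

namespace Pool.Agent.Q267.MW

open Polynomial

-- REL hal al [T,al] al^2 - (al - 2)

section alg

variable {K : Type*} [Field K]

theorem pow2_ne {K : Type*} [Field K] (h2 : (2 : K) ≠ 0) : (4 : K) ≠ 0 ∧ (8 : K) ≠ 0 ∧ (16 : K) ≠ 0 := by
  refine ⟨?_, ?_, ?_⟩
  · have : (4 : K) = 2 ^ 2 := by norm_num
    rw [this]; exact pow_ne_zero _ h2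
  · have : (8 : K) = 2 ^ 3 := by norm_num
    rw [this]; exact pow_ne_zero _ h2
  · have : (16 : K) = 2 ^ 4 := by norm_num
    rw [this]; exact pow_ne_zero _ h2

/-- first coordinate of the endomorphism -/
def x7 (al T : K) : K := -(1 + al) * (T * (T - (al - 4)) + 7 * (1 - 3 * al)) / (4 * (T - (al - 4)))

/-- second coordinate of the endomorphism -/
def y7 (al T : K) : K := (al - 3) * ((T - (al - 4)) ^ 2 - 7 * (1 - 3 * al)) /
  (8 * (T - (al - 4)) ^ 2)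

theorem d7_eqn (T al : K) (hal : al ^ 2 = al - 2) (h2 : (2 : K) ≠ 0) (hT : T - (al - 4) ≠ 0) :
    (T ^ 3 - 35 * T - 98) * (y7 al T) ^ 2 = (x7 al T) ^ 3 - 35 * x7 al T - 98 := by
  obtain ⟨h4, h8, -⟩ := pow2_ne h2
  unfold x7 y7
  rw [div_pow, div_pow, mul_div_assoc', mul_div_assoc', div_sub_div _ _ (pow_ne_zero 3 (mul_ne_zero h4 hT)) (mul_ne_zero h4 hT),
    div_sub' (mul_ne_zero (pow_ne_zero 3 (mul_ne_zero h4 hT)) (mul_ne_zero h4 hT)), div_eq_div_iff (pow_ne_zero 2 (mul_ne_zero h8 (pow_ne_zero 2 hT))) (mul_ne_zero (pow_ne_zero 3 (mul_ne_zero h4 hT)) (mul_ne_zero h4 hT))]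
  linear_combination (256 * T ^ 3 * al ^ 9 - 2048 * T ^ 4 * al ^ 8 + 7168 * T ^ 5 * al ^ 7 - 14336 * T ^ 6 * al ^ 6 + 17920 * T ^ 7 * al ^ 5 - 14336 * T ^ 8 * al ^ 4 + 7168 * T ^ 9 * al ^ 3 - 2048 * T ^ 10 * al ^ 2 + 256 * T ^ 11 * al + 16128 * T ^ 2 * al ^ 9 - 119808 * T ^ 3 * al ^ 8 + 385792 * T ^ 4 * al ^ 7 - 700672 * T ^ 5 * al ^ 6 + 779520 * T ^ 6 * al ^ 5 - 535808 * T ^ 7 * al ^ 4 + 213248 * T ^ 8 * al ^ 3 - 37632 * T ^ 9 * al ^ 2 - 2048 * T ^ 10 * al + 1280 * T ^ 11 + 338688 * T * al ^ 9 - 2424576 * T ^ 2 * al ^ 8 + 7460352 * T ^ 3 * al ^ 7 - 12771584 * T ^ 4 * al ^ 6 + 13063680 * T ^ 5 * al ^ 5 - 7811328 * T ^ 6 * al ^ 4 + 2254336 * T ^ 7 * al ^ 3 + 69888 * T ^ 8 * al ^ 2 - 220416 * T ^ 9 * al + 40960 * T ^ 10 - 18862592 * T * al ^ 8 + 61470976 * T ^ 2 * al ^ 7 - 106430464 * T ^ 3 * al ^ 6 + 103986176 * T ^ 4 * al ^ 5 - 53186560 * T ^ 5 * al ^ 4 + 7166208 * T ^ 6 * al ^ 3 + 6128640 * T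 ^ 7 * al ^ 2 - 3091200 * T ^ 8 * al + 448000 * T ^ 9 + 2370816 * al ^ 9 + 209133568 * T * al ^ 7 - 425641216 * T ^ 2 * al ^ 6 + 403798528 * T ^ 3 * al ^ 5 - 130364416 * T ^ 4 * al ^ 4 - 66762752 * T ^ 5 * al ^ 3 + 66513664 * T ^ 6 * al ^ 2 - 17730048 * T ^ 7 * al + 1381632 * T ^ 8 - 40328960 * al ^ 8 - 742201600 * T * al ^ 6 + 579930624 * T ^ 2 * al ^ 5 + 435117312 * T ^ 3 * al ^ 4 - 900691456 * T ^ 4 * al ^ 3 + 456685824 * T ^ 5 * al ^ 2 - 57956864 * T ^ 6 * al - 7990528 * T ^ 7 + 237106688 * al ^ 7 - 528446464 * T * al ^ 5 + 3767683584 * T ^ 2 * al ^ 4 - 4978003968 * T ^ 3 * al ^ 3 + 2559979520 * T ^ 4 * al ^ 2 - 419449856 * T ^ 5 * al - 31112704 * T ^ 6 - 370650112 * al ^ 6 + 9422504448 * T * al ^ 4 - 15225380352 * T ^ 2 * al ^ 3 + 11017967616 * T ^ 3 * al ^ 2 - 4089075968 * T ^ 4 * al + 587406848 * T ^ 5 - 1684521216 * al ^ 5 - 24858731520 * T * al ^ 3 + 30935084544 * T ^ 2 * al ^ 2 - 21851161600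 * T ^ 3 * al + 6047515904 * T ^ 4 + 8319644928 * al ^ 4 + 48342626304 * T * al ^ 2 - 62575464448 * T ^ 2 * al + 26323095552 * T ^ 3 - 16723259392 * al ^ 3 - 92871245824 * T * al + 62343995392 * T ^ 2 + 31524577280 * al ^ 2 + 78936997888 * T - 56537513984 * al + 42096459776) * hal

theorem d7_q (T al : K) (hal : al ^ 2 = al - 2) :
    T ^ 2 + 7 * T + 14 = (T - (al - 4)) * (T - (1 - al - 4)) := by
  linear_combination (1) * hal

theorem d7_lam (T al : K) (hal : al ^ 2 = al - 2) (h2 : (2 : K) ≠ 0) (hT : T - (al - 4) ≠ 0)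
    (hT' : T - (1 - al - 4) ≠ 0) (hx : T - x7 al T ≠ 0) :
    (1 - -(y7 al T)) / (T - x7 al T) = (T + 7) / (2 * (T ^ 2 + 7 * T + 14)) := by
  obtain ⟨h4, h8, -⟩ := pow2_ne h2
  have hq : T ^ 2 + 7 * T + 14 ≠ 0 := by rw [d7_q T al hal]; exact mul_ne_zero hT hT'
  rw [div_eq_div_iff hx (mul_ne_zero h2 hq)]
  unfold x7 y7
  rw [sub_neg_eq_add, add_div' _ _ _ (mul_ne_zero h8 (pow_ne_zero 2 hT)),
    sub_div' (mul_ne_zero h4 hT), div_mul_eq_mul_div, mul_div_assoc',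
    div_eq_div_iff (mul_ne_zero h8 (pow_ne_zero 2 hT)) (mul_ne_zero h4 hT)]
  linear_combination (168 * T * al ^ 2 - 504 * T ^ 2 * al + 336 * T ^ 3 - 4256 * T * al + 3864 * T ^ 2 + 1064 * al ^ 2 + 14952 * T - 9128 * al + 19488) * hal

theorem d7_diff (T al : K) (hal : al ^ 2 = al - 2) (h2 : (2 : K) ≠ 0) (hT : T - (al - 4) ≠ 0)
    (hT' : T - (1 - al - 4) ≠ 0) :
    (T ^ 3 - 35 * T - 98) * ((T + 7) / (2 * (T ^ 2 + 7 * T + 14))) ^ 2 - T - x7 al T =
      x7 (1 - al) T := by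
  obtain ⟨h4, h8, -⟩ := pow2_ne h2
  have hq : T ^ 2 + 7 * T + 14 ≠ 0 := by rw [d7_q T al hal]; exact mul_ne_zero hT hT'
  have e1 : (T ^ 3 - 35 * T - 98) * ((T + 7) / (2 * (T ^ 2 + 7 * T + 14))) ^ 2 =
      (T - 7) * (T + 7) ^ 2 / (4 * (T ^ 2 + 7 * T + 14)) := by
    rw [div_pow, mul_div_assoc', div_eq_div_iff (pow_ne_zero 2 (mul_ne_zero h2 hq))
      (mul_ne_zero h4 hq)]
    ring
  rw [e1]
  unfold x7
  rw [sub_sub, add_div' _ _ _ (mul_ne_zero h4 hT), div_sub_div _ _ (mul_ne_zero h4 hq) (mul_ne_zero h4 hT),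
    div_eq_div_iff (mul_ne_zero (mul_ne_zero h4 hq) (mul_ne_zero h4 hT)) (mul_ne_zero h4 hT')]
  linear_combination (-672 * T ^ 3 - 8176 * T ^ 2 - 32704 * T - 43120) * hal

theorem d7_der (T al : K) (hal : al ^ 2 = al - 2) (h2 : (2 : K) ≠ 0) (hT : T - (al - 4) ≠ 0) :
    (-(1 + al) * (2 * T - (al - 4)) * (4 * (T - (al - 4))) -
      -(1 + al) * (T * (T - (al - 4)) + 7 * (1 - 3 * al)) * 4) / (4 * (T - (al - 4))) ^ 2 =
      al * y7 al T := by
  obtain ⟨h4, h8, -⟩ := pow2_ne h2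
  unfold y7
  rw [mul_div_assoc', div_eq_div_iff (pow_ne_zero 2 (mul_ne_zero h4 hT))
    (mul_ne_zero h8 (pow_ne_zero 2 hT))]
  linear_combination (64 * T * al ^ 3 - 96 * T ^ 2 * al ^ 2 + 64 * T ^ 3 * al - 16 * T ^ 4 - 16 * al ^ 4 - 96 * T * al ^ 2 + 432 * T ^ 2 * al - 256 * T ^ 3 - 80 * al ^ 3 + 160 * T * al - 1424 * T ^ 2 + 1264 * al ^ 2 - 3200 * T - 2176 * al - 2304) * hal

end alg

noncomputable section

open WeierstrassCurve WeierstrassCurve.Affine WithZero Finset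

variable {F : Type*} [Field F]

theorem vi_pos {n d : F[X]} (hd : d ≠ 0) (h : d.natDegree < n.natDegree) :
    1 < vi F (io n / io d) := by
  have hn : n ≠ 0 := by
    rintro rfl
    rw [natDegree_zero] at h
    exact absurd h (Nat.not_lt_zero _)
  rw [map_div₀, vi_io hd, vi_io hn, ← exp_sub, ← exp_zero, exp_lt_exp]
  omega

theorem cop_lin {c k v e : F} {n : F[X]} (hc : c ≠ 0) (hk : k ≠ 0) (hv : v ≠ 0) :
    IsCoprime (C c * (n * (X - C e) + C v)) (C k * (X - C e)) := by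
  have hc' : IsUnit (C c) := isUnit_C.mpr (isUnit_iff_ne_zero.mpr hc)
  have hk' : IsUnit (C k) := isUnit_C.mpr (isUnit_iff_ne_zero.mpr hk)
  rw [isCoprime_mul_unit_left_left hc', isCoprime_mul_unit_left_right hk']
  refine ⟨C v⁻¹, - (C v⁻¹ * n), ?_⟩
  have : C v⁻¹ * C v = (1 : F[X]) := by rw [← C_mul, inv_mul_cancel₀ hv, C_1]
  linear_combination this

/-- numerator and denominator -/
def n7 (al : F) : F[X] := C (-(1 + al)) * (X * (X - C (al - 4)) + C (7 * (1 - 3 * al)))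

def d7 (al : F) : F[X] := C 4 * (X - C (al - 4))

theorem nd7 (al : F) : io (n7 al) / io (d7 al) = x7 (io (C al)) (io X) := by
  unfold n7 d7 x7
  simp only [map_mul, map_add, map_sub, map_neg, map_one, map_ofNat, C_mul, C_add, C_sub, C_neg]

theorem al_one {al : F} (hal : al ^ 2 = al - 2) (h2 : (2 : F) ≠ 0) : 1 + al ≠ 0 := by
  intro h
  have : (4 : F) = 0 := by linear_combination (2 - al) * h + hal
  exact (pow2_ne h2).1 this

theorem al_v {al : F} (hal : al ^ 2 = al - 2) (h2 : (2 : F) ≠ 0) (h7 : (7 : F) ≠ 0) :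
    7 * (1 - 3 * al) ≠ 0 := by
  refine mul_ne_zero h7 ?_
  intro h
  have : (16 : F) = 0 := by linear_combination (3 * al - 2) * h + 9 * hal
  exact (pow2_ne h2).2.2 this

theorem n7_deg {al : F} (h : 1 + al ≠ 0) : (n7 al).natDegree = 2 := by
  unfold n7
  rw [natDegree_C_mul (neg_ne_zero.mpr h)]
  have : (X * (X - C (al - 4)) + C (7 * (1 - 3 * al)) : F[X]) =
      X ^ 2 + (C (-(al - 4)) * X + C (7 * (1 - 3 * al))) := by
    rw [C_neg]; ring
  rw [this, natDegree_add_eq_left_of_natDegree_lt, natDegree_X_pow]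
  rw [natDegree_X_pow]
  exact lt_of_le_of_lt natDegree_linear_le (by norm_num)

theorem d7_deg {al : F} (h4 : (4 : F) ≠ 0) : (d7 al).natDegree = 1 := by
  unfold d7
  rw [natDegree_C_mul h4, natDegree_X_sub_C]

theorem d7_ne {al : F} (h4 : (4 : F) ≠ 0) : d7 al ≠ 0 := by
  intro h
  have := d7_deg (al := al) h4
  rw [h, natDegree_zero] at this
  exact absurd this (by norm_num)

theorem fk7 : io (fp (-35 : F) (-98)) = (io X) ^ 3 - 35 * io X - 98 := by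
  unfold fp
  simp only [map_mul, map_add, map_neg, map_ofNat, map_pow]
  ring

theorem hΔ7 (h2 : (2 : F) ≠ 0) (h7 : (7 : F) ≠ 0) : 4 * (-35 : F) ^ 3 + 27 * (-98) ^ 2 ≠ 0 := by
  have : 4 * (-35 : F) ^ 3 + 27 * (-98) ^ 2 = 2 ^ 8 * 7 ^ 3 := by norm_num
  rw [this]
  exact mul_ne_zero (pow_ne_zero _ h2) (pow_ne_zero _ h7)

theorem halk {al : F} (hal : al ^ 2 = al - 2) : (io (C al)) ^ 2 = io (C al) - 2 := by
  rw [← map_pow, ← C_pow, hal, C_sub, map_sub, map_ofNat, map_ofNat]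

theorem Te {e : F} : io (X : F[X]) - io (C e) ≠ 0 := by
  rw [← map_sub]
  exact io_ne (X_sub_C_ne_zero e)

theorem Te7 {al : F} : io (X : F[X]) - (io (C al) - 4) ≠ 0 := by
  have := Te (e := al - 4)
  rwa [C_sub, map_sub, map_ofNat, map_ofNat] at this

theorem Te7' {al : F} : io (X : F[X]) - (1 - io (C al) - 4) ≠ 0 := by
  have := Te (e := 1 - al - 4)
  rwa [C_sub, C_sub, map_sub, map_sub, map_ofNat, map_ofNat, C_1, map_one] at this

theorem Tx7 {al : F} (hal : al ^ 2 = al - 2) (h2 : (2 : F) ≠ 0) :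
    io (X : F[X]) - x7 (io (C al)) (io X) ≠ 0 := by
  obtain ⟨h4, -, -⟩ := pow2_ne h2
  intro h
  rw [← nd7, sub_eq_zero, eq_div_iff (io_ne (d7_ne h4)), ← map_mul] at h
  have h' := io_inj h
  have c2 : (X * d7 al).coeff 2 = (n7 al).coeff 2 := by rw [h']
  have e1 : (X * d7 al).coeff 2 = 4 := by
    unfold d7
    have : (X * (C 4 * (X - C (al - 4))) : F[X]) = C 4 * X ^ 2 + C (-4 * (al - 4)) * X := by
      simp only [C_mul, C_neg, C_sub]; ring
    rw [this]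
    simp only [coeff_add, coeff_C_mul, coeff_X_pow, coeff_X]
    norm_num
  have e2 : (n7 al).coeff 2 = -(1 + al) := by
    unfold n7
    have : (C (-(1 + al)) * (X * (X - C (al - 4)) + C (7 * (1 - 3 * al))) : F[X]) =
        C (-(1 + al)) * X ^ 2 + C ((1 + al) * (al - 4)) * X + C (-(1 + al) * (7 * (1 - 3 * al))) := by
      simp only [C_mul, C_neg, C_sub, C_add]; ring
    rw [this]
    simp only [coeff_add, coeff_C_mul, coeff_X_pow, coeff_X, coeff_C]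
    norm_num
  rw [e1, e2] at c2
  have h5 : al = -5 := by linear_combination c2
  rw [h5] at hal
  have h32 : (32 : F) = 0 := by linear_combination hal
  have : (32 : F) = 2 ^ 5 := by norm_num
  rw [this] at h32
  exact pow_ne_zero 5 h2 h32

theorem eqA7 {al : F} (hal : al ^ 2 = al - 2) (h2 : (2 : F) ≠ 0) :
    io (fp (-35 : F) (-98)) * (y7 (io (C al)) (io X)) ^ 2 =
      (x7 (io (C al)) (io X)) ^ 3 + io (C (-35)) * x7 (io (C al)) (io X) + io (C (-98)) := by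
  have := d7_eqn (io X) (io (C al)) (halk hal) (two_ne_K h2) Te7
  rw [fk7, this, C_neg, C_neg, map_neg, map_neg, map_ofNat, map_ofNat, map_ofNat, map_ofNat]
  ring

theorem goodA7 {al : F} (hal : al ^ 2 = al - 2) (h2 : (2 : F) ≠ 0) (h7 : (7 : F) ≠ 0) :
    Good al (pt h2 (hΔ7 h2 h7) (eqA7 hal h2)) := by
  obtain ⟨h4, -, -⟩ := pow2_ne h2
  apply good_pt
  · rw [← nd7]
    exact vi_pos (d7_ne h4) (by rw [n7_deg (al_one hal h2), d7_deg h4]; norm_num)
  · rw [← d7_der (io X) (io (C al)) (halk hal) (two_ne_K h2) Te7, ← nd7, rd_div _ _ (d7_ne h4)]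
    unfold n7 d7
    simp only [derivative_mul, derivative_C, derivative_add, derivative_sub, derivative_X, map_mul,
      map_add, map_sub, map_neg, map_one, map_ofNat, C_mul, C_add, C_sub, C_neg, map_zero]
    congr 1
    simp only [derivative_neg, derivative_one, derivative_C, derivative_ofNat, map_neg, map_zero,
      map_add, derivative_add]
    ring

open Classical in
theorem hgtA7 {al : F} (hal : al ^ 2 = al - 2) (h2 : (2 : F) ≠ 0) (h7 : (7 : F) ≠ 0) :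
    hgt (pt h2 (hΔ7 h2 h7) (eqA7 hal h2)) = 2 := by
  obtain ⟨h4, -, -⟩ := pow2_ne h2
  unfold pt
  rw [hgt_of _ (d7_ne h4) (cop_lin (neg_ne_zero.mpr (al_one hal h2)) h4 (al_v hal h2 h7))
    (n := n7 al) (by rw [pt_X, nd7])]
  unfold mh
  rw [n7_deg (al_one hal h2), d7_deg h4]
  rfl

open Classical in
theorem hgtS7 {al : F} (hal : al ^ 2 = al - 2) (h2 : (2 : F) ≠ 0) (h7 : (7 : F) ≠ 0) :
    hgt (pt h2 (hΔ7 h2 h7) (P0_eq (-35) (-98)) + pt h2 (hΔ7 h2 h7) (eqA7 hal h2)) = 4 := by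
  obtain ⟨h4, -, -⟩ := pow2_ne h2
  have hpar := par h2 (hΔ7 h2 h7) (pt h2 (hΔ7 h2 h7) (P0_eq (-35) (-98)))
    (pt h2 (hΔ7 h2 h7) (eqA7 hal h2))
  rw [hgt_P0, hgtA7 hal h2 h7, sub_eq_add_neg, pt_neg] at hpar
  have hal' : (1 - al) ^ 2 = (1 - al) - 2 := by linear_combination hal
  have hTx := Tx7 hal h2
  have hval : io (fp (-35 : F) (-98)) * ((1 - -(y7 (io (C al)) (io X))) /
      (io X - x7 (io (C al)) (io X))) ^ 2 - io X - x7 (io (C al)) (io X) =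
      io (n7 (1 - al)) / io (d7 (1 - al)) := by
    rw [nd7, fk7, d7_lam (io X) (io (C al)) (halk hal) (two_ne_K h2) Te7 Te7' hTx,
      d7_diff (io X) (io (C al)) (halk hal) (two_ne_K h2) Te7 Te7', C_sub, map_sub, C_1, map_one]
  have hd := hgt_add (n := n7 (1 - al)) (d := d7 (1 - al)) h2 (hΔ7 h2 h7) (P0_eq (-35) (-98))
    (neg_eqn (eqA7 hal h2))
    (fun h => hTx (sub_eq_zero.mpr h)) (d7_ne (al := 1 - al) h4)
    (cop_lin (neg_ne_zero.mpr (al_one hal' h2)) h4 (al_v hal' h2 h7)) hval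
  unfold mh at hd
  rw [n7_deg (al_one hal' h2), d7_deg h4] at hd
  rw [hd] at hpar
  norm_num at hpar
  exact Nat.add_right_cancel (m := 2) (k := 4) hpar

/-- **The trace of the curve of discriminant `-7`**, up to sign. -/
theorem trace7 (p : ℕ) [hp : Fact p.Prime] (hp2 : p ≠ 2) (hp7 : p ≠ 7) (r s : ℤ)
    (hrs : (p : ℤ) = r ^ 2 + r * s + 2 * s ^ 2) :
    (∑ x : ZMod p, quadraticChar (ZMod p) (x ^ 3 - 35 * x - 98) = 2 * r + s) ∨
    (∑ x : ZMod p, quadraticChar (ZMod p) (x ^ 3 - 35 * x - 98) = -(2 * r + s)) := by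
  have hprime : ∀ q : ℕ, q.Prime → p ≠ q → ((q : ℕ) : ZMod p) ≠ 0 := by
    intro q hq hne h0
    rw [ZMod.natCast_eq_zero_iff] at h0
    exact hne ((Nat.prime_dvd_prime_iff_eq hp.out hq).mp h0)
  have h2 : (2 : ZMod p) ≠ 0 := by exact_mod_cast hprime 2 Nat.prime_two hp2
  have h7 : (7 : ZMod p) ≠ 0 := by exact_mod_cast hprime 7 (by norm_num) hp7
  have hp3 : p ≠ 3 := by
    rintro rfl
    have h1 : (r ^ 2 + r * s + 2 * s ^ 2) * 4 = 12 := by rw [← hrs]; norm_num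
    have h2' : (2 * r + s) ^ 2 + 7 * s ^ 2 = 12 := by linear_combination h1
    have hs : s ^ 2 ≤ 1 := by nlinarith [sq_nonneg (2 * r + s)]
    have hs' : s ≤ 1 ∧ -1 ≤ s := by constructor <;> nlinarith
    have hr : (2 * r + s) ^ 2 ≤ 12 := by nlinarith [sq_nonneg s]
    have hr' : 2 * r + s ≤ 3 ∧ -3 ≤ 2 * r + s := by constructor <;> nlinarith
    obtain ⟨a1, a2⟩ := hs'
    obtain ⟨a3, a4⟩ := hr'
    have b1 : r ≤ 2 := by omega
    have b2 : -2 ≤ r := by omega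
    interval_cases s <;> interval_cases r <;> omega
  have hp5 : p ≠ 5 := by
    rintro rfl
    have h1 : (r ^ 2 + r * s + 2 * s ^ 2) * 4 = 20 := by rw [← hrs]; norm_num
    have h2' : (2 * r + s) ^ 2 + 7 * s ^ 2 = 20 := by linear_combination h1
    have hs : s ^ 2 ≤ 2 := by nlinarith [sq_nonneg (2 * r + s)]
    have hs' : s ≤ 1 ∧ -1 ≤ s := by constructor <;> nlinarith
    have hr : (2 * r + s) ^ 2 ≤ 20 := by nlinarith [sq_nonneg s]
    have hr' : 2 * r + s ≤ 4 ∧ -4 ≤ 2 * r + s := by constructor <;> nlinarith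
    obtain ⟨a1, a2⟩ := hs'
    obtain ⟨a3, a4⟩ := hr'
    have b1 : r ≤ 2 := by omega
    have b2 : -2 ≤ r := by omega
    interval_cases s <;> interval_cases r <;> omega
  have h3 : (3 : ZMod p) ≠ 0 := by exact_mod_cast hprime 3 (by norm_num) hp3
  have h5 : (5 : ZMod p) ≠ 0 := by exact_mod_cast hprime 5 (by norm_num) hp5
  have ha : (-35 : ZMod p) ≠ 0 := by
    have : (-35 : ZMod p) = -(5 * 7) := by norm_num
    rw [this]
    exact neg_ne_zero.mpr (mul_ne_zero h5 h7)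
  have hb : (-98 : ZMod p) ≠ 0 := by
    have : (-98 : ZMod p) = -(2 * 7 ^ 2) := by norm_num
    rw [this]
    exact neg_ne_zero.mpr (mul_ne_zero h2 (pow_ne_zero 2 h7))
  have hs0 : (s : ZMod p) ≠ 0 := by
    intro h
    have hps : (p : ℤ) ∣ s := (ZMod.intCast_zmod_eq_zero_iff_dvd s p).mp h
    have hpp : Prime (p : ℤ) := Nat.prime_iff_prime_int.mp hp.out
    have hr2 : (p : ℤ) ∣ r ^ 2 := by
      have : r ^ 2 = p - s * (r + 2 * s) := by rw [hrs]; ring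
      rw [this]
      exact dvd_sub (dvd_refl _) (hps.mul_right _)
    have hr : (p : ℤ) ∣ r := hpp.dvd_of_dvd_pow hr2
    have hpsq : (p : ℤ) ^ 2 ∣ p := by
      conv_rhs => rw [hrs]
      obtain ⟨u, hu⟩ := hr
      obtain ⟨v, hv⟩ := hps
      exact ⟨u ^ 2 + u * v + 2 * v ^ 2, by rw [hu, hv]; ring⟩
    have h1 : (p : ℤ) ∣ 1 := by
      rw [pow_two] at hpsq
      have hp0 : (p : ℤ) ≠ 0 := by exact_mod_cast hp.out.ne_zero
      exact (mul_dvd_mul_iff_left hp0).mp (by rwa [mul_one])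
    exact hpp.not_isUnit (isUnit_of_dvd_one h1)
  set al : ZMod p := -(r : ZMod p) / s with hal_def
  have hsal : (s : ZMod p) * al = -r := by rw [hal_def]; field_simp
  have h0 : (r : ZMod p) + s * al = 0 := by rw [hsal]; ring
  have hrs' : (r : ZMod p) ^ 2 + r * s + 2 * s ^ 2 = 0 := by
    have := congrArg (Int.cast (R := ZMod p)) hrs
    push_cast at this
    rw [ZMod.natCast_self] at this
    exact this.symm
  have hal : al ^ 2 = al - 2 := by
    have : (s : ZMod p) ^ 2 * (al ^ 2 - al + 2) = 0 := by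
      linear_combination (s * al - r - s) * hsal + hrs'
    have := (mul_eq_zero.mp this).resolve_left (pow_ne_zero 2 hs0)
    linear_combination this
  have key := trace_endo h2 h3 ha hb (hΔ7 h2 h7) al (pt h2 (hΔ7 h2 h7) (eqA7 hal h2))
    (goodA7 hal h2 h7) 2 1 (by rw [hgtA7 hal h2 h7]; rfl) (by rw [hgtS7 hal h2 h7]; rfl) r s
    (by rw [hrs]; ring) h0
  have hev : ∀ x : ZMod p, (fp (-35 : ZMod p) (-98)).eval x = x ^ 3 - 35 * x - 98 := by
    intro x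
    unfold fp
    simp only [eval_add, eval_mul, eval_pow, eval_X, eval_C]
    ring
  simp only [hev, mul_one] at key
  exact key

end

end Pool.Agent.Q267.MW
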