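import Pool.Agent.Q267.MW.KeyLeg
import Pool.Agent.Q267.MW.D7

set_option autoImplicit false

/-!
# The Legendre curve of discriminant `-7` and the cubes of central binomial coefficients
-/

namespace Pool.Agent.Q267.MW

-- REL hw w [w,x] w^2 - w + 2

open Finset Polynomial

open Pool.Agent.Q267.CDE
open Pool.Agent.Q267.Seven (dl dl_R dl_diff dl_mod dl_sq legendre_sq_ring split_key)
open Pool.Agent.Q267

/-- the quadratic character in `ℤ/p²` -/
theorem qc_om (p m : ℕ) [hp : Fact p.Prime] (hpm : p = 2 * m + 1) (hm : 0 < m) (y : ZMod p) :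
    ((quadraticChar (ZMod p) y : ℤ) : R p) = om p y ^ m := by
  have hodd : Odd p := ⟨m, hpm⟩
  by_cases hy : y = 0
  · rw [hy, quadraticChar_zero, om_zero, zero_pow hm.ne', Int.cast_zero]
  · have h2 : ringChar (ZMod p) ≠ 2 := by
      rw [ZMod.ringChar_zmod_n]
      omega
    have h1 := quadraticChar_eq_pow_of_char_ne_two' h2 y
    rw [ZMod.card, show p / 2 = m by omega] at h1
    rw [← om_pow, ← h1]
    rcases quadraticChar_dichotomy hy with h | h
    · rw [h, Int.cast_one, Int.cast_one, om_one]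
    · rw [h]
      push_cast
      rw [om_neg p hodd, om_one]

/-- the Legendre curve at a root of `w² - w + 2` -/
theorem leg7_sum (p m : ℕ) [hp : Fact p.Prime] (hpm : p = 2 * m + 1) (hm : 0 < m)
    (w : ZMod p) (hw : w ^ 2 - w + 2 = 0) (h7 : p ≠ 7) :
    ∑ x : ZMod p, quadraticChar (ZMod p) (x ^ 3 - 35 * x - 98) =
      quadraticChar (ZMod p) (2 * w - 1) *
        ∑ x : ZMod p, quadraticChar (ZMod p) (x * (1 - x) * (1 - w ^ 4 * x)) := by
  have h2 : (2 : ZMod p) ≠ 0 := by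
    have := CDE.cast_ne p 2 (by norm_num) (by omega)
    exact_mod_cast this
  have h7' : (7 : ZMod p) ≠ 0 := by
    intro h
    have : ((7 : ℕ) : ZMod p) = 0 := by exact_mod_cast h
    rw [ZMod.natCast_eq_zero_iff] at this
    exact h7 ((Nat.prime_dvd_prime_iff_eq hp.out (by norm_num)).mp this)
  have hw0 : w ≠ 0 := by
    intro h
    apply h2
    rw [h] at hw
    linear_combination hw
  have hd2 : (2 * w - 1) ^ 2 = -7 := by linear_combination 4 * hw
  have hd0 : (2 * w - 1) ≠ 0 := by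
    intro h
    apply h7'
    rw [h] at hd2
    linear_combination hd2
  have hc : (2 * w - 1) * w ^ 4 ≠ 0 := mul_ne_zero hd0 (pow_ne_zero 4 hw0)
  rw [mul_sum]
  refine (Fintype.sum_equiv ((Equiv.mulLeft₀ _ hc).trans
    (Equiv.subRight ((2 * w - 1) * (1 - w)))) _ _ fun x => ?_).symm
  rw [Equiv.trans_apply, Equiv.mulLeft₀_apply, Equiv.subRight_apply]
  have e1 : ((2 * w - 1) * w ^ 4 * x - (2 * w - 1) * (1 - w)) ^ 3 -
      35 * ((2 * w - 1) * w ^ 4 * x - (2 * w - 1) * (1 - w)) - 98 =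
      ((2 * w - 1) * w ^ 4) ^ 2 * ((2 * w - 1) * (x * (1 - x) * (1 - w ^ 4 * x))) := by
    linear_combination (8 * w ^ 13 * x ^ 2 - 4 * w ^ 12 * x ^ 2 - 14 * w ^ 11 * x ^ 2 + 17 * w ^ 10 * x ^ 2 - 7 * w ^ 9 * x ^ 2 + w ^ 8 * x ^ 2 - 8 * w ^ 9 * x + 4 * w ^ 8 * x + 38 * w ^ 7 * x - 53 * w ^ 6 * x - 15 * w ^ 5 * x + 16 * w ^ 4 * x + 8 * w ^ 4 - 28 * w ^ 3 + 22 * w ^ 2 + 15 * w - 66) * hw
  rw [e1, map_mul (quadraticChar (ZMod p)) (((2 * w - 1) * w ^ 4) ^ 2),
    map_mul (quadraticChar (ZMod p)) (2 * w - 1) (x * (1 - x) * (1 - w ^ 4 * x)), map_pow,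
    quadraticChar_sq_one hc, one_mul]

/-- the trace of the Legendre curve in `ℤ/p²` as an integer -/
theorem leg_cast (p m : ℕ) [hp : Fact p.Prime] (hpm : p = 2 * m + 1) (hm : 0 < m) (l : ZMod p) :
    ∑ x : ZMod p, om p x ^ m * om p (1 - x) ^ m * om p (1 - l * x) ^ m =
      ((∑ x : ZMod p, quadraticChar (ZMod p) (x * (1 - x) * (1 - l * x)) : ℤ) : R p) := by
  rw [Int.cast_sum]
  refine sum_congr rfl fun x _ => ?_
  rw [qc_om p m hpm hm, om_mul, om_mul, mul_pow, mul_pow]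

/-- **The Legendre polynomial at the point of discriminant `-7`.** -/
theorem leg7_key (p m : ℕ) [hp : Fact p.Prime] (hpm : p = 2 * m + 1) (hm : 0 < m)
    (h7 : p ≠ 7) (a : ℤ) (ha : (a : R p) ^ 2 - (a : R p) + 2 = 0) :
    (∑ k ∈ range (m + 1), (dl m k : R p) * ((a : R p) ^ 4) ^ k) ^ 2 =
      ((∑ x : ZMod p, quadraticChar (ZMod p) (x ^ 3 - 35 * x - 98) : ℤ) : R p) ^ 2 - 2 * p := by
  have h3 : 3 ≤ p := by omega
  have h2 : (2 : ZMod p) ≠ 0 := by
    have := CDE.cast_ne p 2 (by norm_num) (by omega)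
    exact_mod_cast this
  set w : ZMod p := (a : ZMod p) with hw'
  have hred : red p (a : R p) = w := by rw [hw', map_intCast]
  have hw : w ^ 2 - w + 2 = 0 := by
    have := congrArg (red p) ha
    rw [map_add, map_sub, map_pow, hred, map_zero, map_ofNat] at this
    exact this
  have hw0 : w ≠ 0 := by
    intro h
    apply h2
    rw [h] at hw
    linear_combination hw
  have hua : IsUnit (a : R p) := isUnit_of_red p (by rw [hred]; exact hw0)
  have w4 : w ^ 4 = 2 - 3 * w := by linear_combination (w ^ 2 + w - 1) * hw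
  have hL0 : red p ((a : R p) ^ 4) ≠ 0 := by
    rw [map_pow, hred]
    exact pow_ne_zero _ hw0
  have hL1 : red p ((a : R p) ^ 4) ≠ 1 := by
    rw [map_pow, hred, w4]
    intro h
    have : (2 : ZMod p) ^ 4 = 0 := by linear_combination 9 * hw + (3 * w - 2) * h
    exact pow_ne_zero 4 h2 this
  have hu : red p ((a : R p) ^ (2 * (p - 1))) = 1 := by
    rw [map_pow, hred, mul_comm, pow_mul, ZMod.pow_card_sub_one_eq_one hw0, one_pow]
  have hLu : ((a : R p) ^ 4) ^ (p - 1) = ((a : R p) ^ (2 * (p - 1))) ^ 2 := by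
    rw [← pow_mul, ← pow_mul]
    congr 1
    ring
  have hcan : ∑ k ∈ range (m + 1), (dl m k : R p) * ((a : R p) ^ 4) ^ (m - k) =
      (a : R p) ^ (2 * (p - 1)) * ∑ k ∈ range (m + 1), (dl m k : R p) * ((a : R p) ^ 4) ^ k := by
    have h := split_key p m hpm h3 h7 a ha
    apply (hua.pow 2).mul_left_cancel
    rw [h, ← mul_assoc, ← pow_add, show 2 + 2 * (p - 1) = 2 * p by omega]
  obtain ⟨k1, k2⟩ := leg_key p hpm hm ((a : R p) ^ 4) ((a : R p) ^ (2 * (p - 1)))
    (-((∑ x : ZMod p, quadraticChar (ZMod p) (x * (1 - x) * (1 - w ^ 4 * x)) : ℤ) : R p))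
    hL0 hL1 hu hLu hcan (by
      rw [neg_neg, leg_cast p m hpm hm, map_pow, hred])
  rw [sq_of_key p _ _ k1 k2]
  have h5 : (∑ x : ZMod p, quadraticChar (ZMod p) (x ^ 3 - 35 * x - 98)) ^ 2 =
      (∑ x : ZMod p, quadraticChar (ZMod p) (x * (1 - x) * (1 - w ^ 4 * x))) ^ 2 := by
    rw [leg7_sum p m hpm hm w hw h7, mul_pow, quadraticChar_sq_one, one_mul]
    intro h
    have h8 : (7 : ZMod p) = 0 := by linear_combination (-(2 * w - 1)) * h + 4 * hw
    have : ((7 : ℕ) : ZMod p) = 0 := by exact_mod_cast h8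
    rw [ZMod.natCast_eq_zero_iff] at this
    exact h7 ((Nat.prime_dvd_prime_iff_eq hp.out (by norm_num)).mp this)
  have h5' := congrArg (Int.cast : ℤ → R p) h5
  rw [Int.cast_pow, Int.cast_pow] at h5'
  rw [h5']
  have hm1 : ((-1 : R p)) ^ m * (-1) ^ m = 1 := by rw [← mul_pow]; norm_num
  linear_combination
    ((∑ x : ZMod p, quadraticChar (ZMod p) (x * (1 - x) * (1 - w ^ 4 * x)) : ℤ) : R p) ^ 2 * hm1

/-- **Sums of cubes of central binomial coefficients modulo `p²`**, `p = x² + 7 y²`. -/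
theorem cubes7 (p m : ℕ) [hp : Fact p.Prime] (hpm : p = 2 * m + 1) (h7 : p ≠ 7) (x y : ℤ)
    (hxy : (p : ℤ) = x ^ 2 + 7 * y ^ 2) :
    (p : ℤ) ^ 2 ∣ (∑ k ∈ range (m + 1), (k.centralBinom : ℤ) ^ 3) - (4 * x ^ 2 - 2 * p) := by
  have hm : 0 < m := by
    have := hp.out.two_le
    omega
  have h3 : 3 ≤ p := by omega
  -- a root of `w² - w + 2`
  have hpp : Prime (p : ℤ) := Nat.prime_iff_prime_int.mp hp.out
  have h2 : (2 : ZMod p) ≠ 0 := by
    have := CDE.cast_ne p 2 (by norm_num) (by omega)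
    exact_mod_cast this
  have hy0 : (y : ZMod p) ≠ 0 := by
    intro h
    have hpy : (p : ℤ) ∣ y := (ZMod.intCast_zmod_eq_zero_iff_dvd y p).mp h
    have hx2 : (p : ℤ) ∣ x ^ 2 := by
      have : x ^ 2 = p - y * (7 * y) := by rw [hxy]; ring
      rw [this]
      exact dvd_sub (dvd_refl _) (hpy.mul_right _)
    have hx : (p : ℤ) ∣ x := hpp.dvd_of_dvd_pow hx2
    have hpsq : (p : ℤ) ^ 2 ∣ p := by
      conv_rhs => rw [hxy]
      obtain ⟨u, hu⟩ := hx
      obtain ⟨v, hv⟩ := hpy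
      exact ⟨u ^ 2 + 7 * v ^ 2, by rw [hu, hv]; ring⟩
    have h1 : (p : ℤ) ∣ 1 := by
      rw [pow_two] at hpsq
      have hp0 : (p : ℤ) ≠ 0 := by exact_mod_cast hp.out.ne_zero
      exact (mul_dvd_mul_iff_left hp0).mp (by rwa [mul_one])
    exact hpp.not_isUnit (isUnit_of_dvd_one h1)
  set w : ZMod p := (1 + (x : ZMod p) / y) / 2 with hw_def
  have hxy' : (x : ZMod p) ^ 2 + 7 * y ^ 2 = 0 := by
    have := congrArg (Int.cast (R := ZMod p)) hxy
    push_cast at this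
    rw [ZMod.natCast_self] at this
    exact this.symm
  have hw : w ^ 2 - w + 2 = 0 := by
    rw [hw_def]
    field_simp
    linear_combination hxy'
  obtain ⟨a, -, ha⟩ := Pool.Agent.Q267.Landen.hensel p h7 w hw
  have ha' : (a : R p) ^ 2 - (a : R p) + 2 = 0 := by
    have : (((a ^ 2 - a + 2 : ℤ)) : R p) = 0 := by
      rw [ZMod.intCast_zmod_eq_zero_iff_dvd]
      push_cast
      exact ha
    push_cast at this
    exact this
  have key := leg7_key p m hpm hm h7 a ha'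
  have htr : (∑ x : ZMod p, quadraticChar (ZMod p) (x ^ 3 - 35 * x - 98)) ^ 2 = 4 * x ^ 2 := by
    rcases trace7 p (by omega) h7 (x - y) (2 * y) (by rw [hxy]; ring) with h | h
    · rw [h]; ring
    · rw [h]; ring
  have htr' := congrArg (Int.cast : ℤ → R p) htr
  rw [Int.cast_pow] at htr'
  rw [htr', legendre_sq_ring] at key
  have h16 : (a : R p) ^ 4 * (1 - (a : R p) ^ 4) = 16 := by
    linear_combination (-(a : R p) ^ 6 - (a : R p) ^ 5 + (a : R p) ^ 4 + 3 * (a : R p) ^ 3 + 2 * (a : R p) ^ 2 - 4 * (a : R p) - 8) * ha'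
  rw [h16] at key
  have hsum : ∑ k ∈ range (m + 1), (dl m k : R p) * (k.centralBinom : R p) * 16 ^ k =
      ((∑ k ∈ range (m + 1), (k.centralBinom : ℤ) ^ 3 : ℤ) : R p) := by
    rw [Int.cast_sum]
    refine sum_congr rfl fun k hk => ?_
    have hk' := mem_range.mp hk
    have h := dl_sq p m hp.out hpm k (by omega)
    have h' : (((16 ^ k * dl m k - (k.centralBinom : ℤ) ^ 2 : ℤ)) : R p) = 0 := by
      rw [ZMod.intCast_zmod_eq_zero_iff_dvd]
      push_cast
      exact h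
    push_cast at h' ⊢
    linear_combination (k.centralBinom : R p) * h'
  rw [hsum] at key
  have hfin : (((∑ k ∈ range (m + 1), (k.centralBinom : ℤ) ^ 3) - (4 * x ^ 2 - 2 * p) : ℤ) : R p) = 0 := by
    rw [Int.cast_sub, key]
    push_cast
    ring
  rw [ZMod.intCast_zmod_eq_zero_iff_dvd] at hfin
  push_cast at hfin
  exact hfin

end Pool.Agent.Q267.MW
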