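import Pool.Agent.Q267.MW.C3Tor
import Pool.Agent.Q267.MW.Leg7

set_option autoImplicit false

/-!
# Points on the torus and the quadratic character
-/

namespace Pool.Agent.Q267.MW

open Finset Pool.Agent.Q267.CDE

variable (p : ℕ) [hp : Fact p.Prime]

theorem sqrt_sum (hp2 : p ≠ 2) (d : ZMod p) :
    (∑ z : ZMod p, if z ^ 2 = d then (1 : ℤ) else 0) = quadraticChar (ZMod p) d + 1 := by
  have h2 : ringChar (ZMod p) ≠ 2 := by
    rw [ZMod.ringChar_zmod_n]
    exact hp2
  rw [← quadraticChar_card_sqrts h2 d, ← sum_filter, sum_const, nsmul_eq_mul, mul_one]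
  congr 2
  ext z
  simp

theorem root_sum (hp2 : p ≠ 2) (b c : ZMod p) :
    (∑ y : ZMod p, if y * (y + b) = c then (1 : ℤ) else 0) =
      quadraticChar (ZMod p) (b ^ 2 + 4 * c) + 1 := by
  have h2 : (2 : ZMod p) ≠ 0 := by
    have hp2' := hp.out.two_le
    have := CDE.cast_ne p 2 (by norm_num) (by omega)
    exact_mod_cast this
  rw [← sqrt_sum p hp2]
  refine Fintype.sum_equiv ((Equiv.mulLeft₀ 2 h2).trans (Equiv.addRight b)) _ _ fun y => ?_
  rw [Equiv.trans_apply, Equiv.mulLeft₀_apply, Equiv.coe_addRight]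
  have : (y * (y + b) = c) ↔ ((2 * y + b) ^ 2 = b ^ 2 + 4 * c) := by
    constructor
    · intro h
      rw [← h]
      ring
    · intro h
      have h4 : (2 : ZMod p) ^ 2 * (y * (y + b) - c) = 0 := by linear_combination h
      have := (mul_eq_zero.mp h4).resolve_left (pow_ne_zero 2 h2)
      linear_combination this
  simp only [this]

theorem tor_char (hp2 : p ≠ 2) (s : ZMod p) (hs : s ≠ 0) :
    tor p s = (((p : ℤ) - 2 + ∑ x : ZMod p, quadraticChar (ZMod p) ((x + s) ^ 2 + 4 * x ^ 3) : ℤ) :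
      R p) := by
  have h1 : ∀ x : ZMod p, (∑ y : ZMod p, if x ≠ 0 ∧ y ≠ 0 ∧ y * (y + x + s) = x ^ 3 then (1 : R p)
      else 0) = (((quadraticChar (ZMod p) ((x + s) ^ 2 + 4 * x ^ 3) + 1 -
        if x = 0 then 2 else 0 : ℤ)) : R p) := by
    intro x
    by_cases hx : x = 0
    · subst hx
      rw [sum_eq_zero fun y _ => if_neg (fun h => h.1 rfl), if_pos rfl]
      have : ((0 : ZMod p) + s) ^ 2 + 4 * 0 ^ 3 = s ^ 2 := by ring
      rw [this, quadraticChar_sq_one' hs]
      norm_num
    · rw [if_neg hx, sub_zero, ← root_sum p hp2, Int.cast_sum]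
      refine sum_congr rfl fun y _ => ?_
      have : (x ≠ 0 ∧ y ≠ 0 ∧ y * (y + x + s) = x ^ 3) ↔ (y * (y + (x + s)) = x ^ 3) := by
        constructor
        · rintro ⟨-, -, h⟩
          rw [← h]
          ring
        · intro h
          refine ⟨hx, ?_, by rw [← h]; ring⟩
          rintro rfl
          rw [zero_mul] at h
          exact pow_ne_zero 3 hx h.symm
      simp only [this]
      split_ifs <;> simp
  unfold tor
  rw [sum_congr rfl fun x _ => h1 x, ← Int.cast_sum, sum_sub_distrib, sum_add_distrib,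
    sum_ite_eq' univ, if_pos (mem_univ _), sum_const, card_univ, ZMod.card, nsmul_eq_mul, mul_one]
  congr 1
  ring

end Pool.Agent.Q267.MW
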