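import Pool.Agent.Q267.MW.C3Char

set_option autoImplicit false

/-!
# The multiplicative moments of the cubic family modulo `p²`
-/

namespace Pool.Agent.Q267.MW

open Finset Pool.Agent.Q267.CDE

variable (p : ℕ) [hp : Fact p.Prime]

/-- `(3k)!/k!³` -/
def u3 (k : ℕ) : ℕ := (2 * k).choose k * (3 * k).choose k

theorem u3_fact (k : ℕ) : u3 k * k.factorial ^ 3 = (3 * k).factorial := by
  unfold u3
  have h1 := Nat.choose_mul_factorial_mul_factorial (show k ≤ 2 * k by omega)
  have h2 := Nat.choose_mul_factorial_mul_factorial (show k ≤ 3 * k by omega)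
  rw [show 2 * k - k = k by omega] at h1
  rw [show 3 * k - k = 2 * k by omega] at h2
  rw [← h2, ← h1]
  ring

/-- the logarithmic coefficients -/
noncomputable def g3 (k : ℕ) : ZMod p :=
  if 3 * k < p then 3 * ((u3 k : ℕ) : ZMod p) * (H (ZMod p) (3 * k) - H (ZMod p) k)
  else 3 * ((u3 k / p : ℕ) : ZMod p)

theorem dvd_u3 (k : ℕ) (h1 : p ≤ 3 * k) (h2 : k < p) : p ∣ u3 k := by
  have h3 : p ∣ u3 k * k.factorial ^ 3 := by
    rw [u3_fact]
    exact (Nat.Prime.dvd_factorial hp.out).mpr h1
  refine (Nat.Coprime.dvd_mul_right ?_).mp h3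
  apply Nat.Coprime.pow_right
  rw [Nat.Prime.coprime_iff_not_dvd hp.out, Nat.Prime.dvd_factorial hp.out]
  omega

theorem unit_fact (k : ℕ) (h2 : k < p) : IsUnit ((k.factorial : ℕ) : R p) := by
  apply isUnit_of_red
  rw [red_nat]
  exact fact_ne p k h2

theorem red_p : red p (p : R p) = 0 := by rw [red_nat, ZMod.natCast_self]

/-- factorials `(p + A)!` modulo `p²` -/
theorem fact_padd (A : ℕ) : (((p + A).factorial : ℕ) : R p) =
    p * (-((A.factorial : ℕ) : R p)) := by
  induction A with
  | zero =>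
    have h1 : p.factorial = p * (p - 1).factorial := (Nat.mul_factorial_pred hp.out.ne_zero).symm
    rw [Nat.add_zero, h1, Nat.cast_mul]
    apply p_mul_eq
    rw [red_nat, map_neg, red_nat, ZMod.wilsons_lemma]
    simp
  | succ A ih =>
    rw [← Nat.add_assoc, Nat.factorial_succ, Nat.cast_mul, ih, Nat.factorial_succ, Nat.cast_mul]
    have hpp := p_sq p
    push_cast
    linear_combination (-((A.factorial : ℕ) : R p)) * hpp

/-- `(3k+1) u_k` in the middle range -/
theorem u3_mid (k A : ℕ) (hA : 3 * k + 1 = p + A) (hk : k < p) :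
    (3 * (k : R p) + 1) * ((u3 k : ℕ) : R p) =
      p * lift p (-((A.factorial : ℕ) : ZMod p) * ((((k.factorial : ℕ) : ZMod p)) ^ 3)⁻¹) := by
  have h1 : (3 * k + 1) * u3 k * k.factorial ^ 3 = (p + A).factorial := by
    rw [← hA, Nat.factorial_succ, ← u3_fact]
    ring
  have h2 := congrArg (Nat.cast : ℕ → R p) h1
  rw [fact_padd] at h2
  push_cast at h2
  apply ((unit_fact p k hk).pow 3).mul_right_cancel
  rw [h2, mul_assoc]
  apply p_mul_eq
  have h3 := fact_ne p k hk
  rw [map_mul, map_pow, red_lift, map_neg, red_nat, red_nat]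
  field_simp

theorem u3_big (k : ℕ) (h1 : 2 * p ≤ 3 * k) (h2 : k < p) : ((u3 k : ℕ) : R p) = 0 := by
  have h3 : p ^ 2 ∣ u3 k * k.factorial ^ 3 := by
    rw [u3_fact, pow_two]
    have h4 : p * p ∣ (2 * p).factorial := by
      have h5 : (2 * p).factorial = (2 * p) * (2 * p - 1).factorial :=
        (Nat.mul_factorial_pred (by have := hp.out.pos; omega)).symm
      rw [h5, mul_assoc, mul_left_comm]
      refine mul_dvd_mul (dvd_refl _) ?_
      apply Dvd.dvd.mul_left
      rw [Nat.Prime.dvd_factorial hp.out]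
      have := hp.out.pos
      omega
    exact h4.trans (Nat.factorial_dvd_factorial h1)
  have h4 : p ^ 2 ∣ u3 k := by
    refine (Nat.Coprime.dvd_mul_right ?_).mp h3
    apply Nat.Coprime.pow_left
    apply Nat.Coprime.pow_right
    rw [Nat.Prime.coprime_iff_not_dvd hp.out, Nat.Prime.dvd_factorial hp.out]
    omega
  exact (ZMod.natCast_eq_zero_iff _ _).mpr h4

/-! ### The sum `K3` -/

theorem K3_eq (k : ℕ) (h0 : 0 < k) (hk : k < p - 1) :
    K3 p (p - 1 - k) = ∑ t : ZMod p, om p t ^ (3 * k) * om p (1 + t) ^ (2 * (p - 1 - k)) := by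
  unfold K3
  refine sum_congr rfl fun t _ => ?_
  by_cases ht : t = 0
  · subst ht
    rw [inv_zero, om_zero, zero_pow (show 3 * (p - 1 - k) ≠ 0 by omega),
      zero_pow (show 3 * k ≠ 0 by omega)]
  · congr 1
    have h1 : om p t ^ (3 * k) * om p t ^ (3 * (p - 1 - k)) = 1 := by
      rw [← pow_add, show 3 * k + 3 * (p - 1 - k) = (p - 1) * 3 by omega, pow_mul, om_pow_card p ht,
        one_pow]
    have h2 : om p t ^ (3 * (p - 1 - k)) * om p t⁻¹ ^ (3 * (p - 1 - k)) = 1 := by
      rw [← mul_pow, om_inv p t ht, one_pow]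
    linear_combination (-om p t⁻¹ ^ (3 * (p - 1 - k))) * h1 + om p t ^ (3 * k) * h2

theorem sum_plus (hodd : Odd p) (A B : ℕ) :
    ∑ t : ZMod p, om p t ^ A * om p (1 + t) ^ B =
      (-1) ^ A * ∑ t : ZMod p, om p t ^ A * om p (1 - t) ^ B := by
  rw [mul_sum]
  refine Fintype.sum_equiv (Equiv.neg (ZMod p)) _ _ fun t => ?_
  rw [Equiv.neg_apply, om_neg p hodd, neg_pow (om p t), sub_neg_eq_add]
  have : ((-1 : R p)) ^ A * (-1) ^ A = 1 := by rw [← mul_pow]; norm_num
  linear_combination (-(om p t ^ A * om p (1 + t) ^ B)) * this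

theorem pow_red (t : ZMod p) (A : ℕ) (hA : 0 < A) : om p t ^ (A + (p - 1)) = om p t ^ A := by
  by_cases ht : t = 0
  · subst ht
    rw [om_zero, zero_pow (by omega), zero_pow (by omega)]
  · rw [pow_add, om_pow_card p ht, mul_one]

omit hp in
theorem neg_one_even (hodd : Odd p) : ((-1 : R p)) ^ (p - 1) = 1 := by
  obtain ⟨m, hm⟩ := hodd
  rw [show p - 1 = 2 * m by omega, pow_mul]
  norm_num

theorem neg_one_even' (hodd : Odd p) : ((-1 : ZMod p)) ^ (p - 1) = 1 := by
  obtain ⟨m, hm⟩ := hodd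
  rw [show p - 1 = 2 * m by omega, pow_mul]
  norm_num

/-- the first range -/
theorem K3_low (hodd : Odd p) (k : ℕ) (h0 : 0 < k) (hk : 3 * k < p) :
    K3 p (p - 1 - k) = -((-1) ^ k * (((3 * k).choose k : ℕ) : R p) *
      (1 + p * lift p (k * (3 * H (ZMod p) (3 * k) - 2 * H (ZMod p) (2 * k) - H (ZMod p) k)))) := by
  have hpp := p_sq p
  have hp1 := hp.out.one_le
  rw [K3_eq p k h0 (by omega), sum_plus p hodd]
  have hc : (((p - 1 - 2 * k).choose k : ℕ) : R p) = (-1) ^ k * (((3 * k).choose k : ℕ) : R p) *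
      (1 - p * lift p (H (ZMod p) (3 * k) - H (ZMod p) (2 * k))) := by
    have := choose_neg p (2 * k) k (by omega)
    rwa [show 2 * k + k = 3 * k by ring] at this
  have hs : ((-1 : R p)) ^ (3 * k) * (-1) ^ (p - 1 - 3 * k) = 1 := by
    rw [← pow_add, show 3 * k + (p - 1 - 3 * k) = p - 1 by omega, neg_one_even p hodd]
  rcases Nat.lt_or_ge (3 * k) (p - 1) with h | h
  · have e1 : 2 * (p - 1 - k) = (p - 1 - 2 * k) + (p - 1) := by omega
    have e2 : ∀ t : ZMod p, om p t ^ (3 * k) * om p (1 - t) ^ (2 * (p - 1 - k)) =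
        om p t ^ (p - 1 - (p - 1 - 3 * k)) * om p (1 - t) ^ (p - 1 - 2 * k) := by
      intro t
      rw [e1, pow_red p _ _ (by omega), show p - 1 - (p - 1 - 3 * k) = 3 * k by omega]
    rw [sum_congr rfl fun t _ => e2 t]
    have hh : red p (lift p (-(1 + 2 * (k : ZMod p)) * H (ZMod p) (2 * k) - k * H (ZMod p) k +
        (1 + 3 * k) * H (ZMod p) (3 * k))) =
        ((p - 1 - 2 * k : ℕ) : ZMod p) * H (ZMod p) (p - 1 - 2 * k) -
        (((p - 1 - 2 * k : ℕ) : ZMod p) - (p - 1 - 3 * k : ℕ)) *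
          H (ZMod p) ((p - 1 - 2 * k) - (p - 1 - 3 * k)) -
        ((p - 1 - 3 * k : ℕ) : ZMod p) * H (ZMod p) (p - 1 - 3 * k) := by
      rw [red_lift, show (p - 1 - 2 * k) - (p - 1 - 3 * k) = k by omega,
        H_refl p hodd (2 * k) (by omega), H_refl p hodd (3 * k) (by omega)]
      have c1 : ((p - 1 - 2 * k : ℕ) : ZMod p) = -(1 + 2 * (k : ZMod p)) := by
        have : (p - 1 - 2 * k) + (1 + 2 * k) = p := by omega
        have h := congrArg (Nat.cast : ℕ → ZMod p) this
        rw [ZMod.natCast_self] at h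
        push_cast at h
        linear_combination h
      have c2 : ((p - 1 - 3 * k : ℕ) : ZMod p) = -(1 + 3 * (k : ZMod p)) := by
        have : (p - 1 - 3 * k) + (1 + 3 * k) = p := by omega
        have h := congrArg (Nat.cast : ℕ → ZMod p) this
        rw [ZMod.natCast_self] at h
        push_cast at h
        linear_combination h
      rw [c1, c2]
      ring
    rw [jac p hodd (p - 1 - 3 * k) (p - 1 - 2 * k) (by omega) (by omega) (by omega) _ hh,
      show (p - 1 - 2 * k).choose (p - 1 - 3 * k) = (p - 1 - 2 * k).choose k by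
        rw [← Nat.choose_symm (show k ≤ p - 1 - 2 * k by omega)]
        congr 1
        omega, hc]
    set c : R p := (((3 * k).choose k : ℕ) : R p)
    set s : R p := (-1) ^ k
    set l1 := lift p (H (ZMod p) (3 * k) - H (ZMod p) (2 * k)) with hl1
    set l2 := lift p (-(1 + 2 * (k : ZMod p)) * H (ZMod p) (2 * k) - k * H (ZMod p) k +
        (1 + 3 * k) * H (ZMod p) (3 * k)) with hl2
    have e3 : (p : R p) * lift p (k * (3 * H (ZMod p) (3 * k) - 2 * H (ZMod p) (2 * k) -
        H (ZMod p) k)) = p * (l2 - l1) := by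
      apply p_mul_eq
      rw [map_sub, hl1, hl2, red_lift, red_lift, red_lift]
      ring
    rw [e3]
    linear_combination (-(s * c * (1 - p * l1) * (1 + p * l2))) * hs + s * c * l1 * l2 * hpp
  · have hk' : 3 * k = p - 1 := by omega
    have e1 : 2 * (p - 1 - k) = k + (p - 1) := by omega
    have e2 : ∀ t : ZMod p, om p t ^ (3 * k) * om p (1 - t) ^ (2 * (p - 1 - k)) =
        om p (1 - t) ^ k - if t = 0 then 1 else 0 := by
      intro t
      rw [e1, pow_red p _ _ h0, hk']
      split_ifs with ht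
      · rw [ht, om_zero, sub_zero, om_one, one_pow, zero_pow (by omega)]
        ring
      · rw [om_pow_card p ht]
        ring
    rw [sum_congr rfl fun t _ => e2 t, sum_sub_distrib, sum_ite_eq' univ, if_pos (mem_univ _)]
    have e3 : ∑ t : ZMod p, om p (1 - t) ^ k = 0 := by
      rw [← sum_om_lt p k h0 (by omega)]
      exact Fintype.sum_equiv (Equiv.subLeft 1) _ _ fun t => rfl
    rw [e3]
    have e4 : (((p - 1 - 2 * k).choose k : ℕ) : R p) = 1 := by
      rw [show p - 1 - 2 * k = k by omega, Nat.choose_self, Nat.cast_one]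
    have e5 : (p : R p) * lift p (k * (3 * H (ZMod p) (3 * k) - 2 * H (ZMod p) (2 * k) -
        H (ZMod p) k)) = p * (- lift p (H (ZMod p) (3 * k) - H (ZMod p) (2 * k))) := by
      apply p_mul_eq
      rw [map_neg, red_lift, red_lift]
      have c0 : 3 * (k : ZMod p) = -1 := by
        have : 3 * k + 1 = p := by omega
        have h := congrArg (Nat.cast : ℕ → ZMod p) this
        rw [ZMod.natCast_self] at h
        push_cast at h
        linear_combination h
      have c1 : H (ZMod p) (2 * k) = H (ZMod p) k := by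
        have := H_refl p hodd (2 * k) (by omega)
        rw [show p - 1 - 2 * k = k by omega] at this
        exact this.symm
      rw [c1]
      linear_combination (H (ZMod p) (3 * k) - H (ZMod p) k) * c0
    rw [e5, hk', neg_one_even p hodd]
    rw [hc] at e4
    rw [← hk']
    linear_combination e4

end Pool.Agent.Q267.MW
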