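import Pool.Agent.Q267.MW.C3Split

set_option autoImplicit false

/-!
# The sum attached to `4p = x² + 11 y²`, inert case
-/

namespace Pool.Agent.Q267.MW

open Finset Polynomial Pool.Agent.Q267.CDE

open Pool.Agent.Q267.Seven (dl dl_succ legendre_sq_ring)

variable (p : ℕ) [hp : Fact p.Prime]

section geom

variable {K : Type*} [Field K] (i : ZMod p →+* K)

theorem trunc_eval_K (d : ℕ → ZMod p) (N : ℕ) (hd : ∀ k, k < p → N ≤ 3 * k → d k = 0) (x s : K)
    (hs : s * (3 * (1 + 2 * x) ^ 3) = x * (1 + x + x ^ 2)) (h3 : (3 : ZMod p) ≠ 0) :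
    (1 + 2 * x) * ((∑ k ∈ range p, C (d k * (3 : ZMod p)⁻¹ ^ k) * (X * hq p) ^ k *
      bq p ^ (N - 1 - 3 * k)).map i).eval x =
      (1 + 2 * x) ^ N * ((∑ k ∈ range p, C (d k) * X ^ k).map i).eval s := by
  have ebq : ((bq p).map i).eval x = 1 + 2 * x := by unfold bq; simp; ring
  have ehq : ((hq p).map i).eval x = 1 + x + x ^ 2 := by unfold hq; simp; ring
  rw [Polynomial.map_sum, Polynomial.map_sum, eval_finsetSum, eval_finsetSum, mul_sum, mul_sum]
  refine sum_congr rfl fun k hk => ?_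
  have hk' := mem_range.mp hk
  rcases Nat.lt_or_ge (3 * k) N with h | h
  · rw [Polynomial.map_mul, Polynomial.map_mul, Polynomial.map_mul, Polynomial.map_pow,
      Polynomial.map_pow, Polynomial.map_pow, Polynomial.map_mul, map_C, map_C, map_X, eval_mul,
      eval_mul, eval_C, eval_pow, eval_pow, eval_mul, eval_X, eval_mul, eval_C,
      eval_pow, eval_X, ebq, ehq, ← hs, map_mul i (d k)]
    have e1 : i ((3 : ZMod p)⁻¹ ^ k) * 3 ^ k = 1 := by
      have : (3 : K) = i 3 := by rw [map_ofNat]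
      rw [this, ← map_pow, ← map_mul, ← mul_pow, inv_mul_cancel₀ h3, one_pow, map_one]
    have e2 : (1 + 2 * x) ^ N =
        (1 + 2 * x) ^ (N - 1 - 3 * k) * ((1 + 2 * x) ^ 3) ^ k * (1 + 2 * x) := by
      rw [← pow_mul, ← pow_add, ← pow_succ]
      congr 1
      omega
    rw [e2, mul_pow, mul_pow]
    linear_combination ((1 + 2 * x) * i (d k) * s ^ k * ((1 + 2 * x) ^ 3) ^ k *
      (1 + 2 * x) ^ (N - 1 - 3 * k)) * e1
  · rw [hd k hk' h]
    simp

/-- the transformation at a point of an extension field -/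
theorem trans_K (hp3 : p ≠ 3) (x s : K) (hs : s * (3 * (1 + 2 * x) ^ 3) = x * (1 + x + x ^ 2))
    (hs' : 27 * s = x ^ 3) :
    (1 + 2 * x) * ((F3p p).map i).eval s = (1 + 2 * x) ^ p * ((F3p p).map i).eval s := by
  have h3 := three_z p hp3
  have h := trunc_eval_K p i (uz p) p (fun k hk h => uz_zero p k h hk) x s hs h3
  have e := trans_F p hp3
  unfold Ph1 at e
  rw [e] at h
  have e2 : ((f3 p).map i).eval x = ((F3p p).map i).eval s := by
    unfold f3
    rw [Polynomial.map_comp, eval_comp]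
    congr 1
    rw [Polynomial.map_mul, Polynomial.map_pow, map_C, map_X, eval_mul, eval_pow, eval_X, eval_C,
      ← hs', map_pow]
    have : i (3 : ZMod p)⁻¹ * 3 = 1 := by
      have : (3 : K) = i 3 := by rw [map_ofNat]
      rw [this, ← map_mul, inv_mul_cancel₀ h3, map_one]
    linear_combination (9 * i (3 : ZMod p)⁻¹ ^ 2 + 3 * i (3 : ZMod p)⁻¹ + 1) * s * this
  rw [e2] at h
  exact h

/-- vanishing of the truncated polynomial at the inert point -/
theorem F_zero11 (hp2 : p ≠ 2) (hp3 : p ≠ 3) (hp11 : p ≠ 11) (x s : K)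
    (hx : 4 * x ^ 2 + 2 * x + 3 = 0) (hxp : x ^ p ≠ x) (hs' : 27 * s = x ^ 3) :
    ((F3p p).map i).eval s = 0 := by
  have h3 := three_z p hp3
  have h3K : (3 : K) ≠ 0 := by
    intro h
    apply h3
    apply i.injective
    rw [map_ofNat, map_zero, h]
  have h2K : (2 : K) ≠ 0 := by
    intro h
    have h2 : (2 : ZMod p) ≠ 0 := by
      have := CDE.cast_ne p 2 (by norm_num) (by have := hp.out.two_le; omega)
      exact_mod_cast this
    apply h2
    apply i.injective
    rw [map_ofNat, map_zero, h]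
  have h11K : (11 : K) ≠ 0 := by
    intro h
    have h11 : (11 : ZMod p) ≠ 0 := by
      intro h
      have : ((11 : ℕ) : ZMod p) = 0 := by exact_mod_cast h
      rw [ZMod.natCast_eq_zero_iff] at this
      exact hp11 ((Nat.prime_dvd_prime_iff_eq hp.out (by norm_num)).mp this)
    apply h11
    apply i.injective
    rw [map_ofNat, map_zero, h]
  have h9 : (9 : K) ≠ 0 := by
    have : (9 : K) = 3 ^ 2 := by norm_num
    rw [this]; exact pow_ne_zero 2 h3K
  have hs : s * (3 * (1 + 2 * x) ^ 3) = x * (1 + x + x ^ 2) := by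
    apply mul_left_cancel₀ h9
    linear_combination (1 + 2 * x) ^ 3 * hs' - x * (-2 * x ^ 3 - 2 * x ^ 2 + x + 3) * hx
  have h := trans_K p i hp3 x s hs hs'
  -- the Frobenius conjugate
  have : CharP K p := charP_of_injective_ringHom i.injective p
  have hfx : 4 * (x ^ p) ^ 2 + 2 * x ^ p + 3 = 0 := by
    have := congrArg (frobenius K p) hx
    simp only [map_add, map_mul, map_pow, map_zero, map_ofNat, frobenius_def] at this
    exact this
  have hconj : 2 * (x ^ p + x) + 1 = 0 := by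
    have h1 : (x ^ p - x) * (2 * (2 * (x ^ p + x) + 1)) = 0 := by linear_combination hfx - hx
    have h2 := (mul_eq_zero.mp h1).resolve_left (sub_ne_zero.mpr hxp)
    exact (mul_eq_zero.mp h2).resolve_left h2K
  have hB : (1 + 2 * x) ^ p = 1 + 2 * x ^ p := by
    have : (1 + 2 * x) ^ p = frobenius K p (1 + 2 * x) := rfl
    rw [this]
    simp only [map_add, map_mul, map_one, map_ofNat, frobenius_def]
  rw [hB] at h
  have h4 : (4 * x + 1) * ((F3p p).map i).eval s = 0 := by
    linear_combination h + ((F3p p).map i).eval s * hconj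
  refine (mul_eq_zero.mp h4).resolve_left ?_
  intro h5
  apply h11K
  linear_combination 4 * hx - (4 * x + 1) * h5

end geom

/-- the ring `(ℤ/p²)[ω]`, `ω² = ω - 3` -/
abbrev A11 : Type := QuadraticAlgebra (R p) (-3) 1

/-- the specialisation at a root -/
noncomputable def phi11 {K : Type*} [Field K] (i : ZMod p →+* K) (w : K) (hw : w ^ 2 - w + 3 = 0) :
    A11 p →+* K where
  toFun z := i (red p z.re) + i (red p z.im) * w
  map_one' := by
    rw [QuadraticAlgebra.re_one, QuadraticAlgebra.im_one]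
    simp
  map_zero' := by simp
  map_add' a b := by
    rw [QuadraticAlgebra.re_add, QuadraticAlgebra.im_add]
    simp only [map_add]
    ring
  map_mul' a b := by
    rw [QuadraticAlgebra.re_mul, QuadraticAlgebra.im_mul]
    simp only [map_add, map_mul, map_neg, map_ofNat, map_one]
    linear_combination (-(i (red p a.im) * i (red p b.im))) * hw

theorem phi11_apply {K : Type*} [Field K] (i : ZMod p →+* K) (w : K) (hw : w ^ 2 - w + 3 = 0)
    (z : A11 p) : phi11 p i w hw z = i (red p z.re) + i (red p z.im) * w := rfl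

theorem red_zero_dvd (x : R p) (h : red p x = 0) : ∃ y, x = p * y := by
  obtain ⟨y, hy⟩ := red_eq_of p x 0 (by rw [h, map_zero])
  exact ⟨y, by rw [hy, zero_add]⟩

theorem ker_phi11 {K : Type*} [Field K] (i : ZMod p →+* K) (w : K) (hw : w ^ 2 - w + 3 = 0)
    (hne : w ^ p ≠ w) (z : A11 p) (hz : phi11 p i w hw z = 0) : ∃ z' : A11 p, z = (p : A11 p) * z' := by
  rw [phi11_apply] at hz
  have him : red p z.im = 0 := by
    by_contra h
    apply hne
    have h' : i (red p z.im) ≠ 0 := fun h0 => h (i.injective (by rw [h0, map_zero]))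
    have h1 : w = i (-red p z.re * (red p z.im)⁻¹) := by
      rw [map_mul, map_neg, map_inv₀, eq_mul_inv_iff_mul_eq₀ h']
      linear_combination hz
    rw [h1, ← map_pow, ZMod.pow_card]
  have hre : red p z.re = 0 := by
    rw [him, map_zero, zero_mul, add_zero] at hz
    exact i.injective (by rw [hz, map_zero])
  obtain ⟨u, hu⟩ := red_zero_dvd p _ hre
  obtain ⟨v, hv⟩ := red_zero_dvd p _ him
  refine ⟨⟨u, v⟩, ?_⟩
  ext
  · simp [hu]
  · simp [hv]

/-- existence of a root outside the prime field. -/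
theorem exists_root11 (hp2 : p ≠ 2) (hno : ∀ w : ZMod p, w ^ 2 - w + 3 ≠ 0) :
    ∃ w : AlgebraicClosure (ZMod p), w ^ 2 - w + 3 = 0 ∧ w ^ p ≠ w := by
  let K := AlgebraicClosure (ZMod p)
  have h2 : (2 : K) ≠ 0 := by
    have : ((2 : ℕ) : K) ≠ 0 := by
      rw [Ne, CharP.cast_eq_zero_iff K p]
      intro h
      exact hp2 ((Nat.prime_dvd_prime_iff_eq hp.out (by norm_num)).1 h)
    exact_mod_cast this
  obtain ⟨r, hr⟩ := IsAlgClosed.exists_pow_nat_eq (-11 : K) (n := 2) (by norm_num)
  obtain ⟨w, hw'⟩ : ∃ w : K, 2 * w = 1 + r :=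
    ⟨2⁻¹ * (1 + r), by rw [← mul_assoc, mul_inv_cancel₀ h2, one_mul]⟩
  have hw : w ^ 2 - w + 3 = 0 := by
    have h4 : (2 : K) ^ 2 ≠ 0 := pow_ne_zero _ h2
    apply mul_left_cancel₀ h4
    linear_combination (2 * w + 1 + r - 2) * hw' + hr
  refine ⟨w, hw, ?_⟩
  intro he
  have hmem : w ∈ (⊥ : Subfield K) := (Subfield.mem_bot_iff_pow_eq_self K p).2 he
  rw [← ZMod.fieldRange_castHom_eq_bot p] at hmem
  obtain ⟨v, hv⟩ := hmem
  apply hno v
  apply (ZMod.castHom (dvd_refl p) K).injective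
  rw [map_add, map_sub, map_pow, map_ofNat, map_zero]
  rw [show (ZMod.castHom (dvd_refl p) K) v = w from hv]
  exact hw

theorem dl_red (hp3 : p ≠ 3) (k : ℕ) (hk : k < p) :
    uz p k = 27 ^ k * ((dl (p / 3) k : ℤ) : ZMod p) ∧
    uz p k = 27 ^ k * ((dl (2 * p / 3) k : ℤ) : ZMod p) := by
  have h3 := three_z p hp3
  obtain ⟨h1, h2⟩ := u3_leg p hp3 k hk
  have h3' := red_cancel p _ _ h2
  rw [map_intCast, map_intCast] at h3'
  have h4 := congrArg (red p) h1
  simp only [map_mul, map_add, map_pow, map_ofNat, map_intCast, red_nat] at h4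
  unfold uz
  constructor
  · apply mul_left_cancel₀ h3
    rw [h4, ← h3']
    ring
  · apply mul_left_cancel₀ h3
    rw [h4, ← h3']
    ring

theorem inert_aux (hp2 : p ≠ 2) (hp3 : p ≠ 3) (hp11 : p ≠ 11) (w4 : R p) (hw4 : 64 * w4 = 1)
    {K : Type*} [Field K] (i : ZMod p →+* K) (w : K) (hw : w ^ 2 - w + 3 = 0) (hne : w ^ p ≠ w) :
    ∑ k ∈ range p, (k.centralBinom : R p) * ((u3 k : ℕ) : R p) * w4 ^ k = 0 := by
  have hpp := p_sq p
  have hp2' := hp.out.two_le
  have h3 := three_z p hp3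
  have h2 : (2 : ZMod p) ≠ 0 := by
    have := CDE.cast_ne p 2 (by norm_num) (by omega)
    exact_mod_cast this
  have h2K : (2 : K) ≠ 0 := by
    intro h
    apply h2
    apply i.injective
    rw [map_ofNat, map_zero, h]
  have h3K : (3 : K) ≠ 0 := by
    intro h
    apply h3
    apply i.injective
    rw [map_ofNat, map_zero, h]
  -- the point
  obtain ⟨x, hx⟩ : ∃ x : K, w = 2 * x + 1 :=
    ⟨2⁻¹ * (w - 1), by rw [← mul_assoc, mul_inv_cancel₀ h2K]; ring⟩
  have hx0 : 4 * x ^ 2 + 2 * x + 3 = 0 := by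
    rw [hx] at hw
    linear_combination hw
  have hxp : x ^ p ≠ x := by
    intro h
    apply hne
    have : CharP K p := charP_of_injective_ringHom i.injective p
    have e : w ^ p = 2 * x ^ p + 1 := by
      rw [hx]
      have : (2 * x + 1) ^ p = frobenius K p (2 * x + 1) := rfl
      rw [this]
      simp only [map_add, map_mul, map_one, map_ofNat, frobenius_def]
    rw [e, h, hx]
  have h27 : (27 : K) ≠ 0 := by
    have : (27 : K) = 3 ^ 3 := by norm_num
    rw [this]; exact pow_ne_zero 3 h3K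
  obtain ⟨s, hs⟩ : ∃ s : K, 27 * s = x ^ 3 := ⟨27⁻¹ * x ^ 3, by
    rw [← mul_assoc, mul_inv_cancel₀ h27, one_mul]⟩
  have hF := F_zero11 p i hp2 hp3 hp11 x s hx0 hxp hs
  have hFs : ∑ k ∈ range p, i (uz p k) * s ^ k = 0 := by
    rw [← hF]
    unfold F3p
    rw [Polynomial.map_sum, eval_finsetSum]
    refine sum_congr rfl fun k _ => ?_
    simp
  -- the element of the quadratic algebra
  obtain ⟨e8, he8⟩ : ∃ e : R p, 8 * e = 1 := by
    refine ⟨8 * w4, ?_⟩
    linear_combination hw4
  set z : A11 p := algebraMap (R p) (A11 p) e8 * (5 - 2 * QuadraticAlgebra.omega) with hz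
  have e8' : (8 : A11 p) * algebraMap (R p) (A11 p) e8 = 1 := by
    have : (8 : A11 p) = algebraMap (R p) (A11 p) 8 := by rw [map_ofNat]
    rw [this, ← map_mul, he8, map_one]
  have e64' : (64 : A11 p) * algebraMap (R p) (A11 p) w4 = 1 := by
    have : (64 : A11 p) = algebraMap (R p) (A11 p) 64 := by rw [map_ofNat]
    rw [this, ← map_mul, hw4, map_one]
  have hom : (QuadraticAlgebra.omega : A11 p) ^ 2 = QuadraticAlgebra.omega - 3 := by
    ext <;> simp [pow_two, QuadraticAlgebra.re_ofNat, QuadraticAlgebra.im_ofNat]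
  have hzz : z * (1 - z) = algebraMap (R p) (A11 p) (27 * w4) := by
    have hu : IsUnit (64 : A11 p) := IsUnit.of_mul_eq_one _ e64'
    apply hu.mul_left_cancel
    rw [map_mul, map_ofNat, hz]
    linear_combination (-4 : A11 p) * hom + (8 * (5 - 2 * QuadraticAlgebra.omega) -
      (5 - 2 * QuadraticAlgebra.omega) ^ 2 * (8 * algebraMap (R p) (A11 p) e8 + 1)) * e8' -
      27 * e64'
  have hphz : phi11 p i w hw z = x ^ 3 := by
    have h8K : (8 : K) ≠ 0 := by
      have : (8 : K) = 2 ^ 3 := by norm_num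
      rw [this]; exact pow_ne_zero 3 h2K
    have hom' : phi11 p i w hw QuadraticAlgebra.omega = w := by
      rw [phi11_apply]
      simp
    have h1 := congrArg (phi11 p i w hw) e8'
    rw [map_mul, map_ofNat, map_one] at h1
    apply mul_left_cancel₀ h8K
    rw [hz, map_mul, map_sub, map_mul, map_ofNat, map_ofNat, hom']
    linear_combination (5 - 2 * w) * h1 - 2 * hx - (2 * x - 1) * hx0
  -- the two Legendre sums are divisible by p
  have hdiv : ∀ n : ℕ, (∀ k, k < p → uz p k = 27 ^ k * ((dl n k : ℤ) : ZMod p)) → n + 1 ≤ p →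
      ∑ k ∈ range p, (dl n k : R p) * (k.centralBinom : R p) * (27 * w4) ^ k = 0 := by
    intro n hn hnp
    have h1 : phi11 p i w hw (∑ k ∈ range p, (dl n k : A11 p) * z ^ k) = 0 := by
      rw [map_sum, ← hFs]
      refine sum_congr rfl fun k hk => ?_
      rw [map_mul, map_pow, hphz, ← hs, hn k (mem_range.mp hk), map_mul, map_pow, map_ofNat,
        map_intCast, map_intCast, mul_pow]
      ring
    obtain ⟨z', hz'⟩ := ker_phi11 p i w hw hne _ h1
    have hA := clausen_gen p n hnp z _ hzz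
    rw [hz'] at hA
    have hp0 : ((p : A11 p)) ^ 2 = 0 := by
      have : (p : A11 p) = algebraMap (R p) (A11 p) (p : R p) := by rw [map_natCast]
      rw [this, ← map_pow, hpp, map_zero]
    rw [mul_pow, hp0, zero_mul] at hA
    apply QuadraticAlgebra.algebraMap_injective (R := R p) (a := -3) (b := 1)
    rw [map_zero, map_sum, hA]
    refine sum_congr rfl fun k _ => ?_
    rw [map_mul, map_mul, map_pow, map_intCast, map_natCast]
  have hS := sum_three p hp3 w4
  rw [hdiv (p / 3) (fun k hk => (dl_red p hp3 k hk).1) (by omega),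
    hdiv (2 * p / 3) (fun k hk => (dl_red p hp3 k hk).2) (by omega)] at hS
  apply (unit3 p hp3).mul_left_cancel
  rw [hS]
  ring

/-- **the inert case** -/
theorem inert11 (hp2 : p ≠ 2) (hp3 : p ≠ 3) (hp11 : p ≠ 11) (w4 : R p) (hw4 : 64 * w4 = 1)
    (hno : ∀ w : ZMod p, w ^ 2 - w + 3 ≠ 0) :
    ∑ k ∈ range p, (k.centralBinom : R p) * ((u3 k : ℕ) : R p) * w4 ^ k = 0 := by
  obtain ⟨w, hw, hne⟩ := exists_root11 p hp2 hno
  exact inert_aux p hp2 hp3 hp11 w4 hw4 (algebraMap (ZMod p) _) w hw hne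

end Pool.Agent.Q267.MW
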