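import Pool.Agent.Q267.MW.C3Split8
import Pool.Agent.Q267.MW.C3Inert

set_option autoImplicit false

/-!
# The sum attached to `p = x² + 2 y²`, inert case
-/

namespace Pool.Agent.Q267.MW

open Finset Polynomial Pool.Agent.Q267.CDE

open Pool.Agent.Q267.Seven (dl dl_succ legendre_sq_ring)

variable (p : ℕ) [hp : Fact p.Prime]

section geom

variable {K : Type*} [Field K] (i : ZMod p →+* K)

/-- vanishing of the truncated polynomial at the inert point -/
theorem F_zero8 (hp2 : p ≠ 2) (hp3 : p ≠ 3) (x s : K)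
    (hx : 2 * x ^ 2 + 4 * x + 3 = 0) (hxp : x ^ p ≠ x) (hs' : 27 * s = x ^ 3) :
    ((F3p p).map i).eval s = 0 := by
  have h3 := three_z p hp3
  have h3K : (3 : K) ≠ 0 := by
    intro h
    apply h3
    apply i.injective
    rw [map_ofNat, map_zero, h]
  have h2K : (2 : K) ≠ 0 := by
    intro h
    apply two_z p hp2
    apply i.injective
    rw [map_ofNat, map_zero, h]
  have h9 : (9 : K) ≠ 0 := by
    have : (9 : K) = 3 ^ 2 := by norm_num
    rw [this]; exact pow_ne_zero 2 h3K
  have hs : s * (3 * (1 + 2 * x) ^ 3) = x * (1 + x + x ^ 2) := by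
    apply mul_left_cancel₀ h9
    linear_combination (1 + 2 * x) ^ 3 * hs' - x * (-4 * x ^ 3 + 2 * x ^ 2 - x + 3) * hx
  have h := trans_K p i hp3 x s hs hs'
  -- the Frobenius conjugate
  have : CharP K p := charP_of_injective_ringHom i.injective p
  have hfx : 2 * (x ^ p) ^ 2 + 4 * x ^ p + 3 = 0 := by
    have := congrArg (frobenius K p) hx
    simp only [map_add, map_mul, map_pow, map_zero, map_ofNat, frobenius_def] at this
    exact this
  have hconj : (x ^ p + x) + 2 = 0 := by
    have h1 : (x ^ p - x) * (2 * ((x ^ p + x) + 2)) = 0 := by linear_combination hfx - hx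
    have h2 := (mul_eq_zero.mp h1).resolve_left (sub_ne_zero.mpr hxp)
    exact (mul_eq_zero.mp h2).resolve_left h2K
  have hB : (1 + 2 * x) ^ p = 1 + 2 * x ^ p := by
    have : (1 + 2 * x) ^ p = frobenius K p (1 + 2 * x) := rfl
    rw [this]
    simp only [map_add, map_mul, map_one, map_ofNat, frobenius_def]
  rw [hB] at h
  have h4 : (4 * (x + 1)) * ((F3p p).map i).eval s = 0 := by
    linear_combination h + 2 * ((F3p p).map i).eval s * hconj
  refine (mul_eq_zero.mp h4).resolve_left ?_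
  intro h5
  have h6 : (2 : K) ^ 3 = 0 := by
    linear_combination 8 * hx - 4 * (x + 1) * h5
  exact pow_ne_zero 3 h2K h6

end geom

/-- the ring `(ℤ/p²)[ω]`, `ω² = -2` -/
abbrev A8 : Type := QuadraticAlgebra (R p) (-2) 0

/-- the specialisation at a root -/
noncomputable def phi8 {K : Type*} [Field K] (i : ZMod p →+* K) (w : K) (hw : w ^ 2 + 2 = 0) :
    A8 p →+* K where
  toFun z := i (red p z.re) + i (red p z.im) * w
  map_one' := by
    rw [QuadraticAlgebra.re_one, QuadraticAlgebra.im_one]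
    simp
  map_zero' := by simp
  map_add' a b := by
    rw [QuadraticAlgebra.re_add, QuadraticAlgebra.im_add]
    simp only [map_add]
    ring
  map_mul' a b := by
    rw [QuadraticAlgebra.re_mul, QuadraticAlgebra.im_mul]
    simp only [map_add, map_mul, map_neg, map_ofNat, map_zero]
    linear_combination (-(i (red p a.im) * i (red p b.im))) * hw

theorem phi8_apply {K : Type*} [Field K] (i : ZMod p →+* K) (w : K) (hw : w ^ 2 + 2 = 0)
    (z : A8 p) : phi8 p i w hw z = i (red p z.re) + i (red p z.im) * w := rfl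

theorem ker_phi8 {K : Type*} [Field K] (i : ZMod p →+* K) (w : K) (hw : w ^ 2 + 2 = 0)
    (hne : w ^ p ≠ w) (z : A8 p) (hz : phi8 p i w hw z = 0) : ∃ z' : A8 p, z = (p : A8 p) * z' := by
  rw [phi8_apply] at hz
  have him : red p z.im = 0 := by
    by_contra h
    apply hne
    have h' : i (red p z.im) ≠ 0 := fun h0 => h (i.injective (by rw [h0, map_zero]))
    have h1 : w = i (-red p z.re * (red p z.im)⁻¹) := by
      rw [map_mul, map_neg, map_inv₀, eq_mul_inv_iff_mul_eq₀ h']
      linear_combination hz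
    rw [h1, ← map_pow, ZMod.pow_card]
  have hre : red p z.re = 0 := by
    rw [him, map_zero, zero_mul, add_zero] at hz
    exact i.injective (by rw [hz, map_zero])
  obtain ⟨u, hu⟩ := red_zero_dvd p _ hre
  obtain ⟨v, hv⟩ := red_zero_dvd p _ him
  refine ⟨⟨u, v⟩, ?_⟩
  ext
  · simp [hu]
  · simp [hv]

/-- existence of a root outside the prime field. -/
theorem exists_root8 (hno : ∀ w : ZMod p, w ^ 2 + 2 ≠ 0) :
    ∃ w : AlgebraicClosure (ZMod p), w ^ 2 + 2 = 0 ∧ w ^ p ≠ w := by
  let K := AlgebraicClosure (ZMod p)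
  obtain ⟨w, hw'⟩ := IsAlgClosed.exists_pow_nat_eq (-2 : K) (n := 2) (by norm_num)
  have hw : w ^ 2 + 2 = 0 := by rw [hw']; ring
  refine ⟨w, hw, ?_⟩
  intro he
  have hmem : w ∈ (⊥ : Subfield K) := (Subfield.mem_bot_iff_pow_eq_self K p).2 he
  rw [← ZMod.fieldRange_castHom_eq_bot p] at hmem
  obtain ⟨v, hv⟩ := hmem
  apply hno v
  apply (ZMod.castHom (dvd_refl p) K).injective
  rw [map_add, map_pow, map_ofNat, map_zero]
  rw [show (ZMod.castHom (dvd_refl p) K) v = w from hv]
  exact hw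

theorem inert_aux8 (hp2 : p ≠ 2) (hp3 : p ≠ 3) (w4 : R p) (hw4 : 8 * w4 = 1)
    {K : Type*} [Field K] (i : ZMod p →+* K) (w : K) (hw : w ^ 2 + 2 = 0) (hne : w ^ p ≠ w) :
    ∑ k ∈ range p, (k.centralBinom : R p) * ((u3 k : ℕ) : R p) * w4 ^ k = 0 := by
  have hpp := p_sq p
  have hp2' := hp.out.two_le
  have h3 := three_z p hp3
  have h2K : (2 : K) ≠ 0 := by
    intro h
    apply two_z p hp2
    apply i.injective
    rw [map_ofNat, map_zero, h]
  have h3K : (3 : K) ≠ 0 := by
    intro h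
    apply h3
    apply i.injective
    rw [map_ofNat, map_zero, h]
  -- the point
  obtain ⟨x, hx⟩ : ∃ x : K, w = 2 * (x + 1) :=
    ⟨2⁻¹ * w - 1, by rw [sub_add_cancel, ← mul_assoc, mul_inv_cancel₀ h2K, one_mul]⟩
  have hx0 : 2 * x ^ 2 + 4 * x + 3 = 0 := by
    rw [hx] at hw
    apply mul_left_cancel₀ h2K
    linear_combination hw
  have hxp : x ^ p ≠ x := by
    intro h
    apply hne
    have : CharP K p := charP_of_injective_ringHom i.injective p
    have e : w ^ p = 2 * (x ^ p + 1) := by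
      rw [hx]
      have : (2 * (x + 1)) ^ p = frobenius K p (2 * (x + 1)) := rfl
      rw [this]
      simp only [map_add, map_mul, map_one, map_ofNat, frobenius_def]
    rw [e, h, hx]
  have h27 : (27 : K) ≠ 0 := by
    have : (27 : K) = 3 ^ 3 := by norm_num
    rw [this]; exact pow_ne_zero 3 h3K
  obtain ⟨s, hs⟩ : ∃ s : K, 27 * s = x ^ 3 := ⟨27⁻¹ * x ^ 3, by
    rw [← mul_assoc, mul_inv_cancel₀ h27, one_mul]⟩
  have hF := F_zero8 p i hp2 hp3 x s hx0 hxp hs
  have hFs : ∑ k ∈ range p, i (uz p k) * s ^ k = 0 := by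
    rw [← hF]
    unfold F3p
    rw [Polynomial.map_sum, eval_finsetSum]
    refine sum_congr rfl fun k _ => ?_
    simp
  -- the element of the quadratic algebra
  obtain ⟨e8, he8⟩ : ∃ e : R p, 4 * e = 1 := by
    refine ⟨2 * w4, ?_⟩
    linear_combination hw4
  set z : A8 p := algebraMap (R p) (A8 p) e8 * (5 * QuadraticAlgebra.omega + 2) with hz
  have e8' : (4 : A8 p) * algebraMap (R p) (A8 p) e8 = 1 := by
    have : (4 : A8 p) = algebraMap (R p) (A8 p) 4 := by rw [map_ofNat]
    rw [this, ← map_mul, he8, map_one]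
  have e64' : (8 : A8 p) * algebraMap (R p) (A8 p) w4 = 1 := by
    have : (8 : A8 p) = algebraMap (R p) (A8 p) 8 := by rw [map_ofNat]
    rw [this, ← map_mul, hw4, map_one]
  have hom : (QuadraticAlgebra.omega : A8 p) ^ 2 = -2 := by
    ext <;> simp [pow_two, QuadraticAlgebra.re_ofNat, QuadraticAlgebra.im_ofNat]
  have hzz : z * (1 - z) = algebraMap (R p) (A8 p) (27 * w4) := by
    have hu : IsUnit (8 : A8 p) := IsUnit.of_mul_eq_one _ e64'
    apply (hu.mul (IsUnit.of_mul_eq_one _ e8')).mul_left_cancel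
    rw [map_mul, map_ofNat, hz]
    linear_combination (-50 : A8 p) * hom - 4 * 27 * e64' +
      (8 * (5 * QuadraticAlgebra.omega + 2) - 2 * (5 * QuadraticAlgebra.omega + 2) ^ 2 *
        (4 * algebraMap (R p) (A8 p) e8 + 1)) * e8'
  have hphz : phi8 p i w hw z = x ^ 3 := by
    have h4K : (4 : K) ≠ 0 := by
      have : (4 : K) = 2 ^ 2 := by norm_num
      rw [this]; exact pow_ne_zero 2 h2K
    have hom' : phi8 p i w hw QuadraticAlgebra.omega = w := by
      rw [phi8_apply]
      simp
    have h1 := congrArg (phi8 p i w hw) e8'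
    rw [map_mul, map_ofNat, map_one] at h1
    apply mul_left_cancel₀ h4K
    rw [hz, map_mul, map_add, map_mul, map_ofNat, map_ofNat, hom']
    linear_combination (5 * w + 2) * h1 + 5 * hx - 2 * (x - 2) * hx0
  -- the two Legendre sums are divisible by p
  have hdiv : ∀ n : ℕ, (∀ k, k < p → uz p k = 27 ^ k * ((dl n k : ℤ) : ZMod p)) → n + 1 ≤ p →
      ∑ k ∈ range p, (dl n k : R p) * (k.centralBinom : R p) * (27 * w4) ^ k = 0 := by
    intro n hn hnp
    have h1 : phi8 p i w hw (∑ k ∈ range p, (dl n k : A8 p) * z ^ k) = 0 := by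
      rw [map_sum, ← hFs]
      refine sum_congr rfl fun k hk => ?_
      rw [map_mul, map_pow, hphz, ← hs, hn k (mem_range.mp hk), map_mul, map_pow, map_ofNat,
        map_intCast, map_intCast, mul_pow]
      ring
    obtain ⟨z', hz'⟩ := ker_phi8 p i w hw hne _ h1
    have hA := clausen_gen p n hnp z _ hzz
    rw [hz'] at hA
    have hp0 : ((p : A8 p)) ^ 2 = 0 := by
      have : (p : A8 p) = algebraMap (R p) (A8 p) (p : R p) := by rw [map_natCast]
      rw [this, ← map_pow, hpp, map_zero]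
    rw [mul_pow, hp0, zero_mul] at hA
    apply QuadraticAlgebra.algebraMap_injective (R := R p) (a := -2) (b := 0)
    rw [map_zero, map_sum, hA]
    refine sum_congr rfl fun k _ => ?_
    rw [map_mul, map_mul, map_pow, map_intCast, map_natCast]
  have hS := sum_three p hp3 w4
  rw [hdiv (p / 3) (fun k hk => (dl_red p hp3 k hk).1) (by omega),
    hdiv (2 * p / 3) (fun k hk => (dl_red p hp3 k hk).2) (by omega)] at hS
  apply (unit3 p hp3).mul_left_cancel
  rw [hS]
  ring

/-- **the inert case** -/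
theorem inert8 (hp2 : p ≠ 2) (hp3 : p ≠ 3) (w4 : R p) (hw4 : 8 * w4 = 1)
    (hno : ∀ w : ZMod p, w ^ 2 + 2 ≠ 0) :
    ∑ k ∈ range p, (k.centralBinom : R p) * ((u3 k : ℕ) : R p) * w4 ^ k = 0 := by
  obtain ⟨w, hw, hne⟩ := exists_root8 p hno
  exact inert_aux8 p hp2 hp3 w4 hw4 (algebraMap (ZMod p) _) w hw hne

end Pool.Agent.Q267.MW
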