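import Pool.Agent.Q267.MW.C3Bin

set_option autoImplicit false

/-!
# Jacobi sums of small total degree modulo `p²`
-/

namespace Pool.Agent.Q267.MW

open Finset Pool.Agent.Q267.CDE

variable (p : ℕ) [hp : Fact p.Prime]

/-- the alternating beta sum -/
theorem beta_sum {F : Type*} [Field F] (n A : ℕ) (h : ∀ j, 0 < j → j ≤ A + n + 1 → ((j : ℕ) : F) ≠ 0) :
    ∑ i ∈ range (n + 1), (-1) ^ i * (n.choose i : F) * ((A : F) + 1 + i)⁻¹ =
      (n.factorial : F) * (A.factorial : F) * ((A + n + 1).factorial : F)⁻¹ := by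
  induction n generalizing A with
  | zero =>
    have hA : (A.factorial : F) ≠ 0 := by
      have key : ∀ m, m ≤ A → ((m.factorial : ℕ) : F) ≠ 0 := by
        intro m
        induction m with
        | zero => intro _; simp
        | succ m ih =>
          intro hm
          rw [Nat.factorial_succ, Nat.cast_mul]
          exact mul_ne_zero (h (m + 1) (by omega) (by omega)) (ih (by omega))
      exact key A le_rfl
    have h1 : (A : F) + 1 ≠ 0 := by
      have := h (A + 1) (by omega) (by omega)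
      push_cast at this
      exact this
    simp only [zero_add, range_one, sum_singleton, pow_zero, Nat.choose_self, Nat.cast_one, one_mul,
      Nat.cast_zero, add_zero, Nat.factorial_zero, Nat.factorial_succ, Nat.cast_mul]
    push_cast
    field_simp
  | succ n ih =>
    have ih1 := ih A (fun j h0 h1 => h j h0 (by omega))
    have ih2 := ih (A + 1) (fun j h0 h1 => h j h0 (by omega))
    have hN : ∀ m, m ≤ A + n + 2 → ((m.factorial : ℕ) : F) ≠ 0 := by
      intro m
      induction m with
      | zero => intro _; simp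
      | succ m ih =>
        intro hm
        rw [Nat.factorial_succ, Nat.cast_mul]
        exact mul_ne_zero (h (m + 1) (by omega) (by omega)) (ih (by omega))
    have hsplit : ∑ i ∈ range (n + 1 + 1), (-1) ^ i * ((n + 1).choose i : F) * ((A : F) + 1 + i)⁻¹ =
        ∑ i ∈ range (n + 1), (-1) ^ i * (n.choose i : F) * ((A : F) + 1 + i)⁻¹ -
        ∑ i ∈ range (n + 1), (-1) ^ i * (n.choose i : F) * (((A + 1 : ℕ) : F) + 1 + i)⁻¹ := by
      rw [sum_range_succ' _ (n + 1)]
      have e1 : ∀ i ∈ range (n + 1), (-1 : F) ^ (i + 1) * ((n + 1).choose (i + 1) : F) *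
          ((A : F) + 1 + ((i + 1 : ℕ) : F))⁻¹ =
          -((-1) ^ i * (n.choose i : F) * (((A + 1 : ℕ) : F) + 1 + i)⁻¹) +
          (-1) ^ (i + 1) * (n.choose (i + 1) : F) * ((A : F) + 1 + ((i + 1 : ℕ) : F))⁻¹ := by
        intro i _
        rw [Nat.choose_succ_succ]
        push_cast
        rw [show (A : F) + 1 + (i + 1) = A + 1 + 1 + i by ring, pow_succ]
        ring
      rw [sum_congr rfl e1, sum_add_distrib, sum_neg_distrib]
      have e2 : ∑ i ∈ range (n + 1), (-1 : F) ^ i * (n.choose i : F) * ((A : F) + 1 + i)⁻¹ =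
          ∑ i ∈ range (n + 1), (-1 : F) ^ (i + 1) * (n.choose (i + 1) : F) *
            ((A : F) + 1 + ((i + 1 : ℕ) : F))⁻¹ +
          (-1 : F) ^ 0 * (n.choose 0 : F) * ((A : F) + 1 + ((0 : ℕ) : F))⁻¹ := by
        rw [← sum_range_succ' (fun i => (-1 : F) ^ i * (n.choose i : F) * ((A : F) + 1 + i)⁻¹) (n + 1),
          sum_range_succ _ (n + 1), Nat.choose_succ_self]
        simp
      rw [e2]
      simp only [pow_zero, Nat.choose_zero_right, Nat.cast_one, one_mul, Nat.cast_zero, add_zero]
      ring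
    rw [hsplit, ih1, ih2]
    have h3 : (((A + n + 1 : ℕ)).factorial : F) ≠ 0 := hN _ (by omega)
    have h4 : ((A + (n + 1) + 1 : ℕ) : F) ≠ 0 := h _ (by omega) (by omega)
    have h5 : (((A + (n + 1) + 1 : ℕ)).factorial : F) =
        ((A + (n + 1) + 1 : ℕ) : F) * (((A + n + 1 : ℕ)).factorial : F) := by
      rw [Nat.factorial_succ, Nat.cast_mul]
      rfl
    have h6 : A + 1 + n + 1 = A + (n + 1) + 1 := by ring
    rw [h6, h5, Nat.factorial_succ n, Nat.factorial_succ A]
    push_cast at h4 ⊢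
    field_simp
    ring

/-- **Jacobi sums of small total degree modulo `p²`.** -/
theorem jac_small (hodd : Odd p) (A B : ℕ) (hA : 0 < A) (hB : 0 < B) (hAB : A + B < p - 1) :
    ∑ t : ZMod p, om p t ^ A * om p (1 - t) ^ B =
      -(p * lift p (((A.factorial : ℕ) : ZMod p) * ((B.factorial : ℕ) : ZMod p) *
        (((A + B).factorial : ℕ) : ZMod p)⁻¹)) := by
  obtain ⟨n, rfl⟩ : ∃ n, B = n + 1 := ⟨B - 1, by omega⟩
  have h1 : ∀ t : ZMod p, om p t ^ A * om p (1 - t) ^ (n + 1) =
      om p t ^ A * (1 - om p t) ^ (n + 1) +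
        p * (om p t ^ A * (((n : R p) + 1) * (1 - om p t) ^ n * G p (om p t))) := by
    intro t
    rw [om_one_sub, frob p hodd, om_pow_p, nil_pow]
    ring
  rw [sum_congr rfl fun t _ => h1 t, sum_add_distrib, ← mul_sum]
  have h2 : ∑ t : ZMod p, om p t ^ A * (1 - om p t) ^ (n + 1) = 0 := by
    have e : ∀ t : ZMod p, om p t ^ A * (1 - om p t) ^ (n + 1) =
        ∑ i ∈ range (n + 1 + 1), (-1) ^ i * (((n + 1).choose i : ℕ) : R p) * om p t ^ (A + i) := by
      intro t
      rw [sub_eq_neg_add, add_pow, mul_sum]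
      refine sum_congr rfl fun i _ => ?_
      rw [one_pow, mul_one, neg_pow, pow_add]
      ring
    rw [sum_congr rfl fun t _ => e t, sum_comm]
    refine sum_eq_zero fun i hi => ?_
    have hi' : i < n + 1 + 1 := mem_range.mp hi
    rw [← mul_sum, sum_om_lt p (A + i) (by omega) (by omega), mul_zero]
  rw [h2, zero_add, ← mul_neg]
  apply p_mul_eq
  have h3 : red p (((n : R p) + 1)) = (n : ZMod p) + 1 := by
    rw [map_add, map_one, red_nat]
  have h4 : ∀ t : ZMod p, red p (G p (om p t)) =
      ∑ s ∈ range (p - 1), (-((s : ZMod p) + 1)⁻¹) * t ^ (s + 1) := by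
    intro t
    unfold G
    rw [map_sum]
    refine sum_congr rfl fun s _ => ?_
    rw [map_mul, map_pow, red_lift, red_om]
  rw [map_sum]
  have h5 : ∀ t : ZMod p, red p (om p t ^ A *
      (((n : R p) + 1) * (1 - om p t) ^ n * G p (om p t))) =
      ∑ i ∈ range (n + 1), ((n : ZMod p) + 1) * ((-1) ^ i * ((n.choose i : ℕ) : ZMod p)) *
        (t ^ (p - 1 - (p - 1 - A) + i) *
          ∑ s ∈ range (p - 1), (-((s : ZMod p) + 1)⁻¹) * t ^ (s + 1)) := by
    intro t
    rw [map_mul, map_pow, red_om, map_mul, map_mul, h3, h4, map_pow, map_sub, map_one, red_om]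
    generalize ∑ s ∈ range (p - 1), (-((s : ZMod p) + 1)⁻¹) * t ^ (s + 1) = SS
    have e : (1 - t) ^ n = ∑ i ∈ range (n + 1), (-1) ^ i * ((n.choose i : ℕ) : ZMod p) * t ^ i := by
      rw [show (1 : ZMod p) - t = -t + 1 by ring, add_pow]
      refine sum_congr rfl fun i _ => ?_
      rw [one_pow, mul_one, neg_pow]
      ring
    rw [e, mul_sum, sum_mul, mul_sum]
    refine sum_congr rfl fun i _ => ?_
    rw [show p - 1 - (p - 1 - A) + i = A + i by omega, pow_add t A i]
    ring
  rw [sum_congr rfl fun t _ => h5 t, sum_comm]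
  have h6 : ∀ i ∈ range (n + 1), ∑ t : ZMod p, ((n : ZMod p) + 1) *
      ((-1) ^ i * ((n.choose i : ℕ) : ZMod p)) * (t ^ (p - 1 - (p - 1 - A) + i) *
          ∑ s ∈ range (p - 1), (-((s : ZMod p) + 1)⁻¹) * t ^ (s + 1)) =
      -((n : ZMod p) + 1) * ((-1) ^ i * ((n.choose i : ℕ) : ZMod p) * ((A : ZMod p) + 1 + i)⁻¹) := by
    intro i hi
    have hi' := mem_range.mp hi
    rw [← mul_sum, inner p (p - 1 - A) i (by omega) (by omega) (by omega), if_pos (by omega)]
    have e : ((p - 1 - A : ℕ) : ZMod p) - i = -((A : ZMod p) + 1 + i) := by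
      have : (p - 1 - A) + A + 1 = p := by omega
      have h := congrArg (Nat.cast : ℕ → ZMod p) this
      rw [ZMod.natCast_self] at h
      push_cast at h
      linear_combination h
    rw [e, inv_neg]
    ring
  rw [sum_congr rfl h6, ← mul_sum, beta_sum n A (fun j h0 h1 => CDE.cast_ne p j h0 (by omega)),
    map_neg, red_lift, show A + (n + 1) = A + n + 1 by ring, Nat.factorial_succ n]
  push_cast
  ring

end Pool.Agent.Q267.MW
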