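import Pool.Agent.Q267.MW.WrLeg

set_option autoImplicit false

/-!
# The unit root of a canonical member of the Legendre family modulo `p²`
-/

namespace Pool.Agent.Q267.MW

open Finset Polynomial

open Pool.Agent.Q267.Landen (Ph cc dd Hh)
open Pool.Agent.Q267.CDE
open Pool.Agent.Q267.Seven (dl dl_R dl_diff dl_mod)
open Pool.Agent.Q267

variable (p : ℕ) [hp : Fact p.Prime]

theorem eval_Ph (K : Type*) [Field K] (m : ℕ) (c : ℕ → K) (j : ℕ) (l : K) :
    (Ph m c j (X : K[X]) 1).eval l = ∑ k ∈ range (m + 1), c k * (k : K) ^ j * l ^ k := by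
  unfold Ph
  rw [eval_finsetSum]
  refine sum_congr rfl fun k _ => ?_
  simp

/-- **The unit root of a canonical member of the Legendre family.** -/
theorem leg_key {m : ℕ} (hpm : p = 2 * m + 1) (hm : 0 < m) (L u a : R p)
    (hL0 : red p L ≠ 0) (hL1 : red p L ≠ 1) (hu : red p u = 1) (hLu : L ^ (p - 1) = u ^ 2)
    (hcan : ∑ k ∈ range (m + 1), (dl m k : R p) * L ^ (m - k) =
      u * ∑ k ∈ range (m + 1), (dl m k : R p) * L ^ k)
    (ha : ∑ x : ZMod p, om p x ^ m * om p (1 - x) ^ m * om p (1 - (red p L) * x) ^ m = -a) :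
    (-1) ^ m * a * (∑ k ∈ range (m + 1), (dl m k : R p) * L ^ k) =
      (∑ k ∈ range (m + 1), (dl m k : R p) * L ^ k) ^ 2 + p ∧
    red p ((-1) ^ m * a) = red p (∑ k ∈ range (m + 1), (dl m k : R p) * L ^ k) := by
  have hp2 := hp.out.two_le
  have hpp := p_sq p
  obtain ⟨v, hv⟩ := red_eq_of p u 1 (by rw [hu, map_one])
  set l := red p L with hl
  set F := ∑ k ∈ range (m + 1), (dl m k : R p) * L ^ k with hF
  -- mod p quantities
  set f := ∑ k ∈ range (m + 1), cc (ZMod p) m k * l ^ k with hf
  set f1 := ∑ k ∈ range (m + 1), (k * cc (ZMod p) m k) * l ^ k with hf1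
  set g := ∑ k ∈ range (m + 1), dd (ZMod p) m k * l ^ k with hg
  set g1 := ∑ k ∈ range (m + 1), (k * dd (ZMod p) m k) * l ^ k with hg1
  have hwr : f ^ 2 + 2 * (f * g1 - g * f1) = 1 := by
    have := VV_eval p m hpm l hL1
    unfold VV at this
    rw [eval_add, eval_pow, eval_mul, eval_sub, eval_mul, eval_mul, eval_Ph, eval_Ph, eval_Ph,
      eval_Ph] at this
    have e0 : ∀ c : ℕ → ZMod p, ∑ k ∈ range (m + 1), c k * (k : ZMod p) ^ 0 * l ^ k =
        ∑ k ∈ range (m + 1), c k * l ^ k := fun c =>
      sum_congr rfl fun k _ => by rw [pow_zero, mul_one]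
    have e1 : ∀ c : ℕ → ZMod p, ∑ k ∈ range (m + 1), c k * (k : ZMod p) ^ 1 * l ^ k =
        ∑ k ∈ range (m + 1), (k * c k) * l ^ k := fun c =>
      sum_congr rfl fun k _ => by rw [pow_one, mul_comm (c k)]
    rw [e0, e0, e1, e1] at this
    rw [← hf, ← hf1, ← hg, ← hg1] at this
    have e2 : (2 : (ZMod p)[X]).eval l = 2 := by simp
    rw [e2] at this
    exact this
  have hredF : red p F = f := by
    rw [hF, map_sum, hf]
    refine sum_congr rfl fun k hk => ?_
    rw [map_mul, map_intCast, map_pow, dl_mod p m hpm k (by have := mem_range.mp hk; omega)]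
  -- the canonical property modulo p
  have hcan' : -g = red p v * f := by
    have h1 : ∑ k ∈ range (m + 1), (dl m k : R p) * L ^ (m - k) =
        F - p * lift p g := by
      have e1 : ∑ k ∈ range (m + 1), (dl m k : R p) * L ^ (m - k) =
          ∑ k ∈ range (m + 1), (dl m (m - k) : R p) * L ^ k := by
        rw [← sum_range_reflect]
        refine sum_congr rfl fun k hk => ?_
        have hk' : k < m + 1 := mem_range.mp hk
        rw [show m + 1 - 1 - k = m - k by omega, Nat.sub_sub_self (by omega)]
      have e2 : (p : R p) * lift p g = p * ∑ k ∈ range (m + 1),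
          (Seven.cR p m k * (Seven.hR p (m - k) - Seven.hR p k)) * L ^ k := by
        apply p_mul_eq
        rw [red_lift, map_sum, hg]
        refine sum_congr rfl fun k hk => ?_
        have hk' : k < m + 1 := mem_range.mp hk
        rw [map_mul, map_mul, map_sub, map_pow]
        have e3 : red p (Seven.hR p (m - k)) = Hh (ZMod p) (m - k) :=
          Seven.red_hR p _ (by omega)
        have e4 : red p (Seven.hR p k) = Hh (ZMod p) k := Seven.red_hR p _ (by omega)
        rw [e3, e4, ← hl]
        unfold Seven.cR dd cc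
        rw [map_pow, red_nat]
      rw [e1, e2, hF, mul_sum, ← sum_sub_distrib]
      refine sum_congr rfl fun k hk => ?_
      have hk' : k < m + 1 := mem_range.mp hk
      have := dl_diff p m hpm k (by omega)
      linear_combination L ^ k * this
    rw [h1, hv] at hcan
    have h2 : (p : R p) * (-lift p g) = p * (v * F) := by linear_combination hcan
    have h3 := red_cancel p _ _ h2
    rw [map_neg, red_lift, map_mul, hredF] at h3
    exact h3
  -- the Teichmueller point
  have hT : om p l = L * (1 + 2 * (p * v)) := by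
    rw [om_eq p l L rfl]
    have : L ^ p = L * L ^ (p - 1) := by
      rw [← pow_succ' L, Nat.sub_add_cancel hp.out.one_le]
    rw [this, hLu, hv]
    linear_combination L * v ^ 2 * hpp
  have hTk : ∀ k : ℕ, om p l ^ k = L ^ k + 2 * (p * (v * (k * L ^ k))) := by
    intro k
    rw [hT]
    induction k with
    | zero => simp
    | succ k ih =>
      rw [pow_succ (L * (1 + 2 * ((p : R p) * v))), ih, pow_succ L]
      push_cast
      linear_combination (4 * v ^ 2 * (k : R p) * L ^ k * L) * hpp
  have htr := tr_leg p hpm hm l hL0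
  rw [ha] at htr
  have hS : ∑ k ∈ range (m + 1), ((m.choose k : ℕ) : R p) ^ 2 *
      (1 + 2 * (p * lift p (hk p m k))) * om p l ^ k =
      F + p * lift p (2 * (red p v * f1 + g1)) := by
    have e1 : (p : R p) * lift p (2 * (red p v * f1 + g1)) =
        p * (2 * (v * ∑ k ∈ range (m + 1), (dl m k : R p) * (k * L ^ k)) +
          ∑ k ∈ range (m + 1), lift p (2 * (k * dd (ZMod p) m k)) * L ^ k) := by
      apply p_mul_eq
      rw [red_lift, map_add, map_mul, map_mul, map_ofNat, map_sum, map_sum]
      have e2 : ∑ k ∈ range (m + 1), red p ((dl m k : R p) * (k * L ^ k)) = f1 := by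
        rw [hf1]
        refine sum_congr rfl fun k hk => ?_
        rw [map_mul, map_intCast, map_mul, map_natCast, map_pow,
          dl_mod p m hpm k (by have := mem_range.mp hk; omega)]
        ring
      have e3 : ∑ k ∈ range (m + 1), red p (lift p (2 * (k * dd (ZMod p) m k)) * L ^ k) =
          2 * g1 := by
        rw [hg1, mul_sum]
        refine sum_congr rfl fun k hk => ?_
        rw [map_mul, red_lift, map_pow]
        ring
      rw [e2, e3]
      ring
    rw [e1, hF, mul_add, mul_left_comm, mul_sum, mul_sum, mul_sum, mul_sum, ← sum_add_distrib,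
      ← sum_add_distrib]
    refine sum_congr rfl fun k hk => ?_
    rw [conv_dl p m hpm k (by have := mem_range.mp hk; omega), hTk]
    linear_combination (2 * lift p (2 * (k * dd (ZMod p) m k)) * v * k * L ^ k) * hpp
  rw [hS] at htr
  have hm1 : ((-1 : R p)) ^ m * (-1) ^ m = 1 := by rw [← mul_pow]; norm_num
  have ha' : (-1) ^ m * a = (1 + p) * (F + p * lift p (2 * (red p v * f1 + g1))) := by
    linear_combination (-(-1) ^ m) * htr + (1 + (p : R p)) *
      (F + p * lift p (2 * (red p v * f1 + g1))) * hm1
  have hfin : (p : R p) * (F * lift p (2 * (red p v * f1 + g1))) = p * (1 - F ^ 2) := by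
    apply p_mul_eq
    rw [map_mul, red_lift, map_sub, map_one, map_pow, hredF]
    linear_combination hwr - 2 * f1 * hcan'
  have hp0 : red p (p : R p) = 0 := by rw [red_nat, ZMod.natCast_self]
  constructor
  · rw [ha']
    linear_combination hfin + F * lift p (2 * (red p v * f1 + g1)) * hpp
  · rw [ha', map_mul, map_add, map_add, map_mul, hp0, map_one]
    ring

/-- the square of the unit root -/
theorem sq_of_key (F b : R p) (h : b * F = F ^ 2 + p) (hb : red p b = red p F) :
    F ^ 2 = b ^ 2 - 2 * p := by
  have hpp := p_sq p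
  have hF : red p F ≠ 0 := by
    intro h0
    have h1 : red p b = 0 := by rw [hb, h0]
    obtain ⟨x, hx⟩ := red_eq_of p F 0 (by rw [h0, map_zero])
    obtain ⟨y, hy⟩ := red_eq_of p b 0 (by rw [h1, map_zero])
    have h2 : (p : R p) * 1 = p * 0 := by
      rw [hx, hy] at h
      linear_combination -h + (y * x - x ^ 2) * hpp
    have h3 := red_cancel p _ _ h2
    rw [map_one, map_zero] at h3
    exact one_ne_zero h3
  have hu := isUnit_of_red p hF
  apply (hu.pow 2).mul_left_cancel
  linear_combination (-b * F - (F ^ 2 + p)) * h - hpp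

end Pool.Agent.Q267.MW
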