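import Pool.Agent.Q267.MW.C3LogT
import Pool.Agent.Q267.MW.KeyLeg

set_option autoImplicit false

/-!
# The cubic family at a point where the two arguments agree
-/

namespace Pool.Agent.Q267.MW

open Finset Polynomial Pool.Agent.Q267.CDE

variable (p : ℕ) [hp : Fact p.Prime]

/-- `x^(p-1) = 1 + p nu` for a unit `x` -/
theorem exists_nu (x : R p) (hx : red p x ≠ 0) : ∃ nu : R p, x ^ (p - 1) = 1 + p * nu :=
  red_eq_of p _ _ (by rw [map_pow, map_one, ZMod.pow_card_sub_one_eq_one hx])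

/-- the logarithmic factor at the fixed point -/
theorem M3_cm (x Q nu : R p) (hQ : (3 : R p) ^ (p - 1) = 1 + p * Q)
    (hnu : x ^ (p - 1) = 1 + p * nu)
    (hh : red p (1 + x + x ^ 2) ≠ 0) (hb : red p (1 + 2 * x) ≠ 0)
    (hx : 9 * (1 + x + x ^ 2) = x ^ 2 * (1 + 2 * x) ^ 3) :
    (M3 p (red p Q)).eval (red p x) =
      -3 * red p Q * ((1 + red p x + red p x ^ 2) * (1 + 2 * red p x)) +
        red p nu * (3 * ((1 + red p x + red p x ^ 2) * (1 + 2 * red p x)) - (1 - red p x) ^ 2) := by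
  have hpp := p_sq p
  have hp1 := hp.out.one_le
  obtain ⟨eta, heta⟩ := exists_nu p _ hh
  obtain ⟨beta, hbeta⟩ := exists_nu p _ hb
  -- the relation between the logarithms
  have hrel : red p eta + 2 * red p Q = 2 * red p nu + 3 * red p beta := by
    have h1 := congrArg (fun z => z ^ (p - 1)) hx
    simp only [mul_pow] at h1
    have h9 : (9 : R p) ^ (p - 1) = (3 ^ (p - 1)) ^ 2 := by
      rw [← pow_mul, mul_comm, pow_mul]; norm_num
    rw [h9, hQ, heta, ← pow_mul, mul_comm 2, pow_mul, hnu, ← pow_mul (1 + 2 * x), mul_comm 3,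
      pow_mul, hbeta] at h1
    have h2 : (p : R p) * (eta + 2 * Q) = p * (2 * nu + 3 * beta) := by
      linear_combination h1 + (nu ^ 2 + 6 * nu * beta + 3 * beta ^ 2 - Q ^ 2 - 2 * Q * eta +
        p * (3 * nu ^ 2 * beta + 6 * nu * beta ^ 2 + beta ^ 3 - Q ^ 2 * eta) +
        p ^ 2 * (3 * nu ^ 2 * beta ^ 2 + 2 * nu * beta ^ 3) + p ^ 3 * nu ^ 2 * beta ^ 3) * hpp
    have h3 := red_cancel p _ _ h2
    rw [map_add, map_mul, map_add, map_mul, map_mul, map_ofNat, map_ofNat] at h3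
    exact h3
  have hxp : x ^ p = x * (1 + p * nu) := by
    rw [← hnu, ← pow_succ' x, Nat.sub_add_cancel hp1]
  -- the first finite logarithm
  have h1 : (D1 p).eval (red p x) =
      (1 + red p x + red p x ^ 2) * red p eta - red p nu * red p x * (1 + 2 * red p x) := by
    have a1 := dlog_eval p hz x
    have e1 : ∀ y : R p, hz.eval₂ (Int.castRingHom (R p)) y = 1 + y + y ^ 2 := by
      intro y
      unfold hz
      rw [eval₂_add, eval₂_add, eval₂_pow, eval₂_X, eval₂_one]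
      ring
    rw [e1, e1, hxp] at a1
    have a2 : (1 + x + x ^ 2) ^ p = (1 + x + x ^ 2) * (1 + p * eta) := by
      rw [← heta, ← pow_succ' (1 + x + x ^ 2), Nat.sub_add_cancel hp1]
    rw [a2] at a1
    have a3 : (p : R p) * (dlog p hz).eval₂ (Int.castRingHom (R p)) x =
        p * ((1 + x + x ^ 2) * eta - nu * x * (1 + 2 * x)) := by
      rw [a1]
      linear_combination (-(x ^ 2 * nu ^ 2)) * hpp
    have a4 := red_cancel p _ _ a3
    rw [dlog_red] at a4
    unfold D1
    rw [a4]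
    simp only [map_sub, map_mul, map_add, map_one, map_pow, map_ofNat]
  have h2 : (D2 p).eval (red p x) =
      (1 + 2 * red p x) * red p beta - 2 * red p x * red p nu := by
    have a1 := dlog_eval p bz x
    have e1 : ∀ y : R p, bz.eval₂ (Int.castRingHom (R p)) y = 1 + 2 * y := by
      intro y
      unfold bz
      rw [eval₂_add, eval₂_mul, eval₂_X, eval₂_one, eval₂_ofNat]
      ring
    rw [e1, e1, hxp] at a1
    have a2 : (1 + 2 * x) ^ p = (1 + 2 * x) * (1 + p * beta) := by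
      rw [← hbeta, ← pow_succ' (1 + 2 * x), Nat.sub_add_cancel hp1]
    rw [a2] at a1
    have a3 : (p : R p) * (dlog p bz).eval₂ (Int.castRingHom (R p)) x =
        p * ((1 + 2 * x) * beta - 2 * x * nu) := by
      rw [a1]
      ring
    have a4 := red_cancel p _ _ a3
    rw [dlog_red] at a4
    unfold D2
    rw [a4]
    simp only [map_sub, map_mul, map_add, map_one, map_ofNat]
  have ehq : (hq p).eval (red p x) = 1 + red p x + red p x ^ 2 := by
    unfold hq
    rw [eval_add, eval_add, eval_pow, eval_X, eval_one]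
    ring
  have ebq : (bq p).eval (red p x) = 1 + 2 * red p x := by
    unfold bq
    have e5 : (2 : (ZMod p)[X]).eval (red p x) = 2 := by simp
    rw [eval_add, eval_mul, eval_X, eval_one, e5]
    ring
  unfold M3
  have e5 : (3 : (ZMod p)[X]).eval (red p x) = 3 := by simp
  rw [eval_sub, eval_add, eval_mul, eval_mul, eval_mul, eval_mul, eval_mul, eval_neg, eval_C,
    eval_pow, eval_pow, ZMod.pow_card, ZMod.pow_card, h1, h2, ehq, ebq, e5]
  linear_combination (1 + red p x + red p x ^ 2) * (1 + 2 * red p x) * hrel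

/-- the companion at the fixed point -/
theorem G3_cm (hp2 : p ≠ 2) (hp3 : p ≠ 3) (x Q nu : R p) (hQ : (3 : R p) ^ (p - 1) = 1 + p * Q)
    (hnu : x ^ (p - 1) = 1 + p * nu)
    (hh : red p (1 + x + x ^ 2) ≠ 0) (hb : red p (1 + 2 * x) ≠ 0)
    (hx : 9 * (1 + x + x ^ 2) = x ^ 2 * (1 + 2 * x) ^ 3)
    (hk : 3 * ((1 + red p x + red p x ^ 2) * (1 + 2 * red p x)) - (1 - red p x) ^ 2 ≠ 0)
    (s : ZMod p) (hs' : 27 * s = red p x ^ 3) :
    (G3p p).eval s = 3 * (red p Q - red p nu) * (F3p p).eval s := by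
  have h3 := three_z p hp3
  have hx' := congrArg (red p) hx
  simp only [map_mul, map_add, map_one, map_pow, map_ofNat] at hx'
  have hb' : 1 + 2 * red p x ≠ 0 := by
    intro h
    apply hb
    rw [map_add, map_mul, map_one, map_ofNat, h]
  have hs : s * (3 * (1 + 2 * red p x) ^ 3) = red p x * (1 + red p x + red p x ^ 2) := by
    have h9 : (9 : ZMod p) ≠ 0 := by
      have : (9 : ZMod p) = 3 ^ 2 := by norm_num
      rw [this]; exact pow_ne_zero 2 h3
    apply mul_left_cancel₀ h9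
    linear_combination (1 + 2 * red p x) ^ 3 * hs' - red p x * hx'
  have h1 := Y3_at p hp2 hp3 (red p Q) Q hQ rfl (red p x) s hs hs' hb'
  have h2 := M3_cm p x Q nu hQ hnu hh hb hx
  rw [h2] at h1
  apply mul_left_cancel₀ hk
  linear_combination h1

/-- **The unit root at the fixed point modulo `p²`.** -/
theorem key3 (m : ℕ) (hpm : p = 2 * m + 1) (hm : 0 < m) (hp3 : p ≠ 3) (x ka : R p)
    (hka : 3 * ka = 1) (hx0 : red p x ≠ 0)
    (hh : red p (1 + x + x ^ 2) ≠ 0) (hb : red p (1 + 2 * x) ≠ 0)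
    (hx : 9 * (1 + x + x ^ 2) = x ^ 2 * (1 + 2 * x) ^ 3)
    (hk : 3 * ((1 + red p x + red p x ^ 2) * (1 + 2 * red p x)) - (1 - red p x) ^ 2 ≠ 0)
    (h1 : red p x ^ 3 ≠ 1) (a : R p)
    (ha : -((∑ y : ZMod p, quadraticChar (ZMod p)
      ((y + red p (ka ^ 3 * x ^ 3)) ^ 2 + 4 * y ^ 3) : ℤ) : R p) = a) :
    (∑ k ∈ range p, ((u3 k : ℕ) : R p) * (ka ^ 3 * x ^ 3) ^ k) ^ 2 = a ^ 2 - 2 * p := by
  have hpp := p_sq p
  have hp2 : p ≠ 2 := by omega
  have h3 := three_z p hp3
  have hp1 := hp.out.one_le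
  obtain ⟨Q, hQ⟩ := exists_nu p (3 : R p) (by rw [map_ofNat]; exact h3)
  obtain ⟨nu, hnu⟩ := exists_nu p x hx0
  set L := ka ^ 3 * x ^ 3 with hL
  have hka' : 3 * red p ka = 1 := by
    have := congrArg (red p) hka
    rw [map_mul, map_ofNat, map_one] at this
    exact this
  have hkane : red p ka ≠ 0 := by
    intro h
    rw [h, mul_zero] at hka'
    exact zero_ne_one hka'
  have hs' : 27 * red p L = red p x ^ 3 := by
    rw [hL, map_mul, map_pow, map_pow]
    linear_combination (9 * red p ka ^ 2 + 3 * red p ka + 1) * red p x ^ 3 * hka'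
  have hL0 : red p L ≠ 0 := by
    rw [hL, map_mul, map_pow, map_pow]
    exact mul_ne_zero (pow_ne_zero 3 hkane) (pow_ne_zero 3 hx0)
  have hG := G3_cm p hp2 hp3 x Q nu hQ hnu hh hb hx hk (red p L) hs'
  have hV := V3_eval p hp2 hp3 (red p L) (by rw [hs']; exact h1)
  -- the power of L
  have hkp : ka ^ (p - 1) = 1 - p * Q := by
    have h1 : (3 : R p) ^ (p - 1) * ka ^ (p - 1) = 1 := by rw [← mul_pow, hka, one_pow]
    rw [hQ] at h1
    linear_combination (1 - p * Q) * h1 + ka ^ (p - 1) * Q ^ 2 * hpp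
  have hLp : L ^ (p - 1) = 1 + p * (3 * (nu - Q)) := by
    rw [hL, mul_pow, ← pow_mul, ← pow_mul, mul_comm 3, pow_mul, pow_mul, hkp, hnu]
    linear_combination (3 * nu ^ 2 - 9 * Q * nu + 3 * Q ^ 2 + p * (nu ^ 3 - 9 * Q * nu ^ 2 +
      9 * Q ^ 2 * nu - Q ^ 3) + p ^ 2 * (-3 * Q * nu ^ 3 + 9 * Q ^ 2 * nu ^ 2 - 3 * Q ^ 3 * nu) +
      p ^ 3 * (3 * Q ^ 2 * nu ^ 3 - 3 * Q ^ 3 * nu ^ 2) - p ^ 4 * Q ^ 3 * nu ^ 3) * hpp
  have htr := tr_cub_lift p m hpm hm L (3 * (nu - Q)) hL0 hLp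
  rw [ha] at htr
  set Ft := ∑ k ∈ range p, ((u3 k : ℕ) : R p) * L ^ k with hFt
  have hFr : (F3p p).eval (red p L) = red p Ft := by
    rw [hFt, map_sum]
    unfold F3p
    rw [eval_finsetSum]
    refine sum_congr rfl fun k _ => ?_
    rw [map_mul (red p) _ (L ^ k), map_pow (red p) L k, red_nat]
    simp [uz]
  unfold V3 at hV
  rw [eval_sub, eval_add, eval_pow, eval_mul, eval_mul, hG, hFr] at hV
  set w := red p (3 * (nu - Q)) * (th (F3p p)).eval (red p L) + (th (G3p p)).eval (red p L) with hw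
  have hfin : (p : R p) * (Ft * lift p w) = p * (1 - Ft ^ 2) := by
    apply p_mul_eq
    rw [map_mul, red_lift, map_sub, map_one, map_pow, hw, map_mul, map_ofNat, map_sub]
    linear_combination hV
  apply sq_of_key
  · rw [htr]
    linear_combination hfin + Ft * lift p w * hpp
  · rw [htr, map_mul, map_add, map_add, map_mul, map_one, red_p]
    ring

end Pool.Agent.Q267.MW
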