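import Pool.Agent.Q267.MW.C3Mom
import Pool.Agent.Q267.Seven.Legendre

set_option autoImplicit false

/-!
# The cubic hypergeometric coefficients and Legendre polynomials modulo `p²`
-/

namespace Pool.Agent.Q267.MW

open Finset Pool.Agent.Q267.CDE

open Pool.Agent.Q267.Seven (dl dl_succ legendre_sq_ring)

theorem u3_succ (k : ℕ) : u3 (k + 1) * (k + 1) ^ 2 = 3 * (3 * k + 1) * (3 * k + 2) * u3 k := by
  have h1 := u3_fact (k + 1)
  have h2 := u3_fact k
  have h3 : (3 * (k + 1)).factorial = (3 * k + 3) * ((3 * k + 2) * ((3 * k + 1) * (3 * k).factorial)) := by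
    rw [show 3 * (k + 1) = (3 * k + 2) + 1 by ring, Nat.factorial_succ, Nat.factorial_succ,
      Nat.factorial_succ]
  rw [h3, ← h2, Nat.factorial_succ] at h1
  have hk : 0 < (k + 1) * k.factorial ^ 3 := Nat.mul_pos (Nat.succ_pos k) (pow_pos (Nat.factorial_pos k) 3)
  apply Nat.eq_of_mul_eq_mul_right hk
  calc u3 (k + 1) * (k + 1) ^ 2 * ((k + 1) * k.factorial ^ 3)
      = u3 (k + 1) * ((k + 1) * k.factorial) ^ 3 := by ring
    _ = _ := h1
    _ = _ := by ring

theorem dl_vanish (n k : ℕ) (h : n < k) : dl n k = 0 := by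
  unfold dl
  rw [Nat.choose_eq_zero_of_lt h]
  simp

variable (p : ℕ) [hp : Fact p.Prime]

/-- the two indices -/
theorem idx (hp3 : p ≠ 3) : ∃ e : R p,
    9 * (((p / 3 : ℕ) : R p) * (((p / 3 : ℕ) : R p) + 1)) = -2 + e * p ∧
    9 * (((2 * p / 3 : ℕ) : R p) * (((2 * p / 3 : ℕ) : R p) + 1)) = -2 - 2 * e * p := by
  have hpp := p_sq p
  have h3 : ¬ p % 3 = 0 := by
    intro h
    have : 3 ∣ p := Nat.dvd_of_mod_eq_zero h
    exact hp3 ((Nat.prime_dvd_prime_iff_eq (by norm_num) hp.out).mp this).symm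
  have h4 : p % 3 = 1 ∨ p % 3 = 2 := by omega
  rcases h4 with h | h
  · obtain ⟨n, hn⟩ : ∃ n, p = 3 * n + 1 := ⟨p / 3, by omega⟩
    have e1 : p / 3 = n := by omega
    have e2 : 2 * p / 3 = 2 * n := by omega
    have hn' := congrArg (Nat.cast : ℕ → R p) hn
    push_cast at hn'
    refine ⟨1, ?_, ?_⟩
    · rw [e1]
      linear_combination hpp - ((p : R p) + 3 * n + 1 + 1) * hn'
    · rw [e2]
      push_cast
      linear_combination 4 * hpp - (4 * (p : R p) + 4 * (3 * n + 1) - 2) * hn'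
  · obtain ⟨n, hn⟩ : ∃ n, p = 3 * n + 2 := ⟨p / 3, by omega⟩
    have e1 : p / 3 = n := by omega
    have e2 : 2 * p / 3 = 2 * n + 1 := by omega
    have hn' := congrArg (Nat.cast : ℕ → R p) hn
    push_cast at hn'
    refine ⟨-1, ?_, ?_⟩
    · rw [e1]
      linear_combination hpp - ((p : R p) + 3 * n + 2 - 1) * hn'
    · rw [e2]
      push_cast
      linear_combination 4 * hpp - (4 * (p : R p) + 4 * (3 * n + 2) + 2) * hn'

theorem u3_leg (hp3 : p ≠ 3) (k : ℕ) (hk : k < p) :
    3 * ((u3 k : ℕ) : R p) = 27 ^ k * (2 * (dl (p / 3) k : R p) + (dl (2 * p / 3) k : R p)) ∧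
    (p : R p) * (dl (p / 3) k : R p) = p * (dl (2 * p / 3) k : R p) := by
  have hpp := p_sq p
  obtain ⟨e, h1, h2⟩ := idx p hp3
  have h3u : IsUnit (3 : R p) := by
    apply isUnit_of_red
    rw [map_ofNat]
    intro h
    have : ((3 : ℕ) : ZMod p) = 0 := by exact_mod_cast h
    rw [ZMod.natCast_eq_zero_iff] at this
    exact hp3 ((Nat.prime_dvd_prime_iff_eq hp.out (by norm_num)).mp this)
  induction k with
  | zero =>
    simp only [pow_zero, one_mul]
    unfold u3 dl
    norm_num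
  | succ k ih =>
    obtain ⟨i1, i2⟩ := ih (by omega)
    have hu : IsUnit (((k : R p) + 1) ^ 2) := by
      have := isUnit_nat p (k + 1) (by omega) (by omega)
      push_cast at this
      exact this.pow 2
    have a1 := congrArg (Int.cast : ℤ → R p) (dl_succ (p / 3) k)
    have a2 := congrArg (Int.cast : ℤ → R p) (dl_succ (2 * p / 3) k)
    have a3 := congrArg (Nat.cast : ℕ → R p) (u3_succ k)
    rw [Int.cast_mul, Int.cast_mul, Int.cast_sub, Int.cast_mul, Int.cast_add, Int.cast_add,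
      Int.cast_pow, Int.cast_pow, Int.cast_add, Int.cast_natCast, Int.cast_natCast, Int.cast_one]
      at a1 a2
    rw [Nat.cast_mul, Nat.cast_mul, Nat.cast_pow, Nat.cast_add, Nat.cast_mul, Nat.cast_mul,
      Nat.cast_add, Nat.cast_add, Nat.cast_mul, Nat.cast_one, Nat.cast_ofNat, Nat.cast_ofNat] at a3
    set N1 : R p := ((p / 3 : ℕ) : R p)
    set N2 : R p := ((2 * p / 3 : ℕ) : R p)
    set A : R p := (dl (p / 3) k : R p)
    set B : R p := (dl (2 * p / 3) k : R p)
    set A' : R p := (dl (p / 3) (k + 1) : R p)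
    set B' : R p := (dl (2 * p / 3) (k + 1) : R p)
    set K : R p := (k : R p)
    set P : R p := (p : R p)
    constructor
    · apply hu.mul_right_cancel
      rw [pow_succ (27 : R p) k]
      linear_combination 3 * a3 + 3 * (9 * K ^ 2 + 9 * K + 2) * i1 -
        27 * 27 ^ k * (2 * a1 + a2) + 27 ^ k * 3 * (2 * A * h1 + B * h2) +
        27 ^ k * 6 * e * i2
    · apply hu.mul_right_cancel
      apply (h3u.pow 2).mul_left_cancel
      linear_combination 9 * P * (a1 - a2) + (9 * K ^ 2 + 9 * K + 2) * i2 -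
        P * (A * h1 - B * h2) - (A + 2 * B) * e * hpp

end Pool.Agent.Q267.MW
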