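import Pool.Agent.Q267.MW.C3Node

set_option autoImplicit false

/-!
# Finite logarithms of integer polynomials
-/

namespace Pool.Agent.Q267.MW

open Finset Polynomial Pool.Agent.Q267.CDE

variable (p : ℕ) [hp : Fact p.Prime]

/-- `(h(X)^p - h(X^p)) / p` -/
theorem exists_dlog (h : ℤ[X]) : ∃ D : ℤ[X], C (p : ℤ) * D = h ^ p - Polynomial.expand ℤ p h := by
  have h1 : (h ^ p - Polynomial.expand ℤ p h).map (Int.castRingHom (ZMod p)) = 0 := by
    rw [Polynomial.map_sub, Polynomial.map_pow, map_expand, ZMod.expand_card, sub_self]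
  have h2 : ∀ n, (p : ℤ) ∣ (h ^ p - Polynomial.expand ℤ p h).coeff n := by
    intro n
    have := congrArg (fun q => q.coeff n) h1
    simp only [coeff_map, coeff_zero] at this
    exact (ZMod.intCast_zmod_eq_zero_iff_dvd _ p).mp this
  obtain ⟨D, hD⟩ := (C_dvd_iff_dvd_coeff (p : ℤ) _).mpr h2
  exact ⟨D, hD.symm⟩

/-- the finite logarithm -/
noncomputable def dlog (h : ℤ[X]) : ℤ[X] := (exists_dlog p h).choose

theorem dlog_spec (h : ℤ[X]) : C (p : ℤ) * dlog p h = h ^ p - Polynomial.expand ℤ p h :=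
  (exists_dlog p h).choose_spec

theorem Cp_ne : C (p : ℤ) ≠ 0 := by
  rw [Ne, C_eq_zero]
  exact_mod_cast hp.out.ne_zero

theorem dlog_der (h : ℤ[X]) : derivative (dlog p h) =
    h ^ (p - 1) * derivative h - X ^ (p - 1) * Polynomial.expand ℤ p (derivative h) := by
  apply mul_left_cancel₀ (Cp_ne p)
  have h1 := congrArg derivative (dlog_spec p h)
  rw [derivative_C_mul, derivative_sub, derivative_pow, derivative_expand] at h1
  rw [h1]
  have : (C (p : ℤ) : ℤ[X]) = (p : ℤ[X]) := by simp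
  rw [this]
  ring

/-- evaluation in `ℤ/p²` -/
theorem dlog_eval (h : ℤ[X]) (x : R p) :
    (p : R p) * (dlog p h).eval₂ (Int.castRingHom (R p)) x =
      (h.eval₂ (Int.castRingHom (R p)) x) ^ p - h.eval₂ (Int.castRingHom (R p)) (x ^ p) := by
  have h1 := congrArg (eval₂ (Int.castRingHom (R p)) x) (dlog_spec p h)
  rw [eval₂_mul, eval₂_C, eval₂_sub, eval₂_pow, expand_eq_comp_X_pow, eval₂_comp, eval₂_pow,
    eval₂_X] at h1
  rw [← h1]
  simp

theorem dlog_red (h : ℤ[X]) (x : R p) :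
    red p ((dlog p h).eval₂ (Int.castRingHom (R p)) x) =
      ((dlog p h).map (Int.castRingHom (ZMod p))).eval (red p x) := by
  rw [hom_eval₂, eval_map]
  congr 1
  exact Subsingleton.elim _ _

theorem dlog_deg (h : ℤ[X]) : (dlog p h).natDegree ≤ p * h.natDegree := by
  have h1 : (C (p : ℤ) * dlog p h).natDegree = (dlog p h).natDegree :=
    natDegree_C_mul (by exact_mod_cast hp.out.ne_zero)
  rw [← h1, dlog_spec]
  refine (natDegree_sub_le _ _).trans (max_le natDegree_pow_le ?_)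
  rw [natDegree_expand, mul_comm]

/-- divisibility by a monic divisor -/
theorem dlog_dvd (h : ℤ[X]) (hm : h.Monic) (hd : h ∣ Polynomial.expand ℤ p h) : h ∣ dlog p h := by
  have h1 : h ∣ C (p : ℤ) * dlog p h := by
    rw [dlog_spec]
    exact dvd_sub (dvd_pow_self h hp.out.ne_zero) hd
  rw [← modByMonic_eq_zero_iff_dvd hm] at h1 ⊢
  have h2 : C (p : ℤ) * dlog p h = (p : ℤ) • dlog p h := by rw [smul_eq_C_mul]
  rw [h2, smul_modByMonic] at h1
  exact (smul_eq_zero.mp h1).resolve_left (by exact_mod_cast hp.out.ne_zero)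

/-! ### The two polynomials -/

/-- `1 + X + X²` -/
noncomputable def hz : ℤ[X] := X ^ 2 + X + 1

/-- `1 + 2X` -/
noncomputable def bz : ℤ[X] := 2 * X + 1

theorem hz_monic : hz.Monic := by
  unfold hz
  have : (X ^ 2 + X + 1 : ℤ[X]) = X ^ 2 + (X + C 1) := by rw [C_1]; ring
  rw [this]
  refine monic_X_pow_add ?_
  rw [degree_X_add_C]
  norm_num

theorem hz_dvd (hp3 : p ≠ 3) : hz ∣ Polynomial.expand ℤ p hz := by
  have e : Polynomial.expand ℤ p hz = (X ^ p) ^ 2 + X ^ p + 1 := by
    unfold hz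
    rw [map_add, map_add, map_pow, expand_X, map_one]
  rw [e]
  have h3 : ¬ p % 3 = 0 := by
    intro h
    have : 3 ∣ p := Nat.dvd_of_mod_eq_zero h
    exact hp3 ((Nat.prime_dvd_prime_iff_eq (by norm_num) hp.out).mp this).symm
  have h4 : p % 3 = 1 ∨ p % 3 = 2 := by omega
  have h5 : ∀ n : ℕ, hz ∣ (X ^ 3) ^ n - 1 := by
    intro n
    have : (hz : ℤ[X]) ∣ X ^ 3 - 1 := ⟨X - 1, by unfold hz; ring⟩
    exact this.trans (sub_one_dvd_pow_sub_one _ n)
  rcases h4 with h | h
  · obtain ⟨n, hn⟩ : ∃ n, p = 3 * n + 1 := ⟨p / 3, by omega⟩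
    obtain ⟨Q, hQ⟩ := h5 n
    have hX : (X : ℤ[X]) ^ p = (hz * Q + 1) * X := by
      rw [hn, pow_add, pow_mul, ← hQ]
      ring
    rw [hX]
    exact ⟨Q * X ^ 2 * (hz * Q + 2) + Q * X + 1, by unfold hz; ring⟩
  · obtain ⟨n, hn⟩ : ∃ n, p = 3 * n + 2 := ⟨p / 3, by omega⟩
    obtain ⟨Q, hQ⟩ := h5 n
    have hX : (X : ℤ[X]) ^ p = (hz * Q + 1) * X ^ 2 := by
      rw [hn, pow_add, pow_mul, ← hQ]
      ring
    rw [hX]
    exact ⟨Q * X ^ 4 * (hz * Q + 2) + Q * X ^ 2 + (X ^ 2 - X + 1), by unfold hz; ring⟩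

/-! ### Reduction modulo `p` -/

/-- `1 + X + X²` modulo `p` -/
noncomputable def hq : (ZMod p)[X] := X ^ 2 + X + 1

/-- `1 + 2X` modulo `p` -/
noncomputable def bq : (ZMod p)[X] := 2 * X + 1

theorem hz_map : hz.map (Int.castRingHom (ZMod p)) = hq p := by
  unfold hz hq
  simp

theorem bz_map : bz.map (Int.castRingHom (ZMod p)) = bq p := by
  unfold bz bq
  simp

/-- the two finite logarithms modulo `p` -/
noncomputable def D1 : (ZMod p)[X] := (dlog p hz).map (Int.castRingHom (ZMod p))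

noncomputable def D2 : (ZMod p)[X] := (dlog p bz).map (Int.castRingHom (ZMod p))

theorem bz_pow : (Polynomial.expand ℤ p bz).map (Int.castRingHom (ZMod p)) = bq p ^ p := by
  rw [map_expand, bz_map, ZMod.expand_card]

theorem D1_der : derivative (D1 p) = hq p ^ (p - 1) * bq p - X ^ (p - 1) * bq p ^ p := by
  unfold D1
  rw [derivative_map, dlog_der]
  have : derivative hz = bz := by
    unfold hz bz
    rw [derivative_add, derivative_add, derivative_X_sq, derivative_X, derivative_one]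
    simp
  rw [this, Polynomial.map_sub, Polynomial.map_mul, Polynomial.map_mul, Polynomial.map_pow,
    Polynomial.map_pow, hz_map, bz_map, bz_pow, Polynomial.map_X]

theorem D2_der : derivative (D2 p) = 2 * bq p ^ (p - 1) - 2 * X ^ (p - 1) := by
  unfold D2
  rw [derivative_map, dlog_der]
  have : derivative bz = C 2 := by
    unfold bz
    rw [derivative_add, derivative_mul, derivative_X, derivative_one]
    simp
  rw [this, expand_C, Polynomial.map_sub, Polynomial.map_mul, Polynomial.map_mul,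
    Polynomial.map_pow, Polynomial.map_pow, bz_map, Polynomial.map_X, Polynomial.map_C, map_ofNat,
    map_ofNat]
  ring

/-- the logarithmic factor -/
noncomputable def M3 (q : ZMod p) : (ZMod p)[X] :=
  -C q * hq p ^ p * bq p ^ p + bq p ^ p * D1 p - 3 * hq p ^ p * D2 p

theorem der_pow_p (a : (ZMod p)[X]) : derivative (a ^ p) = 0 := by
  rw [derivative_pow, CharP.cast_eq_zero, C_0, zero_mul, zero_mul]

theorem frob_id : (X : (ZMod p)[X]) ^ p * bq p ^ (2 * p) - 6 * (X ^ p * hq p ^ p) =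
    (1 - X) ^ (2 * p) - hq p ^ p * bq p ^ p := by
  have h : X * bq p ^ 2 - 6 * (X * hq p) = (1 - X) ^ 2 - hq p * bq p := by
    unfold bq hq
    ring
  have h2 := congrArg (fun z => z ^ p) h
  simp only [sub_pow_char, mul_pow, ← pow_mul] at h2
  have h6 : (6 : (ZMod p)[X]) ^ p = 6 := by
    have : (6 : (ZMod p)[X]) = C 6 := by rw [map_ofNat]
    rw [this, ← C_pow, ZMod.pow_card]
  rw [h6] at h2
  rw [h2]

theorem M3_der (q : ZMod p) : X * derivative (M3 p q) * (hq p * bq p) =
    hq p ^ p * bq p ^ p * (1 - X) ^ 2 - (1 - X) ^ (2 * p) * (hq p * bq p) := by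
  have hp1 := hp.out.one_le
  unfold M3
  have e3 : (3 : (ZMod p)[X]) = C 3 := by rw [map_ofNat]
  rw [e3, derivative_sub, derivative_add, derivative_mul, derivative_mul, derivative_mul,
    derivative_mul, derivative_mul, derivative_neg, derivative_C, derivative_C, der_pow_p,
    der_pow_p, D1_der, D2_der, ← e3]
  have hX : (X : (ZMod p)[X]) * X ^ (p - 1) = X ^ p := by
    rw [← pow_succ', Nat.sub_add_cancel hp1]
  have hh : hq p * hq p ^ (p - 1) = hq p ^ p := by
    rw [← pow_succ', Nat.sub_add_cancel hp1]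
  have hb : bq p * bq p ^ (p - 1) = bq p ^ p := by
    rw [← pow_succ', Nat.sub_add_cancel hp1]
  have hf := frob_id p
  have hf2 : (X : (ZMod p)[X]) ^ p * (bq p ^ p) ^ 2 - 6 * (X ^ p * hq p ^ p) =
    (1 - X) ^ (2 * p) - hq p ^ p * bq p ^ p := by
    rw [← hf, ← pow_mul, mul_comm p 2]
  have hid : X * bq p ^ 2 - 6 * (X * hq p) = (1 - X) ^ 2 - hq p * bq p := by
    unfold bq hq
    ring
  set h := hq p
  set b := bq p
  set H := h ^ p
  set B := b ^ p
  set u := h ^ (p - 1)
  set v := b ^ (p - 1)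
  set W := (X : (ZMod p)[X]) ^ (p - 1)
  linear_combination (X * B * b ^ 2) * hh - (B ^ 2 * h * b) * hX - 6 * (H * h * X) * hb +
    6 * (H * h * b) * hX + (H * B) * hid - (h * b) * hf2

theorem dlog_eval_int (h : ℤ[X]) (n : ℤ) :
    (p : ℤ) * (dlog p h).eval n = (h.eval n) ^ p - h.eval (n ^ p) := by
  have h1 := congrArg (eval n) (dlog_spec p h)
  rw [eval_mul, eval_C, eval_sub, eval_pow, expand_eq_comp_X_pow, eval_comp, eval_pow, eval_X] at h1
  exact h1

theorem D_eval_zero (h : ℤ[X]) (h0 : h.eval 0 = 1) :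
    ((dlog p h).map (Int.castRingHom (ZMod p))).eval 0 = 0 := by
  have h1 := dlog_eval_int p h 0
  rw [zero_pow hp.out.ne_zero, h0, one_pow, sub_self] at h1
  have h2 : (dlog p h).eval 0 = 0 :=
    (mul_eq_zero.mp h1).resolve_left (by exact_mod_cast hp.out.ne_zero)
  rw [eval_zero_map, h2]
  simp

theorem D_eval_one (h : ℤ[X]) (h0 : h.eval 1 = 3) (q : ZMod p) (Q : R p)
    (hQ : (3 : R p) ^ (p - 1) = 1 + p * Q) (hq : red p Q = q) :
    ((dlog p h).map (Int.castRingHom (ZMod p))).eval 1 = 3 * q := by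
  have h1 := dlog_eval_int p h 1
  rw [one_pow, h0] at h1
  have h2 := congrArg (Int.cast : ℤ → R p) h1
  push_cast at h2
  have h3 : (3 : R p) ^ p = 3 * 3 ^ (p - 1) := by
    rw [← pow_succ' (3 : R p), Nat.sub_add_cancel hp.out.one_le]
  have h4 : (p : R p) * (((dlog p h).eval 1 : ℤ) : R p) = p * (3 * Q) := by
    rw [h2, h3, hQ]
    ring
  have h5 := red_cancel p _ _ h4
  rw [map_intCast, map_mul, map_ofNat, hq] at h5
  rw [eval_one_map, ← h5]
  simp

theorem D1_zero : (D1 p).eval 0 = 0 := D_eval_zero p hz (by unfold hz; simp)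

theorem D2_zero : (D2 p).eval 0 = 0 := D_eval_zero p bz (by unfold bz; simp)

theorem M3_zero (q : ZMod p) : (M3 p q).eval 0 = -q := by
  unfold M3 hq bq
  simp [D1_zero, D2_zero]

theorem M3_one (q : ZMod p) (Q : R p) (hQ : (3 : R p) ^ (p - 1) = 1 + p * Q) (hq' : red p Q = q) :
    (M3 p q).eval 1 = -27 * q := by
  have e1 : (D1 p).eval 1 = 3 * q := D_eval_one p hz (by unfold hz; norm_num) q Q hQ hq'
  have e2 : (D2 p).eval 1 = 3 * q := D_eval_one p bz (by unfold bz; norm_num) q Q hQ hq'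
  have e3 : (hq p).eval 1 = 3 := by unfold hq; norm_num
  have e4 : (bq p).eval 1 = 3 := by unfold bq; norm_num
  unfold M3
  rw [eval_sub, eval_add, eval_mul, eval_mul, eval_mul, eval_mul, eval_mul, eval_neg, eval_C,
    eval_pow, eval_pow, e1, e2, e3, e4, ZMod.pow_card]
  have e5 : (3 : (ZMod p)[X]).eval 1 = 3 := by simp
  rw [e5]
  ring

theorem M3_deg (q : ZMod p) : (M3 p q).natDegree ≤ 3 * p := by
  have h1 : (hq p).natDegree ≤ 2 := by
    unfold hq
    compute_degree
  have h2 : (bq p).natDegree ≤ 1 := by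
    unfold bq
    compute_degree
  have h3 : (hq p ^ p).natDegree ≤ 2 * p := by
    refine natDegree_pow_le.trans ?_
    rw [mul_comm]
    exact Nat.mul_le_mul_right _ h1
  have h4 : (bq p ^ p).natDegree ≤ p := by
    refine natDegree_pow_le.trans ?_
    calc p * (bq p).natDegree ≤ p * 1 := Nat.mul_le_mul_left _ h2
      _ = p := mul_one p
  have h5 : (D1 p).natDegree ≤ 2 * p := by
    unfold D1
    refine natDegree_map_le.trans ((dlog_deg p hz).trans ?_)
    have : hz.natDegree ≤ 2 := by unfold hz; compute_degree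
    calc p * hz.natDegree ≤ p * 2 := Nat.mul_le_mul_left _ this
      _ = 2 * p := mul_comm _ _
  have h6 : (D2 p).natDegree ≤ p := by
    unfold D2
    refine natDegree_map_le.trans ((dlog_deg p bz).trans ?_)
    have : bz.natDegree ≤ 1 := by unfold bz; compute_degree
    calc p * bz.natDegree ≤ p * 1 := Nat.mul_le_mul_left _ this
      _ = p := mul_one p
  unfold M3
  refine (natDegree_sub_le _ _).trans (max_le ((natDegree_add_le _ _).trans (max_le ?_ ?_)) ?_)
  · refine natDegree_mul_le.trans ?_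
    have : (-C q * hq p ^ p).natDegree ≤ 2 * p := by
      refine natDegree_mul_le.trans ?_
      rw [← C_neg, natDegree_C, zero_add]
      exact h3
    omega
  · refine natDegree_mul_le.trans ?_
    omega
  · refine natDegree_mul_le.trans ?_
    have : (3 * hq p ^ p).natDegree ≤ 2 * p := by
      refine natDegree_mul_le.trans ?_
      rw [natDegree_ofNat, zero_add]
      exact h3
    omega

theorem hq_dvd_D1 (hp3 : p ≠ 3) : hq p ∣ D1 p := by
  rw [← hz_map]
  unfold D1
  exact Polynomial.map_dvd _ (dlog_dvd p hz hz_monic (hz_dvd p hp3))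

theorem hq_dvd_M3 (hp3 : p ≠ 3) (q : ZMod p) : hq p ∣ M3 p q := by
  unfold M3
  have h1 : hq p ∣ hq p ^ p := dvd_pow_self _ hp.out.ne_zero
  refine dvd_sub (dvd_add ?_ ?_) ?_
  · exact (h1.mul_left _).mul_right _
  · exact (hq_dvd_D1 p hp3).mul_left _
  · exact (h1.mul_left _).mul_right _

end Pool.Agent.Q267.MW
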