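import Pool.Agent.Q267.MW.C3Trans

set_option autoImplicit false

/-!
# The cubic transformation for the logarithmic companion
-/

namespace Pool.Agent.Q267.MW

open Finset Polynomial Pool.Agent.Q267.CDE

section gen

variable {K : Type*} [Field K]

theorem TT3_mul (M f : RatFunc K) : TT3 (M * f) = M * TT3 f +
    2 * (xx K * (1 - xx K ^ 3) * rd M) * rd f + rd (xx K * (1 - xx K ^ 3) * rd M) * f := by
  have h1 : rd (xx K * (1 - xx K ^ 3) * rd M) =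
      (1 - 4 * xx K ^ 3) * rd M + xx K * (1 - xx K ^ 3) * rd (rd M) := by
    rw [rd_mul, rd_mul, rd_sub, rd_one, rd_cube, rd_x]
    ring
  rw [h1]
  unfold TT3
  rw [rd_mul, rd_add, rd_mul, rd_mul]
  ring

theorem alg1 (x e0 e1 c2 : K) (h3 : (3 : K) ≠ 0) (hB : 1 + 2 * x ≠ 0) :
    c2 * ((1 - x) ^ 2 / (3 * (1 + 2 * x) ^ 3) *
      (-2 * (1 - 27 * (x * (1 + x + x ^ 2) / (3 * (1 + 2 * x) ^ 3))) * e1 + 27 * e0)) =
    (1 - x) ^ 2 / (1 + 2 * x) ^ 2 * ((5 + 4 * x) * (c2 * (e0 / (1 + 2 * x))) -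
      2 * (1 - x) * (1 + 2 * x) * (c2 * (e1 * ((1 - x) ^ 2 / (3 * (1 + 2 * x) ^ 4)) / (1 + 2 * x) -
        2 * (e0 / (1 + 2 * x) ^ 2)))) := by
  generalize hb : 1 + 2 * x = b at *
  field_simp
  rw [← hb]
  ring

theorem alg2 (x e0 e1 : K) (h3 : (3 : K) ≠ 0) :
    x ^ 2 / 3 * (-2 * (1 - 27 * (x ^ 3 / 27)) * e1 + 27 * e0) =
      -6 * (1 - x ^ 3) * (e1 * (x ^ 2 / 9)) + 9 * x ^ 2 * e0 := by
  have h27 : (27 : K) ≠ 0 := by
    have : (27 : K) = 3 ^ 3 := by norm_num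
    rw [this]; exact pow_ne_zero 3 h3
  have h9 : (9 : K) ≠ 0 := by
    have : (9 : K) = 3 ^ 2 := by norm_num
    rw [this]; exact pow_ne_zero 2 h3
  field_simp
  ring

end gen

variable (p : ℕ) [hp : Fact p.Prime]

theorem f_psi (hp3 : p ≠ 3) : io (f3 p) =
    (1 + 2 * xx (ZMod p)) ^ p * (ev (psi3 (ZMod p)) (F3p p) / (1 + 2 * xx (ZMod p))) := by
  rw [← trans_F p hp3, io_Ph1 p hp3]

theorem rd_f_psi (hp3 : p ≠ 3) : rd (io (f3 p)) = (1 + 2 * xx (ZMod p)) ^ p *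
    (ev (psi3 (ZMod p)) (derivative (F3p p)) *
      ((1 - xx (ZMod p)) ^ 2 / (3 * (1 + 2 * xx (ZMod p)) ^ 4)) / (1 + 2 * xx (ZMod p)) -
      2 * (ev (psi3 (ZMod p)) (F3p p) / (1 + 2 * xx (ZMod p)) ^ 2)) := by
  have h3 := three_z p hp3
  have hB := B_ne (F := ZMod p)
  have rB : rd (1 + 2 * xx (ZMod p)) = 2 := by
    rw [rd_add, rd_mul, rd_one, rd_ofNat, rd_x]; ring
  rw [f_psi p hp3, rd_mul, rd_c2, rd_quot _ _ hB, chain, rd_psi h3, rB]
  field_simp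
  ring

theorem rd_f_phi (hp3 : p ≠ 3) : rd (io (f3 p)) =
    ev (phi3 (ZMod p)) (derivative (F3p p)) * (xx (ZMod p) ^ 2 / 9) := by
  have h3 := three_z p hp3
  have h3K := three_ne_R h3
  have h27 : (27 : RatFunc (ZMod p)) ≠ 0 := by
    have : (27 : RatFunc (ZMod p)) = 3 ^ 3 := by norm_num
    rw [this]; exact pow_ne_zero 3 h3K
  have h9 : (9 : RatFunc (ZMod p)) ≠ 0 := by
    have : (9 : RatFunc (ZMod p)) = 3 ^ 2 := by norm_num
    rw [this]; exact pow_ne_zero 2 h3K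
  rw [io_f3 p hp3, chain]
  congr 1
  unfold phi3
  rw [rd_quot _ _ h27, rd_cube, rd_x, rd_ofNat]
  field_simp
  ring

theorem TT_Ga1 (hp2 : p ≠ 2) (hp3 : p ≠ 3) : TT3 (io (Ga1 p)) =
    (1 + 2 * xx (ZMod p)) ^ p * ((1 - xx (ZMod p)) ^ 2 / (1 + 2 * xx (ZMod p)) ^ 2 *
      ((5 + 4 * xx (ZMod p)) * io (f3 p) -
        2 * (1 - xx (ZMod p)) * (1 + 2 * xx (ZMod p)) * rd (io (f3 p)))) := by
  have h3 := three_z p hp3
  have h3K := three_ne_R h3
  have hB := B_ne (F := ZMod p)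
  have hc : rd ((1 + 2 * xx (ZMod p)) ^ (2 * p)) = 0 := by
    rw [two_mul p, pow_add, rd_mul, rd_c2]
    ring
  rw [io_Ga1 p hp3, TT3_smul _ _ hc, T_psi h3, Lp_G p hp2 hp3, two_mul p, pow_add, mul_assoc]
  congr 1
  rw [rd_f_psi p hp3, f_psi p hp3]
  simp only [map_add, map_mul, map_sub, map_neg, map_one, map_ofNat, ev_X]
  unfold psi3
  exact alg1 _ _ _ _ h3K hB

theorem TT_g3c (hp2 : p ≠ 2) (hp3 : p ≠ 3) : TT3 (io (g3c p)) =
    -6 * (1 - xx (ZMod p) ^ 3) * rd (io (f3 p)) + 9 * xx (ZMod p) ^ 2 * io (f3 p) := by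
  have h3 := three_z p hp3
  have h3K := three_ne_R h3
  rw [io_g3c p hp3, T_phi h3, Lp_G p hp2 hp3, rd_f_phi p hp3, io_f3 p hp3]
  simp only [map_add, map_mul, map_sub, map_neg, map_one, map_ofNat, ev_X]
  generalize ev (phi3 (ZMod p)) (F3p p) = e0
  generalize ev (phi3 (ZMod p)) (derivative (F3p p)) = e1
  unfold phi3
  exact alg2 _ _ _ h3K

/-- the derivative of the logarithmic factor -/
theorem N_eq (q : ZMod p) :
    xx (ZMod p) * (1 - xx (ZMod p) ^ 3) * rd (io (M3 p q)) =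
      io (hq p) ^ p * (1 + 2 * xx (ZMod p)) ^ p * ((1 - xx (ZMod p)) ^ 3 / (1 + 2 * xx (ZMod p))) -
        io ((1 - X) ^ 2) ^ p * (1 - xx (ZMod p) ^ 3) := by
  have hB := B_ne (F := ZMod p)
  have h := congrArg io (M3_der p q)
  rw [map_mul, map_mul, ← rd_io, map_mul, io_bq, map_sub, map_mul, map_mul io _ (hq p * bq p),
    map_mul io (hq p), map_mul io (hq p ^ p), map_pow io (hq p), map_pow io (bq p), io_bq,
    mul_comm 2 p, mul_comm p 2, pow_mul] at h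
  have e1 : io ((1 - X : (ZMod p)[X]) ^ 2) = (1 - xx (ZMod p)) ^ 2 := by
    rw [map_pow, map_sub, map_one]
  rw [map_pow io (((1 : (ZMod p)[X]) - X) ^ 2), e1] at h
  rw [e1]
  have e2 : io (hq p) = 1 + xx (ZMod p) + xx (ZMod p) ^ 2 := io_hq p
  set c1 := io (hq p) ^ p
  rw [e2] at h
  generalize (1 + 2 * xx (ZMod p)) ^ p = c2 at *
  generalize ((1 - xx (ZMod p)) ^ 2) ^ p = c3 at *
  generalize rd (io (M3 p q)) = m at *
  generalize 1 + 2 * xx (ZMod p) = b at *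
  field_simp
  linear_combination (1 - xx (ZMod p)) * h

theorem rd_N (q : ZMod p) :
    rd (xx (ZMod p) * (1 - xx (ZMod p) ^ 3) * rd (io (M3 p q))) =
      -(io (hq p) ^ p * (1 + 2 * xx (ZMod p)) ^ p * ((1 - xx (ZMod p)) ^ 2 * (5 + 4 * xx (ZMod p)) /
        (1 + 2 * xx (ZMod p)) ^ 2)) + io ((1 - X) ^ 2) ^ p * (3 * xx (ZMod p) ^ 2) := by
  have hB := B_ne (F := ZMod p)
  have rB : rd (1 + 2 * xx (ZMod p)) = 2 := by
    rw [rd_add, rd_mul, rd_one, rd_ofNat, rd_x]; ring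
  have h1 : rd ((1 - xx (ZMod p)) ^ 3 / (1 + 2 * xx (ZMod p))) =
      -((1 - xx (ZMod p)) ^ 2 * (5 + 4 * xx (ZMod p)) / (1 + 2 * xx (ZMod p)) ^ 2) := by
    rw [rd_quot _ _ hB, rd_cube, rd_sub, rd_one, rd_x, rB, neg_div']
    congr 1
    ring
  rw [N_eq, rd_sub, rd_mul, rd_mul, h1, rd_c2, rd_frob, rd_mul, rd_frob, rd_sub, rd_one, rd_cube,
    rd_x]
  ring

/-- the difference of the two sides -/
noncomputable def Y3 (q : ZMod p) : (ZMod p)[X] :=
  3 * hq p ^ p * Ga1 p + 3 * M3 p q * f3 p - ((1 - X) ^ 2) ^ p * (g3c p - C (3 * q) * f3 p)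

theorem TP_Y3 (hp2 : p ≠ 2) (hp3 : p ≠ 3) (q : ZMod p) : TP (Y3 p q) = 0 := by
  have hB := B_ne (F := ZMod p)
  apply io_inj
  rw [io_TP, map_zero]
  have e : io (Y3 p q) = io (hq p) ^ p * (3 * io (Ga1 p)) + 3 * (io (M3 p q) * io (f3 p)) -
      io ((1 - X) ^ 2) ^ p * (io (g3c p) - io (C (3 * q)) * io (f3 p)) := by
    unfold Y3
    simp only [map_sub, map_add, map_mul, map_pow, map_one, map_ofNat]
    ring
  rw [e, TT3_sub, TT3_add, TT3_smul _ _ (rd_frob p _), TT3_smul 3 _ (rd_ofNat 3),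
    TT3_smul 3 _ (rd_ofNat 3), TT3_smul _ _ (rd_frob p _), TT3_sub, TT3_smul _ _ (rd_const _),
    TT_f3 p hp3, TT3_mul, TT_f3 p hp3, TT_Ga1 p hp2 hp3, TT_g3c p hp2 hp3, rd_N, N_eq]
  generalize io (hq p) ^ p = c1
  generalize io ((1 - X : (ZMod p)[X]) ^ 2) ^ p = c3
  generalize (1 + 2 * xx (ZMod p)) ^ p = c2
  generalize io (f3 p) = f
  generalize rd f = f'
  generalize io (M3 p q) = m
  generalize 1 + 2 * xx (ZMod p) = b at *
  field_simp
  ring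

theorem pow_p_dvd_eval (a : (ZMod p)[X]) (x : ZMod p) : (a ^ p).eval x = a.eval x := by
  rw [eval_pow, ZMod.pow_card]

theorem trunc_eval (d : ℕ → ZMod p) (N : ℕ) (hd : ∀ k, k < p → N ≤ 3 * k → d k = 0) (x s : ZMod p)
    (hs : s * (3 * (bq p).eval x ^ 3) = x * (hq p).eval x) (h3 : (3 : ZMod p) ≠ 0) :
    (bq p).eval x * (∑ k ∈ range p, C (d k * (3 : ZMod p)⁻¹ ^ k) * (X * hq p) ^ k *
      bq p ^ (N - 1 - 3 * k)).eval x =
      (bq p).eval x ^ N * (∑ k ∈ range p, C (d k) * X ^ k).eval s := by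
  rw [eval_finsetSum, eval_finsetSum, mul_sum, mul_sum]
  refine sum_congr rfl fun k hk => ?_
  have hk' := mem_range.mp hk
  rcases Nat.lt_or_ge (3 * k) N with h | h
  · rw [eval_mul, eval_mul, eval_C, eval_pow, eval_pow, eval_mul, eval_X, eval_mul, eval_C,
      eval_pow, eval_X, ← hs]
    have e1 : (3 : ZMod p)⁻¹ ^ k * 3 ^ k = 1 := by rw [← mul_pow, inv_mul_cancel₀ h3, one_pow]
    have e2 : (bq p).eval x ^ N =
        (bq p).eval x ^ (N - 1 - 3 * k) * ((bq p).eval x ^ 3) ^ k * (bq p).eval x := by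
      rw [← pow_mul, ← pow_add, ← pow_succ]
      congr 1
      omega
    rw [e2, mul_pow, mul_pow]
    linear_combination ((bq p).eval x * d k * s ^ k * ((bq p).eval x ^ 3) ^ k *
      (bq p).eval x ^ (N - 1 - 3 * k)) * e1
  · rw [hd k hk' h]
    simp

theorem Ga1_eval (x s : ZMod p) (hs : s * (3 * (bq p).eval x ^ 3) = x * (hq p).eval x)
    (hp3 : p ≠ 3) (hb : (bq p).eval x ≠ 0) :
    (Ga1 p).eval x = (bq p).eval x * (G3p p).eval s := by
  have h := trunc_eval p (g3 p) (2 * p) (fun k hk h => g3_zero p k h hk) x s hs (three_z p hp3)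
  apply mul_left_cancel₀ hb
  have e : (bq p).eval x ^ (2 * p) = (bq p).eval x * (bq p).eval x := by
    rw [two_mul p, pow_add, ZMod.pow_card]
  rw [e] at h
  unfold Ga1 G3p
  rw [h]
  ring

theorem f3_eval (x : ZMod p) : (f3 p).eval x = (F3p p).eval ((3 : ZMod p)⁻¹ ^ 3 * x ^ 3) := by
  unfold f3
  rw [eval_comp]
  simp

theorem g3c_eval (x : ZMod p) : (g3c p).eval x = (G3p p).eval ((3 : ZMod p)⁻¹ ^ 3 * x ^ 3) := by
  unfold g3c
  rw [eval_comp]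
  simp

theorem Ga1_zero : (Ga1 p).eval 0 = 0 := by
  unfold Ga1
  rw [eval_finsetSum]
  refine sum_eq_zero fun k _ => ?_
  rw [eval_mul, eval_mul, eval_C, eval_pow, eval_mul, eval_X, zero_mul]
  rcases Nat.eq_zero_or_pos k with h | h
  · subst h
    have : g3 p 0 = 0 := by
      have h := G3p_zero p
      rw [← coeff_zero_eq_eval_zero, G3p_coeff, if_pos hp.out.pos] at h
      exact h
    rw [this]
    simp
  · rw [zero_pow h.ne', mul_zero, zero_mul]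

theorem Y3_zero (q : ZMod p) : (Y3 p q).eval 0 = 0 := by
  unfold Y3
  rw [eval_sub, eval_add, eval_mul, eval_mul, eval_mul, eval_mul, eval_mul, Ga1_zero, M3_zero,
    f3_zero, eval_pow, eval_pow, eval_pow, eval_sub, eval_sub, eval_mul, g3c_eval, f3_zero, eval_C,
    eval_one, eval_X]
  have : (3 : (ZMod p)[X]).eval 0 = 3 := by simp
  rw [this, zero_pow (by norm_num : 3 ≠ 0), mul_zero, mul_zero, G3p_zero, sub_zero, one_pow,
    one_pow]
  ring

theorem Y3_one (hp2 : p ≠ 2) (hp3 : p ≠ 3) (q : ZMod p) (Q : R p)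
    (hQ : (3 : R p) ^ (p - 1) = 1 + p * Q) (hq' : red p Q = q) : (Y3 p q).eval 1 = 0 := by
  have h3 := three_z p hp3
  have hc : 3 * (3 : ZMod p)⁻¹ = 1 := mul_inv_cancel₀ h3
  obtain ⟨hG, -⟩ := G3_node p hp2 hp3 (3 : ZMod p)⁻¹ q hc Q hQ hq'
  have e3 : (hq p).eval 1 = 3 := by unfold hq; norm_num
  have e4 : (bq p).eval 1 = 3 := by unfold bq; norm_num
  have hs : (3 : ZMod p)⁻¹ ^ 3 * (3 * (bq p).eval 1 ^ 3) = 1 * (hq p).eval 1 := by
    rw [e3, e4]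
    calc (3 : ZMod p)⁻¹ ^ 3 * (3 * 3 ^ 3) = (3 * (3 : ZMod p)⁻¹) ^ 3 * 3 := by ring
      _ = 1 * 3 := by rw [hc]; ring
  have hGa := Ga1_eval p 1 _ hs hp3 (by rw [e4]; exact h3)
  have e5 : (3 : (ZMod p)[X]).eval 1 = 3 := by simp
  unfold Y3
  rw [eval_sub, eval_add, eval_mul, eval_mul, eval_mul, eval_mul, eval_mul, hGa, M3_one p q Q hQ hq',
    f3_eval, eval_pow, eval_pow, eval_pow, eval_sub, eval_one, eval_X, e3, e4, e5, hG,
    ZMod.pow_card, one_pow, mul_one]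
  have h0 : ((1 : ZMod p) - 1) ^ 2 = 0 := by ring
  rw [h0, ZMod.pow_card]
  ring

theorem hq_dvd_comp (P : (ZMod p)[X]) (hP : P.eval ((3 : ZMod p)⁻¹ ^ 3) = 0) :
    hq p ∣ P.comp (C ((3 : ZMod p)⁻¹ ^ 3) * X ^ 3) := by
  obtain ⟨Q, hQ⟩ := dvd_iff_isRoot.mpr hP
  rw [hQ, mul_comp, sub_comp, X_comp, C_comp]
  refine Dvd.dvd.mul_right ?_ _
  have : C ((3 : ZMod p)⁻¹ ^ 3) * X ^ 3 - C ((3 : ZMod p)⁻¹ ^ 3) =
      hq p * (C ((3 : ZMod p)⁻¹ ^ 3) * (X - 1)) := by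
    unfold hq
    ring
  exact ⟨_, this⟩

theorem hq_dvd_Y3 (hp2 : p ≠ 2) (hp3 : p ≠ 3) (q : ZMod p) (Q : R p)
    (hQ : (3 : R p) ^ (p - 1) = 1 + p * Q) (hq' : red p Q = q) : hq p ∣ Y3 p q := by
  have h3 := three_z p hp3
  have hc : 3 * (3 : ZMod p)⁻¹ = 1 := mul_inv_cancel₀ h3
  obtain ⟨hG, -⟩ := G3_node p hp2 hp3 (3 : ZMod p)⁻¹ q hc Q hQ hq'
  unfold Y3
  refine dvd_sub (dvd_add ?_ ?_) ?_
  · exact ((dvd_pow_self _ hp.out.ne_zero).mul_left _).mul_right _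
  · exact ((hq_dvd_M3 p hp3 q).mul_left _).mul_right _
  · refine Dvd.dvd.mul_left ?_ _
    have e : g3c p - C (3 * q) * f3 p =
        (G3p p - C (3 * q) * F3p p).comp (C ((3 : ZMod p)⁻¹ ^ 3) * X ^ 3) := by
      unfold g3c f3
      rw [sub_comp, mul_comp, C_comp]
    rw [e]
    apply hq_dvd_comp p _
    rw [eval_sub, eval_mul, eval_C, hG, sub_self]

theorem Y3_deg (q : ZMod p) : (Y3 p q).natDegree < 4 * p := by
  have hp0 := hp.out.pos
  have a0 : (Ga1 p).natDegree ≤ 2 * p - 1 :=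
    trunc_deg p (g3 p) (2 * p) fun k hk h => g3_zero p k h hk
  have a2 : (f3 p).natDegree ≤ 3 * (F3p p).natDegree := comp_deg p _ _
  have a3 := F3p_deg p
  have a4 : (g3c p).natDegree ≤ 3 * (G3p p).natDegree := comp_deg p _ _
  have a5 := G3p_deg p
  have a6 : (hq p ^ p).natDegree ≤ 2 * p := by
    refine natDegree_pow_le.trans ?_
    rw [mul_comm]
    exact Nat.mul_le_mul_right _ (hq_deg p)
  have a7 := M3_deg p q
  have a8 : (((1 - X : (ZMod p)[X]) ^ 2) ^ p).natDegree ≤ 2 * p := by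
    rw [← pow_mul]
    refine natDegree_pow_le.trans ?_
    have : (1 - X : (ZMod p)[X]).natDegree ≤ 1 := by compute_degree
    calc 2 * p * (1 - X : (ZMod p)[X]).natDegree ≤ 2 * p * 1 := Nat.mul_le_mul_left _ this
      _ = _ := mul_one _
  unfold Y3
  refine lt_of_le_of_lt (natDegree_sub_le _ _) (max_lt (lt_of_le_of_lt (natDegree_add_le _ _)
    (max_lt ?_ ?_)) ?_)
  · refine lt_of_le_of_lt natDegree_mul_le ?_
    have : (3 * hq p ^ p).natDegree ≤ 2 * p := by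
      refine natDegree_mul_le.trans ?_
      rw [natDegree_ofNat, zero_add]
      exact a6
    omega
  · refine lt_of_le_of_lt natDegree_mul_le ?_
    have : (3 * M3 p q).natDegree ≤ 3 * p := by
      refine natDegree_mul_le.trans ?_
      rw [natDegree_ofNat, zero_add]
      exact a7
    omega
  · refine lt_of_le_of_lt natDegree_mul_le ?_
    have : (g3c p - C (3 * q) * f3 p).natDegree < 2 * p := by
      refine lt_of_le_of_lt (natDegree_sub_le _ _) (max_lt (by omega) ?_)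
      refine lt_of_le_of_lt (natDegree_C_mul_le _ _) (by omega)
    omega

/-- **the logarithmic transformation modulo `p`** -/
theorem Y3_eq (hp2 : p ≠ 2) (hp3 : p ≠ 3) (q : ZMod p) (Q : R p)
    (hQ : (3 : R p) ^ (p - 1) = 1 + p * Q) (hq' : red p Q = q) : Y3 p q = 0 := by
  have h3 := three_z p hp3
  have hT := TP_Y3 p hp2 hp3 q
  have d1 : (X : (ZMod p)[X]) ^ p ∣ Y3 p q := by
    refine steps p (cast_ne' p) X (1 - X ^ 3) _ rfl cop_X hT ?_ p hp.out.pos le_rfl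
    rw [X_dvd_iff, coeff_zero_eq_eval_zero, Y3_zero]
  have d2 : (X - 1 : (ZMod p)[X]) ^ p ∣ Y3 p q := by
    refine steps p (cast_ne' p) (X - 1) (-(X * (X ^ 2 + X + 1))) _ (by ring) (cop_X1 h3) hT ?_ p
      hp.out.pos le_rfl
    have : (X - 1 : (ZMod p)[X]) = X - C 1 := by rw [C_1]
    rw [this, dvd_iff_isRoot]
    exact Y3_one p hp2 hp3 q Q hQ hq'
  have d3 : (hq p) ^ p ∣ Y3 p q := by
    refine steps p (cast_ne' p) (hq p) (X * (1 - X)) _ (by unfold hq; ring) (cop_h h3) hT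
      (hq_dvd_Y3 p hp2 hp3 q Q hQ hq') p hp.out.pos le_rfl
  have c12 : IsCoprime (X : (ZMod p)[X]) (X - 1) := ⟨1, -1, by ring⟩
  have c13 : IsCoprime (X : (ZMod p)[X]) (hq p) := ⟨-(X + 1), 1, by unfold hq; ring⟩
  have e : (C (3 : ZMod p)⁻¹ * 3 : (ZMod p)[X]) = 1 := by
    rw [show (3 : (ZMod p)[X]) = C 3 by rw [map_ofNat], ← C_mul, inv_mul_cancel₀ h3, C_1]
  have c23 : IsCoprime (X - 1 : (ZMod p)[X]) (hq p) :=
    ⟨-C (3 : ZMod p)⁻¹ * (X + 2), C (3 : ZMod p)⁻¹, by unfold hq; linear_combination e⟩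
  have h12 : (X : (ZMod p)[X]) ^ p * (X - 1) ^ p ∣ Y3 p q := (c12.pow).mul_dvd d1 d2
  have h123 : (X : (ZMod p)[X]) ^ p * (X - 1) ^ p * (hq p) ^ p ∣ Y3 p q :=
    ((c13.pow).mul_left (c23.pow)).mul_dvd h12 d3
  by_contra hne
  have h2 := natDegree_le_of_dvd h123 hne
  have h4 := Y3_deg p q
  have hm : (hq p).Monic := by
    rw [← hz_map]
    exact hz_monic.map _
  have hm1 : (X - 1 : (ZMod p)[X]).Monic := by
    have : (X - 1 : (ZMod p)[X]) = X - C 1 := by rw [C_1]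
    rw [this]
    exact monic_X_sub_C 1
  have hnd : (hq p).natDegree = 2 := by
    unfold hq
    compute_degree!
  have hnd1 : (X - 1 : (ZMod p)[X]).natDegree = 1 := by
    have : (X - 1 : (ZMod p)[X]) = X - C 1 := by rw [C_1]
    rw [this]
    exact natDegree_X_sub_C 1
  rw [Monic.natDegree_mul ((monic_X_pow p).mul (hm1.pow p)) (hm.pow p),
    Monic.natDegree_mul (monic_X_pow p) (hm1.pow p), natDegree_X_pow, Monic.natDegree_pow hm1,
    Monic.natDegree_pow hm, hnd, hnd1] at h2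
  omega

/-- evaluation of the transformation -/
theorem Y3_at (hp2 : p ≠ 2) (hp3 : p ≠ 3) (q : ZMod p) (Q : R p)
    (hQ : (3 : R p) ^ (p - 1) = 1 + p * Q) (hq' : red p Q = q) (x s : ZMod p)
    (hs : s * (3 * (1 + 2 * x) ^ 3) = x * (1 + x + x ^ 2)) (hs' : 27 * s = x ^ 3)
    (hb : 1 + 2 * x ≠ 0) :
    3 * ((1 + x + x ^ 2) * (1 + 2 * x)) * (G3p p).eval s + 3 * (M3 p q).eval x * (F3p p).eval s =
      (1 - x) ^ 2 * ((G3p p).eval s - 3 * q * (F3p p).eval s) := by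
  have h3 := three_z p hp3
  have ebq : (bq p).eval x = 1 + 2 * x := by unfold bq; simp; ring
  have ehq : (hq p).eval x = 1 + x + x ^ 2 := by unfold hq; simp; ring
  have e5 : (3 : (ZMod p)[X]).eval x = 3 := by simp
  have es : (3 : ZMod p)⁻¹ ^ 3 * x ^ 3 = s := by
    have h := inv_mul_cancel₀ h3
    rw [← hs']
    calc (3 : ZMod p)⁻¹ ^ 3 * (27 * s) = ((3 : ZMod p)⁻¹ * 3) ^ 3 * s := by ring
      _ = s := by rw [h]; ring
  have hY := congrArg (eval x) (Y3_eq p hp2 hp3 q Q hQ hq')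
  unfold Y3 at hY
  rw [eval_sub, eval_add, eval_mul, eval_mul, eval_mul, eval_mul, eval_mul,
    Ga1_eval p x s (by rw [ebq, ehq]; exact hs) hp3 (by rw [ebq]; exact hb), eval_sub, eval_mul,
    f3_eval, g3c_eval, es, eval_pow, eval_pow, ZMod.pow_card, ZMod.pow_card, eval_pow, eval_sub,
    eval_one, eval_X, eval_C, eval_zero, e5, ebq, ehq] at hY
  linear_combination hY

end Pool.Agent.Q267.MW
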