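import Pool.Agent.Q267.MW.Char

set_option autoImplicit false

/-!
# The trace of the Legendre family modulo `p²`
-/

namespace Pool.Agent.Q267.MW

open Finset Pool.Agent.Q267.CDE

variable (p : ℕ) [hp : Fact p.Prime]

/-- the Jacobi sums with the quadratic character -/
noncomputable def JJ (m k : ℕ) : R p := ∑ t : ZMod p, om p t ^ (p - 1 - k) * om p (1 - t) ^ m

variable {m : ℕ}

theorem sum_one_sub (hpm : p = 2 * m + 1) (hm : 0 < m) :
    ∑ t : ZMod p, om p (1 - t) ^ m = 0 := by
  rw [← sum_om_lt p m hm (by omega)]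
  exact Fintype.sum_equiv (Equiv.subLeft 1) _ _ fun t => rfl

theorem JJ_zero (hpm : p = 2 * m + 1) (hm : 0 < m) : JJ p m 0 = -1 := by
  unfold JJ
  have e : ∀ t : ZMod p, om p t ^ (p - 1 - 0) * om p (1 - t) ^ m =
      om p (1 - t) ^ m - if t = 0 then 1 else 0 := by
    intro t
    split_ifs with h
    · rw [h, om_zero, sub_zero, om_one, one_pow, zero_pow (by omega)]
      ring
    · rw [Nat.sub_zero, om_pow_card p h]
      ring
  rw [sum_congr rfl fun t _ => e t, sum_sub_distrib, sum_one_sub p hpm hm,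
    sum_ite_eq' univ (0 : ZMod p), if_pos (mem_univ _), zero_sub]

theorem sum_inv (g : ZMod p → R p) : ∑ x : ZMod p, g x = ∑ x : ZMod p, g x⁻¹ :=
  Fintype.sum_equiv (Equiv.inv (ZMod p)) _ _ fun x => by
    rw [Equiv.inv_apply, inv_inv]

theorem JJ_m (hpm : p = 2 * m + 1) (hm : 0 < m) : JJ p m m = -(-1) ^ m := by
  have hodd : Odd p := ⟨m, hpm⟩
  unfold JJ
  rw [sum_inv]
  have e : ∀ t : ZMod p, om p t⁻¹ ^ (p - 1 - m) * om p (1 - t⁻¹) ^ m =
      (-1) ^ m * (om p (1 - t) ^ m - if t = 0 then 1 else 0) := by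
    intro t
    split_ifs with h
    · rw [h, inv_zero, om_zero, sub_zero, om_one, one_pow, zero_pow (by omega)]
      ring
    · have h1 : (1 - t⁻¹ : ZMod p) = (-1) * ((1 - t) * t⁻¹) := by
        field_simp
        ring
      have h2 : om p t⁻¹ ^ (2 * m) = 1 := by
        rw [show 2 * m = p - 1 by omega]
        exact om_pow_card p (inv_ne_zero h)
      rw [h1, om_mul, om_mul, mul_pow, mul_pow, om_neg_one_pow p hodd, show p - 1 - m = m by omega]
      have h3 : om p t⁻¹ ^ m * om p t⁻¹ ^ m = 1 := by rw [← pow_add, ← two_mul, h2]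
      linear_combination (-1) ^ m * om p (1 - t) ^ m * h3
  rw [sum_congr rfl fun t _ => e t, ← mul_sum, sum_sub_distrib, sum_one_sub p hpm hm,
    sum_ite_eq' univ (0 : ZMod p), if_pos (mem_univ _)]
  ring

theorem JJ_refl (hpm : p = 2 * m + 1) (hm : 0 < m) (k : ℕ) (hk : k < p - 1) :
    ∑ x : ZMod p, om p x ^ (m + k) * om p (1 - x) ^ m = (-1) ^ m * JJ p m k := by
  have hodd : Odd p := ⟨m, hpm⟩
  unfold JJ
  rw [sum_inv, mul_sum]
  refine sum_congr rfl fun t _ => ?_
  by_cases h : t = 0
  · rw [h, inv_zero, om_zero, zero_pow (by omega), zero_pow (by omega)]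
    ring
  · have h1 : (1 - t⁻¹ : ZMod p) = (-1) * ((1 - t) * t⁻¹) := by
      field_simp
      ring
    rw [h1, om_mul, om_mul, mul_pow, mul_pow, om_neg_one_pow p hodd]
    have h2 : om p t⁻¹ ^ (2 * m) = 1 := by
      rw [show 2 * m = p - 1 by omega]
      exact om_pow_card p (inv_ne_zero h)
    have h3 : om p t⁻¹ ^ k = om p t ^ (p - 1 - k) := by
      have h4 : om p t ^ (p - 1 - k) * om p t ^ k = 1 := by
        rw [← pow_add, Nat.sub_add_cancel (by omega), om_pow_card p h]
      have h5 : om p t ^ k * om p t⁻¹ ^ k = 1 := by rw [← mul_pow, om_inv p t h, one_pow]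
      linear_combination (-om p t⁻¹ ^ k) * h4 + om p t ^ (p - 1 - k) * h5
    have h6 : om p t⁻¹ ^ (m + k) * om p t⁻¹ ^ m = om p t ^ (p - 1 - k) := by
      rw [← h3, ← pow_add, show m + k + m = 2 * m + k by omega, pow_add, h2, one_mul]
    linear_combination (-1) ^ m * om p (1 - t) ^ m * h6

theorem JJ_big (hpm : p = 2 * m + 1) (k : ℕ) (hk : m < k) (hk' : k < p - 1) : (JJ p m k) ^ 2 = 0 := by
  have h1 : red p (JJ p m k) = red p 0 := by
    unfold JJ
    rw [map_sum, map_zero]
    rw [← sum_jac_lt p (p - 1 - k) m (by omega)]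
    refine sum_congr rfl fun t _ => ?_
    rw [map_mul, map_pow, map_pow, red_om, red_om]
  obtain ⟨z, hz⟩ := red_eq_of p _ _ h1
  rw [hz, zero_add, mul_pow, p_sq, zero_mul]

/-- the harmonic weight -/
noncomputable def hk (m k : ℕ) : ZMod p :=
  (m : ZMod p) * H (ZMod p) m - ((m : ZMod p) - k) * H (ZMod p) (m - k) - k * H (ZMod p) k

theorem JJ_small (hpm : p = 2 * m + 1) (hm : 0 < m) (k : ℕ) (hkm : k ≤ m) :
    JJ p m k = -((-1) ^ k * (((m.choose k : ℕ) : R p) * (1 + p * lift p (hk p m k)))) := by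
  have hodd : Odd p := ⟨m, hpm⟩
  rcases Nat.eq_zero_or_pos k with h0 | h0
  · subst h0
    have h1 : hk p m 0 = 0 := by
      unfold hk
      rw [Nat.sub_zero, H_zero]
      push_cast
      ring
    have h2 : (p : R p) * lift p (hk p m 0) = p * 0 := by
      apply p_mul_eq
      rw [red_lift, h1, map_zero]
    rw [JJ_zero p hpm hm, h2, Nat.choose_zero_right]
    push_cast
    ring
  rcases Nat.lt_or_ge k m with h | h
  · unfold JJ
    refine jac p hodd k m h0 h (by omega) _ ?_
    rw [red_lift]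
    rfl
  · have : k = m := le_antisymm hkm h
    subst this
    have h1 : hk p k k = 0 := by
      unfold hk
      rw [Nat.sub_self, H_zero]
      ring
    have h2 : (p : R p) * lift p (hk p k k) = p * 0 := by
      apply p_mul_eq
      rw [red_lift, h1, map_zero]
    rw [JJ_m p hpm hm, h2, Nat.choose_self]
    push_cast
    ring

/-- **The trace of the Legendre family modulo `p²`** -/
theorem tr_leg (hpm : p = 2 * m + 1) (hm : 0 < m) (l : ZMod p) (hl : l ≠ 0) :
    ∑ x : ZMod p, om p x ^ m * om p (1 - x) ^ m * om p (1 - l * x) ^ m =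
      -((-1) ^ m * ((1 + p) * ∑ k ∈ range (m + 1), ((m.choose k : ℕ) : R p) ^ 2 *
        (1 + 2 * (p * lift p (hk p m k))) * om p l ^ k)) := by
  have hodd : Odd p := ⟨m, hpm⟩
  have h1 : ((p : R p) - 1) *
      ∑ x : ZMod p, om p x ^ m * om p (1 - x) ^ m * om p (1 - l * x) ^ m =
      (-1) ^ m * ∑ k ∈ range (p - 1), (JJ p m k) ^ 2 * om p l ^ k := by
    rw [mul_sum]
    have e : ∀ x : ZMod p, ((p : R p) - 1) *
        (om p x ^ m * om p (1 - x) ^ m * om p (1 - l * x) ^ m) =
        ∑ k ∈ range (p - 1), JJ p m k * om p l ^ k * (om p x ^ (m + k) * om p (1 - x) ^ m) := by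
      intro x
      by_cases hx : x = 0
      · subst hx
        rw [om_zero, zero_pow (by omega)]
        symm
        rw [zero_mul, zero_mul, mul_zero]
        refine sum_eq_zero fun k _ => ?_
        rw [zero_pow (by omega), zero_mul, mul_zero]
      · have := expand p (fun y => om p (1 - y) ^ m) (l * x) (mul_ne_zero hl hx)
        rw [show ((p : R p) - 1) * (om p x ^ m * om p (1 - x) ^ m * om p (1 - l * x) ^ m) =
          om p x ^ m * om p (1 - x) ^ m * (((p : R p) - 1) * om p (1 - l * x) ^ m) by ring, this,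
          mul_sum]
        refine sum_congr rfl fun k _ => ?_
        unfold JJ
        rw [om_mul, mul_pow, pow_add (om p x)]
        ring
    rw [sum_congr rfl fun x _ => e x, sum_comm, mul_sum]
    refine sum_congr rfl fun k hk => ?_
    rw [← mul_sum, JJ_refl p hpm hm k (mem_range.mp hk)]
    ring
  have h2 : ∑ k ∈ range (p - 1), (JJ p m k) ^ 2 * om p l ^ k =
      ∑ k ∈ range (m + 1), ((m.choose k : ℕ) : R p) ^ 2 *
        (1 + 2 * (p * lift p (hk p m k))) * om p l ^ k := by
    have hpp := p_sq p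
    by_cases hm1 : m = 1
    · subst hm1
      have hp3 : p = 3 := by omega
      have hr : range (p - 1) = range (1 + 1) := by rw [hp3]
      rw [hr]
      refine sum_congr rfl fun k hk => ?_
      have hk' : k < 1 + 1 := mem_range.mp hk
      rw [JJ_small p hpm hm k (by omega)]
      have h3 : ((-1 : R p) ^ k) * (-1) ^ k = 1 := by rw [← mul_pow]; norm_num
      linear_combination (((1 : ℕ).choose k : ℕ) : R p) ^ 2 * om p l ^ k *
        ((1 + p * lift p (Pool.Agent.Q267.MW.hk p 1 k)) ^ 2 * h3 +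
          (lift p (Pool.Agent.Q267.MW.hk p 1 k)) ^ 2 * hpp)
    · have hsub : range (m + 1) ⊆ range (p - 1) := by
        intro k hk
        rw [mem_range] at hk ⊢
        omega
      rw [← sum_subset hsub]
      · refine sum_congr rfl fun k hk => ?_
        have hk' : k < m + 1 := mem_range.mp hk
        rw [JJ_small p hpm hm k (by omega)]
        have h3 : ((-1 : R p) ^ k) * (-1) ^ k = 1 := by rw [← mul_pow]; norm_num
        linear_combination ((m.choose k : ℕ) : R p) ^ 2 * om p l ^ k *
          ((1 + p * lift p (Pool.Agent.Q267.MW.hk p m k)) ^ 2 * h3 +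
            (lift p (Pool.Agent.Q267.MW.hk p m k)) ^ 2 * hpp)
      · intro k hk hk2
        rw [mem_range] at hk
        rw [mem_range, not_lt] at hk2
        rw [JJ_big p hpm k (by omega) hk, zero_mul]
  rw [h2] at h1
  have hpp := p_sq p
  set S := ∑ k ∈ range (m + 1), ((m.choose k : ℕ) : R p) ^ 2 *
        (1 + 2 * (p * lift p (hk p m k))) * om p l ^ k
  set f := ∑ x : ZMod p, om p x ^ m * om p (1 - x) ^ m * om p (1 - l * x) ^ m
  linear_combination (-(1 + (p : R p))) * h1 + f * hpp

end Pool.Agent.Q267.MW
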