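import Pool.Agent.Q267.MW.C3Coef
import Pool.Agent.Q267.MW.TrLeg

set_option autoImplicit false

/-!
# The moments of the cubic family in all ranges
-/

namespace Pool.Agent.Q267.MW

open Finset Pool.Agent.Q267.CDE

variable (p : ℕ) [hp : Fact p.Prime]

theorem castc (a b : ℕ) (h : a + b = p) : ((a : ℕ) : ZMod p) = -(b : ZMod p) := by
  have h' := congrArg (Nat.cast : ℕ → ZMod p) h
  rw [ZMod.natCast_self] at h'
  push_cast at h'
  linear_combination h'

/-- `J2` in the range `2k < p - 1` -/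
theorem J2_low (hodd : Odd p) (k : ℕ) (h0 : 0 < k) (hk : 2 * k < p - 1) :
    J2 p (p - 1 - k) = -((((2 * k).choose k : ℕ) : R p) *
      (1 + p * lift p (k * (2 * H (ZMod p) (2 * k) - 2 * H (ZMod p) k)))) := by
  have hpp := p_sq p
  have hc : (((p - 1 - k).choose k : ℕ) : R p) = (-1) ^ k * (((2 * k).choose k : ℕ) : R p) *
      (1 - p * lift p (H (ZMod p) (2 * k) - H (ZMod p) k)) := by
    have := choose_neg p k k (by omega)
    rwa [show k + k = 2 * k by ring] at this
  have hh : red p (lift p (-(1 + (k : ZMod p)) * H (ZMod p) k - k * H (ZMod p) k +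
        (1 + 2 * k) * H (ZMod p) (2 * k))) =
        ((p - 1 - k : ℕ) : ZMod p) * H (ZMod p) (p - 1 - k) -
        (((p - 1 - k : ℕ) : ZMod p) - k) * H (ZMod p) ((p - 1 - k) - k) -
        k * H (ZMod p) k := by
    rw [red_lift, show (p - 1 - k) - k = p - 1 - 2 * k by omega, H_refl p hodd k (by omega),
      H_refl p hodd (2 * k) (by omega)]
    have c1 := castc p (p - 1 - k) (1 + k) (by omega)
    push_cast at c1
    rw [c1]
    ring
  unfold J2
  rw [jac p hodd k (p - 1 - k) h0 (by omega) (by omega) _ hh, hc]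
  set c : R p := (((2 * k).choose k : ℕ) : R p)
  have hs : ((-1 : R p)) ^ k * (-1) ^ k = 1 := by rw [← mul_pow]; norm_num
  set s : R p := (-1) ^ k
  set l1 := lift p (H (ZMod p) (2 * k) - H (ZMod p) k) with hl1
  set l2 := lift p (-(1 + (k : ZMod p)) * H (ZMod p) k - k * H (ZMod p) k +
        (1 + 2 * k) * H (ZMod p) (2 * k)) with hl2
  have e3 : (p : R p) * lift p (k * (2 * H (ZMod p) (2 * k) - 2 * H (ZMod p) k)) =
      p * (l2 - l1) := by
    apply p_mul_eq
    rw [map_sub, hl1, hl2, red_lift, red_lift, red_lift]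
    ring
  rw [e3]
  linear_combination (-(c * (1 - p * l1) * (1 + p * l2))) * hs + c * l1 * l2 * hpp

theorem sq_sum_zero (k : ℕ) (h0 : 0 < k) (hk : k < p - 1) (hm : 2 * k ≠ p - 1) :
    ∑ w : ZMod p, om p w ^ (2 * (p - 1 - k)) = 0 := by
  rw [sum_om p _ (by omega), if_neg]
  rintro ⟨c, hc⟩
  have hp2 := hp.out.two_le
  have h1 : c < 2 := by
    by_contra h
    have : (p - 1) * 2 ≤ (p - 1) * c := Nat.mul_le_mul_left _ (by omega)
    omega
  interval_cases c <;> omega

omit hp in
theorem sgn_e (hodd : Odd p) (k : ℕ) (hk : k ≤ p - 1) : ((-1 : R p)) ^ (p - 1 - k) = (-1) ^ k := by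
  have h1 : ((-1 : R p)) ^ (p - 1 - k) * (-1) ^ k = 1 := by
    rw [← pow_add, Nat.sub_add_cancel hk, neg_one_even p hodd]
  have hs : ((-1 : R p)) ^ k * (-1) ^ k = 1 := by rw [← mul_pow]; norm_num
  linear_combination (-1) ^ k * h1 - (-1) ^ (p - 1 - k) * hs

/-- the moments, first range -/
theorem mom_low (hodd : Odd p) (k : ℕ) (h0 : 0 < k) (hk : 3 * k < p) :
    ∑ s : ZMod p, om p s ^ (p - 1 - k) * tor p s =
      ((u3 k : ℕ) : R p) + p * lift p (k * g3 p k) := by
  have hpp := p_sq p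
  rw [tor_mom p hodd _ (by omega), sq_sum_zero p k h0 (by omega) (by omega), sgn_e p hodd k (by omega),
    J2_low p hodd k h0 (by omega), K3_low p hodd k h0 hk]
  have e1 : (p : R p) * lift p (k * g3 p k) = p * (((u3 k : ℕ) : R p) *
      (lift p (k * (2 * H (ZMod p) (2 * k) - 2 * H (ZMod p) k)) +
        lift p (k * (3 * H (ZMod p) (3 * k) - 2 * H (ZMod p) (2 * k) - H (ZMod p) k)))) := by
    apply p_mul_eq
    unfold g3
    rw [if_pos hk, map_mul, map_add, red_lift, red_lift, red_lift, red_nat]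
    ring
  rw [e1]
  unfold u3
  push_cast
  have hs : ((-1 : R p)) ^ k * (-1) ^ k = 1 := by rw [← mul_pow]; norm_num
  set s : R p := (-1) ^ k
  set a : R p := (((2 * k).choose k : ℕ) : R p)
  set b : R p := (((3 * k).choose k : ℕ) : R p)
  set l1 := lift p (k * (2 * H (ZMod p) (2 * k) - 2 * H (ZMod p) k))
  set l2 := lift p (k * (3 * H (ZMod p) (3 * k) - 2 * H (ZMod p) (2 * k) - H (ZMod p) k))
  linear_combination a * b * (1 + p * l1) * (1 + p * l2) * hs + a * b * l1 * l2 * hpp

/-- the coefficient in the range `p ≤ 3k` -/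
theorem coef_mid (k : ℕ) (h1 : p ≤ 3 * k) (h2 : k < p) :
    ((u3 k : ℕ) : R p) + p * lift p (k * g3 p k) = (3 * (k : R p) + 1) * ((u3 k : ℕ) : R p) := by
  obtain ⟨c, hc⟩ := dvd_u3 p k h1 h2
  have e1 : (p : R p) * lift p (k * g3 p k) = p * (3 * k * ((c : ℕ) : R p)) := by
    apply p_mul_eq
    unfold g3
    rw [if_neg (by omega), red_lift, hc, Nat.mul_div_cancel_left _ hp.out.pos]
    simp only [map_mul, map_natCast, map_ofNat]
    ring
  rw [e1, hc]
  push_cast
  ring

theorem K3_mid (hodd : Odd p) (k A N : ℕ) (hA : 3 * k = (p - 1) + A) (hN : 2 * k + N = p - 1)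
    (hA0 : 0 < A) (hN0 : 0 < N) :
    K3 p (p - 1 - k) = -((-1) ^ k * (p * lift p (((A.factorial : ℕ) : ZMod p) *
      ((N.factorial : ℕ) : ZMod p) * (((k.factorial : ℕ) : ZMod p))⁻¹))) := by
  have hAN : A + N = k := by omega
  rw [K3_eq p k (by omega) (by omega), sum_plus p hodd]
  have e2 : ∀ t : ZMod p, om p t ^ (3 * k) * om p (1 - t) ^ (2 * (p - 1 - k)) =
      om p t ^ A * om p (1 - t) ^ N := by
    intro t
    rw [hA, show p - 1 + A = A + (p - 1) by ring, pow_red p _ _ hA0,
      show 2 * (p - 1 - k) = N + (p - 1) by omega, pow_red p _ _ hN0]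
  rw [sum_congr rfl fun t _ => e2 t, jac_small p hodd A N hA0 hN0 (by omega), hAN]
  have : ((-1 : R p)) ^ (3 * k) = (-1) ^ k := by
    rw [pow_mul]
    norm_num
  rw [this]
  ring

/-- the moments, second range -/
theorem mom_mid (hodd : Odd p) (k : ℕ) (h1 : p ≤ 3 * k) (h2 : 2 * k < p - 1) :
    ∑ s : ZMod p, om p s ^ (p - 1 - k) * tor p s =
      ((u3 k : ℕ) : R p) + p * lift p (k * g3 p k) := by
  obtain ⟨A, hA⟩ : ∃ A, 3 * k = (p - 1) + A := ⟨3 * k - (p - 1), by omega⟩
  obtain ⟨N, hN⟩ : ∃ N, 2 * k + N = p - 1 := ⟨p - 1 - 2 * k, by omega⟩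
  rw [coef_mid p k h1 (by omega), u3_mid p k A (by omega) (by omega),
    tor_mom p hodd _ (by omega), sq_sum_zero p k (by omega) (by omega) (by omega),
    sgn_e p hodd k (by omega), J2_low p hodd k (by omega) h2,
    K3_mid p hodd k A N hA hN (by omega) (by omega)]
  have hpp := p_sq p
  have hs : ((-1 : R p)) ^ k * (-1) ^ k = 1 := by rw [← mul_pow]; norm_num
  set s : R p := (-1) ^ k
  set c : R p := (((2 * k).choose k : ℕ) : R p) with hc
  set l1 := lift p (k * (2 * H (ZMod p) (2 * k) - 2 * H (ZMod p) k))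
  set l2 := lift p (((A.factorial : ℕ) : ZMod p) *
      ((N.factorial : ℕ) : ZMod p) * (((k.factorial : ℕ) : ZMod p))⁻¹) with hl2
  have e1 : (p : R p) * (c * l2) = p * lift p (-((A.factorial : ℕ) : ZMod p) *
      ((((k.factorial : ℕ) : ZMod p)) ^ 3)⁻¹) := by
    apply p_mul_eq
    rw [map_mul, hl2, hc, red_lift, red_lift, red_nat]
    have f1 := congrArg (Nat.cast : ℕ → ZMod p)
      (Nat.choose_mul_factorial_mul_factorial (show k ≤ 2 * k by omega))
    rw [show 2 * k - k = k by omega] at f1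
    push_cast at f1
    have f2 := fact_refl p (2 * k) (by omega)
    rw [show p - 1 - 2 * k = N by omega, show ((-1 : ZMod p)) ^ (2 * k + 1) = -1 by
      rw [pow_succ, pow_mul]; norm_num] at f2
    have f3 := fact_ne p k (by omega)
    field_simp
    linear_combination ((A.factorial : ℕ) : ZMod p) * (((N.factorial : ℕ) : ZMod p) * f1 + f2)
  rw [← e1]
  linear_combination c * (1 + p * l1) * p * l2 * hs + c * l1 * l2 * hpp

/-- the moments at `2k = p - 1` -/
theorem mom_half (m : ℕ) (hpm : p = 2 * m + 1) (hm : 0 < m) :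
    ∑ s : ZMod p, om p s ^ (p - 1 - m) * tor p s =
      ((u3 m : ℕ) : R p) + p * lift p (m * g3 p m) := by
  have hodd : Odd p := ⟨m, hpm⟩
  rw [coef_mid p m (by omega) (by omega), u3_mid p m m (by omega) (by omega),
    tor_mom p hodd _ (by omega), show p - 1 - m = m by omega]
  have e1 : J2 p m = -(-1) ^ m := by
    rw [← JJ_m p hpm hm]
    unfold J2 JJ
    rw [show p - 1 - m = m by omega]
  have e2 : K3 p m = -(-1) ^ m := by
    unfold K3
    have a1 : ∀ t : ZMod p, om p t⁻¹ ^ (3 * m) * om p (1 + t) ^ (2 * m) =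
        om p t⁻¹ ^ m - if t = -1 then (-1) ^ m else 0 := by
      intro t
      rw [show 3 * m = m + (p - 1) by omega, pow_red p _ _ hm, show 2 * m = p - 1 by omega]
      split_ifs with h
      · subst h
        rw [show (1 : ZMod p) + -1 = 0 by ring, om_zero, zero_pow (by omega), inv_neg, inv_one,
          om_neg_one_pow p hodd]
        ring
      · rw [om_pow_card p (fun h0 => h (by linear_combination h0))]
        ring
    rw [sum_congr rfl fun t _ => a1 t, sum_sub_distrib, sum_ite_eq' univ, if_pos (mem_univ _),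
      ← sum_inv p (fun t => om p t ^ m), sum_om_lt p m hm (by omega), zero_sub]
  have e3 : ∑ w : ZMod p, om p w ^ (2 * m) = (p : R p) - 1 := by
    rw [show 2 * m = p - 1 by omega, sum_om_card p]
  rw [e1, e2, e3]
  have hs : ((-1 : R p)) ^ m * (-1) ^ m = 1 := by rw [← mul_pow]; norm_num
  have e4 : (p : R p) * lift p (-((m.factorial : ℕ) : ZMod p) *
      ((((m.factorial : ℕ) : ZMod p)) ^ 3)⁻¹) = p * (-1) ^ m := by
    apply p_mul_eq
    rw [red_lift, map_pow, map_neg, map_one]
    have f2 := fact_refl p m (by omega)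
    rw [show p - 1 - m = m by omega, pow_succ] at f2
    have f3 := fact_ne p m (by omega)
    have hs' : ((-1 : ZMod p)) ^ m * (-1) ^ m = 1 := by rw [← mul_pow]; norm_num
    field_simp
    linear_combination (-(-1 : ZMod p) ^ m) * f2 + hs'
  rw [e4]
  linear_combination (-1) ^ m * hs

theorem J2_high (hodd : Odd p) (k : ℕ) (h1 : p - 1 < 2 * k) (h2 : k < p - 1) :
    J2 p (p - 1 - k) = -(p * lift p (((p - 1 - k).factorial : ZMod p) *
      ((p - 1 - k).factorial : ZMod p) *
      (((p - 1 - k + (p - 1 - k)).factorial : ℕ) : ZMod p)⁻¹)) := by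
  unfold J2
  exact jac_small p hodd (p - 1 - k) (p - 1 - k) (by omega) (by omega) (by omega)

/-- sums `∑ t^A (1+t)^B` modulo `p` with `A + B < 2 (p - 1)` -/
theorem sum_mod (A B : ℕ) (hA : 0 < A) (hA' : A ≤ p - 1) (hAB : A + B < 2 * (p - 1)) :
    ∑ t : ZMod p, t ^ A * (1 + t) ^ B = -((B.choose (p - 1 - A) : ℕ) : ZMod p) := by
  have e : ∀ t : ZMod p, t ^ A * (1 + t) ^ B =
      ∑ i ∈ range (B + 1), ((B.choose i : ℕ) : ZMod p) * t ^ (A + i) := by
    intro t
    rw [add_comm (1 : ZMod p) t, add_pow, mul_sum]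
    refine sum_congr rfl fun i _ => ?_
    rw [one_pow, mul_one, pow_add]
    ring
  rw [sum_congr rfl fun t _ => e t, sum_comm]
  have e2 : ∀ i ∈ range (B + 1), ∑ t : ZMod p, ((B.choose i : ℕ) : ZMod p) * t ^ (A + i) =
      if i = p - 1 - A then -((B.choose i : ℕ) : ZMod p) else 0 := by
    intro i hi
    have hi' := mem_range.mp hi
    rw [← mul_sum, sum_pow p _ (by omega)]
    by_cases h : i = p - 1 - A
    · rw [if_pos h, if_pos (by rw [h, Nat.add_sub_cancel' hA'])]
      ring
    · rw [if_neg h, if_neg, mul_zero]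
      rintro ⟨c, hc⟩
      have h1 : c < 2 := by
        by_contra h3
        have : (p - 1) * 2 ≤ (p - 1) * c := Nat.mul_le_mul_left _ (by omega)
        omega
      interval_cases c <;> omega
  rw [sum_congr rfl e2, sum_ite_eq' (range (B + 1))]
  split_ifs with h
  · rfl
  · rw [mem_range, not_lt] at h
    rw [Nat.choose_eq_zero_of_lt (by omega)]
    simp

theorem red_K3 (k : ℕ) (h0 : 0 < k) (hk : k < p - 1) :
    red p (K3 p (p - 1 - k)) = ∑ t : ZMod p, t ^ (3 * k) * (1 + t) ^ (2 * (p - 1 - k)) := by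
  rw [K3_eq p k h0 hk, map_sum]
  refine sum_congr rfl fun t _ => ?_
  rw [map_mul, map_pow, map_pow, red_om, red_om]

theorem pow_red' (t : ZMod p) (A : ℕ) (hA : 0 < A) : t ^ (A + (p - 1)) = t ^ A := by
  by_cases ht : t = 0
  · subst ht
    rw [zero_pow (by omega), zero_pow (by omega)]
  · rw [pow_add, ZMod.pow_card_sub_one_eq_one ht, mul_one]

/-- the moments, third range -/
theorem mom_high (hodd : Odd p) (k : ℕ) (h1 : p - 1 < 2 * k) (h2 : 3 * k ≤ 2 * (p - 1)) :
    ∑ s : ZMod p, om p s ^ (p - 1 - k) * tor p s =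
      ((u3 k : ℕ) : R p) + p * lift p (k * g3 p k) := by
  obtain ⟨A, hA⟩ : ∃ A, 3 * k = (p - 1) + A := ⟨3 * k - (p - 1), by omega⟩
  have hk : k < p - 1 := by omega
  rw [coef_mid p k (by omega) (by omega), u3_mid p k A (by omega) (by omega),
    tor_mom p hodd _ (by omega), sq_sum_zero p k (by omega) (by omega) (by omega),
    sgn_e p hodd k (by omega), J2_high p hodd k h1 hk]
  have hK : red p (K3 p (p - 1 - k)) = -(((2 * (p - 1 - k)).choose (p - 1 - A) : ℕ) : ZMod p) := by
    rw [red_K3 p k (by omega) hk]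
    have e : ∀ t : ZMod p, t ^ (3 * k) * (1 + t) ^ (2 * (p - 1 - k)) =
        t ^ A * (1 + t) ^ (2 * (p - 1 - k)) := by
      intro t
      rw [hA, show p - 1 + A = A + (p - 1) by ring, pow_red' p t A (by omega)]
    rw [sum_congr rfl fun t _ => e t, sum_mod p A _ (by omega) (by omega) (by omega)]
  rw [mul_zero, add_zero, mul_neg, neg_mul]
  have e1 : (p : R p) * ((-1) ^ k * lift p (((p - 1 - k).factorial : ZMod p) *
      ((p - 1 - k).factorial : ZMod p) *
      (((p - 1 - k + (p - 1 - k)).factorial : ℕ) : ZMod p)⁻¹) * K3 p (p - 1 - k)) =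
      p * (- lift p (-((A.factorial : ℕ) : ZMod p) *
      ((((k.factorial : ℕ) : ZMod p)) ^ 3)⁻¹)) := by
    apply p_mul_eq
    rw [map_mul, map_mul, map_pow, map_neg, map_one, map_neg, red_lift, red_lift, hK]
    have hb : 2 * (p - 1 - k) = k + (p - 1 - A) := by omega
    have f1 := congrArg (Nat.cast : ℕ → ZMod p)
      (Nat.choose_mul_factorial_mul_factorial
        (show p - 1 - A ≤ 2 * (p - 1 - k) by omega))
    rw [show 2 * (p - 1 - k) - (p - 1 - A) = k by omega] at f1
    push_cast at f1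
    have f2 := fact_refl p k (by omega)
    have f3 := fact_refl p A (by omega)
    have f4 := fact_ne p k (by omega)
    have f5 := fact_ne p (p - 1 - k + (p - 1 - k)) (by omega)
    rw [← two_mul] at f5 ⊢
    have hAk : ((-1 : ZMod p)) ^ (A + 1) * (-1) ^ (k + 1) = 1 := by
      rw [← pow_add, show A + 1 + (k + 1) = 2 * (2 * k) + 2 - (p - 1) by omega]
      have : 2 * (2 * k) + 2 - (p - 1) + (p - 1) = 2 * (2 * k + 1) := by omega
      have h3 : ((-1 : ZMod p)) ^ (2 * (2 * k) + 2 - (p - 1)) * (-1) ^ (p - 1) = 1 := by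
        rw [← pow_add, this, pow_mul]
        norm_num
      rw [neg_one_even' p hodd, mul_one] at h3
      exact h3
    set b : ZMod p := ((p - 1 - k).factorial : ZMod p)
    set kf : ZMod p := ((k.factorial : ℕ) : ZMod p)
    set af : ZMod p := ((A.factorial : ℕ) : ZMod p)
    set nf : ZMod p := (((p - 1 - A).factorial : ℕ) : ZMod p)
    set cf : ZMod p := (((2 * (p - 1 - k)).choose (p - 1 - A) : ℕ) : ZMod p)
    set tf : ZMod p := ((((2 * (p - 1 - k)).factorial : ℕ) : ZMod p))
    have hnf : nf ≠ 0 := fact_ne p _ (by omega)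
    rw [pow_succ] at f2 f3
    rw [pow_succ, pow_succ] at hAk
    have hs : ((-1 : ZMod p)) ^ k * (-1) ^ k = 1 := by rw [← mul_pow]; norm_num
    have hs2 : ((-1 : ZMod p)) ^ A * (-1) ^ A = 1 := by rw [← mul_pow]; norm_num
    field_simp
    apply mul_left_cancel₀ hnf
    linear_combination (-((-1) ^ k) * b ^ 2 * kf ^ 2) * f1 - (-1) ^ k * tf * (b * kf - (-1) ^ k) * f2
      - tf * f3 - (-1) ^ k * tf * hs + tf * (-((-1) ^ A) * hs + (-1) ^ k * hAk)
  linear_combination (-1 : R p) * e1

/-- the moments, last range -/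
theorem mom_last (hodd : Odd p) (k : ℕ) (h1 : 2 * (p - 1) < 3 * k) (hk : k < p - 1) :
    ∑ s : ZMod p, om p s ^ (p - 1 - k) * tor p s =
      ((u3 k : ℕ) : R p) + p * lift p (k * g3 p k) := by
  have hpp := p_sq p
  rw [coef_mid p k (by omega) (by omega), tor_mom p hodd _ (by omega),
    sq_sum_zero p k (by omega) (by omega) (by omega), sgn_e p hodd k (by omega),
    J2_high p hodd k (by omega) hk]
  have hK : red p (K3 p (p - 1 - k)) = 0 := by
    rw [red_K3 p k (by omega) hk]
    have e : ∀ t : ZMod p, t ^ (3 * k) * (1 + t) ^ (2 * (p - 1 - k)) =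
        t ^ (3 * k - 2 * (p - 1)) * (1 + t) ^ (2 * (p - 1 - k)) := by
      intro t
      obtain ⟨A, hA⟩ : ∃ A, 3 * k = A + (p - 1) + (p - 1) := ⟨3 * k - 2 * (p - 1), by omega⟩
      rw [hA, pow_red' p t _ (by omega), pow_red' p t _ (by omega),
        show A + (p - 1) + (p - 1) - 2 * (p - 1) = A by omega]
    rw [sum_congr rfl fun t _ => e t]
    rw [sum_mod p _ _ (by omega) (by omega) (by omega), Nat.choose_eq_zero_of_lt (by omega)]
    simp
  obtain ⟨z, hz⟩ := red_eq_of p _ 0 (by rw [hK, map_zero])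
  have hu : (3 * (k : R p) + 1) * ((u3 k : ℕ) : R p) = 0 := by
    rcases Nat.lt_or_ge (3 * k) (2 * p) with h | h
    · obtain ⟨c, hc⟩ := dvd_u3 p k (by omega) (by omega)
      have h3 : 3 * k + 1 = 2 * p := by omega
      have h4 := congrArg (Nat.cast : ℕ → R p) h3
      push_cast at h4
      rw [hc, h4]
      push_cast
      linear_combination (2 * (c : R p)) * hpp
    · rw [u3_big p k h (by omega), mul_zero]
  rw [hu, hz]
  linear_combination (-((-1) ^ k * lift p (((p - 1 - k).factorial : ZMod p) *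
      ((p - 1 - k).factorial : ZMod p) *
      (((p - 1 - k + (p - 1 - k)).factorial : ℕ) : ZMod p)⁻¹) * z)) * hpp

/-- all moments with `k > 0` -/
theorem mom_all (m : ℕ) (hpm : p = 2 * m + 1) (k : ℕ) (h0 : 0 < k) (hk : k < p - 1) :
    ∑ s : ZMod p, om p s ^ (p - 1 - k) * tor p s =
      ((u3 k : ℕ) : R p) + p * lift p (k * g3 p k) := by
  have hodd : Odd p := ⟨m, hpm⟩
  rcases Nat.lt_or_ge (3 * k) p with h | h
  · exact mom_low p hodd k h0 h
  rcases Nat.lt_or_ge (2 * k) (p - 1) with h2 | h2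
  · exact mom_mid p hodd k h h2
  rcases Nat.eq_or_lt_of_le h2 with h3 | h3
  · have : k = m := by omega
    subst this
    exact mom_half p k hpm h0
  rcases Nat.lt_or_ge (2 * (p - 1)) (3 * k) with h4 | h4
  · exact mom_last p hodd k h4 hk
  · exact mom_high p hodd k h3 h4

/-- the moment `k = 0` -/
theorem mom_zero (hp3 : 3 ≤ p) (hodd : Odd p) :
    ∑ s : ZMod p, om p s ^ (p - 1) * tor p s = 3 - 3 * (p : R p) := by
  have hpp := p_sq p
  rw [tor_mom p hodd _ (by omega), neg_one_even p hodd]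
  have e1 : J2 p (p - 1) = (p : R p) - 2 := by
    unfold J2
    have a1 : ∀ v : ZMod p, om p v ^ (p - 1) * om p (1 - v) ^ (p - 1) =
        1 - ((if v = 0 then 1 else 0) + if v = 1 then 1 else 0) := by
      intro v
      by_cases h0 : v = 0
      · subst h0
        rw [om_zero, zero_pow (by omega), if_pos rfl, if_neg (zero_ne_one)]
        ring
      · by_cases h1 : v = 1
        · subst h1
          rw [sub_self, om_zero, zero_pow (by omega), if_neg (one_ne_zero), if_pos rfl]
          ring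
        · rw [om_pow_card p h0, om_pow_card p (sub_ne_zero.mpr (Ne.symm h1)), if_neg h0, if_neg h1]
          ring
    rw [sum_congr rfl fun v _ => a1 v, sum_sub_distrib, sum_add_distrib, sum_ite_eq' univ,
      sum_ite_eq' univ, if_pos (mem_univ _), if_pos (mem_univ _), sum_const, card_univ, ZMod.card,
      nsmul_one]
    ring
  have e2 : K3 p (p - 1) = (p : R p) - 2 := by
    unfold K3
    have a1 : ∀ v : ZMod p, om p v⁻¹ ^ (3 * (p - 1)) * om p (1 + v) ^ (2 * (p - 1)) =
        1 - ((if v = 0 then 1 else 0) + if v = -1 then 1 else 0) := by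
      intro v
      have hne : (-1 : ZMod p) ≠ 0 := neg_ne_zero.mpr one_ne_zero
      by_cases h0 : v = 0
      · subst h0
        rw [inv_zero, om_zero, zero_pow (by omega), if_pos rfl, if_neg (Ne.symm hne)]
        ring
      · by_cases h1 : v = -1
        · subst h1
          rw [show (1 : ZMod p) + -1 = 0 by ring, om_zero, zero_pow (by omega), if_neg hne,
            if_pos rfl]
          ring
        · rw [mul_comm 3, mul_comm 2, pow_mul, pow_mul, om_pow_card p (inv_ne_zero h0),
            om_pow_card p (fun h => h1 (by linear_combination h)), if_neg h0, if_neg h1, one_pow,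
            one_pow]
          ring
    rw [sum_congr rfl fun v _ => a1 v, sum_sub_distrib, sum_add_distrib, sum_ite_eq' univ,
      sum_ite_eq' univ, if_pos (mem_univ _), if_pos (mem_univ _), sum_const, card_univ, ZMod.card,
      nsmul_one]
    ring
  have e3 : ∑ w : ZMod p, om p w ^ (2 * (p - 1)) = (p : R p) - 1 := by
    rw [sum_om p _ (by omega), if_pos (Dvd.intro_left _ rfl)]
  rw [e1, e2, e3]
  linear_combination hpp

/-- **The trace of the cubic family modulo `p²`.** -/
theorem tr_cub (m : ℕ) (hpm : p = 2 * m + 1) (hm : 0 < m) (s : ZMod p) (hs : s ≠ 0) :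
    -((∑ x : ZMod p, quadraticChar (ZMod p) ((x + s) ^ 2 + 4 * x ^ 3) : ℤ) : R p) =
      (1 + p) * ∑ k ∈ range (p - 1), (((u3 k : ℕ) : R p) + p * lift p (k * g3 p k)) * om p s ^ k := by
  have hpp := p_sq p
  have hodd : Odd p := ⟨m, hpm⟩
  have hp2 : p ≠ 2 := by omega
  have h1 := expand p (tor p) s hs
  have h2 := tor_char p hp2 s hs
  obtain ⟨q, hq⟩ : ∃ q, p - 1 = q + 1 := ⟨p - 2, by omega⟩
  have hr : ∀ f : ℕ → R p, ∑ k ∈ range (p - 1), f k = ∑ k ∈ range q, f (k + 1) + f 0 := by
    intro f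
    rw [hq, sum_range_succ']
  rw [hr] at h1
  rw [hr]
  have e1 : ∑ k ∈ range q, (∑ t : ZMod p, om p t ^ (p - 1 - (k + 1)) * tor p t) * om p s ^ (k + 1) =
      ∑ k ∈ range q, (((u3 (k + 1) : ℕ) : R p) + p * lift p ((k + 1 : ℕ) * g3 p (k + 1))) *
        om p s ^ (k + 1) := by
    refine sum_congr rfl fun k hk => ?_
    have hk' := mem_range.mp hk
    rw [mom_all p m hpm (k + 1) (by omega) (by omega)]
  have e2 : (((u3 0 : ℕ) : R p) + p * lift p ((0 : ℕ) * g3 p 0)) * om p s ^ 0 = 1 := by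
    have : (p : R p) * lift p ((0 : ℕ) * g3 p 0) = p * 0 := by
      apply p_mul_eq
      rw [red_lift, map_zero, Nat.cast_zero, zero_mul]
    rw [this]
    simp [u3]
  rw [e1, Nat.sub_zero, mom_zero p (by omega) hodd, pow_zero, mul_one] at h1
  rw [e2]
  push_cast at h2 ⊢
  rw [h2] at h1
  set S := ∑ k ∈ range q, (((u3 (k + 1) : ℕ) : R p) + p * lift p (((k : ZMod p) + 1) * g3 p (k + 1))) *
        om p s ^ (k + 1) with hS
  set T : R p := ∑ x : ZMod p, ((quadraticChar (ZMod p) ((x + s) ^ 2 + 4 * x ^ 3) : ℤ) : R p)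
  have hS' : ∑ k ∈ range q, (((u3 (k + 1) : ℕ) : R p) + p * lift p ((k + 1 : ℕ) * g3 p (k + 1))) *
        om p s ^ (k + 1) = S := by
    rw [hS]
    push_cast
    rfl
  rw [hS'] at h1
  linear_combination (1 + (p : R p)) * h1 - (T + p + 1) * hpp

end Pool.Agent.Q267.MW
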