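import Pool.Agent.Q267.MW.C3Wr

set_option autoImplicit false

/-!
# The nodal member of the cubic family: `G(1/27) = 3 q_3 F(1/27)`
-/

namespace Pool.Agent.Q267.MW

open Finset Polynomial Pool.Agent.Q267.CDE

open Pool.Agent.Q267.Seven (dl dl_succ legendre_sq_ring)

theorem dl_one (n : ℕ) : (∑ k ∈ range (n + 1), dl n k = 1) ∨ (∑ k ∈ range (n + 1), dl n k = -1) := by
  have h := legendre_sq_ring (R := ℤ) n 1
  simp only [Int.cast_id] at h
  have h2 : ∑ k ∈ range (n + 1), dl n k * ((k.centralBinom : ℕ) : ℤ) *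
      ((1 : ℤ) * (1 - 1)) ^ k = 1 := by
    rw [sum_range_succ', sum_eq_zero]
    · simp [dl]
    · intro k _
      rw [sub_self, mul_zero, zero_pow (Nat.succ_ne_zero k), mul_zero]
  rw [h2] at h
  simp only [one_pow, mul_one] at h
  rcases sq_eq_one_iff.mp h.symm.symm with h | h
  · exact Or.inl h
  · exact Or.inr h

/-- extension of the summation range -/
theorem dl_ext {A : Type*} [CommRing A] (n N : ℕ) (h : n + 1 ≤ N) (x : A) :
    ∑ k ∈ range N, (dl n k : A) * x ^ k = ∑ k ∈ range (n + 1), (dl n k : A) * x ^ k := by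
  symm
  refine sum_subset (fun k hk => ?_) (fun k _ hk => ?_)
  · rw [mem_range] at hk ⊢
    omega
  · rw [mem_range, not_lt] at hk
    rw [dl_vanish n k (by omega)]
    simp

variable (p : ℕ) [hp : Fact p.Prime]

theorem unit3 (hp3 : p ≠ 3) : IsUnit (3 : R p) := by
  apply isUnit_of_red
  rw [map_ofNat]
  intro h
  have : ((3 : ℕ) : ZMod p) = 0 := by exact_mod_cast h
  rw [ZMod.natCast_eq_zero_iff] at this
  exact hp3 ((Nat.prime_dvd_prime_iff_eq hp.out (by norm_num)).mp this)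

/-- The truncated sum at `s = x/27` -/
theorem F3_leg (hp3 : p ≠ 3) (ka x : R p) (hka : 3 * ka = 1) :
    3 * ∑ k ∈ range p, ((u3 k : ℕ) : R p) * (ka ^ 3 * x) ^ k =
      2 * ∑ k ∈ range p, (dl (p / 3) k : R p) * x ^ k +
        ∑ k ∈ range p, (dl (2 * p / 3) k : R p) * x ^ k := by
  rw [mul_sum, mul_sum, ← sum_add_distrib]
  refine sum_congr rfl fun k hk => ?_
  have hk' := mem_range.mp hk
  obtain ⟨h1, -⟩ := u3_leg p hp3 k hk'
  have h27 : (27 : R p) ^ k * (ka ^ 3) ^ k = 1 := by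
    rw [← mul_pow, show (27 : R p) * ka ^ 3 = (3 * ka) ^ 3 by ring, hka, one_pow, one_pow]
  rw [mul_pow]
  linear_combination (ka ^ 3) ^ k * x ^ k * h1 +
    (2 * (dl (p / 3) k : R p) + (dl (2 * p / 3) k : R p)) * x ^ k * h27

theorem leg_cong (hp3 : p ≠ 3) (x : R p) :
    (p : R p) * ∑ k ∈ range p, (dl (p / 3) k : R p) * x ^ k =
      p * ∑ k ∈ range p, (dl (2 * p / 3) k : R p) * x ^ k := by
  rw [mul_sum, mul_sum]
  refine sum_congr rfl fun k hk => ?_
  obtain ⟨-, h2⟩ := u3_leg p hp3 k (mem_range.mp hk)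
  linear_combination x ^ k * h2

theorem F3_node (hp2 : p ≠ 2) (hp3 : p ≠ 3) (ka : R p) (hka : 3 * ka = 1) :
    ∃ d : ℤ, (d = 1 ∨ d = -1) ∧ ∑ k ∈ range p, ((u3 k : ℕ) : R p) * (ka ^ 3) ^ k = (d : R p) := by
  have hp2' := hp.out.two_le
  have h1 := F3_leg p hp3 ka 1 hka
  have h2 := leg_cong p hp3 1
  rw [mul_one, dl_ext (p / 3) p (by omega), dl_ext (2 * p / 3) p (by omega)] at h1
  rw [dl_ext (p / 3) p (by omega), dl_ext (2 * p / 3) p (by omega)] at h2
  simp only [one_pow, mul_one] at h1 h2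
  have e1 : ∑ k ∈ range (p / 3 + 1), (dl (p / 3) k : R p) =
      ((∑ k ∈ range (p / 3 + 1), dl (p / 3) k : ℤ) : R p) := by rw [Int.cast_sum]
  have e2 : ∑ k ∈ range (2 * p / 3 + 1), (dl (2 * p / 3) k : R p) =
      ((∑ k ∈ range (2 * p / 3 + 1), dl (2 * p / 3) k : ℤ) : R p) := by rw [Int.cast_sum]
  rw [e1, e2] at h1 h2
  have d1 := dl_one (p / 3)
  have d2 := dl_one (2 * p / 3)
  generalize ∑ k ∈ range (p / 3 + 1), dl (p / 3) k = a at *
  generalize ∑ k ∈ range (2 * p / 3 + 1), dl (2 * p / 3) k = b at *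
  have h3 := red_cancel p _ _ h2
  rw [map_intCast, map_intCast] at h3
  have hab : a = b := by
    have h2z : (2 : ZMod p) ≠ 0 := by
      have := CDE.cast_ne p 2 (by norm_num) (by omega)
      exact_mod_cast this
    rcases d1 with rfl | rfl <;> rcases d2 with rfl | rfl
    · rfl
    · exfalso
      apply h2z
      push_cast at h3
      linear_combination h3
    · exfalso
      apply h2z
      push_cast at h3
      linear_combination -h3
    · rfl
  refine ⟨a, d1, ?_⟩
  apply (unit3 p hp3).mul_left_cancel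
  rw [h1, hab]
  ring

/-- the nodal cubic -/
theorem node_sum (hp2 : p ≠ 2) (hp3 : p ≠ 3) (c : ZMod p) (hc : 3 * c = 1) :
    ∃ e : ℤ, (e = 1 ∨ e = -1) ∧
      ∑ x : ZMod p, quadraticChar (ZMod p) ((x + c ^ 3) ^ 2 + 4 * x ^ 3) = -e := by
  have hp2' := hp.out.two_le
  have h2z : (2 : ZMod p) ≠ 0 := by
    have := CDE.cast_ne p 2 (by norm_num) (by omega)
    exact_mod_cast this
  have h3z : (3 : ZMod p) ≠ 0 := by
    intro h
    rw [h, zero_mul] at hc
    exact zero_ne_one hc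
  have hc0 : c ≠ 0 := by
    rintro rfl
    rw [mul_zero] at hc
    exact zero_ne_one hc
  have h4z : (4 : ZMod p) ≠ 0 := by
    have : (4 : ZMod p) = 2 ^ 2 := by norm_num
    rw [this]; exact pow_ne_zero 2 h2z
  have h2 : ringChar (ZMod p) ≠ 2 := by
    rw [ZMod.ringChar_zmod_n]
    exact hp2
  refine ⟨quadraticChar (ZMod p) (-3 * c ^ 2), ?_, ?_⟩
  · exact quadraticChar_dichotomy (mul_ne_zero (neg_ne_zero.mpr h3z) (pow_ne_zero 2 hc0))
  have a1 : ∀ x : ZMod p, quadraticChar (ZMod p) ((x + c ^ 3) ^ 2 + 4 * x ^ 3) =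
      quadraticChar (ZMod p) (4 * x + c ^ 2) -
        if x = -c ^ 2 then quadraticChar (ZMod p) (-3 * c ^ 2) else 0 := by
    intro x
    have : (x + c ^ 3) ^ 2 + 4 * x ^ 3 = (x + c ^ 2) ^ 2 * (4 * x + c ^ 2) := by
      linear_combination (-(x ^ 2 * (1 + 3 * c)) - 2 * x * c ^ 3) * hc
    rw [this, map_mul, map_pow]
    split_ifs with h
    · subst h
      rw [neg_add_cancel, quadraticChar_zero, show 4 * -c ^ 2 + c ^ 2 = -3 * c ^ 2 by ring]
      ring
    · rw [quadraticChar_sq_one (fun h' => h (by linear_combination h'))]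
      ring
  have a2 : ∑ x : ZMod p, quadraticChar (ZMod p) (4 * x + c ^ 2) = 0 := by
    rw [← quadraticChar_sum_zero (F := ZMod p) h2]
    refine Fintype.sum_equiv ((Equiv.mulLeft₀ 4 h4z).trans (Equiv.addRight (c ^ 2))) _ _ fun x => ?_
    rw [Equiv.trans_apply, Equiv.mulLeft₀_apply, Equiv.coe_addRight]
  rw [sum_congr rfl fun x _ => a1 x, sum_sub_distrib, a2, sum_ite_eq' univ, if_pos (mem_univ _),
    zero_sub]

/-- **The logarithmic companion at the nodal point.** -/
theorem G3_node (hp2 : p ≠ 2) (hp3 : p ≠ 3) (c q : ZMod p) (hc : 3 * c = 1) (Q : R p)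
    (hQ : (3 : R p) ^ (p - 1) = 1 + p * Q) (hq : red p Q = q) :
    (G3p p).eval (c ^ 3) = 3 * q * (F3p p).eval (c ^ 3) ∧ (F3p p).eval (c ^ 3) ≠ 0 := by
  have hpp := p_sq p
  have hp2' := hp.out.two_le
  have h2z : (2 : ZMod p) ≠ 0 := by
    have := CDE.cast_ne p 2 (by norm_num) (by omega)
    exact_mod_cast this
  have h3z : (3 : ZMod p) ≠ 0 := by
    intro h
    rw [h, zero_mul] at hc
    exact zero_ne_one hc
  obtain ⟨m, hpm⟩ : ∃ m, p = 2 * m + 1 := hp.out.eq_two_or_odd'.resolve_left hp2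
  have hm : 0 < m := by omega
  obtain ⟨ka, hka⟩ : ∃ ka : R p, 3 * ka = 1 := (unit3 p hp3).exists_right_inv
  have hrk : red p ka = c := by
    have := congrArg (red p) hka
    rw [map_mul, map_ofNat, map_one] at this
    apply mul_left_cancel₀ h3z
    rw [this, hc]
  have h27 : 27 * c ^ 3 = 1 := by
    rw [show (27 : ZMod p) * c ^ 3 = (3 * c) ^ 3 by ring, hc, one_pow]
  have hc0 : c ≠ 0 := by
    rintro rfl
    rw [mul_zero] at hc
    exact zero_ne_one hc
  have hred : red p (ka ^ 3) = c ^ 3 := by rw [map_pow, hrk]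
  have hkp : (ka ^ 3) ^ (p - 1) = 1 + p * (-3 * Q) := by
    have h1 : (3 : R p) ^ (p - 1) * ka ^ (p - 1) = 1 := by rw [← mul_pow, hka, one_pow]
    have h2 : ka ^ (p - 1) = 1 - p * Q := by
      rw [hQ] at h1
      linear_combination (1 - p * Q) * h1 + ka ^ (p - 1) * Q ^ 2 * hpp
    rw [← pow_mul, mul_comm 3, pow_mul, h2]
    linear_combination (3 * Q ^ 2 - p * Q ^ 3) * hpp
  have htr := tr_cub_lift p m hpm hm (ka ^ 3) (-3 * Q)
    (by rw [hred]; exact pow_ne_zero 3 hc0) hkp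
  obtain ⟨d, hd, hF⟩ := F3_node p hp2 hp3 ka hka
  obtain ⟨e, he, hS⟩ := node_sum p hp2 hp3 c hc
  rw [hF, hred, hS] at htr
  have hFr : (F3p p).eval (c ^ 3) = (d : ZMod p) := by
    have := congrArg (red p) hF
    rw [map_sum, map_intCast] at this
    rw [← this]
    unfold F3p
    rw [eval_finsetSum]
    refine sum_congr rfl fun k _ => ?_
    rw [map_mul, map_pow, hred, red_nat]
    simp [uz]
  have hde : e = d := by
    have h1 := congrArg (red p) htr
    rw [map_neg, map_intCast, map_mul, map_add, map_add, map_mul, map_one, red_p, map_intCast] at h1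
    push_cast at h1
    rcases hd with rfl | rfl <;> rcases he with rfl | rfl
    · rfl
    · exfalso
      apply h2z
      push_cast at h1
      linear_combination -h1
    · exfalso
      apply h2z
      push_cast at h1
      linear_combination h1
    · rfl
  rw [hde] at htr
  push_cast at htr
  have h5 : (p : R p) * ((d : R p) + lift p (red p (-3 * Q) * (th (F3p p)).eval (c ^ 3) +
      (th (G3p p)).eval (c ^ 3))) = p * 0 := by
    linear_combination -htr - lift p (red p (-3 * Q) * (th (F3p p)).eval (c ^ 3) +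
      (th (G3p p)).eval (c ^ 3)) * hpp
  have h6 := red_cancel p _ _ h5
  rw [map_add, red_lift, map_zero, map_intCast, map_mul, hq, map_neg, map_ofNat, ← hFr] at h6
  have hV := V3_node p hp2 hp3 (c ^ 3) h27
  unfold V3 at hV
  rw [eval_sub, eval_add, eval_pow, eval_mul, eval_mul] at hV
  have hn := F3p_node p (c ^ 3) h27
  have hFne : (F3p p).eval (c ^ 3) ≠ 0 := by
    rw [hFr]
    rcases hd with rfl | rfl
    · simp
    · simp
  refine ⟨?_, hFne⟩
  set F := (F3p p).eval (c ^ 3)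
  set G := (G3p p).eval (c ^ 3)
  set F1 := (th (F3p p)).eval (c ^ 3)
  set G1 := (th (G3p p)).eval (c ^ 3)
  have h7 : 2 * F * (G - 3 * q * F) = 0 := by
    linear_combination 9 * hV - 9 * F * h6 + (G - 3 * q * F) * hn
  have := (mul_eq_zero.mp h7).resolve_left (mul_ne_zero h2z hFne)
  linear_combination this

end Pool.Agent.Q267.MW
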