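import Pool.Agent.Q267.MW.TrLeg
import Pool.Agent.Q267.Seven.Split

set_option autoImplicit false

/-!
# The Wronskian of the Legendre family modulo `p` and the unit root modulo `p²`
-/

namespace Pool.Agent.Q267.MW

open Finset Polynomial

open Pool.Agent.Q267.Landen (Ph cc dd Hh)

section wr

variable {K : Type*} [Field K]

theorem Xder (m : ℕ) (c : ℕ → K) (j : ℕ) :
    X * derivative (Ph m c j (X : K[X]) 1) = Ph m c (j + 1) X 1 := by
  have h := Pool.Agent.Q267.Landen.deriv_rel m c j (X : K[X]) 1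
  rw [derivative_X, derivative_one] at h
  linear_combination h

/-- the Wronskian -/
noncomputable def VV (K : Type*) [Field K] (m : ℕ) : K[X] :=
  Ph m (cc K m) 0 (X : K[X]) 1 ^ 2 + 2 * (Ph m (cc K m) 0 (X : K[X]) 1 * Ph m (dd K m) 1 X 1 -
    Ph m (dd K m) 0 (X : K[X]) 1 * Ph m (cc K m) 1 X 1)

theorem VV_ode (m : ℕ) (hm : (2 : K) * m + 1 = 0)
    (hn : ∀ n : ℕ, 0 < n → n ≤ m → ((n : ℕ) : K) ≠ 0) :
    (1 - X) * derivative (VV K m) = VV K m := by
  have c1 := Pool.Agent.Q267.Landen.contig (K := K) m X 1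
  have c2 := Pool.Agent.Q267.Landen.contig' (K := K) m hn X 1
  have f0 := Xder m (cc K m) 0
  have f1 := Xder m (cc K m) 1
  have g0 := Xder m (dd K m) 0
  have g1 := Xder m (dd K m) 1
  have hm' : 2 * (C (m : K) : K[X]) + 1 = 0 := by
    rw [← C_1, show (2 : K[X]) = C 2 by rfl, ← C_mul, ← C_add, hm, C_0]
  apply mul_left_cancel₀ (X_ne_zero (R := K))
  unfold VV
  simp only [derivative_add, derivative_mul, derivative_sub, derivative_pow, derivative_ofNat,
    Nat.cast_ofNat, map_ofNat, zero_mul, zero_add, Nat.add_one_sub_one, pow_one]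
  simp only [zero_add] at f0 g0
  set F0 := Ph m (cc K m) 0 (X : K[X]) 1
  set F1 := Ph m (cc K m) 1 (X : K[X]) 1
  set F2 := Ph m (cc K m) 2 (X : K[X]) 1
  set G0 := Ph m (dd K m) 0 (X : K[X]) 1
  set G1 := Ph m (dd K m) 1 (X : K[X]) 1
  set G2 := Ph m (dd K m) 2 (X : K[X]) 1
  linear_combination (1 - X) * (2 * F0 * f0 + 2 * (G1 * f0 + F0 * g1 - F1 * g0 - G0 * f1)) +
    2 * F0 * c2 - 2 * G0 * c1 - X * (F0 ^ 2 + 2 * (F0 * G1 - G0 * F1)) * hm'

end wr

/-- a polynomial of degree at most `p` with zero derivative -/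
theorem eval_of_der (p : ℕ) [hp : Fact p.Prime] (Z : (ZMod p)[X]) (hd : Z.natDegree ≤ p)
    (h : derivative Z = 0) (x : ZMod p) : Z.eval x = Z.coeff 0 + Z.coeff p * x := by
  have hc : ∀ i, 0 < i → i < p → Z.coeff i = 0 := by
    intro i h0 hi
    have h1 := congrArg (fun q => q.coeff (i - 1)) h
    simp only [coeff_derivative, coeff_zero] at h1
    rw [Nat.sub_add_cancel h0] at h1
    have h2 : (((i - 1 : ℕ) : ZMod p) + 1) ≠ 0 := by
      have := Pool.Agent.Q267.CDE.cast_ne p i h0 hi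
      have e : ((i - 1 : ℕ) : ZMod p) + 1 = ((i : ℕ) : ZMod p) := by
        rw [Nat.cast_sub h0]
        push_cast
        ring
      rw [e]
      exact this
    exact (mul_eq_zero.mp h1).resolve_right h2
  rw [eval_eq_sum_range' (Nat.lt_succ_of_le hd)]
  rw [sum_range_succ, ZMod.pow_card]
  congr 1
  obtain ⟨q, hq⟩ : ∃ q, p = q + 1 := ⟨p - 1, by have := hp.out.one_le; omega⟩
  have : ∑ i ∈ range p, Z.coeff i * x ^ i = ∑ i ∈ range p, if i = 0 then Z.coeff 0 else 0 := by
    refine sum_congr rfl fun i hi => ?_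
    split_ifs with h0
    · rw [h0, pow_zero, mul_one]
    · rw [hc i (Nat.pos_of_ne_zero h0) (mem_range.mp hi), zero_mul]
  rw [this, sum_ite_eq' (range p) 0, if_pos (mem_range.mpr hp.out.pos)]

theorem VV_eval (p m : ℕ) [hp : Fact p.Prime] (hpm : p = 2 * m + 1) (l : ZMod p) (hl : l ≠ 1) :
    (VV (ZMod p) m).eval l = 1 := by
  have hm : (2 : ZMod p) * m + 1 = 0 := by
    have h1 := ZMod.natCast_self p
    have h2 := congrArg (Nat.cast : ℕ → ZMod p) hpm
    push_cast at h2
    rw [← h2, h1]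
  have hn : ∀ n : ℕ, 0 < n → n ≤ m → ((n : ℕ) : ZMod p) ≠ 0 := fun n h0 h1 =>
    Pool.Agent.Q267.CDE.cast_ne p n h0 (by omega)
  have hode := VV_ode m hm hn
  have hdeg : (VV (ZMod p) m).natDegree ≤ 2 * m := by
    have hX : (X : (ZMod p)[X]).natDegree ≤ 1 := natDegree_X_le
    have h1 : (1 : (ZMod p)[X]).natDegree ≤ 1 := by simp
    have hP : ∀ (c : ℕ → ZMod p) (j : ℕ), (Ph m c j (X : (ZMod p)[X]) 1).natDegree ≤ m := by
      intro c j
      have := Pool.Agent.Q267.Landen.natDegree_Ph 1 hX h1 m c j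
      rwa [one_mul] at this
    unfold VV
    refine (natDegree_add_le _ _).trans (max_le ?_ ?_)
    · refine natDegree_pow_le.trans ?_
      have := hP (cc (ZMod p) m) 0
      omega
    · refine natDegree_mul_le.trans ?_
      have e2 : (2 : (ZMod p)[X]).natDegree = 0 := natDegree_ofNat 2
      rw [e2, zero_add]
      refine (natDegree_sub_le _ _).trans (max_le ?_ ?_)
      · refine natDegree_mul_le.trans ?_
        have h3 := hP (cc (ZMod p) m) 0
        have h4 := hP (dd (ZMod p) m) 1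
        omega
      · refine natDegree_mul_le.trans ?_
        have h3 := hP (dd (ZMod p) m) 0
        have h4 := hP (cc (ZMod p) m) 1
        omega
  set Z : (ZMod p)[X] := (1 - X) * VV (ZMod p) m with hZ
  have hZd : Z.natDegree ≤ p := by
    rw [hZ]
    refine natDegree_mul_le.trans ?_
    have : (1 - X : (ZMod p)[X]).natDegree ≤ 1 := by
      refine (natDegree_sub_le _ _).trans (max_le (by simp) natDegree_X_le)
    omega
  have hZ' : derivative Z = 0 := by
    rw [hZ, derivative_mul, derivative_sub, derivative_one, derivative_X]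
    linear_combination hode
  have he := eval_of_der p Z hZd hZ'
  have h1 := he 1
  have h0 := he 0
  have hl' := he l
  have hz1 : Z.eval 1 = 0 := by rw [hZ, eval_mul, eval_sub, eval_one, eval_X, sub_self, zero_mul]
  have ev0 : ∀ (c : ℕ → ZMod p) (j : ℕ),
      (Ph m c j (X : (ZMod p)[X]) 1).eval 0 = if j = 0 then c 0 else 0 := by
    intro c j
    unfold Ph
    rw [eval_finsetSum, sum_range_succ']
    have : ∑ k ∈ range m, eval 0 (C (c (k + 1) * ((k + 1 : ℕ) : ZMod p) ^ j) * X ^ (k + 1) *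
        (1 : (ZMod p)[X]) ^ (m - (k + 1))) = 0 := by
      refine sum_eq_zero fun k _ => ?_
      rw [eval_mul, eval_mul, eval_pow, eval_X, zero_pow (Nat.succ_ne_zero k), mul_zero, zero_mul]
    rw [this, zero_add]
    simp only [pow_zero, one_pow, mul_one, eval_C, Nat.cast_zero]
    split_ifs with h
    · rw [h, pow_zero, mul_one]
    · rw [zero_pow h, mul_zero]
  have hz0 : Z.eval 0 = 1 := by
    rw [hZ, eval_mul, eval_sub, eval_one, eval_X, sub_zero, one_mul]
    unfold VV
    rw [eval_add, eval_pow, eval_mul, eval_sub, eval_mul, eval_mul, ev0, ev0, ev0, ev0]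
    simp [cc]
  have hzl : Z.eval l = (1 - l) * (VV (ZMod p) m).eval l := by
    rw [hZ, eval_mul, eval_sub, eval_one, eval_X]
  apply mul_left_cancel₀ (sub_ne_zero.mpr (Ne.symm hl))
  rw [← hzl, hl']
  rw [hz1] at h1
  rw [hz0] at h0
  linear_combination (-l) * h1 + (l - 1) * h0

open Pool.Agent.Q267.CDE in
theorem red_cancel (p : ℕ) [hp : Fact p.Prime] (x y : R p) (h : (p : R p) * x = p * y) :
    red p x = red p y := by
  obtain ⟨n, hn⟩ : ∃ n : ℤ, (n : R p) = x - y := ZMod.intCast_surjective _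
  have h1 : ((p : ℤ) : R p) * ((n : ℤ) : R p) = 0 := by
    rw [hn]
    push_cast
    linear_combination h
  rw [← Int.cast_mul, ZMod.intCast_zmod_eq_zero_iff_dvd] at h1
  push_cast at h1
  rw [pow_two] at h1
  have hp0 : (p : ℤ) ≠ 0 := by exact_mod_cast hp.out.ne_zero
  have h2 : (p : ℤ) ∣ n := (mul_dvd_mul_iff_left hp0).mp h1
  have h3 : red p (x - y) = 0 := by
    rw [← hn, map_intCast, ZMod.intCast_zmod_eq_zero_iff_dvd]
    exact h2
  rwa [map_sub, sub_eq_zero] at h3

open Pool.Agent.Q267.CDE Pool.Agent.Q267.Seven in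
/-- the polynomial `∑ C(m,k)² (1 + 2 p h_k) T^k` in terms of the Legendre polynomial -/
theorem conv_dl (p m : ℕ) [hp : Fact p.Prime] (hpm : p = 2 * m + 1) (k : ℕ) (hk : k ≤ m) :
    ((m.choose k : ℕ) : R p) ^ 2 * (1 + 2 * (p * lift p (MW.hk p m k))) =
      (dl m k : R p) + p * lift p (2 * (k * dd (ZMod p) m k)) := by
  have h1 := dl_R p m hpm k hk
  have hpp := CDE.p_sq p
  have hm : (2 : ZMod p) * m + 1 = 0 := by
    have h1 := ZMod.natCast_self p
    have h2 := congrArg (Nat.cast : ℕ → ZMod p) hpm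
    push_cast at h2
    rw [← h2, h1]
  have hH : ∀ n, H (ZMod p) n = Hh (ZMod p) n := by
    intro n
    unfold H Hh
    refine sum_congr rfl fun i _ => ?_
    push_cast
    rfl
  have key : (p : R p) * lift p (2 * (k * dd (ZMod p) m k)) =
      p * (cR p m k * (hR p m - hR p (m - k)) + 2 * cR p m k * lift p (MW.hk p m k)) := by
    apply CDE.p_mul_eq
    rw [red_lift, map_add, map_mul, map_mul, map_mul, red_lift, map_ofNat, map_sub]
    have e1 : CDE.red p (hR p m) = Hh (ZMod p) m := red_hR p m (by omega)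
    have e2 : CDE.red p (hR p (m - k)) = Hh (ZMod p) (m - k) := red_hR p (m - k) (by omega)
    rw [e1, e2]
    unfold cR dd cc MW.hk
    rw [map_pow, CDE.red_nat, hH, hH, hH]
    linear_combination (((m.choose k : ℕ) : ZMod p) ^ 2 * (-Hh (ZMod p) m + Hh (ZMod p) (m - k))) * hm
  rw [key, h1]
  unfold cR
  linear_combination ((m.choose k : ℕ) : R p) ^ 2 * (hR p m - hR p (m - k)) * 0 * hpp

end Pool.Agent.Q267.MW
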