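import Pool.Agent.Q267.MW.C3Leg
import Pool.Agent.Q267.MW.WrLeg

set_option autoImplicit false

/-!
# The truncated cubic hypergeometric polynomial modulo `p` and its logarithmic companion
-/

namespace Pool.Agent.Q267.MW

open Finset Polynomial Pool.Agent.Q267.CDE

variable (p : ℕ) [hp : Fact p.Prime]

/-- `u_k` modulo `p` -/
def uz (k : ℕ) : ZMod p := ((u3 k : ℕ) : ZMod p)

theorem uz_zero (k : ℕ) (h1 : p ≤ 3 * k) (h2 : k < p) : uz p k = 0 :=
  (ZMod.natCast_eq_zero_iff _ _).mpr (dvd_u3 p k h1 h2)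

theorem uz_succ (k : ℕ) :
    uz p (k + 1) * ((k : ZMod p) + 1) ^ 2 = 3 * (3 * k + 1) * (3 * k + 2) * uz p k := by
  have a3 := congrArg (Nat.cast : ℕ → ZMod p) (u3_succ k)
  push_cast at a3
  exact a3

theorem g3_zero (k : ℕ) (h1 : 2 * p ≤ 3 * k) (h2 : k < p) : g3 p k = 0 := by
  unfold g3
  rw [if_neg (by omega)]
  have h := u3_big p k h1 h2
  have h' : p ^ 2 ∣ u3 k := (ZMod.natCast_eq_zero_iff _ _).mp h
  obtain ⟨c, hc⟩ := h'
  rw [hc, show p ^ 2 * c = p * (p * c) by ring, Nat.mul_div_cancel_left _ hp.out.pos]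
  push_cast
  rw [ZMod.natCast_self]
  ring

theorem g3_succ (hp3 : p ≠ 3) (k : ℕ) (hk : k + 1 < p) :
    ((k : ZMod p) + 1) ^ 2 * g3 p (k + 1) = 3 * (3 * k + 1) * (3 * k + 2) * g3 p k -
      2 * (k + 1) * uz p (k + 1) + 27 * (2 * k + 1) * uz p k := by
  have hu := uz_succ p k
  have hk1 := CDE.cast_ne p (k + 1) (by omega) hk
  push_cast at hk1
  rcases Nat.lt_or_ge (3 * (k + 1)) p with h | h
  · unfold g3
    rw [if_pos h, if_pos (by omega), show 3 * (k + 1) = 3 * k + 1 + 1 + 1 by ring, H_succ, H_succ,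
      H_succ, H_succ]
    have a1 := CDE.cast_ne p (3 * k + 1) (by omega) (by omega)
    have a2 := CDE.cast_ne p (3 * k + 2) (by omega) (by omega)
    have a3 := CDE.cast_ne p 3 (by omega) (by omega)
    push_cast at a1 a2 a3 ⊢
    change ((k : ZMod p) + 1) ^ 2 * (3 * uz p (k + 1) * _) = 3 * (3 * k + 1) * (3 * k + 2) *
      (3 * uz p k * _) - _ + _
    rw [show (3 : ZMod p) * k + 1 + 1 = 3 * k + 2 by ring,
      show (3 : ZMod p) * k + 2 + 1 = 3 * (k + 1) by ring]
    have e1 := mul_inv_cancel₀ a1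
    have e2 := mul_inv_cancel₀ a2
    have e3 := mul_inv_cancel₀ (mul_ne_zero a3 hk1)
    have e4 := mul_inv_cancel₀ hk1
    generalize ((3 : ZMod p) * k + 1)⁻¹ = i1 at *
    generalize ((3 : ZMod p) * k + 2)⁻¹ = i2 at *
    generalize ((3 : ZMod p) * (k + 1))⁻¹ = i3 at *
    generalize ((k : ZMod p) + 1)⁻¹ = j at *
    generalize H (ZMod p) (3 * k) = h3 at *
    generalize H (ZMod p) k = h1 at *
    linear_combination 3 * (h3 - h1 + i1 + i2) * hu + 9 * (3 * k + 2) * uz p k * e1 +
      9 * (3 * k + 1) * uz p k * e2 + (k + 1) * uz p (k + 1) * e3 - 3 * (k + 1) * uz p (k + 1) * e4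
  · rcases Nat.lt_or_ge (3 * k) p with h' | h'
    · obtain ⟨c, hc⟩ := dvd_u3 p (k + 1) h hk
      have hN := u3_succ k
      rw [hc] at hN
      rw [uz_zero p (k + 1) h hk]
      have e1 : g3 p (k + 1) = 3 * (c : ZMod p) := by
        unfold g3
        rw [if_neg (by omega), hc, Nat.mul_div_cancel_left _ hp.out.pos]
      rw [e1]
      have h5 : p = 3 * k + 1 ∨ p = 3 * k + 2 := by
        have h6 : p ≠ 3 * k + 3 := by
          intro h7
          have : 3 ∣ p := ⟨k + 1, by omega⟩
          exact hp3 ((Nat.prime_dvd_prime_iff_eq (by norm_num) hp.out).mp this).symm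
        omega
      rcases h5 with h5 | h5
      · have hN' : c * (k + 1) ^ 2 = 3 * (3 * k + 2) * u3 k := by
          apply Nat.eq_of_mul_eq_mul_left hp.out.pos
          calc p * (c * (k + 1) ^ 2) = p * c * (k + 1) ^ 2 := by ring
            _ = 3 * (3 * k + 1) * (3 * k + 2) * u3 k := hN
            _ = p * (3 * (3 * k + 2) * u3 k) := by
              conv_rhs => rw [h5]
              ring
        have hN2 := congrArg (Nat.cast : ℕ → ZMod p) hN'
        push_cast at hN2
        have h0 : (3 : ZMod p) * k + 1 = 0 := by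
          have := congrArg (Nat.cast : ℕ → ZMod p) h5
          rw [ZMod.natCast_self] at this
          push_cast at this
          exact this.symm
        change (c : ZMod p) * (k + 1) ^ 2 = 3 * (3 * k + 2) * uz p k at hN2
        linear_combination 3 * hN2 - (9 * uz p k + 3 * (3 * k + 2) * g3 p k) * h0
      · have hN' : c * (k + 1) ^ 2 = 3 * (3 * k + 1) * u3 k := by
          apply Nat.eq_of_mul_eq_mul_left hp.out.pos
          calc p * (c * (k + 1) ^ 2) = p * c * (k + 1) ^ 2 := by ring
            _ = 3 * (3 * k + 1) * (3 * k + 2) * u3 k := hN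
            _ = p * (3 * (3 * k + 1) * u3 k) := by
              conv_rhs => rw [h5]
              ring
        have hN2 := congrArg (Nat.cast : ℕ → ZMod p) hN'
        push_cast at hN2
        have h0 : (3 : ZMod p) * k + 2 = 0 := by
          have := congrArg (Nat.cast : ℕ → ZMod p) h5
          rw [ZMod.natCast_self] at this
          push_cast at this
          exact this.symm
        change (c : ZMod p) * (k + 1) ^ 2 = 3 * (3 * k + 1) * uz p k at hN2
        linear_combination 3 * hN2 - (9 * uz p k + 3 * (3 * k + 1) * g3 p k) * h0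
    · obtain ⟨c, hc⟩ := dvd_u3 p (k + 1) h hk
      obtain ⟨d, hd⟩ := dvd_u3 p k h' (by omega)
      have hN := u3_succ k
      rw [hc, hd] at hN
      rw [uz_zero p (k + 1) h hk, uz_zero p k h' (by omega)]
      have e1 : g3 p (k + 1) = 3 * (c : ZMod p) := by
        unfold g3
        rw [if_neg (by omega), hc, Nat.mul_div_cancel_left _ hp.out.pos]
      have e2 : g3 p k = 3 * (d : ZMod p) := by
        unfold g3
        rw [if_neg (by omega), hd, Nat.mul_div_cancel_left _ hp.out.pos]
      rw [e1, e2]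
      have hN' : c * (k + 1) ^ 2 = 3 * (3 * k + 1) * (3 * k + 2) * d := by
        apply Nat.eq_of_mul_eq_mul_left hp.out.pos
        calc p * (c * (k + 1) ^ 2) = p * c * (k + 1) ^ 2 := by ring
          _ = 3 * (3 * k + 1) * (3 * k + 2) * (p * d) := hN
          _ = _ := by ring
      have hN2 := congrArg (Nat.cast : ℕ → ZMod p) hN'
      push_cast at hN2
      linear_combination 3 * hN2

/-- the truncated hypergeometric polynomial -/
noncomputable def F3p : (ZMod p)[X] := ∑ k ∈ range p, C (uz p k) * X ^ k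

/-- its logarithmic companion -/
noncomputable def G3p : (ZMod p)[X] := ∑ k ∈ range p, C (g3 p k) * X ^ k

theorem sum_coeff (c : ℕ → ZMod p) (n k : ℕ) :
    (∑ i ∈ range n, C (c i) * (X : (ZMod p)[X]) ^ i).coeff k = if k < n then c k else 0 := by
  rw [finsetSum_coeff]
  simp only [coeff_C_mul_X_pow]
  rw [sum_ite_eq (range n) k]
  simp only [mem_range]

theorem F3p_coeff (k : ℕ) : (F3p p).coeff k = if k < p then uz p k else 0 := sum_coeff p _ _ _

theorem G3p_coeff (k : ℕ) : (G3p p).coeff k = if k < p then g3 p k else 0 := sum_coeff p _ _ _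

theorem F3p_coeff_zero (k : ℕ) (h : p ≤ 3 * k) : (F3p p).coeff k = 0 := by
  rw [F3p_coeff]
  split_ifs with h2
  · exact uz_zero p k h h2
  · rfl

theorem G3p_coeff_zero (k : ℕ) (h : 2 * p ≤ 3 * k) : (G3p p).coeff k = 0 := by
  rw [G3p_coeff]
  split_ifs with h2
  · exact g3_zero p k h h2
  · rfl

theorem F3p_deg : 3 * (F3p p).natDegree < p := by
  by_contra h
  have h1 : (F3p p).coeff (F3p p).natDegree = 0 := F3p_coeff_zero p _ (by omega)
  rw [coeff_natDegree, leadingCoeff_eq_zero] at h1
  rw [h1, natDegree_zero] at h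
  have := hp.out.pos
  omega

theorem G3p_deg : 3 * (G3p p).natDegree < 2 * p := by
  by_contra h
  have h1 : (G3p p).coeff (G3p p).natDegree = 0 := G3p_coeff_zero p _ (by omega)
  rw [coeff_natDegree, leadingCoeff_eq_zero] at h1
  rw [h1, natDegree_zero] at h
  have := hp.out.pos
  omega

theorem F3p_succ (k : ℕ) : (F3p p).coeff (k + 1) * ((k : ZMod p) + 1) ^ 2 =
    3 * (3 * k + 1) * (3 * k + 2) * (F3p p).coeff k := by
  rcases Nat.lt_or_ge (k + 1) p with h | h
  · rw [F3p_coeff, F3p_coeff, if_pos h, if_pos (by omega)]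
    exact uz_succ p k
  · have := hp.out.two_le
    rw [F3p_coeff_zero p (k + 1) (by omega), F3p_coeff_zero p k (by omega)]
    ring

theorem G3p_succ (hp2 : p ≠ 2) (hp3 : p ≠ 3) (k : ℕ) : ((k : ZMod p) + 1) ^ 2 * (G3p p).coeff (k + 1) =
    3 * (3 * k + 1) * (3 * k + 2) * (G3p p).coeff k -
      2 * (k + 1) * (F3p p).coeff (k + 1) + 27 * (2 * k + 1) * (F3p p).coeff k := by
  rcases Nat.lt_or_ge (k + 1) p with h | h
  · rw [F3p_coeff, F3p_coeff, G3p_coeff, G3p_coeff, if_pos h, if_pos (by omega), if_pos h,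
      if_pos (by omega)]
    exact g3_succ p hp3 k h
  · have := hp.out.two_le
    rw [F3p_coeff_zero p _ (by omega), F3p_coeff_zero p _ (by omega), G3p_coeff_zero p _ (by omega),
      G3p_coeff_zero p _ (by omega)]
    ring

/-- the Euler derivation -/
noncomputable def th {K : Type*} [Field K] (P : K[X]) : K[X] := X * derivative P

theorem th_coeff {K : Type*} [Field K] (P : K[X]) (k : ℕ) : (th P).coeff k = k * P.coeff k := by
  unfold th
  rcases k with _ | k
  · rw [coeff_X_mul_zero]; simp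
  · rw [coeff_X_mul, coeff_derivative]; push_cast; ring

theorem th_mul {K : Type*} [Field K] (P Q : K[X]) : th (P * Q) = th P * Q + P * th Q := by
  unfold th; rw [derivative_mul]; ring

theorem th_add {K : Type*} [Field K] (P Q : K[X]) : th (P + Q) = th P + th Q := by
  unfold th; rw [derivative_add]; ring

theorem th_sub {K : Type*} [Field K] (P Q : K[X]) : th (P - Q) = th P - th Q := by
  unfold th; rw [derivative_sub]; ring

theorem thF : th (th (F3p p)) - X * (27 * th (th (F3p p)) + 27 * th (F3p p) + 6 * F3p p) = 0 := by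
  ext n
  rcases n with _ | k
  · rw [coeff_sub, coeff_X_mul_zero, th_coeff]; simp
  · rw [coeff_sub, coeff_X_mul, th_coeff, th_coeff, coeff_add, coeff_add, coeff_zero]
    have e27 : (27 : (ZMod p)[X]) = C 27 := by rw [map_ofNat]
    have e6 : (6 : (ZMod p)[X]) = C 6 := by rw [map_ofNat]
    rw [e27, e6, coeff_C_mul, coeff_C_mul, coeff_C_mul, th_coeff, th_coeff]
    have := F3p_succ p k
    push_cast
    linear_combination this

theorem thG (hp2 : p ≠ 2) (hp3 : p ≠ 3) : th (th (G3p p)) - X * (27 * th (th (G3p p)) + 27 * th (G3p p) + 6 * G3p p) =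
    -2 * th (F3p p) + X * (54 * th (F3p p) + 27 * F3p p) := by
  ext n
  have e27 : (27 : (ZMod p)[X]) = C 27 := by rw [map_ofNat]
  have e54 : (54 : (ZMod p)[X]) = C 54 := by rw [map_ofNat]
  have e6 : (6 : (ZMod p)[X]) = C 6 := by rw [map_ofNat]
  have e2 : (-2 : (ZMod p)[X]) = C (-2) := by rw [C_neg, map_ofNat]
  rw [e27, e54, e6, e2]
  rcases n with _ | k
  · rw [coeff_sub, coeff_X_mul_zero, th_coeff, coeff_add, coeff_X_mul_zero, coeff_C_mul, th_coeff,
      th_coeff]
    simp
  · rw [coeff_sub, coeff_X_mul, th_coeff, th_coeff, coeff_add, coeff_add, coeff_add, coeff_X_mul,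
      coeff_add, coeff_C_mul, coeff_C_mul, coeff_C_mul, coeff_C_mul, coeff_C_mul, coeff_C_mul,
      th_coeff, th_coeff, th_coeff, th_coeff]
    have := G3p_succ p hp2 hp3 k
    push_cast
    linear_combination this

end Pool.Agent.Q267.MW
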