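import Pool.Agent.Q267.MW.Der

set_option autoImplicit false

/-!
# Points that reduce to zero at infinity, and the action on the invariant differential
-/

namespace Pool.Agent.Q267.MW

open Polynomial WeierstrassCurve WeierstrassCurve.Affine WithZero

variable {F : Type*} [Field F]

noncomputable section

/-- the valuation at infinity -/
def vi (F : Type*) [Field F] : Valuation (RatFunc F) ℤᵐ⁰ :=
  @RatFunc.inftyValuation F _ (Classical.decEq _)

theorem vi_const (c : F) : vi F (io (C c)) ≤ 1 := by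
  classical
  by_cases hc : c = 0
  · rw [hc, C_0, map_zero, map_zero]
    exact zero_le_one
  · have h : io (C c) = RatFunc.C c := rfl
    rw [h]
    unfold vi
    rw [@RatFunc.inftyValuation.C F _ (Classical.decEq _) c hc]

theorem vi_unit {c : F} (hc : c ≠ 0) : vi F (io (C c)) = 1 := by
  have h : io (C c) = RatFunc.C c := rfl
  rw [h]
  unfold vi
  rw [@RatFunc.inftyValuation.C F _ (Classical.decEq _) c hc]

theorem rd_quot (x y : RatFunc F) (hy : y ≠ 0) : rd (x / y) = (rd x * y - x * rd y) / y ^ 2 := by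
  have e : x = (x / y) * y := by field_simp
  have h : rd x = rd (x / y) * y + (x / y) * rd y := by
    conv_lhs => rw [e]
    rw [rd_mul]
  rw [h]
  field_simp
  ring

section alg

variable {K : Type*} [Field K]

theorem add_der (f f' A B c1 c2 X1 X2 Y1 Y2 dY1 dY2 : K) (h2 : (2 : K) ≠ 0) (hf : f ≠ 0)
    (hd : X1 - X2 ≠ 0) (e1 : f * Y1 ^ 2 = X1 ^ 3 + A * X1 + B) (e2 : f * Y2 ^ 2 = X2 ^ 3 + A * X2 + B)
    (k1 : 2 * f * dY1 = (3 * X1 ^ 2 + A) * c1 - f' * Y1)
    (k2 : 2 * f * dY2 = (3 * X2 ^ 2 + A) * c2 - f' * Y2) :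
    f' * ((Y1 - Y2) / (X1 - X2)) ^ 2 + f * (2 * ((Y1 - Y2) / (X1 - X2)) *
      (((dY1 - dY2) * (X1 - X2) - (Y1 - Y2) * (c1 * Y1 - c2 * Y2)) / (X1 - X2) ^ 2))
      - c1 * Y1 - c2 * Y2 =
    (c1 + c2) * (-(((Y1 - Y2) / (X1 - X2)) *
      ((f * ((Y1 - Y2) / (X1 - X2)) ^ 2 - X1 - X2) - X1) + Y1)) := by
  have hA : A = (f * (Y1 ^ 2 - Y2 ^ 2) - (X1 ^ 3 - X2 ^ 3)) / (X1 - X2) := by
    field_simp
    linear_combination e2 - e1
  have hd1 : dY1 = ((3 * X1 ^ 2 + A) * c1 - f' * Y1) / (2 * f) := by
    rw [← k1]; field_simp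
  have hd2 : dY2 = ((3 * X2 ^ 2 + A) * c2 - f' * Y2) / (2 * f) := by
    rw [← k2]; field_simp
  rw [hd1, hd2, hA]
  field_simp
  ring

theorem dbl_der (f f' A c X Y dY : K) (h2 : (2 : K) ≠ 0) (hf : f ≠ 0) (hY : Y ≠ 0)
    (k1 : 2 * f * dY = (3 * X ^ 2 + A) * c - f' * Y) :
    f' * ((3 * X ^ 2 + A) / (2 * f * Y)) ^ 2 + f * (2 * ((3 * X ^ 2 + A) / (2 * f * Y)) *
      ((6 * X * (c * Y) * (2 * f * Y) - (3 * X ^ 2 + A) * (2 * f' * Y + 2 * f * dY)) /
        (2 * f * Y) ^ 2)) - 2 * (c * Y) =
    (c + c) * (-(((3 * X ^ 2 + A) / (2 * f * Y)) *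
      ((f * ((3 * X ^ 2 + A) / (2 * f * Y)) ^ 2 - 2 * X) - X) + Y)) := by
  have hd1 : dY = ((3 * X ^ 2 + A) * c - f' * Y) / (2 * f) := by
    rw [← k1]; field_simp
  rw [hd1]
  field_simp
  ring

theorem add_quad (f A B X1 X2 Y1 Y2 X3 : K) (hd : X1 - X2 ≠ 0)
    (e1 : f * Y1 ^ 2 = X1 ^ 3 + A * X1 + B) (e2 : f * Y2 ^ 2 = X2 ^ 3 + A * X2 + B)
    (h3 : X3 = f * ((Y1 - Y2) / (X1 - X2)) ^ 2 - X1 - X2) :
    (X1 - X2) ^ 2 * X3 ^ 2 - (2 * ((X1 + X2) * (X1 * X2 + A) + 2 * B)) * X3
      + ((X1 * X2 - A) ^ 2 - 4 * B * (X1 + X2)) = 0 := by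
  have hA : A = (f * (Y1 ^ 2 - Y2 ^ 2) - (X1 ^ 3 - X2 ^ 3)) / (X1 - X2) := by
    field_simp
    linear_combination e2 - e1
  have hB : B = f * Y1 ^ 2 - X1 ^ 3 - A * X1 := by linear_combination -e1
  rw [h3, hB, hA]
  field_simp
  ring

end alg

theorem pos_add (a b : F) {X1 X2 X3 : RatFunc F} (h1 : 1 < vi F X1) (h2 : 1 < vi F X2)
    (h : (X1 - X2) ^ 2 * X3 ^ 2 - (2 * ((X1 + X2) * (X1 * X2 + io (C a)) + 2 * io (C b))) * X3
      + ((X1 * X2 - io (C a)) ^ 2 - 4 * io (C b) * (X1 + X2)) = 0) : 1 < vi F X3 := by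
  by_contra hc
  push Not at hc
  set v := vi F with hv
  set p := v X1 with hp
  set q := v X2 with hq
  have p0 : 0 < p := lt_trans zero_lt_one h1
  have q0 : 0 < q := lt_trans zero_lt_one h2
  have hpq1 : p < p * q := lt_mul_of_one_lt_right p0 h2
  have hpq2 : q < p * q := lt_mul_of_one_lt_left q0 h1
  have hpq : 1 < p * q := lt_trans h1 hpq1
  have pq0 : 0 < p * q := lt_trans zero_lt_one hpq
  have hM : max p q < p * q := max_lt hpq1 hpq2
  have v2 : v 2 ≤ 1 := by
    have : (2 : RatFunc F) = io (C 2) := by rw [map_ofNat, map_ofNat]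
    rw [this]; exact vi_const 2
  have v4 : v 4 ≤ 1 := by
    have : (4 : RatFunc F) = io (C 4) := by rw [map_ofNat, map_ofNat]
    rw [this]; exact vi_const 4
  have va : v (io (C a)) ≤ 1 := vi_const a
  have vb : v (io (C b)) ≤ 1 := vi_const b
  have vs : v (X1 + X2) ≤ max p q := v.map_add X1 X2
  have vd : v (X1 - X2) ≤ max p q := v.map_sub X1 X2
  have vm : v (X1 * X2 + io (C a)) ≤ p * q := by
    refine v.map_add_le ?_ (va.trans hpq.le)
    rw [map_mul]
  have vm' : v (X1 * X2 - io (C a)) = p * q := by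
    rw [v.map_sub_eq_of_lt_left]
    · rw [map_mul]
    · rw [map_mul]; exact lt_of_le_of_lt va hpq
  have vG2 : v ((X1 * X2 - io (C a)) ^ 2 - 4 * io (C b) * (X1 + X2)) = (p * q) * (p * q) := by
    rw [v.map_sub_eq_of_lt_left]
    · rw [map_pow, vm', sq]
    · rw [map_pow, vm', map_mul, map_mul]
      calc v 4 * v (io (C b)) * v (X1 + X2) ≤ 1 * 1 * max p q :=
            mul_le_mul' (mul_le_mul' v4 vb) vs
        _ = max p q := by rw [one_mul, one_mul]
        _ < p * q := hM
        _ < (p * q) * (p * q) := lt_mul_of_one_lt_right pq0 hpq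
        _ = (p * q) ^ 2 := by rw [sq]
  have vG1 : v ((2 * ((X1 + X2) * (X1 * X2 + io (C a)) + 2 * io (C b))) * X3) < (p * q) * (p * q) := by
    rw [map_mul, map_mul]
    have k : v ((X1 + X2) * (X1 * X2 + io (C a)) + 2 * io (C b)) ≤ max p q * (p * q) := by
      refine v.map_add_le ?_ ?_
      · rw [map_mul]; exact mul_le_mul' vs vm
      · rw [map_mul]
        calc v 2 * v (io (C b)) ≤ 1 * 1 := mul_le_mul' v2 vb
          _ ≤ max p q * (p * q) := mul_le_mul' (h1.le.trans (le_max_left _ _)) hpq.le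
    calc v 2 * v ((X1 + X2) * (X1 * X2 + io (C a)) + 2 * io (C b)) * v X3
        ≤ 1 * (max p q * (p * q)) * 1 := mul_le_mul' (mul_le_mul' v2 k) hc
      _ = max p q * (p * q) := by rw [one_mul, mul_one]
      _ < (p * q) * (p * q) := mul_lt_mul_of_pos_right hM pq0
  have vG0 : v ((X1 - X2) ^ 2 * X3 ^ 2) < (p * q) * (p * q) := by
    rw [map_mul, map_pow, map_pow]
    calc v (X1 - X2) ^ 2 * v X3 ^ 2 ≤ (max p q) ^ 2 * 1 ^ 2 :=
          mul_le_mul' (pow_le_pow_left' vd 2) (pow_le_pow_left' hc 2)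
      _ = max p q * max p q := by rw [one_pow, mul_one, sq]
      _ < (p * q) * (p * q) := mul_lt_mul'' hM hM zero_le zero_le
  have e : (X1 * X2 - io (C a)) ^ 2 - 4 * io (C b) * (X1 + X2) =
      (2 * ((X1 + X2) * (X1 * X2 + io (C a)) + 2 * io (C b))) * X3 - (X1 - X2) ^ 2 * X3 ^ 2 := by
    linear_combination h
  have := v.map_sub_lt vG1 vG0
  rw [← e, vG2] at this
  exact lt_irrefl _ this

theorem pos_cub (a b : F) {X1 : RatFunc F} (h1 : 1 < vi F X1) :
    vi F (X1 ^ 3 + io (C a) * X1 + io (C b)) = vi F X1 ^ 3 := by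
  set v := vi F with hv
  set p := v X1 with hp
  have p0 : 0 < p := lt_trans zero_lt_one h1
  have va : v (io (C a)) ≤ 1 := vi_const a
  have vb : v (io (C b)) ≤ 1 := vi_const b
  have h2 : p < p * p := lt_mul_of_one_lt_right p0 h1
  have h3 : p * p < p * p * p := lt_mul_of_one_lt_right (mul_pos p0 p0) h1
  have e1 : v (X1 ^ 3 + io (C a) * X1) = p ^ 3 := by
    rw [v.map_add_eq_of_lt_left]
    · rw [map_pow]
    · rw [map_pow, map_mul]
      calc v (io (C a)) * v X1 ≤ 1 * p := mul_le_mul' va le_rfl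
        _ = p := one_mul _
        _ < p ^ 3 := by rw [pow_succ, sq]; exact lt_trans h2 h3
  rw [v.map_add_eq_of_lt_left]
  · exact e1
  · rw [e1]
    calc v (io (C b)) ≤ 1 := vb
      _ < p := h1
      _ < p ^ 3 := by rw [pow_succ, sq]; exact lt_trans h2 h3

theorem pos_dbl (a b : F) (h2 : (2 : F) ≠ 0) {X1 X3 : RatFunc F} (h1 : 1 < vi F X1)
    (h : X3 * (4 * (X1 ^ 3 + io (C a) * X1 + io (C b))) =
      (X1 ^ 2 - io (C a)) ^ 2 - 8 * io (C b) * X1) : 1 < vi F X3 := by
  set v := vi F with hv
  set p := v X1 with hp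
  have p0 : 0 < p := lt_trans zero_lt_one h1
  have va : v (io (C a)) ≤ 1 := vi_const a
  have vb : v (io (C b)) ≤ 1 := vi_const b
  have v8 : v 8 ≤ 1 := by
    have : (8 : RatFunc F) = io (C 8) := by rw [map_ofNat, map_ofNat]
    rw [this]; exact vi_const 8
  have v4 : v 4 = 1 := by
    have : (4 : RatFunc F) = io (C 4) := by rw [map_ofNat, map_ofNat]
    rw [this]
    refine vi_unit ?_
    have : (4 : F) = 2 * 2 := by norm_num
    rw [this]; exact mul_ne_zero h2 h2
  have hpp : 1 < p * p := lt_trans h1 (lt_mul_of_one_lt_right p0 h1)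
  have hp2 : p < p * p := lt_mul_of_one_lt_right p0 h1
  have e1 : v (X1 ^ 2 - io (C a)) = p * p := by
    rw [v.map_sub_eq_of_lt_left]
    · rw [map_pow, sq]
    · rw [map_pow, sq]; exact lt_of_le_of_lt va hpp
  have e2 : v ((X1 ^ 2 - io (C a)) ^ 2 - 8 * io (C b) * X1) = (p * p) ^ 2 := by
    rw [v.map_sub_eq_of_lt_left]
    · rw [map_pow, e1]
    · rw [map_pow, e1, map_mul, map_mul]
      calc v 8 * v (io (C b)) * v X1 ≤ 1 * 1 * p := mul_le_mul' (mul_le_mul' v8 vb) le_rfl
        _ = p := by rw [one_mul, one_mul]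
        _ < p * p := hp2
        _ < (p * p) * (p * p) := lt_mul_of_one_lt_right (mul_pos p0 p0) hpp
        _ = (p * p) ^ 2 := by rw [sq]
  have e3 := congrArg v h
  rw [e2, map_mul, map_mul, v4, pos_cub a b h1, one_mul] at e3
  have e4 : v X3 = p := by
    have hp3 : p ^ 3 ≠ 0 := pow_ne_zero _ p0.ne'
    apply mul_right_cancel₀ hp3
    rw [e3, ← sq, ← pow_mul, ← pow_succ']
  rw [e4]
  exact h1

/-- the point reduces to zero at infinity, and multiplies the differential by `c` -/
def Good {a b : F} (c : F) : (TW a b).Point → Prop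
  | .zero => c = 0
  | .some x y _ => 1 < vi F (x / io (fp a b)) ∧
      rd (x / io (fp a b)) = io (C c) * (y / io (fp a b) ^ 2)

theorem good_zero {a b : F} {c : F} : Good c (0 : (TW a b).Point) ↔ c = 0 := Iff.rfl

theorem good_some {a b : F} {c : F} {x y : RatFunc F} (h : (TW a b).Nonsingular x y) :
    Good c (Point.some x y h) ↔ (1 < vi F (x / io (fp a b)) ∧
      rd (x / io (fp a b)) = io (C c) * (y / io (fp a b) ^ 2)) := Iff.rfl

theorem tw_eqn {a b : F} {x y : RatFunc F} (h : (TW a b).Nonsingular x y) :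
    io (fp a b) * (y / io (fp a b) ^ 2) ^ 2 =
      (x / io (fp a b)) ^ 3 + io (C a) * (x / io (fp a b)) + io (C b) := by
  have hf := fk_ne a b
  have := eqn h
  field_simp
  linear_combination this

/-- the derivative of the second coordinate -/
theorem rd_Y {a b c : F} {X Y : RatFunc F} (hY : Y ≠ 0)
    (he : io (fp a b) * Y ^ 2 = X ^ 3 + io (C a) * X + io (C b)) (hd : rd X = io (C c) * Y) :
    2 * io (fp a b) * rd Y =
      (3 * X ^ 2 + io (C a)) * io (C c) - io (derivative (fp a b)) * Y := by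
  have := congrArg rd he
  rw [rd_mul, rd_io, rd_sq, rd_add, rd_add, rd_cube, rd_mul, rd_const, rd_const, hd] at this
  apply mul_left_cancel₀ hY
  linear_combination this

theorem two_ne_K (h2 : (2 : F) ≠ 0) : (2 : RatFunc F) ≠ 0 := by
  intro h
  apply h2
  have h' : io (C (2 : F)) = 0 := by rw [map_ofNat, map_ofNat]; exact h
  rw [← map_zero (io (F := F))] at h'
  have := io_inj h'
  rwa [C_eq_zero] at this

theorem good_Y {a b c : F} {x y : RatFunc F} (h : (TW a b).Nonsingular x y)
    (hg : Good c (Point.some x y h)) : y / io (fp a b) ^ 2 ≠ 0 := by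
  intro h0
  have he := tw_eqn h
  have hg1 := ((good_some h).mp hg).1
  have hc := pos_cub a b hg1
  rw [← he, h0] at hc
  simp only [ne_eq, OfNat.ofNat_ne_zero, not_false_eq_true, zero_pow, mul_zero, map_zero] at hc
  have h1 : vi F (x / io (fp a b)) ≠ 0 := (lt_trans zero_lt_one hg1).ne'
  exact pow_ne_zero 3 h1 hc.symm

open Classical in
theorem good_add {a b c1 c2 : F} (h2 : (2 : F) ≠ 0) {P Q : (TW a b).Point} (hP : Good c1 P)
    (hQ : Good c2 Q) : Good (c1 + c2) (P + Q) := by
  have hf := fk_ne a b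
  have h2K := two_ne_K h2
  cases P with
  | zero =>
    have h0 : c1 = 0 := hP
    rw [h0, zero_add, show (Point.zero : (TW a b).Point) = 0 from rfl, zero_add]
    exact hQ
  | some x1 y1 h1 =>
    cases Q with
    | zero =>
      have h0 : c2 = 0 := hQ
      rw [h0, add_zero, show (Point.zero : (TW a b).Point) = 0 from rfl, add_zero]
      exact hP
    | some x2 y2 h2' =>
      have hY1 := good_Y h1 hP
      have hY2 := good_Y h2' hQ
      have E1 := tw_eqn h1
      have E2 := tw_eqn h2'
      obtain ⟨v1, r1⟩ := (good_some h1).mp hP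
      obtain ⟨v2, r2⟩ := (good_some h2').mp hQ
      have k1 := rd_Y hY1 E1 r1
      have k2 := rd_Y hY2 E2 r2
      by_cases hx : x1 = x2
      · by_cases hy : y1 = (TW a b).negY x2 y2
        · rw [Point.add_of_Y_eq hx hy, good_zero]
          rw [negY_SW] at hy
          rw [hx, hy] at r1
          rw [r1] at r2
          have : io (C (c1 + c2)) * (y2 / io (fp a b) ^ 2) = 0 := by
            rw [C_add, map_add]
            linear_combination -r2
          have h3 := (mul_eq_zero.mp this).resolve_right hY2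
          rw [← map_zero (io (F := F))] at h3
          exact C_eq_zero.mp (io_inj h3)
        · -- doubling
          subst hx
          have hyy : y1 = y2 := by
            rcases Y_eq_of_X_eq h1.1 h2'.1 rfl with h | h
            · exact h
            · exact absurd h hy
          subst hyy
          have hcc : c1 = c2 := by
            rw [r1] at r2
            have h3 := mul_right_cancel₀ hY1 r2
            exact C_inj.mp (io_inj h3)
          subst hcc
          have hy0 : y1 ≠ 0 := by
            intro h0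
            apply hY1
            rw [h0, zero_div]
          rw [Point.add_self_of_Y_ne hy, good_some]
          have hsl : (TW a b).slope x1 x1 y1 y1 =
              (3 * x1 ^ 2 + io (C a) * io (fp a b) ^ 2) / (2 * y1) := by
            rw [slope_of_Y_ne rfl hy, negY_SW]
            congr 1
            · simp
            · ring
          set X := x1 / io (fp a b) with hX
          set Y := y1 / io (fp a b) ^ 2 with hYd
          have ex : x1 = io (fp a b) * X := by rw [hX]; field_simp
          have ey : y1 = io (fp a b) ^ 2 * Y := by rw [hYd]; field_simp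
          have eX3 : (TW a b).addX x1 x1 ((TW a b).slope x1 x1 y1 y1) / io (fp a b) =
              io (fp a b) * ((3 * X ^ 2 + io (C a)) / (2 * io (fp a b) * Y)) ^ 2 - 2 * X := by
            rw [hsl]
            simp only [addX]
            rw [ex, ey]
            field_simp
            ring
          have eY3 : (TW a b).addY x1 x1 y1 ((TW a b).slope x1 x1 y1 y1) / io (fp a b) ^ 2 =
              -(((3 * X ^ 2 + io (C a)) / (2 * io (fp a b) * Y)) *
                ((io (fp a b) * ((3 * X ^ 2 + io (C a)) / (2 * io (fp a b) * Y)) ^ 2 - 2 * X) - X)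
                + Y) := by
            rw [hsl]
            simp only [addY, negAddY, addX, negY]
            rw [ex, ey]
            field_simp
            ring
          rw [eX3, eY3]
          refine ⟨?_, ?_⟩
          · apply pos_dbl a b h2 v1
            rw [← E1]
            have hB : io (C b) = io (fp a b) * Y ^ 2 - X ^ 3 - io (C a) * X := by
              linear_combination -E1
            rw [hB]
            field_simp
            ring
          · have hq : (2 * io (fp a b) * Y : RatFunc F) ≠ 0 := mul_ne_zero (mul_ne_zero h2K hf) hY1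
            rw [rd_sub, rd_mul, rd_io, rd_sq, rd_quot _ _ hq]
            have e2 : rd (2 : RatFunc F) = 0 := by
              have : (2 : RatFunc F) = io (C 2) := by rw [map_ofNat, map_ofNat]
              rw [this, rd_const]
            have e3 : rd (3 : RatFunc F) = 0 := by
              have : (3 : RatFunc F) = io (C 3) := by rw [map_ofNat, map_ofNat]
              rw [this, rd_const]
            have hn : rd (3 * X ^ 2 + io (C a)) = 6 * X * (io (C c1) * Y) := by
              rw [rd_add, rd_mul, rd_const, rd_sq, e3, r1]; ring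
            have hm : rd (2 * io (fp a b) * Y) =
                2 * io (derivative (fp a b)) * Y + 2 * io (fp a b) * rd Y := by
              rw [rd_mul, rd_mul, e2, rd_io]; ring
            have h2X : rd (2 * X) = 2 * (io (C c1) * Y) := by rw [rd_mul, e2, r1]; ring
            rw [hn, hm, h2X, C_add, map_add]
            exact dbl_der _ _ _ _ _ _ _ h2K hf hY1 k1
      · have hneg : x1 ≠ x2 := hx
        rw [Point.add_of_X_ne hx, good_some]
        set X1 := x1 / io (fp a b) with hX1
        set Y1 := y1 / io (fp a b) ^ 2 with hYd1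
        set X2 := x2 / io (fp a b) with hX2
        set Y2 := y2 / io (fp a b) ^ 2 with hYd2
        have ex1 : x1 = io (fp a b) * X1 := by rw [hX1]; field_simp
        have ey1 : y1 = io (fp a b) ^ 2 * Y1 := by rw [hYd1]; field_simp
        have ex2 : x2 = io (fp a b) * X2 := by rw [hX2]; field_simp
        have ey2 : y2 = io (fp a b) ^ 2 * Y2 := by rw [hYd2]; field_simp
        have hd : X1 - X2 ≠ 0 := by
          intro h0
          apply hx
          rw [ex1, ex2, sub_eq_zero.mp h0]
        have hxd : x1 - x2 ≠ 0 := sub_ne_zero.mpr hx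
        have eX3 : (TW a b).addX x1 x2 ((TW a b).slope x1 x2 y1 y2) / io (fp a b) =
            io (fp a b) * ((Y1 - Y2) / (X1 - X2)) ^ 2 - X1 - X2 := by
          rw [slope_of_X_ne hx]
          simp only [addX]
          rw [ex1, ex2, ey1, ey2, ← mul_sub, ← mul_sub]
          field_simp
          ring
        have eY3 : (TW a b).addY x1 x2 y1 ((TW a b).slope x1 x2 y1 y2) / io (fp a b) ^ 2 =
            -(((Y1 - Y2) / (X1 - X2)) *
              ((io (fp a b) * ((Y1 - Y2) / (X1 - X2)) ^ 2 - X1 - X2) - X1) + Y1) := by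
          rw [slope_of_X_ne hx]
          simp only [addY, negAddY, addX, negY]
          rw [ex1, ex2, ey1, ey2, ← mul_sub, ← mul_sub]
          field_simp
          ring
        rw [eX3, eY3]
        refine ⟨?_, ?_⟩
        · apply pos_add a b v1 v2
          exact add_quad _ _ _ _ _ _ _ _ hd E1 E2 rfl
        · rw [rd_sub, rd_sub, rd_mul, rd_io, rd_sq, rd_quot _ _ hd, rd_sub, rd_sub, r1, r2, C_add,
            map_add]
          exact add_der _ _ _ _ _ _ _ _ _ _ _ _ h2K hf hd E1 E2 k1 k2

end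

end Pool.Agent.Q267.MW
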