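import Pool.Agent.Q267.MW.C3Log
import Pool.Agent.Q267.MW.Good

set_option autoImplicit false

/-!
# The cubic transformation of the differential equation over the rational function field
-/

namespace Pool.Agent.Q267.MW

open Polynomial

variable {F : Type*} [Field F]

noncomputable section

/-- evaluation of a polynomial at a rational function -/
def ev (s : RatFunc F) : F[X] →+* RatFunc F := eval₂RingHom ((io (F := F)).comp C) s

theorem ev_C (s : RatFunc F) (a : F) : ev s (C a) = io (C a) := by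
  unfold ev
  simp

theorem ev_X (s : RatFunc F) : ev s X = s := by
  unfold ev
  simp

theorem chain (s : RatFunc F) (P : F[X]) : rd (ev s P) = ev s (derivative P) * rd s := by
  induction P using Polynomial.induction_on with
  | C a => rw [ev_C, rd_const, derivative_C, map_zero, zero_mul]
  | add P Q h1 h2 => rw [map_add, rd_add, h1, h2, derivative_add, map_add]; ring
  | monomial n a ih =>
    have e1 : (C a * X ^ (n + 1) : F[X]) = C a * X ^ n * X := by ring
    have e2 : derivative (C a * X ^ n * X : F[X]) = derivative (C a * X ^ n) * X + C a * X ^ n := by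
      rw [derivative_mul (f := C a * X ^ n) (g := X), derivative_X, mul_one]
    rw [e1, e2, map_mul (ev s) (C a * X ^ n) X, rd_mul, ih, ev_X, map_add (ev s),
      map_mul (ev s) _ X, ev_X]
    ring

theorem rd_pow (a : RatFunc F) (n : ℕ) : rd (a ^ (n + 1)) = (n + 1) * a ^ n * rd a := by
  induction n with
  | zero => simp
  | succ n ih =>
    rw [pow_succ, rd_mul, ih]
    push_cast
    ring

theorem rd_x : rd (io (X : F[X])) = 1 := by rw [rd_io, derivative_X, map_one]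

/-- the variable -/
abbrev xx (F : Type*) [Field F] : RatFunc F := io X

/-- the differential operator -/
def TT3 (y : RatFunc F) : RatFunc F :=
  xx F * (1 - xx F ^ 3) * rd (rd y) + (1 - 4 * xx F ^ 3) * rd y - 2 * xx F ^ 2 * y

theorem TT3_add (y z : RatFunc F) : TT3 (y + z) = TT3 y + TT3 z := by
  unfold TT3
  rw [rd_add, rd_add]
  ring

theorem TT3_sub (y z : RatFunc F) : TT3 (y - z) = TT3 y - TT3 z := by
  unfold TT3
  rw [rd_sub, rd_sub]
  ring

theorem TT3_smul (c y : RatFunc F) (hc : rd c = 0) : TT3 (c * y) = c * TT3 y := by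
  unfold TT3
  have h1 : rd (c * y) = c * rd y := by rw [rd_mul, hc, zero_mul, zero_add]
  have h2 : rd (c * rd y) = c * rd (rd y) := by rw [rd_mul, hc, zero_mul, zero_add]
  rw [h1, h2]
  ring

/-- the hypergeometric operator -/
def Lp (P : F[X]) : F[X] := X * (1 - 27 * X) * derivative (derivative P) +
  (1 - 54 * X) * derivative P - 6 * P

theorem rd_one : rd (1 : RatFunc F) = 0 := by
  have := rd_const (F := F) 1
  simpa using this

theorem rd_nat (n : ℕ) : rd ((n : ℕ) : RatFunc F) = 0 := by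
  have := rd_const (F := F) (n : F)
  rw [map_natCast, map_natCast] at this
  exact this

theorem rd_ofNat (n : ℕ) [n.AtLeastTwo] : rd (OfNat.ofNat n : RatFunc F) = 0 := by
  have := rd_const (F := F) (OfNat.ofNat n)
  rw [map_ofNat, map_ofNat] at this
  exact this

theorem ev_Lp (s : RatFunc F) (P : F[X]) : ev s (Lp P) =
    s * (1 - 27 * s) * ev s (derivative (derivative P)) + (1 - 54 * s) * ev s (derivative P) -
      6 * ev s P := by
  unfold Lp
  simp only [map_sub, map_add, map_mul, map_one, map_ofNat, ev_X]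

/-- the two arguments -/
def phi3 (F : Type*) [Field F] : RatFunc F := xx F ^ 3 / 27

def psi3 (F : Type*) [Field F] : RatFunc F :=
  xx F * (1 + xx F + xx F ^ 2) / (3 * (1 + 2 * xx F) ^ 3)

theorem three_ne_R (h3 : (3 : F) ≠ 0) : (3 : RatFunc F) ≠ 0 := by
  intro h
  apply h3
  have h' : io (C (3 : F)) = 0 := by rw [map_ofNat, map_ofNat]; exact h
  rw [← map_zero (io (F := F))] at h'
  have := io_inj h'
  rwa [C_eq_zero] at this

theorem B_ne : (1 + 2 * xx F : RatFunc F) ≠ 0 := by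
  have e : (1 + 2 * xx F : RatFunc F) = io (C 2 * X + C 1) := by
    rw [map_add, map_mul, C_1, map_one, map_ofNat C, map_ofNat io]
    ring
  rw [e]
  apply io_ne
  intro h
  have := congrArg (fun q => q.eval 0) h
  simp at this

theorem T_phi (h3 : (3 : F) ≠ 0) (P : F[X]) :
    TT3 (ev (phi3 F) P) = xx F ^ 2 / 3 * ev (phi3 F) (Lp P) := by
  have h3K := three_ne_R h3
  have h27 : (27 : RatFunc F) ≠ 0 := by
    have : (27 : RatFunc F) = 3 ^ 3 := by norm_num
    rw [this]; exact pow_ne_zero 3 h3K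
  have h9 : (9 : RatFunc F) ≠ 0 := by
    have : (9 : RatFunc F) = 3 ^ 2 := by norm_num
    rw [this]; exact pow_ne_zero 2 h3K
  have hp : rd (phi3 F) = xx F ^ 2 / 9 := by
    unfold phi3
    rw [rd_quot _ _ h27, rd_cube, rd_x, rd_ofNat]
    field_simp
    ring
  have hp2 : rd (xx F ^ 2 / 9) = 2 * xx F / 9 := by
    rw [rd_quot _ _ h9, rd_sq, rd_x, rd_ofNat]
    field_simp
    ring
  have y1 : rd (ev (phi3 F) P) = ev (phi3 F) (derivative P) * (xx F ^ 2 / 9) := by
    rw [chain, hp]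
  have y2 : rd (rd (ev (phi3 F) P)) =
      ev (phi3 F) (derivative (derivative P)) * (xx F ^ 2 / 9) * (xx F ^ 2 / 9) +
        ev (phi3 F) (derivative P) * (2 * xx F / 9) := by
    rw [y1, rd_mul, chain, hp, hp2]
  rw [ev_Lp]
  unfold TT3
  rw [y2, y1]
  generalize ev (phi3 F) (derivative (derivative P)) = a2
  generalize ev (phi3 F) (derivative P) = a1
  generalize ev (phi3 F) P = a0
  unfold phi3
  field_simp
  ring

theorem rd_psi (h3 : (3 : F) ≠ 0) :
    rd (psi3 F) = (1 - xx F) ^ 2 / (3 * (1 + 2 * xx F) ^ 4) := by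
  have h3K := three_ne_R h3
  have hB := B_ne (F := F)
  have hd : (3 * (1 + 2 * xx F) ^ 3 : RatFunc F) ≠ 0 := mul_ne_zero h3K (pow_ne_zero 3 hB)
  have rB : rd (1 + 2 * xx F) = 2 := by
    rw [rd_add, rd_mul, rd_one, rd_ofNat, rd_x]; ring
  unfold psi3
  rw [rd_quot _ _ hd, rd_mul 3, rd_cube, rB, rd_mul, rd_x, rd_add, rd_add, rd_one, rd_x, rd_sq,
    rd_x, rd_ofNat]
  field_simp
  ring

theorem rd_psi2 (h3 : (3 : F) ≠ 0) :
    rd ((1 - xx F) ^ 2 / (3 * (1 + 2 * xx F) ^ 4)) =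
      -2 * (1 - xx F) * (5 - 2 * xx F) / (3 * (1 + 2 * xx F) ^ 5) := by
  have h3K := three_ne_R h3
  have hB := B_ne (F := F)
  have hd : (3 * (1 + 2 * xx F) ^ 4 : RatFunc F) ≠ 0 := mul_ne_zero h3K (pow_ne_zero 4 hB)
  have rB : rd (1 + 2 * xx F) = 2 := by
    rw [rd_add, rd_mul, rd_one, rd_ofNat, rd_x]; ring
  have rB4 : rd ((1 + 2 * xx F) ^ 4) = 8 * (1 + 2 * xx F) ^ 3 := by
    have := rd_pow (1 + 2 * xx F) 3
    rw [show 3 + 1 = 4 by norm_num] at this
    rw [this, rB]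
    push_cast
    ring
  rw [rd_quot _ _ hd, rd_mul 3, rB4, rd_sq, rd_sub, rd_one, rd_x, rd_ofNat]
  field_simp
  ring

theorem alg_psi {K : Type*} [Field K] (x a0 a1 a2 : K) (h3 : (3 : K) ≠ 0) (hB : 1 + 2 * x ≠ 0) :
    x * (1 - x ^ 3) * (a2 * ((1 - x) ^ 2 / (3 * (1 + 2 * x) ^ 4)) *
      ((1 - x) ^ 2 / (3 * (1 + 2 * x) ^ 4)) / (1 + 2 * x) +
      a1 * (-2 * (1 - x) * (5 - 2 * x) / (3 * (1 + 2 * x) ^ 5)) / (1 + 2 * x) -
      4 * a1 * ((1 - x) ^ 2 / (3 * (1 + 2 * x) ^ 4)) / (1 + 2 * x) ^ 2 +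
      8 * a0 / (1 + 2 * x) ^ 3) +
    (1 - 4 * x ^ 3) * (a1 * ((1 - x) ^ 2 / (3 * (1 + 2 * x) ^ 4)) / (1 + 2 * x) -
      2 * (a0 / (1 + 2 * x) ^ 2)) - 2 * x ^ 2 * (a0 / (1 + 2 * x)) =
    (1 - x) ^ 2 / (3 * (1 + 2 * x) ^ 3) *
      (x * (1 + x + x ^ 2) / (3 * (1 + 2 * x) ^ 3) *
        (1 - 27 * (x * (1 + x + x ^ 2) / (3 * (1 + 2 * x) ^ 3))) * a2 +
        (1 - 54 * (x * (1 + x + x ^ 2) / (3 * (1 + 2 * x) ^ 3))) * a1 - 6 * a0) := by
  generalize hb : 1 + 2 * x = b at *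
  field_simp
  rw [← hb]
  ring

theorem T_psi (h3 : (3 : F) ≠ 0) (P : F[X]) :
    TT3 (ev (psi3 F) P / (1 + 2 * xx F)) =
      (1 - xx F) ^ 2 / (3 * (1 + 2 * xx F) ^ 3) * ev (psi3 F) (Lp P) := by
  have h3K := three_ne_R h3
  have hB := B_ne (F := F)
  have rB : rd (1 + 2 * xx F) = 2 := by
    rw [rd_add, rd_mul, rd_one, rd_ofNat, rd_x]; ring
  have d1 : ∀ Q : F[X], rd (ev (psi3 F) Q) =
      ev (psi3 F) (derivative Q) * ((1 - xx F) ^ 2 / (3 * (1 + 2 * xx F) ^ 4)) := by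
    intro Q
    rw [chain, rd_psi h3]
  set w : RatFunc F := (1 - xx F) ^ 2 / (3 * (1 + 2 * xx F) ^ 4) with hw
  have dw : rd w = -2 * (1 - xx F) * (5 - 2 * xx F) / (3 * (1 + 2 * xx F) ^ 5) := rd_psi2 h3
  have y1 : rd (ev (psi3 F) P / (1 + 2 * xx F)) =
      ev (psi3 F) (derivative P) * w / (1 + 2 * xx F) - 2 * (ev (psi3 F) P / (1 + 2 * xx F) ^ 2) := by
    rw [rd_quot _ _ hB, d1, rB]
    field_simp
  have y2 : rd (rd (ev (psi3 F) P / (1 + 2 * xx F))) =
      ev (psi3 F) (derivative (derivative P)) * w * w / (1 + 2 * xx F) +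
      ev (psi3 F) (derivative P) * rd w / (1 + 2 * xx F) -
      4 * ev (psi3 F) (derivative P) * w / (1 + 2 * xx F) ^ 2 +
      8 * ev (psi3 F) P / (1 + 2 * xx F) ^ 3 := by
    rw [y1, rd_sub, rd_quot _ _ hB, rd_mul, d1, rB, rd_mul 2, rd_ofNat,
      rd_quot _ _ (pow_ne_zero 2 hB), d1, rd_sq, rB]
    field_simp
    ring
  rw [ev_Lp]
  unfold TT3
  rw [y2, y1, dw, hw]
  generalize ev (psi3 F) (derivative (derivative P)) = a2
  generalize ev (psi3 F) (derivative P) = a1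
  generalize ev (psi3 F) P = a0
  unfold psi3
  exact alg_psi _ _ _ _ h3K hB

end

end Pool.Agent.Q267.MW
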