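import Pool.Agent.Q267.MW.D7

set_option autoImplicit false

/-!
# The curve `y² = x³ - 264 x + 1694` and its endomorphism of degree three
-/

namespace Pool.Agent.Q267.MW

open Polynomial

-- REL hal al [T,al] al^2 - (al - 3)

section alg

variable {K : Type*} [Field K]

/-- first coordinate of the endomorphism -/
def x11 (al T : K) : K := -(2 + al) * ((T * (T - (12 - 2 * al)) + 264 * (1 - al)) *
  (T - (12 - 2 * al)) - 88 * (7 + 8 * al)) / (9 * (T - (12 - 2 * al)) ^ 2)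

/-- second coordinate of the endomorphism -/
def y11 (al T : K) : K := (2 * al - 5) * ((T - (12 - 2 * al)) ^ 3 -
  264 * (1 - al) * (T - (12 - 2 * al)) + 176 * (7 + 8 * al)) / (27 * (T - (12 - 2 * al)) ^ 3)

theorem pow3_ne {K : Type*} [Field K] (h3 : (3 : K) ≠ 0) : (9 : K) ≠ 0 ∧ (27 : K) ≠ 0 := by
  refine ⟨?_, ?_⟩
  · have : (9 : K) = 3 ^ 2 := by norm_num
    rw [this]; exact pow_ne_zero _ h3
  · have : (27 : K) = 3 ^ 3 := by norm_num
    rw [this]; exact pow_ne_zero _ h3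

theorem d11_eqn (T al : K) (hal : al ^ 2 = al - 3) (h3 : (3 : K) ≠ 0) (hT : T - (12 - 2 * al) ≠ 0) :
    (T ^ 3 - 264 * T + 1694) * (y11 al T) ^ 2 = (x11 al T) ^ 3 - 264 * x11 al T + 1694 := by
  obtain ⟨h9, h27⟩ := pow3_ne h3
  unfold x11 y11
  have hd := mul_ne_zero h9 (pow_ne_zero 2 hT)
  have hd' := mul_ne_zero h27 (pow_ne_zero 3 hT)
  rw [div_pow, div_pow, mul_div_assoc', mul_div_assoc', div_sub_div _ _ (pow_ne_zero 3 hd) hd,
    div_add' _ _ _ (mul_ne_zero (pow_ne_zero 3 hd) hd), div_eq_div_iff (pow_ne_zero 2 hd')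
      (mul_ne_zero (pow_ne_zero 3 hd) hd)]
  linear_combination (107495424 * T ^ 3 * al ^ 15 + 752467968 * T ^ 4 * al ^ 14 + 2445520896 * T ^ 5 * al ^ 13 + 4891041792 * T ^ 6 * al ^ 12 + 6725182464 * T ^ 7 * al ^ 11 + 6725182464 * T ^ 8 * al ^ 10 + 5043886848 * T ^ 9 * al ^ 9 + 2882221056 * T ^ 10 * al ^ 8 + 1260971712 * T ^ 11 * al ^ 7 + 420323904 * T ^ 12 * al ^ 6 + 105080976 * T ^ 13 * al ^ 5 + 19105632 * T ^ 14 * al ^ 4 + 2388204 * T ^ 15 * al ^ 3 + 183708 * T ^ 16 * al ^ 2 + 6561 * T ^ 17 * al - 42568187904 * T ^ 2 * al ^ 15 - 284540387328 * T ^ 3 * al ^ 14 - 880495017984 * T ^ 4 * al ^ 13 - 1670989492224 * T ^ 5 * al ^ 12 - 2171273195520 * T ^ 6 * al ^ 11 - 2041573248000 * T ^ 7 * al ^ 10 - 1430542384128 * T ^ 8 * al ^ 9 - 757303582464 * T ^ 9 * al ^ 8 - 303353766144 * T ^ 10 * al ^ 7 - 90970102080 * T ^ 11 * al ^ 6 - 19875316032 * T ^ 12 * al ^ 5 - 2987302032 * T ^ 13 * al ^ 4 - 268843536 * T ^ 14 * al ^ 3 -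 7584516 * T ^ 15 * al ^ 2 + 918540 * T ^ 16 * al + 72171 * T ^ 17 + 5619000803328 * T * al ^ 15 + 36722156765184 * T ^ 2 * al ^ 14 + 110944307183616 * T ^ 3 * al ^ 13 + 205198659846144 * T ^ 4 * al ^ 12 + 259265095778304 * T ^ 5 * al ^ 11 + 236317295149056 * T ^ 6 * al ^ 10 + 159837337718784 * T ^ 7 * al ^ 9 + 81162901518336 * T ^ 8 * al ^ 8 + 30874573661184 * T ^ 9 * al ^ 7 + 8639346760704 * T ^ 10 * al ^ 6 + 1699124739840 * T ^ 11 * al ^ 5 + 208933312896 * T ^ 12 * al ^ 4 + 9381075264 * T ^ 13 * al ^ 3 - 1400799744 * T ^ 14 * al ^ 2 - 246588624 * T ^ 15 * al - 12124728 * T ^ 16 - 1721400761253888 * T * al ^ 14 - 5470785467744256 * T ^ 2 * al ^ 13 - 10522550547873792 * T ^ 3 * al ^ 12 - 13677692058353664 * T ^ 4 * al ^ 11 - 12691756068913152 * T ^ 5 * al ^ 10 - 8645433568155648 * T ^ 6 * al ^ 9 - 4369393467242496 * T ^ 7 * al ^ 8 - 1630660017457152 * T ^ 8 * al ^ 7 - 438374072024064 * T ^ 9 * al ^ 6 - 79521227203968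 * T ^ 10 * al ^ 5 - 7887114778752 * T ^ 11 * al ^ 4 + 110803847616 * T ^ 12 * al ^ 3 + 147635307072 * T ^ 13 * al ^ 2 + 18331066584 * T ^ 14 * al + 822749400 * T ^ 15 - 247236035346432 * al ^ 15 + 81670606383218688 * T * al ^ 13 + 212064954563100672 * T ^ 2 * al ^ 12 + 331485479310458880 * T ^ 3 * al ^ 11 + 346661260007546880 * T ^ 4 * al ^ 10 + 254658818179104768 * T ^ 5 * al ^ 9 + 133964364731940864 * T ^ 6 * al ^ 8 + 50275945835495424 * T ^ 7 * al ^ 7 + 13014373085581824 * T ^ 8 * al ^ 6 + 2092352957595648 * T ^ 9 * al ^ 5 + 123924955739904 * T ^ 10 * al ^ 4 - 25510612469760 * T ^ 11 * al ^ 3 - 6817891598496 * T ^ 12 * al ^ 2 - 679917794688 * T ^ 13 * al - 27766781856 * T ^ 14 + 14340418439086080 * al ^ 14 - 1818271843204202496 * T * al ^ 12 - 3999041840632430592 * T ^ 2 * al ^ 11 - 5190210344527921152 * T ^ 3 * al ^ 10 - 4385051871273418752 * T ^ 4 * al ^ 9 - 2499660192008060928 * T ^ 5 * al ^ 8 - 955007669303525376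 * T ^ 6 * al ^ 7 - 227962003541336064 * T ^ 7 * al ^ 6 - 24567888955484160 * T ^ 8 * al ^ 5 + 2896209139912704 * T ^ 9 * al ^ 4 + 1438538145707520 * T ^ 10 * al ^ 3 + 211887977469696 * T ^ 11 * al ^ 2 + 14270707858176 * T ^ 12 * al + 379940476608 * T ^ 13 - 371219079960723456 * al ^ 13 + 23501878081394245632 * T * al ^ 11 + 43191295334401572864 * T ^ 2 * al ^ 10 + 45177480333180518400 * T ^ 3 * al ^ 9 + 28985859925652348928 * T ^ 4 * al ^ 8 + 11140024040929124352 * T ^ 5 * al ^ 7 + 1990354070344679424 * T ^ 6 * al ^ 6 - 243490520649885696 * T ^ 7 * al ^ 5 - 225210408180088320 * T ^ 8 * al ^ 4 - 53367749942006016 * T ^ 9 * al ^ 3 - 5759933837898240 * T ^ 10 * al ^ 2 - 206769794907456 * T ^ 11 * al + 4357911308256 * T ^ 12 + 5602415073790132224 * al ^ 12 - 186769595443016171520 * T * al ^ 10 - 271306590959627993088 * T ^ 2 * al ^ 9 - 203931452031887720448 * T ^ 3 * al ^ 8 - 72033185264630464512 * T ^ 4 * al ^ 7 + 3876409222707732480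 * T ^ 5 * al ^ 6 + 15134538487544340480 * T ^ 6 * al ^ 5 + 6664757345030670336 * T ^ 7 * al ^ 4 + 1434649280051598336 * T ^ 8 * al ^ 3 + 151973852145755904 * T ^ 9 * al ^ 2 + 4916599190173440 * T ^ 10 * al - 206659799375040 * T ^ 11 - 53627347215239086080 * al ^ 11 + 858345950036637646848 * T * al ^ 9 + 791028823963595931648 * T ^ 2 * al ^ 8 + 126218973845272264704 * T ^ 3 * al ^ 7 - 322078803567814656000 * T ^ 4 * al ^ 6 - 294399057218845556736 * T ^ 5 * al ^ 5 - 122553707214657540096 * T ^ 6 * al ^ 4 - 28247785489795424256 * T ^ 7 * al ^ 3 - 3507974338984524288 * T ^ 8 * al ^ 2 - 188648989927073280 * T ^ 9 * al - 726989628511872 * T ^ 10 + 324737725424287481856 * al ^ 10 - 1234723646086202916864 * T * al ^ 8 + 1544023368567097786368 * T ^ 2 * al ^ 7 + 3970338015948992151552 * T ^ 3 * al ^ 6 + 3374897454065310547968 * T ^ 4 * al ^ 5 + 1531957970110240899072 * T ^ 5 * al ^ 4 + 406192960870897508352 * T ^ 6 * al ^ 3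 + 62955105555473252352 * T ^ 7 * al ^ 2 + 5310039610013225472 * T ^ 8 * al + 186407816515278336 * T ^ 9 - 1060566183110547210240 * al ^ 9 - 10980824017617371529216 * T * al ^ 7 - 25198161026656560611328 * T ^ 2 * al ^ 6 - 24780753354181160337408 * T ^ 3 * al ^ 5 - 13272559892728063082496 * T ^ 4 * al ^ 4 - 4231629393269007679488 * T ^ 5 * al ^ 3 - 833398068206357913600 * T ^ 6 * al ^ 2 - 99032065494281035776 * T ^ 7 * al - 5585538380082845184 * T ^ 8 - 374943255776877477888 * al ^ 8 + 85373239018250497425408 * T * al ^ 6 + 114968743506744896913408 * T ^ 2 * al ^ 5 + 78559881617185583136768 * T ^ 3 * al ^ 4 + 31408201532521723723776 * T ^ 4 * al ^ 3 + 7964599659330103345152 * T ^ 5 * al ^ 2 + 1267467984797623713792 * T ^ 6 * al + 96052421825742716928 * T ^ 7 + 22863280491868949839872 * al ^ 7 - 307968330035402115121152 * T * al ^ 5 - 302722476418732694962176 * T ^ 2 * al ^ 4 - 160805806755816284356608 * T ^ 3 * al ^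 3 - 53844918420513662042112 * T ^ 4 * al ^ 2 - 11370030310074218840064 * T ^ 5 * al - 1112413838402568683520 * T ^ 6 - 122620997978795739709440 * al ^ 6 + 681766370285165205258240 * T * al ^ 4 + 534478966012556636848128 * T ^ 2 * al ^ 3 + 248603808564344015290368 * T ^ 3 * al ^ 2 + 71304610832413192617984 * T ^ 4 * al + 9066446807097113837568 * T ^ 5 + 363420232101773803782144 * al ^ 5 - 1021496238333025188839424 * T * al ^ 3 - 733128167470577190174720 * T ^ 2 * al ^ 2 - 303848946061822899781632 * T ^ 3 * al - 52137364164839142064128 * T ^ 4 - 676039154269166071971840 * al ^ 4 + 1204115070223414053568512 * T * al ^ 2 + 823882461031419441315840 * T ^ 2 * al + 205990000173125159878656 * T ^ 3 + 827073847754635968774144 * al ^ 3 - 1234814558315424346275840 * T * al - 524942119984450448130048 * T ^ 2 - 774423308922676939063296 * al ^ 2 + 755050861998573034143744 * T + 706565458128040120811520 * al - 435175107279457949319168)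 * hal

theorem d11_q (T al : K) (hal : al ^ 2 = al - 3) :
    T ^ 2 - 22 * T + 132 = (T - (12 - 2 * al)) * (T - (12 - 2 * (1 - al))) := by
  linear_combination (4) * hal

theorem d11_lam (T al : K) (hal : al ^ 2 = al - 3) (h3 : (3 : K) ≠ 0) (hT : T - (12 - 2 * al) ≠ 0)
    (hT' : T - (12 - 2 * (1 - al)) ≠ 0) (hx : T - x11 al T ≠ 0) :
    (1 - -(y11 al T)) / (T - x11 al T) = (2 * T - 44) / (3 * (T ^ 2 - 22 * T + 132)) := by
  obtain ⟨h9, h27⟩ := pow3_ne h3
  have hq : T ^ 2 - 22 * T + 132 ≠ 0 := by rw [d11_q T al hal]; exact mul_ne_zero hT hT'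
  have hd := mul_ne_zero h9 (pow_ne_zero 2 hT)
  have hd' := mul_ne_zero h27 (pow_ne_zero 3 hT)
  rw [div_eq_div_iff hx (mul_ne_zero h3 hq)]
  unfold x11 y11
  rw [sub_neg_eq_add, add_div' _ _ _ hd', sub_div' hd, div_mul_eq_mul_div, mul_div_assoc',
    div_eq_div_iff hd' hd]
  linear_combination (228096 * T * al ^ 4 + 570240 * T ^ 2 * al ^ 3 + 513216 * T ^ 3 * al ^ 2 + 199584 * T ^ 4 * al + 28512 * T ^ 5 - 16689024 * T * al ^ 3 - 19597248 * T ^ 2 * al ^ 2 - 9475488 * T ^ 3 * al - 1625184 * T ^ 4 - 4790016 * al ^ 4 + 244366848 * T * al ^ 2 + 167042304 * T ^ 2 * al + 36761472 * T ^ 3 + 114656256 * al ^ 3 - 1297790208 * T * al - 412606656 * T ^ 2 - 999896832 * al ^ 2 + 2298751488 * T + 3754460160 * al - 5088365568) * hal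

theorem d11_diff (T al : K) (hal : al ^ 2 = al - 3) (h3 : (3 : K) ≠ 0)
    (hT : T - (12 - 2 * al) ≠ 0) (hT' : T - (12 - 2 * (1 - al)) ≠ 0) :
    (T ^ 3 - 264 * T + 1694) * ((2 * T - 44) / (3 * (T ^ 2 - 22 * T + 132))) ^ 2 - T - x11 al T =
      x11 (1 - al) T := by
  obtain ⟨h9, h27⟩ := pow3_ne h3
  have hq : T ^ 2 - 22 * T + 132 ≠ 0 := by rw [d11_q T al hal]; exact mul_ne_zero hT hT'
  have hd := mul_ne_zero h9 (pow_ne_zero 2 hT)
  have hd' := mul_ne_zero h9 (pow_ne_zero 2 hT')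
  have hqq := pow_ne_zero 2 (mul_ne_zero h3 hq)
  unfold x11
  rw [div_pow, mul_div_assoc', sub_sub, add_div' _ _ _ hd, div_sub_div _ _ hqq hd,
    div_eq_div_iff (mul_ne_zero hqq hd) hd']
  linear_combination (171072 * T ^ 5 * al ^ 2 - 42768 * T ^ 7 - 10549440 * T ^ 4 * al ^ 2 - 171072 * T ^ 5 * al + 3350160 * T ^ 6 + 258204672 * T ^ 3 * al ^ 2 + 10549440 * T ^ 4 * al - 110883168 * T ^ 5 - 3155137920 * T ^ 2 * al ^ 2 - 258204672 * T ^ 3 * al + 2008527840 * T ^ 4 + 19395002880 * T * al ^ 2 + 3155137920 * T ^ 2 * al - 21469421952 * T ^ 3 - 19395002880 * T * al + 135032375808 * T ^ 2 - 48409726464 * al ^ 2 - 460411776000 * T + 48409726464 * al + 650798945280) * hal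

theorem d11_der (T al : K) (hal : al ^ 2 = al - 3) (h3 : (3 : K) ≠ 0) (hT : T - (12 - 2 * al) ≠ 0) :
    (-(2 + al) * ((2 * T - (12 - 2 * al)) * (T - (12 - 2 * al)) +
      (T * (T - (12 - 2 * al)) + 264 * (1 - al))) * (9 * (T - (12 - 2 * al)) ^ 2) -
      -(2 + al) * ((T * (T - (12 - 2 * al)) + 264 * (1 - al)) *
  (T - (12 - 2 * al)) - 88 * (7 + 8 * al)) * (9 * (2 * (T - (12 - 2 * al))))) /
      (9 * (T - (12 - 2 * al)) ^ 2) ^ 2 = al * y11 al T := by
  obtain ⟨h9, h27⟩ := pow3_ne h3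
  have hd := mul_ne_zero h9 (pow_ne_zero 2 hT)
  have hd' := mul_ne_zero h27 (pow_ne_zero 3 hT)
  unfold y11
  rw [mul_div_assoc', div_eq_div_iff (pow_ne_zero 2 hd) hd']
  linear_combination (-72576 * T * al ^ 6 - 108864 * T ^ 2 * al ^ 5 - 90720 * T ^ 3 * al ^ 4 - 45360 * T ^ 4 * al ^ 3 - 13608 * T ^ 5 * al ^ 2 - 2268 * T ^ 6 * al - 162 * T ^ 7 - 20736 * al ^ 7 - 808704 * T * al ^ 5 - 155520 * T ^ 2 * al ^ 4 + 466560 * T ^ 3 * al ^ 3 + 388800 * T ^ 4 * al ^ 2 + 120528 * T ^ 5 * al + 13608 * T ^ 6 - 497664 * al ^ 6 + 39045888 * T * al ^ 4 + 20342016 * T ^ 2 * al ^ 3 + 819072 * T ^ 3 * al ^ 2 - 2133216 * T ^ 4 * al - 447120 * T ^ 5 + 23099904 * al ^ 5 - 382620672 * T * al ^ 3 - 135053568 * T ^ 2 * al ^ 2 + 5619456 * T ^ 3 * al + 7032096 * T ^ 4 - 292584960 * al ^ 4 + 1610938368 * T * al ^ 2 + 263513088 * T ^ 2 * al - 46407168 * T ^ 3 + 1796567040 * al ^ 3 - 3117367296 * T * al - 64945152 * T ^ 2 - 5974953984 * al ^ 2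 + 2427604992 * T + 10767458304 * al - 8975867904) * hal

end alg

noncomputable section

open WeierstrassCurve WeierstrassCurve.Affine WithZero Finset

variable {F : Type*} [Field F]

/-- numerator and denominator -/
def n11 (al : F) : F[X] := C (-(2 + al)) * ((X * (X - C (12 - 2 * al)) + C (264 * (1 - al))) *
  (X - C (12 - 2 * al)) + C (-(88 * (7 + 8 * al))))

def d11 (al : F) : F[X] := C 9 * (X - C (12 - 2 * al)) ^ 2

theorem nd11 (al : F) : io (n11 al) / io (d11 al) = x11 (io (C al)) (io X) := by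
  unfold n11 d11 x11
  simp only [map_mul, map_add, map_sub, map_neg, map_one, map_ofNat, map_pow]
  ring

theorem al11_two {al : F} (hal : al ^ 2 = al - 3) (h3 : (3 : F) ≠ 0) : 2 + al ≠ 0 := by
  intro h
  have : (9 : F) = 0 := by linear_combination (3 - al) * h + hal
  exact (pow3_ne h3).1 this

theorem al11_u {al : F} (hal : al ^ 2 = al - 3) (h2 : (2 : F) ≠ 0) (h3 : (3 : F) ≠ 0)
    (h11 : (11 : F) ≠ 0) : -(88 * (7 + 8 * al)) ≠ 0 := by
  have h88 : (88 : F) ≠ 0 := by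
    have : (88 : F) = 2 ^ 3 * 11 := by norm_num
    rw [this]
    exact mul_ne_zero (pow_ne_zero 3 h2) h11
  refine neg_ne_zero.mpr (mul_ne_zero h88 ?_)
  intro h
  have : (27 : F) * 11 = 0 := by linear_combination (15 - 8 * al) * h + 64 * hal
  exact mul_ne_zero (pow3_ne h3).2 h11 this

theorem n11_deg {al : F} (h : 2 + al ≠ 0) : (n11 al).natDegree = 3 := by
  unfold n11
  rw [natDegree_C_mul (neg_ne_zero.mpr h)]
  have : ((X * (X - C (12 - 2 * al)) + C (264 * (1 - al))) *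
  (X - C (12 - 2 * al)) + C (-(88 * (7 + 8 * al))) : F[X]) =
      X ^ 3 + (C (-2 * (12 - 2 * al)) * X ^ 2 + C ((12 - 2 * al) ^ 2 + 264 * (1 - al)) * X +
        C (-(264 * (1 - al)) * (12 - 2 * al) + -(88 * (7 + 8 * al)))) := by
    simp only [C_mul, C_neg, C_sub, C_add, C_pow, map_ofNat, C_1]
    ring
  rw [this, natDegree_add_eq_left_of_natDegree_lt, natDegree_X_pow]
  rw [natDegree_X_pow]
  exact lt_of_le_of_lt natDegree_quadratic_le (by norm_num)

theorem d11_deg {al : F} (h9 : (9 : F) ≠ 0) : (d11 al).natDegree = 2 := by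
  unfold d11
  rw [natDegree_C_mul h9, natDegree_pow, natDegree_X_sub_C]

theorem d11_ne {al : F} (h9 : (9 : F) ≠ 0) : d11 al ≠ 0 := by
  intro h
  have := d11_deg (al := al) h9
  rw [h, natDegree_zero] at this
  exact absurd this (by norm_num)

theorem cop11 {al : F} (h : 2 + al ≠ 0) (h9 : (9 : F) ≠ 0) (hu : -(88 * (7 + 8 * al)) ≠ 0) :
    IsCoprime (n11 al) (d11 al) := by
  have h' : IsCoprime (n11 al) (C 9 * (X - C (12 - 2 * al))) :=
    cop_lin (neg_ne_zero.mpr h) h9 hu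
  have h1 : IsCoprime (n11 al) (X - C (12 - 2 * al)) := h'.of_mul_right_right
  unfold d11
  exact IsCoprime.mul_right h'.of_mul_right_left (h1.pow_right)

theorem fk11 : io (fp (-264 : F) 1694) = (io X) ^ 3 - 264 * io X + 1694 := by
  unfold fp
  simp only [map_mul, map_add, map_neg, map_ofNat, map_pow]
  ring

theorem hΔ11 (h2 : (2 : F) ≠ 0) (h3 : (3 : F) ≠ 0) (h11 : (11 : F) ≠ 0) :
    4 * (-264 : F) ^ 3 + 27 * 1694 ^ 2 ≠ 0 := by
  have : 4 * (-264 : F) ^ 3 + 27 * 1694 ^ 2 = 2 ^ 2 * 3 ^ 6 * 11 ^ 3 := by norm_num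
  rw [this]
  exact mul_ne_zero (mul_ne_zero (pow_ne_zero _ h2) (pow_ne_zero _ h3)) (pow_ne_zero _ h11)

theorem halk11 {al : F} (hal : al ^ 2 = al - 3) : (io (C al)) ^ 2 = io (C al) - 3 := by
  rw [← map_pow, ← C_pow, hal, C_sub, map_sub, map_ofNat, map_ofNat]

theorem Te11 {al : F} : io (X : F[X]) - (12 - 2 * io (C al)) ≠ 0 := by
  have := Te (e := 12 - 2 * al)
  rwa [C_sub, C_mul, map_sub, map_mul, map_ofNat, map_ofNat, map_ofNat, map_ofNat] at this

theorem Te11' {al : F} : io (X : F[X]) - (12 - 2 * (1 - io (C al))) ≠ 0 := by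
  have := Te (e := 12 - 2 * (1 - al))
  rwa [C_sub, C_mul, C_sub, map_sub, map_mul, map_sub, map_ofNat, map_ofNat, map_ofNat,
    map_ofNat, C_1, map_one] at this

theorem three_ne_K (h3 : (3 : F) ≠ 0) : (3 : RatFunc F) ≠ 0 := by
  intro h
  apply h3
  have h' : io (C (3 : F)) = 0 := by rw [map_ofNat, map_ofNat]; exact h
  rw [← map_zero (io (F := F))] at h'
  have := io_inj h'
  rwa [C_eq_zero] at this

theorem Tx11 {al : F} (hal : al ^ 2 = al - 3) (h2 : (2 : F) ≠ 0) (h3 : (3 : F) ≠ 0)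
    (h11 : (11 : F) ≠ 0) : io (X : F[X]) - x11 (io (C al)) (io X) ≠ 0 := by
  obtain ⟨h9, -⟩ := pow3_ne h3
  intro h
  rw [← nd11, sub_eq_zero, eq_div_iff (io_ne (d11_ne h9)), ← map_mul] at h
  have h' := io_inj h
  have hc := cop11 (al11_two hal h3) h9 (al11_u hal h2 h3 h11)
  have hu : IsUnit (d11 al) := hc.isUnit_of_dvd' (h' ▸ dvd_mul_left _ _) (dvd_refl _)
  have := natDegree_eq_zero_of_isUnit hu
  rw [d11_deg h9] at this
  exact absurd this (by norm_num)

theorem eqA11 {al : F} (hal : al ^ 2 = al - 3) (h3 : (3 : F) ≠ 0) :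
    io (fp (-264 : F) 1694) * (y11 (io (C al)) (io X)) ^ 2 =
      (x11 (io (C al)) (io X)) ^ 3 + io (C (-264)) * x11 (io (C al)) (io X) + io (C 1694) := by
  have := d11_eqn (io X) (io (C al)) (halk11 hal) (three_ne_K h3) Te11
  rw [fk11, this, C_neg, map_neg, map_ofNat, map_ofNat, map_ofNat, map_ofNat]
  ring

theorem goodA11 {al : F} (hal : al ^ 2 = al - 3) (h2 : (2 : F) ≠ 0) (h3 : (3 : F) ≠ 0)
    (h11 : (11 : F) ≠ 0) : Good al (pt h2 (hΔ11 h2 h3 h11) (eqA11 hal h3)) := by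
  obtain ⟨h9, -⟩ := pow3_ne h3
  apply good_pt
  · rw [← nd11]
    exact vi_pos (d11_ne h9) (by rw [n11_deg (al11_two hal h3), d11_deg h9]; norm_num)
  · rw [← d11_der (io X) (io (C al)) (halk11 hal) (three_ne_K h3) Te11, ← nd11,
      rd_div _ _ (d11_ne h9)]
    unfold n11 d11
    simp only [derivative_mul, derivative_C, derivative_add, derivative_sub, derivative_X, map_mul,
      map_add, map_sub, map_neg, map_one, map_ofNat, C_mul, C_add, C_sub, C_neg, map_zero,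
      derivative_pow, map_pow, Nat.cast_ofNat]
    congr 1
    simp only [derivative_neg, derivative_one, derivative_C, derivative_ofNat, map_neg, map_zero,
      map_add, derivative_add]
    ring

open Classical in
theorem hgtA11 {al : F} (hal : al ^ 2 = al - 3) (h2 : (2 : F) ≠ 0) (h3 : (3 : F) ≠ 0)
    (h11 : (11 : F) ≠ 0) : hgt (pt h2 (hΔ11 h2 h3 h11) (eqA11 hal h3)) = 3 := by
  obtain ⟨h9, -⟩ := pow3_ne h3
  unfold pt
  rw [hgt_of _ (d11_ne h9) (cop11 (al11_two hal h3) h9 (al11_u hal h2 h3 h11))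
    (n := n11 al) (by rw [pt_X, nd11])]
  unfold mh
  rw [n11_deg (al11_two hal h3), d11_deg h9]
  rfl

open Classical in
theorem hgtS11 {al : F} (hal : al ^ 2 = al - 3) (h2 : (2 : F) ≠ 0) (h3 : (3 : F) ≠ 0)
    (h11 : (11 : F) ≠ 0) :
    hgt (pt h2 (hΔ11 h2 h3 h11) (P0_eq (-264) 1694) + pt h2 (hΔ11 h2 h3 h11) (eqA11 hal h3)) = 5 := by
  obtain ⟨h9, -⟩ := pow3_ne h3
  have hpar := par h2 (hΔ11 h2 h3 h11) (pt h2 (hΔ11 h2 h3 h11) (P0_eq (-264) 1694))
    (pt h2 (hΔ11 h2 h3 h11) (eqA11 hal h3))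
  rw [hgt_P0, hgtA11 hal h2 h3 h11, sub_eq_add_neg, pt_neg] at hpar
  have hal' : (1 - al) ^ 2 = (1 - al) - 3 := by linear_combination hal
  have hTx := Tx11 hal h2 h3 h11
  have hval : io (fp (-264 : F) 1694) * ((1 - -(y11 (io (C al)) (io X))) /
      (io X - x11 (io (C al)) (io X))) ^ 2 - io X - x11 (io (C al)) (io X) =
      io (n11 (1 - al)) / io (d11 (1 - al)) := by
    rw [nd11, fk11, d11_lam (io X) (io (C al)) (halk11 hal) (three_ne_K h3) Te11 Te11' hTx,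
      d11_diff (io X) (io (C al)) (halk11 hal) (three_ne_K h3) Te11 Te11', C_sub, map_sub, C_1,
      map_one]
  have hd := hgt_add (n := n11 (1 - al)) (d := d11 (1 - al)) h2 (hΔ11 h2 h3 h11)
    (P0_eq (-264) 1694) (neg_eqn (eqA11 hal h3))
    (fun h => hTx (sub_eq_zero.mpr h)) (d11_ne (al := 1 - al) h9)
    (cop11 (al11_two hal' h3) h9 (al11_u hal' h2 h3 h11)) hval
  unfold mh at hd
  rw [n11_deg (al11_two hal' h3), d11_deg h9] at hd
  rw [hd] at hpar
  norm_num at hpar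
  exact Nat.add_right_cancel (m := 3) (k := 5) hpar

/-- **The trace of the curve of discriminant `-11`**, up to sign. -/
theorem trace11 (p : ℕ) [hp : Fact p.Prime] (hp2 : p ≠ 2) (hp3 : p ≠ 3) (hp11 : p ≠ 11) (r s : ℤ)
    (hrs : (p : ℤ) = r ^ 2 + r * s + 3 * s ^ 2) :
    (∑ x : ZMod p, quadraticChar (ZMod p) (x ^ 3 - 264 * x + 1694) = 2 * r + s) ∨
    (∑ x : ZMod p, quadraticChar (ZMod p) (x ^ 3 - 264 * x + 1694) = -(2 * r + s)) := by
  have hprime : ∀ q : ℕ, q.Prime → p ≠ q → ((q : ℕ) : ZMod p) ≠ 0 := by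
    intro q hq hne h0
    rw [ZMod.natCast_eq_zero_iff] at h0
    exact hne ((Nat.prime_dvd_prime_iff_eq hp.out hq).mp h0)
  have h2 : (2 : ZMod p) ≠ 0 := by exact_mod_cast hprime 2 Nat.prime_two hp2
  have h3 : (3 : ZMod p) ≠ 0 := by exact_mod_cast hprime 3 (by norm_num) hp3
  have h11 : (11 : ZMod p) ≠ 0 := by exact_mod_cast hprime 11 (by norm_num) hp11
  have hp7 : p ≠ 7 := by
    rintro rfl
    have h1 : (r ^ 2 + r * s + 3 * s ^ 2) * 4 = 28 := by rw [← hrs]; norm_num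
    have h2' : (2 * r + s) ^ 2 + 11 * s ^ 2 = 28 := by linear_combination h1
    have hs : s ^ 2 ≤ 2 := by nlinarith [sq_nonneg (2 * r + s)]
    have hs' : s ≤ 1 ∧ -1 ≤ s := by constructor <;> nlinarith
    have hr : (2 * r + s) ^ 2 ≤ 28 := by nlinarith [sq_nonneg s]
    have hr' : 2 * r + s ≤ 5 ∧ -5 ≤ 2 * r + s := by constructor <;> nlinarith
    obtain ⟨a1, a2⟩ := hs'
    obtain ⟨a3, a4⟩ := hr'
    have b1 : r ≤ 3 := by omega
    have b2 : -3 ≤ r := by omega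
    interval_cases s <;> interval_cases r <;> omega
  have h7 : (7 : ZMod p) ≠ 0 := by exact_mod_cast hprime 7 (by norm_num) hp7
  have ha : (-264 : ZMod p) ≠ 0 := by
    have : (-264 : ZMod p) = -(2 ^ 3 * 3 * 11) := by norm_num
    rw [this]
    exact neg_ne_zero.mpr (mul_ne_zero (mul_ne_zero (pow_ne_zero 3 h2) h3) h11)
  have hb : (1694 : ZMod p) ≠ 0 := by
    have : (1694 : ZMod p) = 2 * 7 * 11 ^ 2 := by norm_num
    rw [this]
    exact mul_ne_zero (mul_ne_zero h2 h7) (pow_ne_zero 2 h11)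
  have hs0 : (s : ZMod p) ≠ 0 := by
    intro h
    have hps : (p : ℤ) ∣ s := (ZMod.intCast_zmod_eq_zero_iff_dvd s p).mp h
    have hpp : Prime (p : ℤ) := Nat.prime_iff_prime_int.mp hp.out
    have hr2 : (p : ℤ) ∣ r ^ 2 := by
      have : r ^ 2 = p - s * (r + 3 * s) := by rw [hrs]; ring
      rw [this]
      exact dvd_sub (dvd_refl _) (hps.mul_right _)
    have hr : (p : ℤ) ∣ r := hpp.dvd_of_dvd_pow hr2
    have hpsq : (p : ℤ) ^ 2 ∣ p := by
      conv_rhs => rw [hrs]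
      obtain ⟨u, hu⟩ := hr
      obtain ⟨v, hv⟩ := hps
      exact ⟨u ^ 2 + u * v + 3 * v ^ 2, by rw [hu, hv]; ring⟩
    have h1 : (p : ℤ) ∣ 1 := by
      rw [pow_two] at hpsq
      have hp0 : (p : ℤ) ≠ 0 := by exact_mod_cast hp.out.ne_zero
      exact (mul_dvd_mul_iff_left hp0).mp (by rwa [mul_one])
    exact hpp.not_isUnit (isUnit_of_dvd_one h1)
  set al : ZMod p := -(r : ZMod p) / s with hal_def
  have hsal : (s : ZMod p) * al = -r := by rw [hal_def]; field_simp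
  have h0 : (r : ZMod p) + s * al = 0 := by rw [hsal]; ring
  have hrs' : (r : ZMod p) ^ 2 + r * s + 3 * s ^ 2 = 0 := by
    have := congrArg (Int.cast (R := ZMod p)) hrs
    push_cast at this
    rw [ZMod.natCast_self] at this
    exact this.symm
  have hal : al ^ 2 = al - 3 := by
    have : (s : ZMod p) ^ 2 * (al ^ 2 - al + 3) = 0 := by
      linear_combination (s * al - r - s) * hsal + hrs'
    have := (mul_eq_zero.mp this).resolve_left (pow_ne_zero 2 hs0)
    linear_combination this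
  have key := trace_endo h2 h3 ha hb (hΔ11 h2 h3 h11) al (pt h2 (hΔ11 h2 h3 h11) (eqA11 hal h3))
    (goodA11 hal h2 h3 h11) 3 1 (by rw [hgtA11 hal h2 h3 h11]; rfl)
    (by rw [hgtS11 hal h2 h3 h11]; rfl) r s (by rw [hrs]; ring) h0
  have hev : ∀ x : ZMod p, (fp (-264 : ZMod p) 1694).eval x = x ^ 3 - 264 * x + 1694 := by
    intro x
    unfold fp
    simp only [eval_add, eval_mul, eval_pow, eval_X, eval_C]
    ring
  simp only [hev, mul_one] at key
  exact key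

end

end Pool.Agent.Q267.MW
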