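import Pool.Agent.Q267.MW.C3Key
import Pool.Agent.Q267.MW.D11

set_option autoImplicit false

/-!
# The sum attached to `4p = x² + 11 y²`, split case
-/

namespace Pool.Agent.Q267.MW

open Finset Polynomial Pool.Agent.Q267.CDE

open Pool.Agent.Q267.Seven (dl dl_succ legendre_sq_ring)

/-- Clausen's formula in a commutative ring -/
theorem clausen_gen (p : ℕ) {A : Type*} [CommRing A] (n : ℕ) (hn : n + 1 ≤ p) (z v : A)
    (hz : z * (1 - z) = v) : (∑ k ∈ range p, (dl n k : A) * z ^ k) ^ 2 =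
      ∑ k ∈ range p, (dl n k : A) * (k.centralBinom : A) * v ^ k := by
  rw [dl_ext n p hn, legendre_sq_ring, hz]
  refine sum_subset (fun k hk => ?_) (fun k _ hk => ?_)
  · rw [mem_range] at hk ⊢
    omega
  · rw [mem_range, not_lt] at hk
    rw [dl_vanish n k (by omega)]
    simp

variable (p : ℕ) [hp : Fact p.Prime]

theorem sum_three (hp3 : p ≠ 3) (w : R p) :
    3 * ∑ k ∈ range p, (k.centralBinom : R p) * ((u3 k : ℕ) : R p) * w ^ k =
      2 * ∑ k ∈ range p, (dl (p / 3) k : R p) * (k.centralBinom : R p) * (27 * w) ^ k +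
        ∑ k ∈ range p, (dl (2 * p / 3) k : R p) * (k.centralBinom : R p) * (27 * w) ^ k := by
  rw [mul_sum, mul_sum, ← sum_add_distrib]
  refine sum_congr rfl fun k hk => ?_
  obtain ⟨h1, -⟩ := u3_leg p hp3 k (mem_range.mp hk)
  rw [mul_pow]
  linear_combination (k.centralBinom : R p) * w ^ k * h1

theorem clausen3 (hp3 : p ≠ 3) (z ka w : R p) (hka : 3 * ka = 1) (hz : z * (1 - z) = 27 * w) :
    ∑ k ∈ range p, (k.centralBinom : R p) * ((u3 k : ℕ) : R p) * w ^ k =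
      (∑ k ∈ range p, ((u3 k : ℕ) : R p) * (ka ^ 3 * z) ^ k) ^ 2 := by
  have hpp := p_sq p
  have hp2' := hp.out.two_le
  have h1 := F3_leg p hp3 ka z hka
  have h2 := leg_cong p hp3 z
  have hA := clausen_gen p (p / 3) (by omega) z (27 * w) hz
  have hB := clausen_gen p (2 * p / 3) (by omega) z (27 * w) hz
  have hS := sum_three p hp3 w
  rw [← hA, ← hB] at hS
  set A := ∑ k ∈ range p, (dl (p / 3) k : R p) * z ^ k
  set B := ∑ k ∈ range p, (dl (2 * p / 3) k : R p) * z ^ k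
  obtain ⟨e, he⟩ := red_eq_of p A B (red_cancel p _ _ h2)
  apply ((unit3 p hp3).pow 2).mul_left_cancel
  set S := ∑ k ∈ range p, (k.centralBinom : R p) * ((u3 k : ℕ) : R p) * w ^ k
  set F := ∑ k ∈ range p, ((u3 k : ℕ) : R p) * (ka ^ 3 * z) ^ k
  linear_combination 3 * hS - (3 * F + 2 * A + B) * h1 + 2 * (A - B + p * e) * he +
    2 * e ^ 2 * hpp

/-- the quadratic twist -/
theorem twist11 (hp2 : p ≠ 2) (hp3 : p ≠ 3) (hp11 : p ≠ 11) (w s : ZMod p)
    (hw : w ^ 2 - w + 3 = 0) (hs : 216 * s = 5 - 2 * w) : ∃ e : ℤ, (e = 1 ∨ e = -1) ∧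
    ∑ y : ZMod p, quadraticChar (ZMod p) ((y + s) ^ 2 + 4 * y ^ 3) =
      e * ∑ x : ZMod p, quadraticChar (ZMod p) (x ^ 3 - 264 * x + 1694) := by
  have h3 := three_z p hp3
  have h2 : (2 : ZMod p) ≠ 0 := by
    have := CDE.cast_ne p 2 (by norm_num) (by have := hp.out.two_le; omega)
    exact_mod_cast this
  have h11 : (11 : ZMod p) ≠ 0 := by
    intro h
    have : ((11 : ℕ) : ZMod p) = 0 := by exact_mod_cast h
    rw [ZMod.natCast_eq_zero_iff] at this
    exact hp11 ((Nat.prime_dvd_prime_iff_eq hp.out (by norm_num)).mp this)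
  have hc0 : 6 - w ≠ 0 := by
    intro h
    have h33 : (3 : ZMod p) * 11 = 0 := by
      linear_combination hw + (w + 5) * h
    exact mul_ne_zero h3 h11 h33
  obtain ⟨c, hc⟩ : ∃ c : ZMod p, c = 2 * (6 - w) := ⟨_, rfl⟩
  have hc1 : c ≠ 0 := by rw [hc]; exact mul_ne_zero h2 hc0
  have h12 : (12 : ZMod p) * c ≠ 0 := by
    refine mul_ne_zero ?_ hc1
    have : (12 : ZMod p) = 2 ^ 2 * 3 := by norm_num
    rw [this]
    exact mul_ne_zero (pow_ne_zero 2 h2) h3
  have h3c : 3 * c ≠ 0 := mul_ne_zero h3 hc1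
  refine ⟨quadraticChar (ZMod p) (3 * c), quadraticChar_dichotomy h3c, ?_⟩
  rw [mul_sum]
  refine Fintype.sum_equiv ((Equiv.mulLeft₀ (12 * c) h12).trans (Equiv.addRight c)) _ _ fun y => ?_
  rw [Equiv.trans_apply, Equiv.mulLeft₀_apply, Equiv.coe_addRight, ← map_mul]
  have h108 : (216 : ZMod p) ≠ 0 := by
    have : (216 : ZMod p) = (2 * 3) ^ 3 := by norm_num
    rw [this]
    exact pow_ne_zero 3 (mul_ne_zero h2 h3)
  have hkey : 3 * c * ((12 * c * y + c) ^ 3 - 264 * (12 * c * y + c) + 1694) =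
      (36 * c ^ 2) ^ 2 * ((y + s) ^ 2 + 4 * y ^ 3) := by
    apply mul_left_cancel₀ (pow_ne_zero 2 h108)
    rw [hc]
    linear_combination (17915904 * w ^ 3 * y - 82944 * w ^ 4 - 376233984 * w ^ 2 * y +
      2322432 * w ^ 3 + 2579890176 * w * y - 23576832 * w ^ 2 + 89392896 * w -
      5804752896 * y - 81741312) * hw - (36 * (2 * (6 - w)) ^ 2) ^ 2 *
        (432 * y + 216 * s + (5 - 2 * w)) * hs
  rw [hkey, map_mul, map_pow, quadraticChar_sq_one, one_mul]
  have : (36 : ZMod p) = (2 * 3) ^ 2 := by norm_num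
  rw [this]
  exact mul_ne_zero (pow_ne_zero 2 (mul_ne_zero h2 h3)) (pow_ne_zero 2 hc1)

/-- lifting the root -/
theorem hensel11 (hp2 : p ≠ 2) (hp11 : p ≠ 11) (x0 : ZMod p) (h0 : 4 * x0 ^ 2 + 2 * x0 + 3 = 0) :
    ∃ x : R p, red p x = x0 ∧ 4 * x ^ 2 + 2 * x + 3 = 0 := by
  have hpp := p_sq p
  have h2 : (2 : ZMod p) ≠ 0 := by
    have := CDE.cast_ne p 2 (by norm_num) (by have := hp.out.two_le; omega)
    exact_mod_cast this
  have h11 : (11 : ZMod p) ≠ 0 := by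
    intro h
    have : ((11 : ℕ) : ZMod p) = 0 := by exact_mod_cast h
    rw [ZMod.natCast_eq_zero_iff] at this
    exact hp11 ((Nat.prime_dvd_prime_iff_eq hp.out (by norm_num)).mp this)
  set x1 := lift p x0 with hx1
  have hr : red p x1 = x0 := red_lift p x0
  obtain ⟨e, he⟩ := red_eq_of p (4 * x1 ^ 2 + 2 * x1 + 3) 0 (by
    rw [map_add, map_add, map_mul, map_mul, map_pow, hr, map_ofNat, map_ofNat, map_ofNat, h0,
      map_zero])
  have hu : IsUnit (8 * x1 + 2) := by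
    apply isUnit_of_red
    rw [map_add, map_mul, map_ofNat, map_ofNat, hr]
    intro h
    apply mul_ne_zero (pow_ne_zero 2 h2) h11
    linear_combination 16 * h0 - (8 * x0 + 2) * h
  obtain ⟨v, hv⟩ := hu.exists_right_inv
  refine ⟨x1 - p * (e * v), ?_, ?_⟩
  · rw [map_sub, map_mul, red_p, zero_mul, sub_zero, hr]
  · linear_combination he - p * e * hv + 4 * (e * v) ^ 2 * hpp

theorem split_aux (m : ℕ) (hpm : p = 2 * m + 1) (hm : 0 < m) (hp3 : p ≠ 3) (hp11 : p ≠ 11)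
    (x0 : ZMod p) (h0 : 4 * x0 ^ 2 + 2 * x0 + 3 = 0) (w4 : R p) (hw4 : 64 * w4 = 1) (r s : ℤ)
    (hrs : (p : ℤ) = r ^ 2 + r * s + 3 * s ^ 2) :
    ∑ k ∈ range p, (k.centralBinom : R p) * ((u3 k : ℕ) : R p) * w4 ^ k =
      (2 * (r : R p) + s) ^ 2 - 2 * p := by
  have hp2 : p ≠ 2 := by omega
  have h3 := three_z p hp3
  have h2 : (2 : ZMod p) ≠ 0 := by
    have := CDE.cast_ne p 2 (by norm_num) (by have := hp.out.two_le; omega)
    exact_mod_cast this
  have h11 : (11 : ZMod p) ≠ 0 := by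
    intro h
    have : ((11 : ℕ) : ZMod p) = 0 := by exact_mod_cast h
    rw [ZMod.natCast_eq_zero_iff] at this
    exact hp11 ((Nat.prime_dvd_prime_iff_eq hp.out (by norm_num)).mp this)
  obtain ⟨x, hrx, hx⟩ := hensel11 p hp2 hp11 x0 h0
  obtain ⟨ka, hka⟩ : ∃ ka : R p, 3 * ka = 1 := (unit3 p hp3).exists_right_inv
  have hka' : 3 * red p ka = 1 := by
    have := congrArg (red p) hka
    rw [map_mul, map_ofNat, map_one] at this
    exact this
  have hu4 : IsUnit (4 : R p) := by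
    apply isUnit_of_red
    rw [map_ofNat]
    have : (4 : ZMod p) = 2 ^ 2 := by norm_num
    rw [this]; exact pow_ne_zero 2 h2
  have hu64 : IsUnit (64 : R p) := by
    have := hu4.pow 3
    norm_num at this
    exact this
  -- z (1 - z) = 27/64
  have hz : x ^ 3 * (1 - x ^ 3) = 27 * w4 := by
    apply hu64.mul_left_cancel
    linear_combination (-16 * x ^ 4 + 8 * x ^ 3 + 8 * x ^ 2 + 6 * x - 9) * hx - 27 * hw4
  have hcl := clausen3 p hp3 (x ^ 3) ka w4 hka hz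
  rw [hcl]
  have hx9 : 9 * (1 + x + x ^ 2) = x ^ 2 * (1 + 2 * x) ^ 3 := by
    linear_combination (-2 * x ^ 3 - 2 * x ^ 2 + x + 3) * hx
  have hx0 : x0 ≠ 0 := by
    rintro rfl
    apply h3
    linear_combination h0
  have hbne : 1 + 2 * x0 ≠ 0 := by
    intro h
    apply h3
    linear_combination h0 - 2 * x0 * h
  have hhne : 1 + x0 + x0 ^ 2 ≠ 0 := by
    intro h
    apply hbne
    linear_combination 4 * h - h0
  have hk : 3 * ((1 + x0 + x0 ^ 2) * (1 + 2 * x0)) - (1 - x0) ^ 2 ≠ 0 := by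
    intro h
    have h4 : 16 * x0 - 7 = 0 := by
      linear_combination 4 * h - (6 * x0 + 5) * h0
    apply mul_ne_zero (pow_ne_zero 3 h3) h11
    linear_combination 64 * h0 - (16 * x0 + 15) * h4
  have h1 : x0 ^ 3 ≠ 1 := by
    intro h
    have h4 : 4 * x0 + 5 = 0 := by
      linear_combination (2 * x0 - 1) * h0 - 8 * h
    apply pow_ne_zero 3 h3
    linear_combination 4 * h0 - (4 * x0 - 3) * h4
  subst hrx
  have hs : 216 * red p (ka ^ 3 * x ^ 3) = 5 - 2 * (2 * red p x + 1) := by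
    rw [map_mul, map_pow, map_pow]
    linear_combination 8 * (9 * red p ka ^ 2 + 3 * red p ka + 1) * red p x ^ 3 * hka' +
      (2 * red p x - 1) * h0
  obtain ⟨e, he, hsum⟩ := twist11 p hp2 hp3 hp11 (2 * red p x + 1) (red p (ka ^ 3 * x ^ 3))
    (by linear_combination h0) hs
  have hkey := key3 p m hpm hm hp3 x ka hka hx0 (by rw [map_add, map_add, map_one, map_pow]; exact hhne)
    (by rw [map_add, map_mul, map_one, map_ofNat]; exact hbne) hx9 hk h1 _ rfl
  rw [hkey, hsum]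
  have ht := trace11 p hp2 hp3 hp11 r s hrs
  rcases he with rfl | rfl <;> rcases ht with ht | ht <;> rw [ht] <;> push_cast <;> ring

/-- **the split case** -/
theorem split11 (hp2 : p ≠ 2) (hp3 : p ≠ 3) (hp11 : p ≠ 11) (w4 : R p) (hw4 : 64 * w4 = 1)
    (x y : ℤ) (hxy : 4 * (p : ℤ) = x ^ 2 + 11 * y ^ 2) :
    ∑ k ∈ range p, (k.centralBinom : R p) * ((u3 k : ℕ) : R p) * w4 ^ k =
      (x : R p) ^ 2 - 2 * p := by
  have hp2' := hp.out.two_le
  obtain ⟨m, hpm⟩ : ∃ m, p = 2 * m + 1 := hp.out.eq_two_or_odd'.resolve_left hp2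
  have h2 : (2 : ZMod p) ≠ 0 := by
    have := CDE.cast_ne p 2 (by norm_num) (by omega)
    exact_mod_cast this
  have hy : ((y : ℤ) : ZMod p) ≠ 0 := by
    intro h
    rw [ZMod.intCast_zmod_eq_zero_iff_dvd] at h
    obtain ⟨c, hc⟩ := h
    have hp0 : (0 : ℤ) < p := by exact_mod_cast hp.out.pos
    have hp5 : (2 : ℤ) ≤ p := by exact_mod_cast hp2'
    rcases eq_or_ne c 0 with h0 | h0
    · rw [h0, mul_zero] at hc
      rw [hc] at hxy
      have h1 : (p : ℤ) ∣ x ^ 2 := ⟨4, by linear_combination -hxy⟩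
      have h2 : (p : ℤ) ∣ x := Int.Prime.dvd_pow' hp.out h1
      obtain ⟨d, hd⟩ := h2
      rw [hd] at hxy
      have h3 : (4 : ℤ) = p * d ^ 2 := by
        apply mul_left_cancel₀ hp0.ne'
        linear_combination hxy
      have h4 : (p : ℤ) ∣ 4 := ⟨d ^ 2, h3⟩
      have h5 : p ∣ 2 ^ 2 := by exact_mod_cast h4
      exact hp2 ((Nat.prime_dvd_prime_iff_eq hp.out Nat.prime_two).mp (hp.out.dvd_of_dvd_pow h5))
    · have h1 : 1 ≤ c ^ 2 := by
        have := sq_nonneg c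
        have : c ^ 2 ≠ 0 := pow_ne_zero 2 h0
        omega
      rw [hc] at hxy
      nlinarith [sq_nonneg x, mul_pos hp0 hp0]
  set w : ZMod p := 2⁻¹ * (1 + x * (y : ZMod p)⁻¹) with hw
  have e2 := mul_inv_cancel₀ h2
  have ey := mul_inv_cancel₀ hy
  have hxy' : ((x : ZMod p)) ^ 2 + 11 * (y : ZMod p) ^ 2 = 0 := by
    have := congrArg (Int.cast : ℤ → ZMod p) hxy
    push_cast at this
    rw [ZMod.natCast_self, mul_zero] at this
    exact this.symm
  have hw1 : 2 * w = 1 + x * (y : ZMod p)⁻¹ := by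
    rw [hw, ← mul_assoc, e2, one_mul]
  have hw0 : w ^ 2 - w + 3 = 0 := by
    have h4 : (4 : ZMod p) ≠ 0 := by
      have : (4 : ZMod p) = 2 ^ 2 := by norm_num
      rw [this]; exact pow_ne_zero 2 h2
    apply mul_left_cancel₀ h4
    linear_combination (2 * w - 1 + x * (y : ZMod p)⁻¹) * hw1 + (y : ZMod p)⁻¹ ^ 2 * hxy' -
      11 * ((y : ZMod p) * (y : ZMod p)⁻¹ + 1) * ey
  have h0 : 4 * (2⁻¹ * (w - 1)) ^ 2 + 2 * (2⁻¹ * (w - 1)) + 3 = 0 := by
    have : 2 * ((2 : ZMod p)⁻¹ * (w - 1)) = w - 1 := by rw [← mul_assoc, e2, one_mul]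
    linear_combination hw0 + (2 * ((2 : ZMod p)⁻¹ * (w - 1)) + w - 1 + 1) * this
  -- the integers r, s
  have hpar : ∃ r : ℤ, x = 2 * r + y := by
    have h1 : (x - y) % 2 = 0 := by
      have h2 : (x ^ 2 + 11 * y ^ 2) % 4 = 0 := by rw [← hxy]; omega
      have hx : x % 4 = 0 ∨ x % 4 = 1 ∨ x % 4 = 2 ∨ x % 4 = 3 := by omega
      have hy : y % 4 = 0 ∨ y % 4 = 1 ∨ y % 4 = 2 ∨ y % 4 = 3 := by omega
      rcases hx with hx | hx | hx | hx <;> rcases hy with hy | hy | hy | hy <;>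
        simp [pow_two, Int.add_emod, Int.mul_emod, hx, hy] at h2 <;> omega
    exact ⟨(x - y) / 2, by omega⟩
  obtain ⟨r, hr⟩ := hpar
  have hrs : (p : ℤ) = r ^ 2 + r * y + 3 * y ^ 2 := by
    rw [hr] at hxy
    linarith [hxy, sq_nonneg r]
  have := split_aux p m hpm (by omega) hp3 hp11 _ h0 w4 hw4 r y hrs
  rw [this, hr]
  push_cast
  ring

end Pool.Agent.Q267.MW
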