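import Pool.Agent.Q267.MW.C3Split
import Pool.Agent.Q267.MW.D8

set_option autoImplicit false

/-!
# The sum attached to `p = x² + 2 y²`, split case
-/

namespace Pool.Agent.Q267.MW

open Finset Polynomial Pool.Agent.Q267.CDE

open Pool.Agent.Q267.Seven (dl dl_succ legendre_sq_ring)

variable (p : ℕ) [hp : Fact p.Prime]

theorem two_z (hp2 : p ≠ 2) : (2 : ZMod p) ≠ 0 := by
  have := CDE.cast_ne p 2 (by norm_num) (by have := hp.out.two_le; omega)
  exact_mod_cast this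

/-- the quadratic twist -/
theorem twist8 (hp2 : p ≠ 2) (hp3 : p ≠ 3) (w s : ZMod p)
    (hw : w ^ 2 + 2 = 0) (hs : 108 * s = 5 * w + 2) : ∃ e : ℤ, (e = 1 ∨ e = -1) ∧
    ∑ y : ZMod p, quadraticChar (ZMod p) ((y + s) ^ 2 + 4 * y ^ 3) =
      e * ∑ x : ZMod p, quadraticChar (ZMod p) (x ^ 3 - 30 * x + 56) := by
  have h3 := three_z p hp3
  have h2 := two_z p hp2
  have hc0 : 2 + w ≠ 0 := by
    intro h
    have h6 : (2 : ZMod p) * 3 = 0 := by
      linear_combination hw + (2 - w) * h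
    exact mul_ne_zero h2 h3 h6
  obtain ⟨c, hc⟩ : ∃ c : ZMod p, c = 2 + w := ⟨_, rfl⟩
  have hc1 : c ≠ 0 := by rw [hc]; exact hc0
  have h12 : (12 : ZMod p) * c ≠ 0 := by
    refine mul_ne_zero ?_ hc1
    have : (12 : ZMod p) = 2 ^ 2 * 3 := by norm_num
    rw [this]
    exact mul_ne_zero (pow_ne_zero 2 h2) h3
  have h3c : 3 * c ≠ 0 := mul_ne_zero h3 hc1
  refine ⟨quadraticChar (ZMod p) (3 * c), quadraticChar_dichotomy h3c, ?_⟩
  rw [mul_sum]
  refine Fintype.sum_equiv ((Equiv.mulLeft₀ (12 * c) h12).trans (Equiv.addRight c)) _ _ fun y => ?_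
  rw [Equiv.trans_apply, Equiv.mulLeft₀_apply, Equiv.coe_addRight, ← map_mul]
  have h108 : (108 : ZMod p) ≠ 0 := by
    have : (108 : ZMod p) = 2 ^ 2 * 3 ^ 3 := by norm_num
    rw [this]
    exact mul_ne_zero (pow_ne_zero 2 h2) (pow_ne_zero 3 h3)
  have hkey : 3 * c * ((12 * c * y + c) ^ 3 - 30 * (12 * c * y + c) + 56) =
      (36 * c ^ 2) ^ 2 * ((y + s) ^ 2 + 4 * y ^ 3) := by
    apply mul_left_cancel₀ (pow_ne_zero 2 h108)
    rw [hc]
    linear_combination (-1399680 * w ^ 3 * y - 32400 * w ^ 4 - 10497600 * w ^ 2 * y -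
      285120 * w ^ 3 - 25194240 * w * y - 890352 * w ^ 2 - 850176 * w - 19595520 * y +
      98496) * hw - (36 * (2 + w) ^ 2) ^ 2 *
        (216 * y + 108 * s + (5 * w + 2)) * hs
  rw [hkey, map_mul, map_pow, quadraticChar_sq_one, one_mul]
  have : (36 : ZMod p) = (2 * 3) ^ 2 := by norm_num
  rw [this]
  exact mul_ne_zero (pow_ne_zero 2 (mul_ne_zero h2 h3)) (pow_ne_zero 2 hc1)

/-- lifting the root -/
theorem hensel8 (hp2 : p ≠ 2) (x0 : ZMod p) (h0 : 2 * x0 ^ 2 + 4 * x0 + 3 = 0) :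
    ∃ x : R p, red p x = x0 ∧ 2 * x ^ 2 + 4 * x + 3 = 0 := by
  have hpp := p_sq p
  have h2 := two_z p hp2
  set x1 := lift p x0 with hx1
  have hr : red p x1 = x0 := red_lift p x0
  obtain ⟨e, he⟩ := red_eq_of p (2 * x1 ^ 2 + 4 * x1 + 3) 0 (by
    rw [map_add, map_add, map_mul, map_mul, map_pow, hr, map_ofNat, map_ofNat, map_ofNat, h0,
      map_zero])
  have hu : IsUnit (4 * x1 + 4) := by
    apply isUnit_of_red
    rw [map_add, map_mul, map_ofNat, hr]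
    intro h
    apply pow_ne_zero 3 h2
    linear_combination 8 * h0 - (4 * x0 + 4) * h
  obtain ⟨v, hv⟩ := hu.exists_right_inv
  refine ⟨x1 - p * (e * v), ?_, ?_⟩
  · rw [map_sub, map_mul, red_p, zero_mul, sub_zero, hr]
  · linear_combination he - p * e * hv + 2 * (e * v) ^ 2 * hpp

theorem split_aux8 (m : ℕ) (hpm : p = 2 * m + 1) (hm : 0 < m) (hp3 : p ≠ 3)
    (x0 : ZMod p) (h0 : 2 * x0 ^ 2 + 4 * x0 + 3 = 0) (w4 : R p) (hw4 : 8 * w4 = 1) (r s : ℤ)
    (hrs : (p : ℤ) = r ^ 2 + 2 * s ^ 2) :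
    ∑ k ∈ range p, (k.centralBinom : R p) * ((u3 k : ℕ) : R p) * w4 ^ k =
      (2 * (r : R p)) ^ 2 - 2 * p := by
  have hp2 : p ≠ 2 := by omega
  have h3 := three_z p hp3
  have h2 := two_z p hp2
  obtain ⟨x, hrx, hx⟩ := hensel8 p hp2 x0 h0
  obtain ⟨ka, hka⟩ : ∃ ka : R p, 3 * ka = 1 := (unit3 p hp3).exists_right_inv
  have hka' : 3 * red p ka = 1 := by
    have := congrArg (red p) hka
    rw [map_mul, map_ofNat, map_one] at this
    exact this
  have hu8 : IsUnit (8 : R p) := IsUnit.of_mul_eq_one _ hw4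
  -- z (1 - z) = 27/8
  have hz : x ^ 3 * (1 - x ^ 3) = 27 * w4 := by
    apply hu8.mul_left_cancel
    linear_combination (-4 * x ^ 4 + 8 * x ^ 3 - 10 * x ^ 2 + 12 * x - 9) * hx - 27 * hw4
  have hcl := clausen3 p hp3 (x ^ 3) ka w4 hka hz
  rw [hcl]
  have hx9 : 9 * (1 + x + x ^ 2) = x ^ 2 * (1 + 2 * x) ^ 3 := by
    linear_combination (-4 * x ^ 3 + 2 * x ^ 2 - x + 3) * hx
  have hx0 : x0 ≠ 0 := by
    rintro rfl
    apply h3
    linear_combination h0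
  have hbne : 1 + 2 * x0 ≠ 0 := by
    intro h
    apply h3
    linear_combination 2 * h0 - (2 * x0 + 3) * h
  have hhne : 1 + x0 + x0 ^ 2 ≠ 0 := by
    intro h
    apply hbne
    linear_combination h0 - 2 * h
  have hk : 3 * ((1 + x0 + x0 ^ 2) * (1 + 2 * x0)) - (1 - x0) ^ 2 ≠ 0 := by
    intro h
    have h4 : 10 * x0 + 8 = 0 := by
      linear_combination h - (3 * x0 - 2) * h0
    apply mul_ne_zero h2 (pow_ne_zero 3 h3)
    linear_combination 50 * h0 - (10 * x0 + 12) * h4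
  have h1 : x0 ^ 3 ≠ 1 := by
    intro h
    have h4 : 5 * x0 + 4 = 0 := by
      linear_combination 2 * h - (x0 - 2) * h0
    apply pow_ne_zero 3 h3
    linear_combination 25 * h0 - (10 * x0 + 12) * h4
  subst hrx
  have hs : 108 * red p (ka ^ 3 * x ^ 3) = 5 * (2 * (red p x + 1)) + 2 := by
    rw [map_mul, map_pow, map_pow]
    linear_combination 4 * (9 * red p ka ^ 2 + 3 * red p ka + 1) * red p x ^ 3 * hka' +
      2 * (red p x - 2) * h0
  obtain ⟨e, he, hsum⟩ := twist8 p hp2 hp3 (2 * (red p x + 1)) (red p (ka ^ 3 * x ^ 3))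
    (by linear_combination 2 * h0) hs
  have hkey := key3 p m hpm hm hp3 x ka hka hx0 (by rw [map_add, map_add, map_one, map_pow]; exact hhne)
    (by rw [map_add, map_mul, map_one, map_ofNat]; exact hbne) hx9 hk h1 _ rfl
  rw [hkey, hsum]
  have ht := trace8 p hp2 hp3 r s hrs
  rcases he with rfl | rfl <;> rcases ht with ht | ht <;> rw [ht] <;> push_cast <;> ring

/-- **the split case** -/
theorem split8 (hp2 : p ≠ 2) (hp3 : p ≠ 3) (w4 : R p) (hw4 : 8 * w4 = 1)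
    (x y : ℤ) (hxy : (p : ℤ) = x ^ 2 + 2 * y ^ 2) :
    ∑ k ∈ range p, (k.centralBinom : R p) * ((u3 k : ℕ) : R p) * w4 ^ k =
      (2 * (x : R p)) ^ 2 - 2 * p := by
  have hp2' := hp.out.two_le
  obtain ⟨m, hpm⟩ : ∃ m, p = 2 * m + 1 := hp.out.eq_two_or_odd'.resolve_left hp2
  have h2 := two_z p hp2
  have hy : ((y : ℤ) : ZMod p) ≠ 0 := by
    intro h
    have hps : (p : ℤ) ∣ y := (ZMod.intCast_zmod_eq_zero_iff_dvd y p).mp h
    have hpp : Prime (p : ℤ) := Nat.prime_iff_prime_int.mp hp.out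
    have hr2 : (p : ℤ) ∣ x ^ 2 := by
      have : x ^ 2 = p - y * (2 * y) := by rw [hxy]; ring
      rw [this]
      exact dvd_sub (dvd_refl _) (hps.mul_right _)
    have hr : (p : ℤ) ∣ x := hpp.dvd_of_dvd_pow hr2
    have hpsq : (p : ℤ) ^ 2 ∣ p := by
      conv_rhs => rw [hxy]
      obtain ⟨u, hu⟩ := hr
      obtain ⟨v, hv⟩ := hps
      exact ⟨u ^ 2 + 2 * v ^ 2, by rw [hu, hv]; ring⟩
    have h1 : (p : ℤ) ∣ 1 := by
      rw [pow_two] at hpsq
      have hp0 : (p : ℤ) ≠ 0 := by exact_mod_cast hp.out.ne_zero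
      exact (mul_dvd_mul_iff_left hp0).mp (by rwa [mul_one])
    exact hpp.not_isUnit (isUnit_of_dvd_one h1)
  set w : ZMod p := x * (y : ZMod p)⁻¹ with hw
  have e2 := mul_inv_cancel₀ h2
  have ey := mul_inv_cancel₀ hy
  have hxy' : ((x : ZMod p)) ^ 2 + 2 * (y : ZMod p) ^ 2 = 0 := by
    have := congrArg (Int.cast : ℤ → ZMod p) hxy
    push_cast at this
    rw [ZMod.natCast_self] at this
    exact this.symm
  have hw0 : w ^ 2 + 2 = 0 := by
    rw [hw]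
    linear_combination (y : ZMod p)⁻¹ ^ 2 * hxy' -
      2 * ((y : ZMod p) * (y : ZMod p)⁻¹ + 1) * ey
  have h0 : 2 * (2⁻¹ * w - 1) ^ 2 + 4 * (2⁻¹ * w - 1) + 3 = 0 := by
    apply mul_left_cancel₀ h2
    linear_combination hw0 + w ^ 2 * (2 * (2 : ZMod p)⁻¹ + 1) * e2
  exact split_aux8 p m hpm (by omega) hp3 _ h0 w4 hw4 x y hxy

end Pool.Agent.Q267.MW
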