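import Pool.Agent.Q267.MW.C3Rat

set_option autoImplicit false

/-!
# Divisibility of polynomial solutions of the differential equation
-/

namespace Pool.Agent.Q267.MW

open Polynomial

section step

variable {K : Type*} [Field K]

noncomputable section

/-- the operator on polynomials -/
def TP (P : K[X]) : K[X] :=
  derivative (X * (1 - X ^ 3) * derivative P) - 2 * X ^ 2 * P

theorem TP_eq (P : K[X]) : TP P = X * (1 - X ^ 3) * derivative (derivative P) +
    (1 - 4 * X ^ 3) * derivative P - 2 * X ^ 2 * P := by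
  unfold TP
  rw [derivative_mul, derivative_mul, derivative_sub, derivative_X, derivative_one,
    derivative_X_pow]
  have : (C ((3 : ℕ) : K) : K[X]) = 3 := by rw [Nat.cast_ofNat, map_ofNat]
  rw [this]
  ring

theorem io_TP (P : K[X]) : io (TP P) = TT3 (io P) := by
  rw [TP_eq]
  unfold TT3
  rw [rd_io, rd_io]
  simp only [map_sub, map_add, map_mul, map_pow, map_one, map_ofNat]

/-- one step -/
theorem step (a A1 Y : K[X]) (j : ℕ) (hA : X * (1 - X ^ 3) = a * A1)
    (hc : IsCoprime a (derivative a ^ 2 * A1)) (hj : (j : K) ≠ 0) (hj0 : 0 < j) (hY : TP Y = 0)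
    (hd : a ^ j ∣ Y) : a ^ (j + 1) ∣ Y := by
  obtain ⟨W, rfl⟩ := hd
  obtain ⟨i, rfl⟩ : ∃ i, j = i + 1 := ⟨j - 1, by omega⟩
  unfold TP at hY
  rw [hA, derivative_mul (f := a ^ (i + 1)) (g := W), derivative_pow_succ] at hY
  set a' := derivative a with ha'
  set W' := derivative W with hW'
  have e1 : a * A1 * (C ((i : K) + 1) * a ^ i * a' * W + a ^ (i + 1) * W') =
      a ^ (i + 1) * (C ((i : K) + 1) * (a' * A1 * W) + a * A1 * W') := by
    rw [pow_succ]; ring
  rw [e1, derivative_mul, derivative_pow_succ, derivative_add, derivative_C_mul, derivative_mul,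
    derivative_mul, derivative_mul, derivative_mul] at hY
  by_cases ha : a = 0
  · rw [ha, zero_pow (Nat.succ_ne_zero i), zero_mul]
    exact dvd_zero _
  have e2 : a ^ i * (C ((i : K) + 1) * C ((i : K) + 1) * (a' ^ 2 * A1) * W) =
      a ^ i * (a * (2 * X ^ 2 * W - C ((i : K) + 1) * (A1 * a') * W' -
        C ((i : K) + 1) * ((derivative a' * A1 + a' * derivative A1) * W + a' * A1 * W') -
        ((a' * A1 + a * derivative A1) * W' + a * A1 * derivative W'))) := by
    rw [pow_succ] at hY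
    linear_combination hY
  have e3 := mul_left_cancel₀ (pow_ne_zero i ha) e2
  have h1 : a ∣ C (((i : K) + 1) * ((i : K) + 1)) * ((a' ^ 2 * A1) * W) := by
    rw [C_mul]
    exact ⟨_, by rw [← e3]; ring⟩
  have hu : IsUnit (C (((i : K) + 1) * ((i : K) + 1))) := by
    rw [isUnit_C]
    have : ((i : K) + 1) ≠ 0 := by exact_mod_cast hj
    exact (mul_ne_zero this this).isUnit
  have h2 : a ∣ (a' ^ 2 * A1) * W := by
    obtain ⟨u, hu'⟩ := hu
    rw [← hu'] at h1
    exact (Units.dvd_mul_left).mp h1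
  have h3 : a ∣ W := hc.dvd_of_dvd_mul_left h2
  rw [pow_succ a (i + 1)]
  exact mul_dvd_mul_left _ h3

theorem steps (q : ℕ) (hq : ∀ j : ℕ, 0 < j → j < q → (j : K) ≠ 0) (a A1 Y : K[X])
    (hA : X * (1 - X ^ 3) = a * A1) (hc : IsCoprime a (derivative a ^ 2 * A1)) (hY : TP Y = 0)
    (hd : a ∣ Y) (j : ℕ) (hj0 : 0 < j) (hjq : j ≤ q) : a ^ j ∣ Y := by
  induction j with
  | zero => omega
  | succ n ih =>
    rcases Nat.eq_zero_or_pos n with h | h
    · subst h
      rw [zero_add, pow_one]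
      exact hd
    · exact step a A1 Y n hA hc (hq n h (by omega)) h hY (ih h (by omega))

end

end step

section three

variable {K : Type*} [Field K]

theorem cop_X : IsCoprime (X : K[X]) (derivative (X : K[X]) ^ 2 * (1 - X ^ 3)) := by
  rw [derivative_X]
  exact ⟨X ^ 2, 1, by ring⟩

theorem cop_X1 (h3 : (3 : K) ≠ 0) : IsCoprime (X - 1 : K[X])
    (derivative (X - 1 : K[X]) ^ 2 * (-(X * (X ^ 2 + X + 1)))) := by
  rw [derivative_sub, derivative_X, derivative_one]
  have e : (C (3 : K)⁻¹ * 3 : K[X]) = 1 := by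
    rw [show (3 : K[X]) = C 3 by rw [map_ofNat], ← C_mul, inv_mul_cancel₀ h3, C_1]
  refine ⟨C (3 : K)⁻¹ * (-(X ^ 2 + 2 * X + 3)), C (3 : K)⁻¹ * (-1), ?_⟩
  linear_combination e

theorem cop_h (h3 : (3 : K) ≠ 0) : IsCoprime (X ^ 2 + X + 1 : K[X])
    (derivative (X ^ 2 + X + 1 : K[X]) ^ 2 * (X * (1 - X))) := by
  have hd : derivative (X ^ 2 + X + 1 : K[X]) = 2 * X + 1 := by
    rw [derivative_add, derivative_add, derivative_X_sq, derivative_X, derivative_one, map_ofNat]
    ring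
  rw [hd]
  have e : (C (3 : K)⁻¹ * 3 : K[X]) = 1 := by
    rw [show (3 : K[X]) = C 3 by rw [map_ofNat], ← C_mul, inv_mul_cancel₀ h3, C_1]
  refine ⟨C (3 : K)⁻¹ * C (3 : K)⁻¹ * (12 - (2 * X + 1) * (-4 * X ^ 2 + 4 * X + 3)),
    C (3 : K)⁻¹ * C (3 : K)⁻¹ * (2 * X + 1), ?_⟩
  linear_combination (C (3 : K)⁻¹ * 3 + 1) * e

end three

end Pool.Agent.Q267.MW
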