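import Pool.Agent.Q267.MW.C3Jac

set_option autoImplicit false

/-!
# Points of `y (y + x + s) = x³` on the torus and their multiplicative moments
-/

namespace Pool.Agent.Q267.MW

open Finset Pool.Agent.Q267.CDE

variable (p : ℕ) [hp : Fact p.Prime]

/-- the number of points on the torus -/
noncomputable def tor (s : ZMod p) : R p :=
  ∑ x : ZMod p, ∑ y : ZMod p, if x ≠ 0 ∧ y ≠ 0 ∧ y * (y + x + s) = x ^ 3 then 1 else 0

/-- the Jacobi sum `J(-k,-k)` -/
noncomputable def J2 (e : ℕ) : R p := ∑ v : ZMod p, om p v ^ e * om p (1 - v) ^ e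

/-- the Jacobi sum `J(3k,-2k)` -/
noncomputable def K3 (e : ℕ) : R p := ∑ t : ZMod p, om p t⁻¹ ^ (3 * e) * om p (1 + t) ^ (2 * e)

theorem quad_sum (hodd : Odd p) (e : ℕ) (c : ZMod p) :
    ∑ w : ZMod p, om p (w * (w - c)) ^ e =
      if c = 0 then ∑ w : ZMod p, om p w ^ (2 * e) else (-1) ^ e * om p c ^ (2 * e) * J2 p e := by
  split_ifs with h
  · subst h
    refine sum_congr rfl fun w _ => ?_
    rw [sub_zero, om_mul, mul_pow, two_mul, pow_add]
  · unfold J2
    rw [mul_sum]
    refine (Fintype.sum_equiv (Equiv.mulLeft₀ c h) _ _ fun v => ?_).symm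
    rw [Equiv.mulLeft₀_apply, show c * v * (c * v - c) = (-1) * (c * c * (v * (1 - v))) by ring,
      om_mul, om_mul, om_mul, om_mul, mul_pow, mul_pow, mul_pow, mul_pow, om_neg_one_pow p hodd,
      two_mul, pow_add]
    ring

theorem tor_mom (hodd : Odd p) (e : ℕ) (he : 0 < e) :
    ∑ s : ZMod p, om p s ^ e * tor p s =
      (-1) ^ e * J2 p e * K3 p e + (-1) ^ e * ∑ w : ZMod p, om p w ^ (2 * e) := by
  -- step 1: solve for `s`
  have h1 : ∑ s : ZMod p, om p s ^ e * tor p s =
      ∑ y : ZMod p, ∑ x : ZMod p, if x ≠ 0 ∧ y ≠ 0 then om p (x ^ 3 * y⁻¹ - y - x) ^ e else 0 := by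
    unfold tor
    have a1 : ∀ s : ZMod p, om p s ^ e * (∑ x : ZMod p, ∑ y : ZMod p,
        if x ≠ 0 ∧ y ≠ 0 ∧ y * (y + x + s) = x ^ 3 then (1 : R p) else 0) =
        ∑ y : ZMod p, ∑ x : ZMod p,
          if x ≠ 0 ∧ y ≠ 0 ∧ y * (y + x + s) = x ^ 3 then om p s ^ e else 0 := by
      intro s
      rw [sum_comm, mul_sum]
      refine sum_congr rfl fun y _ => ?_
      rw [mul_sum]
      refine sum_congr rfl fun x _ => ?_
      split_ifs <;> ring
    rw [sum_congr rfl fun s _ => a1 s, sum_comm]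
    refine sum_congr rfl fun y _ => ?_
    rw [sum_comm]
    refine sum_congr rfl fun x _ => ?_
    by_cases hx : x ≠ 0
    · by_cases hy : y ≠ 0
      · rw [if_pos ⟨hx, hy⟩]
        have a2 : ∀ s : ZMod p, (if x ≠ 0 ∧ y ≠ 0 ∧ y * (y + x + s) = x ^ 3 then om p s ^ e else 0) =
            if s = x ^ 3 * y⁻¹ - y - x then om p s ^ e else 0 := by
          intro s
          have : (x ≠ 0 ∧ y ≠ 0 ∧ y * (y + x + s) = x ^ 3) ↔ s = x ^ 3 * y⁻¹ - y - x := by
            constructor
            · rintro ⟨-, -, h⟩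
              rw [← h]
              field_simp
              ring
            · intro h
              refine ⟨hx, hy, ?_⟩
              rw [h]
              field_simp
              ring
          simp only [this]
        rw [sum_congr rfl fun s _ => a2 s, sum_ite_eq' univ, if_pos (mem_univ _)]
      · rw [if_neg (fun h => hy h.2)]
        exact sum_eq_zero fun s _ => if_neg (fun h => hy h.2.1)
    · rw [if_neg (fun h => hx h.1)]
      exact sum_eq_zero fun s _ => if_neg (fun h => hx h.1)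
  -- step 2: `x = t y`
  have h2 : ∑ y : ZMod p, ∑ x : ZMod p, (if x ≠ 0 ∧ y ≠ 0 then
      om p (x ^ 3 * y⁻¹ - y - x) ^ e else 0) =
      ∑ t : ZMod p, ∑ y : ZMod p, if t ≠ 0 then om p (y * (t ^ 3 * y - (1 + t))) ^ e else 0 := by
    have a3 : ∀ y : ZMod p, ∑ x : ZMod p, (if x ≠ 0 ∧ y ≠ 0 then
        om p (x ^ 3 * y⁻¹ - y - x) ^ e else 0) =
        ∑ t : ZMod p, if t ≠ 0 then om p (y * (t ^ 3 * y - (1 + t))) ^ e else 0 := by
      intro y
      by_cases hy : y = 0
      · subst hy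
        rw [sum_eq_zero fun x _ => if_neg (fun h => h.2 rfl)]
        symm
        refine sum_eq_zero fun t _ => ?_
        rw [zero_mul, om_zero, zero_pow he.ne']
        split_ifs <;> rfl
      · symm
        refine Fintype.sum_equiv (Equiv.mulRight₀ y hy) _ _ fun t => ?_
        rw [Equiv.mulRight₀_apply]
        by_cases ht : t = 0
        · subst ht
          rw [if_neg (fun h => h rfl), if_neg (fun h => h.1 (zero_mul y))]
        · rw [if_pos ht, if_pos ⟨mul_ne_zero ht hy, hy⟩]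
          congr 2
          field_simp
          ring
    rw [sum_congr rfl fun y _ => a3 y, sum_comm]
  -- step 3: `y = w / t³`
  have h3 : ∀ t : ZMod p, ∑ y : ZMod p, (if t ≠ 0 then
      om p (y * (t ^ 3 * y - (1 + t))) ^ e else 0) =
      om p t⁻¹ ^ (3 * e) * (if 1 + t = 0 then ∑ w : ZMod p, om p w ^ (2 * e) else
        (-1) ^ e * om p (1 + t) ^ (2 * e) * J2 p e) := by
    intro t
    by_cases ht : t = 0
    · subst ht
      rw [inv_zero, om_zero, zero_pow (show 3 * e ≠ 0 by omega), zero_mul]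
      exact sum_eq_zero fun y _ => if_neg (fun h => h rfl)
    · rw [← quad_sum p hodd e (1 + t), mul_sum]
      have ht3 : (t⁻¹) ^ 3 ≠ 0 := pow_ne_zero 3 (inv_ne_zero ht)
      symm
      refine Fintype.sum_equiv (Equiv.mulLeft₀ _ ht3) _ _ fun w => ?_
      rw [Equiv.mulLeft₀_apply, if_pos ht]
      have : t⁻¹ ^ 3 * w * (t ^ 3 * (t⁻¹ ^ 3 * w) - (1 + t)) = t⁻¹ ^ 3 * (w * (w - (1 + t))) := by
        field_simp
      rw [this, om_mul p (t⁻¹ ^ 3), om_pow, mul_pow, ← pow_mul]
  rw [h1, h2, sum_congr rfl fun t _ => h3 t]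
  -- step 4: split off `t = -1`
  have h4 : ∀ t : ZMod p, om p t⁻¹ ^ (3 * e) * (if 1 + t = 0 then ∑ w : ZMod p, om p w ^ (2 * e) else
        (-1) ^ e * om p (1 + t) ^ (2 * e) * J2 p e) =
      (-1) ^ e * J2 p e * (om p t⁻¹ ^ (3 * e) * om p (1 + t) ^ (2 * e)) +
      if t = -1 then (-1) ^ e * ∑ w : ZMod p, om p w ^ (2 * e) else 0 := by
    intro t
    by_cases ht : t = -1
    · subst ht
      have : (1 : ZMod p) + -1 = 0 := by ring
      rw [if_pos this, if_pos rfl, this, om_zero, zero_pow (by omega), mul_zero, mul_zero, zero_add]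
      have h5 : ((-1 : ZMod p))⁻¹ = -1 := by
        rw [inv_neg, inv_one]
      rw [h5, om_neg_one_pow p hodd]
      congr 1
      rw [pow_mul]
      norm_num
    · have : (1 : ZMod p) + t ≠ 0 := fun h => ht (by linear_combination h)
      rw [if_neg this, if_neg ht, add_zero]
      ring
  rw [sum_congr rfl fun t _ => h4 t, sum_add_distrib, ← mul_sum, sum_ite_eq' univ,
    if_pos (mem_univ _)]
  rfl

end Pool.Agent.Q267.MW
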