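import Pool.Agent.Q267.MW.C3Step

set_option autoImplicit false

/-!
# The cubic transformation for the truncated hypergeometric polynomial
-/

namespace Pool.Agent.Q267.MW

open Finset Polynomial Pool.Agent.Q267.CDE

section gen

variable {K : Type*} [Field K]

theorem io_comp (P Q : K[X]) : io (P.comp Q) = ev (io Q) P := by
  induction P using Polynomial.induction_on' with
  | add P R h1 h2 => rw [add_comp, map_add, map_add, h1, h2]
  | monomial n a =>
    rw [← C_mul_X_pow_eq_monomial, mul_comp, C_comp, X_pow_comp, map_mul, map_mul, ev_C, map_pow,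
      map_pow, ev_X]

end gen

variable (p : ℕ) [hp : Fact p.Prime]

theorem three_z (hp3 : p ≠ 3) : (3 : ZMod p) ≠ 0 := by
  intro h
  have : ((3 : ℕ) : ZMod p) = 0 := by exact_mod_cast h
  rw [ZMod.natCast_eq_zero_iff] at this
  exact hp3 ((Nat.prime_dvd_prime_iff_eq hp.out (by norm_num)).mp this)

theorem io_hq : io (hq p) = 1 + xx (ZMod p) + xx (ZMod p) ^ 2 := by
  unfold hq
  rw [map_add, map_add, map_pow, map_one]
  ring

theorem io_bq : io (bq p) = 1 + 2 * xx (ZMod p) := by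
  unfold bq
  rw [map_add, map_mul, map_one, map_ofNat]
  ring

theorem io_phi (hp3 : p ≠ 3) : io (C ((3 : ZMod p)⁻¹ ^ 3) * X ^ 3) = phi3 (ZMod p) := by
  have h3 := three_z p hp3
  have h3K := three_ne_R h3
  have h27 : (27 : RatFunc (ZMod p)) ≠ 0 := by
    have : (27 : RatFunc (ZMod p)) = 3 ^ 3 := by norm_num
    rw [this]; exact pow_ne_zero 3 h3K
  unfold phi3
  rw [eq_div_iff h27, map_mul io, map_pow io X 3]
  have : io (C ((3 : ZMod p)⁻¹ ^ 3)) * 27 = 1 := by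
    have e : (27 : RatFunc (ZMod p)) = io (C 27) := by rw [map_ofNat, map_ofNat]
    rw [e, ← map_mul, ← C_mul]
    have : (3 : ZMod p)⁻¹ ^ 3 * 27 = 1 := by
      have h := inv_mul_cancel₀ h3
      calc (3 : ZMod p)⁻¹ ^ 3 * 27 = ((3 : ZMod p)⁻¹ * 3) ^ 3 := by ring
        _ = 1 := by rw [h, one_pow]
    rw [this, C_1, map_one]
  linear_combination (io X) ^ 3 * this

theorem io_trunc (hp3 : p ≠ 3) (d : ℕ → ZMod p) (N : ℕ) (hd : ∀ k, k < p → N ≤ 3 * k → d k = 0) :
    io (∑ k ∈ range p, C (d k * (3 : ZMod p)⁻¹ ^ k) * (X * hq p) ^ k * bq p ^ (N - 1 - 3 * k)) =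
      (1 + 2 * xx (ZMod p)) ^ N *
        (ev (psi3 (ZMod p)) (∑ k ∈ range p, C (d k) * X ^ k) / (1 + 2 * xx (ZMod p))) := by
  have h3 := three_z p hp3
  have h3K := three_ne_R h3
  have hB := B_ne (F := ZMod p)
  rw [map_sum, map_sum, sum_div, mul_sum]
  refine sum_congr rfl fun k hk => ?_
  have hk' := mem_range.mp hk
  rcases Nat.lt_or_ge (3 * k) N with h | h
  · rw [map_mul, map_mul, map_mul (ev _), ev_C, map_pow, map_pow, map_pow (ev _), ev_X,
      map_mul io X (hq p), io_hq, io_bq, C_mul, map_mul io (C (d k))]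
    have e1 : io (C ((3 : ZMod p)⁻¹ ^ k)) * 3 ^ k = 1 := by
      have e : (3 : RatFunc (ZMod p)) = io (C 3) := by rw [map_ofNat, map_ofNat]
      rw [e, ← map_pow, ← C_pow, ← map_mul, ← C_mul, ← mul_pow, inv_mul_cancel₀ h3, one_pow, C_1,
        map_one]
    have e2 : (1 + 2 * xx (ZMod p)) ^ N =
        (1 + 2 * xx (ZMod p)) ^ (N - 1 - 3 * k) * ((1 + 2 * xx (ZMod p)) ^ 3) ^ k *
          (1 + 2 * xx (ZMod p)) := by
      rw [← pow_mul, ← pow_add, ← pow_succ]
      congr 1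
      omega
    unfold psi3
    rw [e2, div_pow, mul_pow 3]
    generalize 1 + 2 * xx (ZMod p) = B at *
    generalize io (C ((3 : ZMod p)⁻¹ ^ k)) = w at *
    have h3k : (3 : RatFunc (ZMod p)) ^ k ≠ 0 := pow_ne_zero k h3K
    have hBk : (B ^ 3) ^ k ≠ 0 := pow_ne_zero k (pow_ne_zero 3 hB)
    generalize (3 : RatFunc (ZMod p)) ^ k = t at *
    generalize (B ^ 3) ^ k = Bk at *
    field_simp
    linear_combination (io (C (d k)) *
      (xx (ZMod p) * (1 + xx (ZMod p) + xx (ZMod p) ^ 2)) ^ k) * e1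
  · rw [hd k hk' h]
    simp

/-- the polynomial on the side of `ψ` -/
noncomputable def Ph1 : (ZMod p)[X] :=
  ∑ k ∈ range p, C (uz p k * (3 : ZMod p)⁻¹ ^ k) * (X * hq p) ^ k * bq p ^ (p - 1 - 3 * k)

noncomputable def Ga1 : (ZMod p)[X] :=
  ∑ k ∈ range p, C (g3 p k * (3 : ZMod p)⁻¹ ^ k) * (X * hq p) ^ k * bq p ^ (2 * p - 1 - 3 * k)

/-- the polynomial on the side of `φ` -/
noncomputable def f3 : (ZMod p)[X] := (F3p p).comp (C ((3 : ZMod p)⁻¹ ^ 3) * X ^ 3)

noncomputable def g3c : (ZMod p)[X] := (G3p p).comp (C ((3 : ZMod p)⁻¹ ^ 3) * X ^ 3)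

theorem io_Ph1 (hp3 : p ≠ 3) : io (Ph1 p) =
    (1 + 2 * xx (ZMod p)) ^ p * (ev (psi3 (ZMod p)) (F3p p) / (1 + 2 * xx (ZMod p))) :=
  io_trunc p hp3 (uz p) p fun k hk h => uz_zero p k h hk

theorem io_Ga1 (hp3 : p ≠ 3) : io (Ga1 p) =
    (1 + 2 * xx (ZMod p)) ^ (2 * p) * (ev (psi3 (ZMod p)) (G3p p) / (1 + 2 * xx (ZMod p))) :=
  io_trunc p hp3 (g3 p) (2 * p) fun k hk h => g3_zero p k h hk

theorem io_f3 (hp3 : p ≠ 3) : io (f3 p) = ev (phi3 (ZMod p)) (F3p p) := by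
  unfold f3
  rw [io_comp, io_phi p hp3]

theorem io_g3c (hp3 : p ≠ 3) : io (g3c p) = ev (phi3 (ZMod p)) (G3p p) := by
  unfold g3c
  rw [io_comp, io_phi p hp3]

theorem Lp_F : Lp (F3p p) = 0 := by
  have h := thF p
  unfold th at h
  unfold Lp
  apply mul_left_cancel₀ (X_ne_zero (R := ZMod p))
  rw [mul_zero]
  rw [derivative_mul, derivative_X] at h
  linear_combination h

theorem Lp_G (hp2 : p ≠ 2) (hp3 : p ≠ 3) :
    Lp (G3p p) = -2 * (1 - 27 * X) * derivative (F3p p) + 27 * F3p p := by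
  have h := thG p hp2 hp3
  unfold th at h
  unfold Lp
  apply mul_left_cancel₀ (X_ne_zero (R := ZMod p))
  rw [derivative_mul, derivative_X] at h
  linear_combination h

theorem rd_frob (a : (ZMod p)[X]) : rd (io a ^ p) = 0 := by
  rw [← map_pow, rd_io, der_pow_p, map_zero]

theorem rd_c2 : rd ((1 + 2 * xx (ZMod p)) ^ p) = 0 := by
  rw [← io_bq]
  exact rd_frob p _

theorem TT_f3 (hp3 : p ≠ 3) : TT3 (io (f3 p)) = 0 := by
  rw [io_f3 p hp3, T_phi (three_z p hp3), Lp_F, map_zero, mul_zero]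

theorem TT_Ph1 (hp3 : p ≠ 3) : TT3 (io (Ph1 p)) = 0 := by
  rw [io_Ph1 p hp3, TT3_smul _ _ (rd_c2 p), T_psi (three_z p hp3), Lp_F, map_zero, mul_zero,
    mul_zero]

theorem cast_ne' (j : ℕ) (h0 : 0 < j) (h : j < p) : (j : ZMod p) ≠ 0 := CDE.cast_ne p j h0 h

theorem comp_deg (P : (ZMod p)[X]) (a : ZMod p) : (P.comp (C a * X ^ 3)).natDegree ≤
    3 * P.natDegree := by
  refine natDegree_comp_le.trans ?_
  rw [mul_comm]
  exact Nat.mul_le_mul_right _ (natDegree_C_mul_X_pow_le _ _)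

theorem hq_deg : (hq p).natDegree ≤ 2 := by
  unfold hq
  compute_degree

theorem bq_deg : (bq p).natDegree ≤ 1 := by
  unfold bq
  compute_degree

theorem trunc_deg (d : ℕ → ZMod p) (N : ℕ) (hd : ∀ k, k < p → N ≤ 3 * k → d k = 0) :
    (∑ k ∈ range p, C (d k * (3 : ZMod p)⁻¹ ^ k) * (X * hq p) ^ k *
      bq p ^ (N - 1 - 3 * k)).natDegree ≤ N - 1 := by
  refine natDegree_sum_le_of_forall_le _ _ fun k hk => ?_
  have hk' := mem_range.mp hk
  rcases Nat.lt_or_ge (3 * k) N with h | h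
  · refine natDegree_mul_le.trans ?_
    have h1 : (C (d k * (3 : ZMod p)⁻¹ ^ k) * (X * hq p) ^ k).natDegree ≤ 3 * k := by
      refine (natDegree_C_mul_le _ _).trans (natDegree_pow_le.trans ?_)
      rw [mul_comm]
      refine Nat.mul_le_mul_right _ (natDegree_mul_le.trans ?_)
      have := hq_deg p
      rw [natDegree_X]
      omega
    have h2 : (bq p ^ (N - 1 - 3 * k)).natDegree ≤ N - 1 - 3 * k := by
      refine natDegree_pow_le.trans ?_
      calc (N - 1 - 3 * k) * (bq p).natDegree ≤ (N - 1 - 3 * k) * 1 :=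
            Nat.mul_le_mul_left _ (bq_deg p)
        _ = _ := mul_one _
    omega
  · rw [hd k hk' h]
    simp

theorem Ph1_zero : (Ph1 p).eval 0 = 1 := by
  unfold Ph1
  rw [eval_finsetSum]
  have hp0 := hp.out.pos
  obtain ⟨m, hm⟩ : ∃ m, p = m + 1 := ⟨p - 1, by omega⟩
  have : ∀ k ∈ range p, (C (uz p k * (3 : ZMod p)⁻¹ ^ k) * (X * hq p) ^ k *
      bq p ^ (p - 1 - 3 * k)).eval 0 = if k = 0 then 1 else 0 := by
    intro k _
    rw [eval_mul, eval_mul, eval_C, eval_pow, eval_pow, eval_mul, eval_X, zero_mul]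
    split_ifs with h
    · subst h
      unfold bq uz u3
      simp
    · rw [zero_pow h, mul_zero, zero_mul]
  rw [sum_congr rfl this, sum_ite_eq' (range p), if_pos (mem_range.mpr hp0)]

theorem f3_zero : (f3 p).eval 0 = 1 := by
  unfold f3
  rw [eval_comp]
  simp [F3p_zero]

/-- **the cubic transformation modulo `p`** -/
theorem trans_F (hp3 : p ≠ 3) : Ph1 p = f3 p := by
  rw [← sub_eq_zero]
  have hT : TP (Ph1 p - f3 p) = 0 := by
    apply io_inj
    rw [io_TP, map_sub, TT3_sub, TT_Ph1 p hp3, TT_f3 p hp3, sub_zero, map_zero]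
  have hX : (X : (ZMod p)[X]) ∣ Ph1 p - f3 p := by
    rw [X_dvd_iff, coeff_zero_eq_eval_zero, eval_sub, Ph1_zero, f3_zero, sub_self]
  have h1 := steps p (cast_ne' p) X (1 - X ^ 3) (Ph1 p - f3 p) rfl cop_X hT hX p hp.out.pos le_rfl
  have hdeg : (Ph1 p - f3 p).natDegree < p := by
    have a1 : (Ph1 p).natDegree ≤ p - 1 := trunc_deg p (uz p) p fun k hk h => uz_zero p k h hk
    have a2 : (f3 p).natDegree ≤ 3 * (F3p p).natDegree := comp_deg p _ _
    have a3 := F3p_deg p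
    have := hp.out.pos
    exact lt_of_le_of_lt (natDegree_sub_le _ _) (max_lt (by omega) (by omega))
  by_contra hne
  have h2 := natDegree_le_of_dvd h1 hne
  rw [natDegree_X_pow] at h2
  omega

end Pool.Agent.Q267.MW
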