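import Pool.Agent.Q267.MW.C3Poly

set_option autoImplicit false

/-!
# The Wronskian of the cubic family and the values at the nodal point
-/

namespace Pool.Agent.Q267.MW

open Finset Polynomial Pool.Agent.Q267.CDE

open Pool.Agent.Q267.Seven (dl dl_succ legendre_sq_ring)

variable (p : ℕ) [hp : Fact p.Prime]

/-- the Wronskian -/
noncomputable def V3 : (ZMod p)[X] := F3p p ^ 2 + F3p p * th (G3p p) - G3p p * th (F3p p)

theorem V3_ode (hp2 : p ≠ 2) (hp3 : p ≠ 3) : (1 - 27 * X) * th (V3 p) = 27 * X * V3 p := by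
  have hF := thF p
  have hG := thG p hp2 hp3
  unfold V3
  rw [th_sub, th_add, th_mul, th_mul, sq, th_mul]
  set F := F3p p
  set F1 := th F
  set F2 := th F1
  set G := G3p p
  set G1 := th G
  set G2 := th G1
  linear_combination F * hG - G * hF

theorem dvd_of_der {Z : (ZMod p)[X]} (h : (1 - 27 * X) * th Z = 27 * X * Z) :
    derivative ((1 - 27 * X) * Z) = 0 := by
  apply mul_left_cancel₀ (X_ne_zero (R := ZMod p))
  rw [mul_zero, derivative_mul, derivative_sub, derivative_one, derivative_mul, derivative_X,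
    derivative_ofNat]
  unfold th at h
  linear_combination h

theorem V3_deg : (V3 p).natDegree ≤ p - 1 := by
  have h1 := F3p_deg p
  have h2 := G3p_deg p
  have h3 : (th (F3p p)).natDegree ≤ (F3p p).natDegree := by
    rw [natDegree_le_iff_coeff_eq_zero]
    intro n hn
    rw [th_coeff, coeff_eq_zero_of_natDegree_lt hn, mul_zero]
  have h4 : (th (G3p p)).natDegree ≤ (G3p p).natDegree := by
    rw [natDegree_le_iff_coeff_eq_zero]
    intro n hn
    rw [th_coeff, coeff_eq_zero_of_natDegree_lt hn, mul_zero]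
  unfold V3
  refine (natDegree_sub_le _ _).trans (max_le ((natDegree_add_le _ _).trans (max_le ?_ ?_)) ?_)
  · refine natDegree_pow_le.trans ?_
    omega
  · refine natDegree_mul_le.trans ?_
    omega
  · refine natDegree_mul_le.trans ?_
    omega

theorem F3p_zero : (F3p p).eval 0 = 1 := by
  rw [← coeff_zero_eq_eval_zero, F3p_coeff, if_pos hp.out.pos]
  unfold uz u3
  simp

theorem G3p_zero : (G3p p).eval 0 = 0 := by
  rw [← coeff_zero_eq_eval_zero, G3p_coeff, if_pos hp.out.pos]
  unfold g3
  rw [if_pos (by have := hp.out.pos; omega)]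
  simp

theorem th_eval_zero {K : Type*} [Field K] (P : K[X]) : (th P).eval 0 = 0 := by
  unfold th
  rw [eval_mul, eval_X, zero_mul]

theorem V3_zero : (V3 p).eval 0 = 1 := by
  unfold V3
  rw [eval_sub, eval_add, eval_pow, eval_mul, eval_mul, th_eval_zero, th_eval_zero, F3p_zero]
  ring

theorem V3_eval (hp2 : p ≠ 2) (hp3 : p ≠ 3) (s : ZMod p) (hs : 27 * s ≠ 1) :
    (V3 p).eval s = 1 := by
  have h27 : (27 : ZMod p) ≠ 0 := by
    have h3 : (3 : ZMod p) ≠ 0 := by
      intro h
      have : ((3 : ℕ) : ZMod p) = 0 := by exact_mod_cast h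
      rw [ZMod.natCast_eq_zero_iff] at this
      exact hp3 ((Nat.prime_dvd_prime_iff_eq hp.out (by norm_num)).mp this)
    have : (27 : ZMod p) = 3 ^ 3 := by norm_num
    rw [this]
    exact pow_ne_zero 3 h3
  set Z : (ZMod p)[X] := (1 - 27 * X) * V3 p with hZ
  have hZ' : derivative Z = 0 := dvd_of_der p (V3_ode p hp2 hp3)
  have hZd : Z.natDegree ≤ p := by
    rw [hZ]
    refine natDegree_mul_le.trans ?_
    have h1 : (1 - 27 * X : (ZMod p)[X]).natDegree ≤ 1 := by
      refine (natDegree_sub_le _ _).trans (max_le (by simp) ?_)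
      refine natDegree_mul_le.trans ?_
      rw [natDegree_ofNat, natDegree_X]
    have h2 := V3_deg p
    have := hp.out.pos
    omega
  have he := eval_of_der p Z hZd hZ'
  have e0 := he 0
  have e1 := he (27 : ZMod p)⁻¹
  have es := he s
  have z0 : Z.eval 0 = 1 := by
    rw [hZ, eval_mul, V3_zero, eval_sub, eval_mul]
    simp
  have z1 : Z.eval (27 : ZMod p)⁻¹ = 0 := by
    rw [hZ, eval_mul, eval_sub, eval_mul]
    simp [h27]
  have zs : Z.eval s = (1 - 27 * s) * (V3 p).eval s := by
    rw [hZ, eval_mul, eval_sub, eval_mul]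
    simp
  rw [z0] at e0
  rw [z1] at e1
  rw [zs] at es
  have hne : (1 : ZMod p) - 27 * s ≠ 0 := fun h => hs (by linear_combination -h)
  apply mul_left_cancel₀ hne
  rw [es]
  have h27i : (27 : ZMod p) * (27 : ZMod p)⁻¹ = 1 := mul_inv_cancel₀ h27
  linear_combination (-27 * s) * e1 + (27 * s - 1) * e0 - Z.coeff p * s * h27i

/-- values at the nodal point -/
theorem V3_node (hp2 : p ≠ 2) (hp3 : p ≠ 3) (s : ZMod p) (hs : 27 * s = 1) :
    (V3 p).eval s = 0 := by
  have h := congrArg (fun Q => Q.eval s) (V3_ode p hp2 hp3)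
  simp only [eval_mul, eval_sub, eval_one, eval_X] at h
  have e27 : (27 : (ZMod p)[X]).eval s = 27 := by simp
  rw [e27, hs] at h
  linear_combination -h

theorem F3p_node (s : ZMod p) (hs : 27 * s = 1) :
    9 * (th (F3p p)).eval s = -2 * (F3p p).eval s := by
  have h := congrArg (fun Q => Q.eval s) (thF p)
  simp only [eval_mul, eval_sub, eval_add, eval_X, eval_zero] at h
  have e27 : (27 : (ZMod p)[X]).eval s = 27 := by simp
  have e6 : (6 : (ZMod p)[X]).eval s = 6 := by simp
  rw [e27, e6] at h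
  linear_combination (-9) * h - (9 * (th (th (F3p p))).eval s + 9 * (th (F3p p)).eval s +
    2 * (F3p p).eval s) * hs

/-- evaluation of the two polynomials as sums -/
theorem th_eval_sum (c : ℕ → ZMod p) (n : ℕ) (s : ZMod p) :
    (th (∑ k ∈ range n, C (c k) * (X : (ZMod p)[X]) ^ k)).eval s =
      ∑ k ∈ range n, (k * c k) * s ^ k := by
  have : th (∑ k ∈ range n, C (c k) * (X : (ZMod p)[X]) ^ k) =
      ∑ k ∈ range n, C (k * c k) * (X : (ZMod p)[X]) ^ k := by
    ext j
    rw [th_coeff, sum_coeff, sum_coeff]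
    split_ifs <;> ring
  rw [this, eval_finsetSum]
  refine sum_congr rfl fun k _ => ?_
  simp

/-- **the trace formula at an arbitrary lift** -/
theorem tr_cub_lift (m : ℕ) (hpm : p = 2 * m + 1) (hm : 0 < m) (L nu : R p) (hL : red p L ≠ 0)
    (hnu : L ^ (p - 1) = 1 + p * nu) :
    -((∑ x : ZMod p, quadraticChar (ZMod p) ((x + red p L) ^ 2 + 4 * x ^ 3) : ℤ) : R p) =
      (1 + p) * (∑ k ∈ range p, ((u3 k : ℕ) : R p) * L ^ k +
        p * lift p (red p nu * (th (F3p p)).eval (red p L) + (th (G3p p)).eval (red p L))) := by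
  have hpp := p_sq p
  have hp2 := hp.out.two_le
  rw [tr_cub p m hpm hm (red p L) hL]
  congr 1
  have hT : om p (red p L) = L * (1 + p * nu) := by
    rw [om_eq p (red p L) L rfl, ← hnu, ← pow_succ' L, Nat.sub_add_cancel hp.out.one_le]
  have hTk : ∀ k : ℕ, om p (red p L) ^ k = L ^ k + p * (nu * (k * L ^ k)) := by
    intro k
    rw [hT]
    induction k with
    | zero => simp
    | succ k ih =>
      rw [pow_succ (L * (1 + (p : R p) * nu)), ih, pow_succ L]
      push_cast
      linear_combination (nu ^ 2 * (k : R p) * L ^ k * L) * hpp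
  have hlast : ∑ k ∈ range (p - 1), (((u3 k : ℕ) : R p) + p * lift p (k * g3 p k)) *
      om p (red p L) ^ k =
      ∑ k ∈ range p, (((u3 k : ℕ) : R p) + p * lift p (k * g3 p k)) * om p (red p L) ^ k := by
    have : range p = range ((p - 1) + 1) := by rw [Nat.sub_add_cancel hp.out.one_le]
    rw [this, sum_range_succ, u3_big p (p - 1) (by omega) (by omega),
      g3_zero p (p - 1) (by omega) (by omega)]
    have : (p : R p) * lift p (((p - 1 : ℕ) : ZMod p) * 0) = p * 0 := by
      apply p_mul_eq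
      rw [red_lift, map_zero, mul_zero]
    rw [this]
    ring
  rw [hlast]
  have e1 : (p : R p) * lift p (red p nu * (th (F3p p)).eval (red p L) +
      (th (G3p p)).eval (red p L)) =
      p * ∑ k ∈ range p, (nu * ((u3 k : ℕ) : R p) * (k * L ^ k) + lift p (k * g3 p k) * L ^ k) := by
    apply p_mul_eq
    rw [red_lift, map_sum]
    unfold F3p G3p
    rw [th_eval_sum, th_eval_sum, mul_sum, ← sum_add_distrib]
    refine sum_congr rfl fun k _ => ?_
    rw [map_add, map_mul, map_mul, map_mul, map_mul, map_pow, red_lift, red_nat, red_nat]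
    unfold uz
    ring
  rw [e1, mul_sum, ← sum_add_distrib]
  refine sum_congr rfl fun k _ => ?_
  rw [hTk]
  linear_combination (lift p (k * g3 p k) * (nu * (k * L ^ k))) * hpp

end Pool.Agent.Q267.MW
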