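import Pool.Agent.Q267.CDE.Jac

set_option autoImplicit false

/-!
# Expansion of functions on `𝔽_p` in powers of the Teichmueller character, modulo `p²`
-/

namespace Pool.Agent.Q267.MW

open Finset Pool.Agent.Q267.CDE

variable (p : ℕ) [hp : Fact p.Prime]

theorem orth (t y : ZMod p) (ht : t ≠ 0) (hy : y ≠ 0) :
    ∑ k ∈ range (p - 1), om p t ^ (p - 1 - k) * om p y ^ k = if t = y then (p : R p) - 1 else 0 := by
  have hp1 := hp.out.one_le
  have e : ∀ k ∈ range (p - 1), om p t ^ (p - 1 - k) * om p y ^ k =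
      om p t * (om p y ^ k * om p t ^ (p - 1 - 1 - k)) := by
    intro k hk
    have hk' : k < p - 1 := mem_range.mp hk
    rw [show p - 1 - k = (p - 1 - 1 - k) + 1 by omega, pow_succ (om p t)]
    ring
  rw [sum_congr rfl e, ← mul_sum]
  split_ifs with h
  · subst h
    have e2 : ∀ k ∈ range (p - 1), om p t ^ k * om p t ^ (p - 1 - 1 - k) = om p t ^ (p - 1 - 1) := by
      intro k hk
      have hk' : k < p - 1 := mem_range.mp hk
      rw [← pow_add]
      congr 1
      omega
    have hp2 := hp.out.two_le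
    rw [sum_congr rfl e2, sum_const, card_range, nsmul_eq_mul, mul_left_comm, ← pow_succ' (om p t),
      show p - 1 - 1 + 1 = p - 1 by omega, om_pow_card p ht, mul_one, Nat.cast_sub hp1, Nat.cast_one]
  · have hu : IsUnit (om p y - om p t) := by
      apply isUnit_of_red
      rw [map_sub, red_om, red_om, sub_ne_zero]
      exact fun h' => h h'.symm
    have hg := Commute.geom_sum₂_mul (Commute.all (om p y) (om p t)) (p - 1)
    rw [om_pow_card p ht, om_pow_card p hy, sub_self] at hg
    have : ∑ i ∈ range (p - 1), om p y ^ i * om p t ^ (p - 1 - 1 - i) = 0 := by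
      apply hu.mul_right_cancel
      rw [zero_mul]
      exact hg
    rw [this, mul_zero]

theorem expand (g : ZMod p → R p) (y : ZMod p) (hy : y ≠ 0) :
    ((p : R p) - 1) * g y =
      ∑ k ∈ range (p - 1), (∑ t : ZMod p, om p t ^ (p - 1 - k) * g t) * om p y ^ k := by
  have e : ∀ k ∈ range (p - 1), (∑ t : ZMod p, om p t ^ (p - 1 - k) * g t) * om p y ^ k =
      ∑ t : ZMod p, g t * (om p t ^ (p - 1 - k) * om p y ^ k) := by
    intro k _
    rw [sum_mul]
    exact sum_congr rfl fun t _ => by ring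
  rw [sum_congr rfl e, sum_comm]
  have e2 : ∀ t : ZMod p, ∑ k ∈ range (p - 1), g t * (om p t ^ (p - 1 - k) * om p y ^ k) =
      if t = y then g t * ((p : R p) - 1) else 0 := by
    intro t
    rw [← mul_sum]
    by_cases ht : t = 0
    · subst ht
      rw [if_neg (fun h => hy h.symm)]
      have : ∑ k ∈ range (p - 1), om p 0 ^ (p - 1 - k) * om p y ^ k = 0 := by
        refine sum_eq_zero fun k hk => ?_
        have hk' : k < p - 1 := mem_range.mp hk
        rw [om_zero, zero_pow (by omega), zero_mul]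
      rw [this, mul_zero]
    · rw [orth p t y ht hy]
      split_ifs <;> ring
  rw [sum_congr rfl fun t _ => e2 t, sum_ite_eq' univ y, if_pos (mem_univ _)]
  ring

/-- sums of `om t ^ k` with `0 < k < p - 1` vanish -/
theorem sum_om_lt (k : ℕ) (h0 : 0 < k) (hk : k < p - 1) : ∑ t : ZMod p, om p t ^ k = 0 := by
  rw [sum_om p k h0, if_neg (Nat.not_dvd_of_pos_of_lt h0 hk)]

theorem sum_om_card : ∑ t : ZMod p, om p t ^ (p - 1) = (p : R p) - 1 := by
  have := hp.out.two_le
  rw [sum_om p (p - 1) (by omega), if_pos (dvd_refl _)]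

theorem sum_pow_lt (k : ℕ) (hk : k < p - 1) : ∑ t : ZMod p, t ^ k = 0 := by
  rcases Nat.eq_zero_or_pos k with h | h
  · subst h
    simp
  · rw [sum_pow p k h, if_neg (Nat.not_dvd_of_pos_of_lt h hk)]

/-- Jacobi type sums of total degree below `p - 1` vanish modulo `p` -/
theorem sum_jac_lt (A B : ℕ) (hAB : A + B < p - 1) :
    ∑ t : ZMod p, t ^ A * (1 - t) ^ B = 0 := by
  have e : ∀ t : ZMod p, t ^ A * (1 - t) ^ B =
      ∑ i ∈ range (B + 1), (-1) ^ i * ((B.choose i : ℕ) : ZMod p) * t ^ (A + i) := by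
    intro t
    rw [sub_eq_neg_add, add_pow, mul_sum]
    refine sum_congr rfl fun i _ => ?_
    rw [one_pow, mul_one, neg_pow, pow_add]
    ring
  rw [sum_congr rfl fun t _ => e t, sum_comm]
  refine sum_eq_zero fun i hi => ?_
  have hi' : i < B + 1 := mem_range.mp hi
  rw [← mul_sum, sum_pow_lt p (A + i) (by omega), mul_zero]

theorem om_neg_one_pow (hodd : Odd p) (m : ℕ) : om p (-1) ^ m = (-1) ^ m := by
  rw [om_neg p hodd, om_one]

theorem om_inv (x : ZMod p) (hx : x ≠ 0) : om p x * om p x⁻¹ = 1 := by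
  rw [← om_mul, mul_inv_cancel₀ hx, om_one]

end Pool.Agent.Q267.MW
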