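import Pool.Agent.Q267.MW.Insep

set_option autoImplicit false

/-!
# The degree of `Frobenius - 1` is the number of points
-/

namespace Pool.Agent.Q267.MW

open Polynomial WeierstrassCurve WeierstrassCurve.Affine WithZero Finset

noncomputable section

section gen

variable {F : Type*} [Field F]

theorem hgt_of {a b : F} {x y : RatFunc F} (h : (TW a b).Nonsingular x y) {n d : F[X]}
    (hd : d ≠ 0) (hc : IsCoprime n d) (hx : x / io (fp a b) = io n / io d) :
    hgt (Point.some x y h) = mh n d := by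
  unfold hgt
  rw [rep_some]
  dsimp only
  set z := x / io (fp a b) with hz
  have hd' : z.denom ≠ 0 := RatFunc.denom_ne_zero z
  have e : z.num * d = n * z.denom := by
    apply io_inj
    rw [map_mul, map_mul]
    have h1 : io z.num / io z.denom = io n / io d := (RatFunc.num_div_denom z).trans hx
    rw [div_eq_div_iff (io_ne hd') (io_ne hd)] at h1
    exact h1
  have hc' := RatFunc.isCoprime_num_denom z
  have key : mh3 z.denom z.num 0 = mh3 d n 0 := by
    obtain ⟨r, s, hrs⟩ := hc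
    obtain ⟨r', s', hrs'⟩ := hc'
    refine prop_eq ⟨s', r', 0, by linear_combination hrs'⟩ ⟨s, r, 0, by linear_combination hrs⟩
      ?_ (by ring) (by ring)
    linear_combination -e
  unfold mh3 at key
  unfold mh
  rw [natDegree_zero] at key
  omega

theorem addX_eq {a b : F} {X1 X2 Y1 Y2 : RatFunc F} (hd : X1 ≠ X2) [DecidableEq (RatFunc F)] :
    (TW a b).addX (io (fp a b) * X1) (io (fp a b) * X2)
      ((TW a b).slope (io (fp a b) * X1) (io (fp a b) * X2) (io (fp a b) ^ 2 * Y1)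
        (io (fp a b) ^ 2 * Y2)) / io (fp a b) =
      io (fp a b) * ((Y1 - Y2) / (X1 - X2)) ^ 2 - X1 - X2 := by
  have hf := fk_ne a b
  have hx : io (fp a b) * X1 ≠ io (fp a b) * X2 := fun h => hd (mul_left_cancel₀ hf h)
  have hd' : X1 - X2 ≠ 0 := sub_ne_zero.mpr hd
  rw [slope_of_X_ne hx]
  simp only [addX]
  rw [← mul_sub, ← mul_sub]
  field_simp
  ring

open Classical in
/-- height of a sum of two points with different first coordinates -/
theorem hgt_add {a b : F} (h2 : (2 : F) ≠ 0) (hΔ : 4 * a ^ 3 + 27 * b ^ 2 ≠ 0)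
    {X1 Y1 X2 Y2 : RatFunc F}
    (h1 : io (fp a b) * Y1 ^ 2 = X1 ^ 3 + io (C a) * X1 + io (C b))
    (h2' : io (fp a b) * Y2 ^ 2 = X2 ^ 3 + io (C a) * X2 + io (C b)) (hx : X1 ≠ X2)
    {n d : F[X]} (hd : d ≠ 0) (hc : IsCoprime n d)
    (he : io (fp a b) * ((Y1 - Y2) / (X1 - X2)) ^ 2 - X1 - X2 = io n / io d) :
    hgt (pt h2 hΔ h1 + pt h2 hΔ h2') = mh n d := by
  have hf := fk_ne a b
  have hxx : io (fp a b) * X1 ≠ io (fp a b) * X2 := fun h => hx (mul_left_cancel₀ hf h)
  unfold pt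
  rw [Point.add_of_X_ne hxx]
  refine hgt_of _ hd hc ?_
  rw [addX_eq hx]
  exact he

theorem neg_eqn {a b : F} {X Y : RatFunc F}
    (h : io (fp a b) * Y ^ 2 = X ^ 3 + io (C a) * X + io (C b)) :
    io (fp a b) * (-Y) ^ 2 = X ^ 3 + io (C a) * X + io (C b) := by rw [neg_sq]; exact h

theorem pt_neg {a b : F} (h2 : (2 : F) ≠ 0) (hΔ : 4 * a ^ 3 + 27 * b ^ 2 ≠ 0)
    {X Y : RatFunc F} (h : io (fp a b) * Y ^ 2 = X ^ 3 + io (C a) * X + io (C b)) :
    - pt h2 hΔ h = pt h2 hΔ (neg_eqn h) := by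
  unfold pt
  rw [Point.neg_some, Point.some.injEq]
  refine ⟨rfl, ?_⟩
  rw [negY_SW]
  ring

end gen

variable {p : ℕ} [hp : Fact p.Prime]

/-- the exponent of cancellation -/
def kk (a b : ZMod p) (m : ℕ) (x : ZMod p) : ℕ :=
  if (fp a b).eval x = 0 then 1 else if ((fp a b).eval x) ^ m = 1 then 0 else 2

def NN (a b : ZMod p) (m : ℕ) : (ZMod p)[X] :=
  fp a b * (fp a b ^ m + 1) ^ 2 - (X ^ p + X) * (X ^ p - X) ^ 2

theorem NN_eq (a b : ZMod p) {m : ℕ} (hm : p = 2 * m + 1) :
    NN a b m = X ^ (2 * p + 1) + (X ^ (p + 2) + C a * X ^ p + C a * X + C (2 * b)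
      + C 2 * fp a b ^ (m + 1)) := by
  have h1 : fp a b * (fp a b ^ m + 1) ^ 2 = fp a b ^ p + 2 * fp a b ^ (m + 1) + fp a b := by
    have h0 : fp a b ^ p = fp a b ^ (2 * m + 1) := congrArg (fun k => fp a b ^ k) hm
    rw [h0]; ring
  unfold NN
  rw [h1, fp_frob, map_ofNat]
  unfold fp
  rw [C_mul, map_ofNat]
  ring

theorem NN_deg (a b : ZMod p) {m : ℕ} (hm : p = 2 * m + 1) (hm0 : 0 < m) :
    (NN a b m).natDegree = 2 * p + 1 := by
  rw [NN_eq a b hm]
  have hlt : (X ^ (p + 2) + C a * X ^ p + C a * X + C (2 * b)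
      + C 2 * fp a b ^ (m + 1) : (ZMod p)[X]).natDegree ≤ 2 * p := by
    refine natDegree_add_le_of_degree_le (natDegree_add_le_of_degree_le
      (natDegree_add_le_of_degree_le (natDegree_add_le_of_degree_le ?_ ?_) ?_) ?_) ?_
    · exact (natDegree_X_pow_le _).trans (by omega)
    · exact (natDegree_C_mul_X_pow_le _ _).trans (by omega)
    · refine (natDegree_C_mul_le _ _).trans ?_
      rw [natDegree_X]; omega
    · rw [natDegree_C]; omega
    · refine (natDegree_C_mul_le _ _).trans ((natDegree_pow_le).trans ?_)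
      rw [fp_deg]; omega
  rw [natDegree_add_eq_left_of_natDegree_lt, natDegree_X_pow]
  rw [natDegree_X_pow]
  omega

theorem eval_NN (a b : ZMod p) (m : ℕ) (x : ZMod p) :
    (NN a b m).eval x = (fp a b).eval x * (((fp a b).eval x) ^ m + 1) ^ 2 := by
  unfold NN
  simp only [eval_sub, eval_mul, eval_pow, eval_add, eval_one, eval_X, ZMod.pow_card, sub_self]
  ring

theorem prodX : (∏ x : ZMod p, (X - C x)) = (X ^ p - X : (ZMod p)[X]) := by
  have h1 : 1 < p := hp.out.one_lt
  have hr := FiniteField.roots_X_pow_card_sub_X (ZMod p)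
  rw [ZMod.card] at hr
  have hmon : (X ^ p - X : (ZMod p)[X]).Monic := by
    apply monic_X_pow_sub
    rw [degree_X]
    exact_mod_cast h1
  have := prod_multiset_X_sub_C_of_monic_of_roots_card_eq hmon (by
    rw [hr, FiniteField.X_pow_card_sub_X_natDegree_eq _ h1]
    simp [ZMod.card])
  rw [hr] at this
  exact this

theorem kk_le (a b : ZMod p) (m : ℕ) (x : ZMod p) : kk a b m x ≤ 2 := by
  unfold kk
  split_ifs <;> omega

/-- exact divisibility of the numerator at the points -/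
theorem dvd_NN {a b : ZMod p} {m : ℕ} (hm : p = 2 * m + 1) (x : ZMod p) :
    (X - C x) ^ (kk a b m x) ∣ NN a b m := by
  unfold kk
  split_ifs with h1 h2
  · rw [pow_one, dvd_iff_isRoot, IsRoot, eval_NN, h1, zero_mul]
  · rw [pow_zero]; exact one_dvd _
  · have h3 : ((fp a b).eval x) ^ m = -1 := by
      have hsq : ((fp a b).eval x ^ m) ^ 2 = 1 := by
        rw [← pow_mul, mul_comm m 2]
        have := ZMod.pow_card_sub_one_eq_one h1
        rwa [show p - 1 = 2 * m by omega] at this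
      have h4 : ((fp a b).eval x ^ m - 1) * ((fp a b).eval x ^ m + 1) = 0 := by
        linear_combination hsq
      rcases mul_eq_zero.mp h4 with h | h
      · exact absurd (sub_eq_zero.mp h) h2
      · exact eq_neg_of_add_eq_zero_left h
    have hd : (X - C x) ∣ (fp a b ^ m + 1) := by
      rw [dvd_iff_isRoot, IsRoot, eval_add, eval_pow, eval_one, h3]
      ring
    have hd2 : (X - C x) ∣ (X ^ p - X : (ZMod p)[X]) := by
      rw [dvd_iff_isRoot, IsRoot, eval_sub, eval_pow, eval_X, ZMod.pow_card, sub_self]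
    unfold NN
    exact dvd_sub ((pow_dvd_pow_of_dvd hd 2).mul_left _) ((pow_dvd_pow_of_dvd hd2 2).mul_left _)

theorem not_dvd_NN {a b : ZMod p} (h2 : (2 : ZMod p) ≠ 0) (hΔ : 4 * a ^ 3 + 27 * b ^ 2 ≠ 0) {m : ℕ}
    (hm0 : 0 < m) (x : ZMod p) (hk : kk a b m x < 2) :
    ¬ (X - C x) ^ (kk a b m x + 1) ∣ NN a b m := by
  unfold kk at hk ⊢
  split_ifs at hk ⊢ with h1 h3
  · intro hd
    have hd2 : (X - C x) ∣ (X ^ p - X : (ZMod p)[X]) := by
      rw [dvd_iff_isRoot, IsRoot, eval_sub, eval_pow, eval_X, ZMod.pow_card, sub_self]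
    have hd3 : (X - C x) ^ 2 ∣ fp a b * (fp a b ^ m + 1) ^ 2 := by
      have e : fp a b * (fp a b ^ m + 1) ^ 2 = NN a b m + (X ^ p + X) * (X ^ p - X) ^ 2 := by
        unfold NN; ring
      rw [e]
      exact dvd_add hd ((pow_dvd_pow_of_dvd hd2 2).mul_left _)
    have hcop : IsCoprime ((X - C x) ^ 2) ((fp a b ^ m + 1) ^ 2) := by
      apply IsCoprime.pow
      rw [(irreducible_X_sub_C x).coprime_iff_not_dvd, dvd_iff_isRoot, IsRoot, eval_add, eval_pow,
        eval_one, h1, zero_pow hm0.ne', zero_add]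
      exact one_ne_zero
    have hd4 : (X - C x) ^ 2 ∣ fp a b := hcop.dvd_of_dvd_mul_right hd3
    rw [sq] at hd4
    exact (irreducible_X_sub_C x).not_isUnit ((fp_sep hΔ).squarefree _ hd4)
  · rw [zero_add, pow_one, dvd_iff_isRoot, IsRoot, eval_NN, h3]
    apply mul_ne_zero h1
    have : (1 + 1 : ZMod p) = 2 := by norm_num
    rw [this]
    exact pow_ne_zero 2 h2
  · exact absurd hk (lt_irrefl 2)

/-- the common factor -/
def GG (a b : ZMod p) (m : ℕ) : (ZMod p)[X] := ∏ x : ZMod p, (X - C x) ^ (kk a b m x)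

def GG' (a b : ZMod p) (m : ℕ) : (ZMod p)[X] := ∏ x : ZMod p, (X - C x) ^ (2 - kk a b m x)

theorem GG_mul (a b : ZMod p) (m : ℕ) : GG a b m * GG' a b m = (X ^ p - X) ^ 2 := by
  unfold GG GG'
  rw [← prod_mul_distrib, ← prodX, ← prod_pow]
  apply prod_congr rfl
  intro x _
  rw [← pow_add]
  congr 1
  have := kk_le a b m x
  omega

theorem GG_dvd {a b : ZMod p} {m : ℕ} (hm : p = 2 * m + 1) : GG a b m ∣ NN a b m := by
  unfold GG
  apply Finset.prod_dvd_of_coprime
  · intro x _ y _ hxy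
    apply IsCoprime.pow
    exact isCoprime_X_sub_C_of_isUnit_sub (sub_ne_zero.mpr hxy).isUnit
  · intro x _
    exact dvd_NN hm x

theorem GG_deg (a b : ZMod p) (m : ℕ) : (GG a b m).natDegree = ∑ x : ZMod p, kk a b m x := by
  unfold GG
  rw [natDegree_prod _ _ (fun x _ => pow_ne_zero _ (X_sub_C_ne_zero x))]
  apply sum_congr rfl
  intro x _
  rw [natDegree_pow, natDegree_X_sub_C, mul_one]

theorem kk_char {a b : ZMod p} {m : ℕ} (hm : p = 2 * m + 1) (hp2 : p ≠ 2) (x : ZMod p) :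
    (1 : ℤ) - kk a b m x = quadraticChar (ZMod p) ((fp a b).eval x) := by
  have hF : ringChar (ZMod p) ≠ 2 := by rw [ZMod.ringChar_zmod_n]; exact hp2
  have hcard : Fintype.card (ZMod p) / 2 = m := by rw [ZMod.card]; omega
  unfold kk
  split_ifs with h1 h2
  · rw [h1, quadraticChar_zero]; norm_num
  · rw [quadraticChar_eq_pow_of_char_ne_two hF h1, hcard, if_pos h2]; norm_num
  · rw [quadraticChar_eq_pow_of_char_ne_two hF h1, hcard, if_neg h2]; norm_num

open Classical in
/-- the degree of `Frobenius - 1` -/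
theorem count {a b : ZMod p} (h2 : (2 : ZMod p) ≠ 0) (hΔ : 4 * a ^ 3 + 27 * b ^ 2 ≠ 0) {m : ℕ}
    (hm : p = 2 * m + 1) (hm0 : 0 < m) :
    ((hgt (FQ h2 hΔ hm - pt h2 hΔ (P0_eq a b)) : ℕ) : ℤ) =
      p + 1 + ∑ x : ZMod p, quadraticChar (ZMod p) ((fp a b).eval x) := by
  have hp2 : p ≠ 2 := by omega
  have h1p : 1 < p := hp.out.one_lt
  obtain ⟨N', hN'⟩ := GG_dvd (a := a) (b := b) hm
  have hD : (X ^ p - X : (ZMod p)[X]) ≠ 0 := FiniteField.X_pow_card_sub_X_ne_zero _ h1p
  have hGG := GG_mul a b m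
  have hG0 : GG a b m ≠ 0 := by
    intro h0
    rw [h0, zero_mul] at hGG
    exact pow_ne_zero 2 hD hGG.symm
  have hG0' : GG' a b m ≠ 0 := by
    intro h0
    rw [h0, mul_zero] at hGG
    exact pow_ne_zero 2 hD hGG.symm
  have hNdeg := NN_deg a b hm hm0
  have hN0 : N' ≠ 0 := by
    rintro rfl
    rw [mul_zero] at hN'
    rw [hN', natDegree_zero] at hNdeg
    omega
  have hcop : IsCoprime N' (GG' a b m) := by
    unfold GG'
    apply IsCoprime.prod_right
    intro x _
    by_cases hk : kk a b m x < 2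
    · apply IsCoprime.pow_right
      apply IsCoprime.symm
      rw [(irreducible_X_sub_C x).coprime_iff_not_dvd]
      intro hd
      apply not_dvd_NN h2 hΔ hm0 x hk
      rw [hN', pow_succ]
      refine mul_dvd_mul ?_ hd
      exact Finset.dvd_prod_of_mem (fun x => (X - C x) ^ (kk a b m x)) (mem_univ x)
    · have : 2 - kk a b m x = 0 := by omega
      rw [this, pow_zero]
      exact isCoprime_one_right
  have hXne : io (X ^ p : (ZMod p)[X]) ≠ io X := by
    intro h
    have := io_inj h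
    exact hD (sub_eq_zero.mpr this)
  have hXd : io (X ^ p : (ZMod p)[X]) - io X ≠ 0 := sub_ne_zero.mpr hXne
  have hval : io (fp a b) * ((io (fp a b ^ m) - (-1)) / (io (X ^ p) - io X)) ^ 2 - io (X ^ p) - io X
      = io N' / io (GG' a b m) := by
    have e1 : io (NN a b m) = io (GG a b m) * io N' := by rw [hN', map_mul]
    have e2 : io (GG a b m) * io (GG' a b m) = (io (X ^ p) - io X) ^ 2 := by
      rw [← map_mul, hGG, map_pow, map_sub]
    have e3 : io (NN a b m) = io (fp a b) * (io (fp a b ^ m) + 1) ^ 2 -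
        (io (X ^ p) + io X) * (io (X ^ p) - io X) ^ 2 := by
      unfold NN
      rw [map_sub, map_mul, map_mul, map_pow io, map_pow io, map_add, map_add, map_sub, map_one]
    have hGk : io (GG a b m) ≠ 0 := io_ne hG0
    have hGk' : io (GG' a b m) ≠ 0 := io_ne hG0'
    have e4 : io N' / io (GG' a b m) = io (NN a b m) / (io (X ^ p) - io X) ^ 2 := by
      rw [e1, ← e2]
      field_simp
    rw [e4, e3]
    field_simp
    ring
  have hh : hgt (FQ h2 hΔ hm - pt h2 hΔ (P0_eq a b)) = mh N' (GG' a b m) := by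
    rw [sub_eq_add_neg, pt_neg]
    unfold FQ
    exact hgt_add h2 hΔ _ _ hXne hG0' hcop hval
  have d1 : (NN a b m).natDegree = (GG a b m).natDegree + N'.natDegree := by
    rw [hN', natDegree_mul hG0 hN0]
  have d2 : 2 * p = (GG a b m).natDegree + (GG' a b m).natDegree := by
    rw [← natDegree_mul hG0 hG0', hGG, natDegree_pow, FiniteField.X_pow_card_sub_X_natDegree_eq _ h1p]
  have hmh : mh N' (GG' a b m) + (GG a b m).natDegree = 2 * p + 1 := by
    unfold mh
    omega
  rw [GG_deg] at hmh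
  have hs : ∑ x : ZMod p, quadraticChar (ZMod p) ((fp a b).eval x) =
      (p : ℤ) - ((∑ x : ZMod p, kk a b m x : ℕ) : ℤ) := by
    rw [← sum_congr rfl (fun x _ => kk_char hm hp2 x), sum_sub_distrib]
    simp [ZMod.card]
  rw [hh, hs]
  push_cast
  have h5 : ((mh N' (GG' a b m) : ℕ) : ℤ) + ((∑ x : ZMod p, kk a b m x : ℕ) : ℤ) = 2 * p + 1 := by
    exact_mod_cast hmh
  push_cast at h5
  linarith

end

end Pool.Agent.Q267.MW
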