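import Pool.Agent.Q267.MW.Par

set_option autoImplicit false

/-!
# The derivative of a rational function
-/

namespace Pool.Agent.Q267.MW

open Polynomial

variable {F : Type*} [Field F]

noncomputable section

/-- the derivative -/
def rd (x : RatFunc F) : RatFunc F :=
  (io (derivative x.num) * io x.denom - io x.num * io (derivative x.denom)) / io x.denom ^ 2

theorem io_ne {q : F[X]} (h : q ≠ 0) : io q ≠ 0 := fun h' => h (io_inj (by rw [h', map_zero]))

theorem rd_div (p q : F[X]) (hq : q ≠ 0) :
    rd (io p / io q) = (io (derivative p) * io q - io p * io (derivative q)) / io q ^ 2 := by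
  set x := io p / io q with hx
  have hd : io x.denom ≠ 0 := io_ne (RatFunc.denom_ne_zero x)
  have hqk : io q ≠ 0 := io_ne hq
  have h1 : x.num * q = p * x.denom := by
    apply io_inj
    rw [map_mul, map_mul]
    have : io x.num / io x.denom = io p / io q := by
      rw [← hx]
      exact RatFunc.num_div_denom x
    rw [div_eq_div_iff hd hqk] at this
    exact this
  have h2 : derivative x.num * q + x.num * derivative q =
      derivative p * x.denom + p * derivative x.denom := by
    have := congrArg derivative h1
    rw [derivative_mul, derivative_mul] at this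
    exact this
  have k1 : io x.num * io q = io p * io x.denom := by rw [← map_mul, h1, map_mul]
  have k2 : io (derivative x.num) * io q + io x.num * io (derivative q) =
      io (derivative p) * io x.denom + io p * io (derivative x.denom) := by
    rw [← map_mul, ← map_mul, ← map_add, h2, map_add, map_mul, map_mul]
  unfold rd
  rw [div_eq_div_iff (pow_ne_zero 2 hd) (pow_ne_zero 2 hqk)]
  linear_combination (io q * io x.denom) * k2 - (io (derivative q) * io x.denom + io q * io (derivative x.denom)) * k1

theorem rd_io (p : F[X]) : rd (io p) = io (derivative p) := by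
  have := rd_div p 1 one_ne_zero
  simpa using this

theorem rd_add (x y : RatFunc F) : rd (x + y) = rd x + rd y := by
  have hx : io x.denom ≠ 0 := io_ne (RatFunc.denom_ne_zero x)
  have hy : io y.denom ≠ 0 := io_ne (RatFunc.denom_ne_zero y)
  have e : x + y = io (x.num * y.denom + y.num * x.denom) / io (x.denom * y.denom) := by
    conv_lhs => rw [← RatFunc.num_div_denom x, ← RatFunc.num_div_denom y]
    rw [map_add, map_mul, map_mul, map_mul]
    field_simp
  rw [e, rd_div _ _ (mul_ne_zero (RatFunc.denom_ne_zero x) (RatFunc.denom_ne_zero y))]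
  unfold rd
  simp only [derivative_add, derivative_mul, map_add, map_mul]
  field_simp
  ring

theorem rd_mul (x y : RatFunc F) : rd (x * y) = rd x * y + x * rd y := by
  have hx : io x.denom ≠ 0 := io_ne (RatFunc.denom_ne_zero x)
  have hy : io y.denom ≠ 0 := io_ne (RatFunc.denom_ne_zero y)
  have ex : x = io x.num / io x.denom := (RatFunc.num_div_denom x).symm
  have ey : y = io y.num / io y.denom := (RatFunc.num_div_denom y).symm
  have e : x * y = io (x.num * y.num) / io (x.denom * y.denom) := by
    conv_lhs => rw [ex, ey]
    rw [map_mul, map_mul]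
    field_simp
  rw [e, rd_div _ _ (mul_ne_zero (RatFunc.denom_ne_zero x) (RatFunc.denom_ne_zero y))]
  conv_rhs => rw [show rd x * y + x * rd y =
    rd x * (io y.num / io y.denom) + (io x.num / io x.denom) * rd y by rw [← ex, ← ey]]
  unfold rd
  simp only [derivative_mul, map_add, map_mul]
  field_simp
  ring

theorem rd_const (c : F) : rd (io (C c)) = 0 := by rw [rd_io, derivative_C, map_zero]

theorem rd_neg (x : RatFunc F) : rd (-x) = - rd x := by
  have e : -x = io (C (-1)) * x := by simp
  rw [e, rd_mul, rd_const]
  simp

theorem rd_sub (x y : RatFunc F) : rd (x - y) = rd x - rd y := by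
  rw [sub_eq_add_neg, rd_add, rd_neg, sub_eq_add_neg]

theorem rd_sq (x : RatFunc F) : rd (x ^ 2) = 2 * x * rd x := by
  rw [sq, rd_mul]; ring

theorem rd_cube (x : RatFunc F) : rd (x ^ 3) = 3 * x ^ 2 * rd x := by
  rw [pow_succ, rd_mul, rd_sq]; ring

end

end Pool.Agent.Q267.MW
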