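import Mathlib

set_option autoImplicit false

/-!
# Heights of pairs and triples of polynomials, and the addition-subtraction map
-/

namespace Pool.Agent.Q267.MW

open Polynomial

variable {F : Type*} [Field F]

/-- primitive triples -/
def Prim3 (u0 u1 u2 : F[X]) : Prop := ∃ a b c : F[X], a * u0 + b * u1 + c * u2 = 1

/-- the height of a triple -/
noncomputable def mh3 (u0 u1 u2 : F[X]) : ℕ := max u0.natDegree (max u1.natDegree u2.natDegree)

/-- the height of a pair -/
noncomputable def mh (n d : F[X]) : ℕ := max n.natDegree d.natDegree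

theorem prim3_of (u0 u1 u2 : F[X])
    (h : ∀ q : F[X], Prime q → q ∣ u0 → q ∣ u1 → q ∣ u2 → False) : Prim3 u0 u1 u2 := by
  classical
  set g := EuclideanDomain.gcd (EuclideanDomain.gcd u0 u1) u2 with hg
  have h1 : g ∣ EuclideanDomain.gcd u0 u1 := EuclideanDomain.gcd_dvd_left _ _
  have h2 : g ∣ u2 := EuclideanDomain.gcd_dvd_right _ _
  have h3 : g ∣ u0 := h1.trans (EuclideanDomain.gcd_dvd_left _ _)
  have h4 : g ∣ u1 := h1.trans (EuclideanDomain.gcd_dvd_right _ _)
  have hu : IsUnit g := by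
    by_contra hn
    by_cases h0 : g = 0
    · rw [h0, zero_dvd_iff] at h2 h3 h4
      exact h X prime_X (by rw [h3]; exact dvd_zero _) (by rw [h4]; exact dvd_zero _)
        (by rw [h2]; exact dvd_zero _)
    · obtain ⟨q, hq, hqg⟩ := WfDvdMonoid.exists_irreducible_factor hn h0
      exact h q hq.prime (hqg.trans h3) (hqg.trans h4) (hqg.trans h2)
  obtain ⟨w, hw⟩ := hu.exists_left_inv
  have e1 := EuclideanDomain.gcd_eq_gcd_ab (EuclideanDomain.gcd u0 u1) u2
  have e2 := EuclideanDomain.gcd_eq_gcd_ab u0 u1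
  rw [← hg] at e1
  refine ⟨w * (EuclideanDomain.gcdA (EuclideanDomain.gcd u0 u1) u2 * EuclideanDomain.gcdA u0 u1),
    w * (EuclideanDomain.gcdA (EuclideanDomain.gcd u0 u1) u2 * EuclideanDomain.gcdB u0 u1),
    w * EuclideanDomain.gcdB (EuclideanDomain.gcd u0 u1) u2, ?_⟩
  linear_combination hw - w * e1 - w * EuclideanDomain.gcdA (EuclideanDomain.gcd u0 u1) u2 * e2

theorem prim_pair {n1 d1 n2 d2 : F[X]} (h1 : IsCoprime n1 d1) (h2 : IsCoprime n2 d2) :
    Prim3 (d1 * d2) (n1 * d2 + n2 * d1) (n1 * n2) := by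
  apply prim3_of
  intro q hq q0 q1 q2
  have c1 : ¬ (q ∣ n1 ∧ q ∣ d1) := fun h => hq.not_isUnit (h1.isUnit_of_dvd' h.1 h.2)
  have c2 : ¬ (q ∣ n2 ∧ q ∣ d2) := fun h => hq.not_isUnit (h2.isUnit_of_dvd' h.1 h.2)
  rcases hq.dvd_or_dvd q0 with h | h
  · have hn1 : ¬ q ∣ n1 := fun h' => c1 ⟨h', h⟩
    have hn2 : q ∣ n2 := (hq.dvd_or_dvd q2).resolve_left hn1
    have hd2 : ¬ q ∣ d2 := fun h' => c2 ⟨hn2, h'⟩
    have : q ∣ n1 * d2 := by
      have := dvd_sub q1 (hn2.mul_right d1)
      rwa [add_sub_cancel_right] at this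
    rcases hq.dvd_or_dvd this with h' | h'
    · exact hn1 h'
    · exact hd2 h'
  · have hn2 : ¬ q ∣ n2 := fun h' => c2 ⟨h', h⟩
    have hn1 : q ∣ n1 := (hq.dvd_or_dvd q2).resolve_right hn2
    have hd1 : ¬ q ∣ d1 := fun h' => c1 ⟨hn1, h'⟩
    have : q ∣ n2 * d1 := by
      have := dvd_sub q1 (hn1.mul_right d2)
      rwa [add_sub_cancel_left] at this
    rcases hq.dvd_or_dvd this with h' | h'
    · exact hn2 h'
    · exact hd1 h'

theorem mh_coeff {n d : F[X]} (h : n ≠ 0 ∨ d ≠ 0) :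
    n.coeff (mh n d) ≠ 0 ∨ d.coeff (mh n d) ≠ 0 := by
  unfold mh
  rcases le_total n.natDegree d.natDegree with hle | hle
  · rw [max_eq_right hle]
    by_cases hd : d = 0
    · left
      have hn : n ≠ 0 := h.resolve_right (by simp [hd])
      have : n.natDegree = d.natDegree := by
        rw [hd, natDegree_zero] at hle ⊢
        omega
      rw [← this]
      exact leadingCoeff_ne_zero.mpr hn
    · right
      exact leadingCoeff_ne_zero.mpr hd
  · rw [max_eq_left hle]
    by_cases hn : n = 0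
    · right
      have hd : d ≠ 0 := h.resolve_left (by simp [hn])
      have : d.natDegree = n.natDegree := by
        rw [hn, natDegree_zero] at hle ⊢
        omega
      rw [← this]
      exact leadingCoeff_ne_zero.mpr hd
    · left
      exact leadingCoeff_ne_zero.mpr hn

theorem mh_pair {n1 d1 n2 d2 : F[X]} (h1 : n1 ≠ 0 ∨ d1 ≠ 0) (h2 : n2 ≠ 0 ∨ d2 ≠ 0) :
    mh3 (d1 * d2) (n1 * d2 + n2 * d1) (n1 * n2) = mh n1 d1 + mh n2 d2 := by
  have hn1 : n1.natDegree ≤ mh n1 d1 := le_max_left _ _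
  have hd1 : d1.natDegree ≤ mh n1 d1 := le_max_right _ _
  have hn2 : n2.natDegree ≤ mh n2 d2 := le_max_left _ _
  have hd2 : d2.natDegree ≤ mh n2 d2 := le_max_right _ _
  apply le_antisymm
  · unfold mh3
    refine max_le ?_ (max_le ?_ ?_)
    · exact natDegree_mul_le.trans (add_le_add hd1 hd2)
    · refine (natDegree_add_le _ _).trans (max_le ?_ ?_)
      · exact natDegree_mul_le.trans (add_le_add hn1 hd2)
      · rw [add_comm (mh n1 d1)]
        exact natDegree_mul_le.trans (add_le_add hn2 hd1)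
    · exact natDegree_mul_le.trans (add_le_add hn1 hn2)
  · by_contra hlt
    push Not at hlt
    have l0 : (d1 * d2).natDegree < mh n1 d1 + mh n2 d2 :=
      lt_of_le_of_lt (le_max_left _ _) hlt
    have l1 : (n1 * d2 + n2 * d1).natDegree < mh n1 d1 + mh n2 d2 :=
      lt_of_le_of_lt ((le_max_left _ _).trans (le_max_right _ _)) hlt
    have l2 : (n1 * n2).natDegree < mh n1 d1 + mh n2 d2 :=
      lt_of_le_of_lt ((le_max_right _ _).trans (le_max_right _ _)) hlt
    have e0 := coeff_eq_zero_of_natDegree_lt l0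
    have e1 := coeff_eq_zero_of_natDegree_lt l1
    have e2 := coeff_eq_zero_of_natDegree_lt l2
    rw [coeff_mul_add_eq_of_natDegree_le hd1 hd2] at e0
    rw [coeff_add, coeff_mul_add_eq_of_natDegree_le hn1 hd2, add_comm (mh n1 d1),
      coeff_mul_add_eq_of_natDegree_le hn2 hd1] at e1
    rw [coeff_mul_add_eq_of_natDegree_le hn1 hn2] at e2
    have c1 := mh_coeff h1
    have c2 := mh_coeff h2
    rcases mul_eq_zero.mp e0 with z | z
    · have a1 : n1.coeff (mh n1 d1) ≠ 0 := c1.resolve_right (by simp [z])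
      have a2 : n2.coeff (mh n2 d2) = 0 := (mul_eq_zero.mp e2).resolve_left a1
      have b2 : d2.coeff (mh n2 d2) ≠ 0 := c2.resolve_left (by simp [a2])
      rw [z, mul_zero, add_zero] at e1
      rcases mul_eq_zero.mp e1 with h | h
      · exact a1 h
      · exact b2 h
    · have a2 : n2.coeff (mh n2 d2) ≠ 0 := c2.resolve_right (by simp [z])
      have a1 : n1.coeff (mh n1 d1) = 0 := (mul_eq_zero.mp e2).resolve_right a2
      have b1 : d1.coeff (mh n1 d1) ≠ 0 := c1.resolve_left (by simp [a1])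
      rw [z, mul_zero, zero_add] at e1
      rcases mul_eq_zero.mp e1 with h | h
      · exact a2 h
      · exact b1 h

theorem prop_eq {u0 u1 u2 v0 v1 v2 : F[X]} (hu : Prim3 u0 u1 u2) (hv : Prim3 v0 v1 v2)
    (h01 : u0 * v1 = u1 * v0) (h02 : u0 * v2 = u2 * v0) (h12 : u1 * v2 = u2 * v1) :
    mh3 u0 u1 u2 = mh3 v0 v1 v2 := by
  obtain ⟨a, b, c, habc⟩ := hu
  obtain ⟨a', b', c', hv'⟩ := hv
  set w := a * v0 + b * v1 + c * v2 with hw
  set w' := a' * u0 + b' * u1 + c' * u2 with hw'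
  have e0 : v0 = u0 * w := by
    rw [hw]; linear_combination (-v0) * habc - b * h01 - c * h02
  have e1 : v1 = u1 * w := by
    rw [hw]; linear_combination (-v1) * habc + a * h01 - c * h12
  have e2 : v2 = u2 * w := by
    rw [hw]; linear_combination (-v2) * habc + a * h02 + b * h12
  have f0 : u0 = v0 * w' := by
    rw [hw']; linear_combination (-u0) * hv' + b' * h01 + c' * h02
  have f1 : u1 = v1 * w' := by
    rw [hw']; linear_combination (-u1) * hv' - a' * h01 + c' * h12
  have f2 : u2 = v2 * w' := by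
    rw [hw']; linear_combination (-u2) * hv' - a' * h02 - b' * h12
  have hww : w * w' = 1 := by
    have : w * w' = w * (a' * u0 + b' * u1 + c' * u2) := by rw [hw']
    rw [this]
    calc w * (a' * u0 + b' * u1 + c' * u2) = a' * (u0 * w) + b' * (u1 * w) + c' * (u2 * w) := by ring
      _ = 1 := by rw [← e0, ← e1, ← e2]; exact hv'
  have hwu : IsUnit w := IsUnit.of_mul_eq_one _ hww
  obtain ⟨r, hr, hrw⟩ := isUnit_iff.mp hwu
  have nd : ∀ u : F[X], (u * w).natDegree = u.natDegree := by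
    intro u
    rw [← hrw, mul_comm]
    exact natDegree_C_mul hr.ne_zero
  unfold mh3
  rw [e0, e1, e2, nd, nd, nd]

/-! ### The addition-subtraction map -/

/-- the three forms for `y² = x³ + a x + b` -/
noncomputable def G0 (u0 u1 u2 : F[X]) : F[X] := u1 ^ 2 - 4 * u0 * u2

noncomputable def G1 (a b : F) (u0 u1 u2 : F[X]) : F[X] :=
  2 * u1 * u2 + C (2 * a) * u0 * u1 + C (4 * b) * u0 ^ 2

noncomputable def G2 (a b : F) (u0 u1 u2 : F[X]) : F[X] :=
  (u2 - C a * u0) ^ 2 - C (4 * b) * u0 * u1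

theorem cert_s (a b : F) (u t s : F[X]) :
    C (-16 * (4 * a ^ 3 + 27 * b ^ 2)) * s ^ 4 =
      (C (-16 * (4 * a ^ 3 + 27 * b ^ 2)) * s * s + C (8 * a ^ 2 * b) * s * t
        + C (32 * a * b ^ 2) * s * u + C (-12 * a ^ 4 - 96 * a * b ^ 2) * t * t
        + C (-24 * a ^ 3 * b - 192 * b ^ 3) * t * u) * G2 a b u t s
      + (C (-4 * a ^ 2 * b) * s * s + C (-64 * a * b ^ 2 - 10 * a ^ 4) * s * t
        + C (-8 * a ^ 3 * b) * s * u + C (-24 * a ^ 3 * b - 192 * b ^ 3) * t * t
        + C (6 * a ^ 5 + 48 * a ^ 2 * b ^ 2) * t * u) * G1 a b u t s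
      + (C (32 * a ^ 4 + 224 * a * b ^ 2) * s * s + C (48 * a ^ 3 * b + 384 * b ^ 3) * s * t
        + C (-16 * a ^ 5 - 128 * a ^ 2 * b ^ 2) * s * u) * G0 u t s := by
  simp only [G0, G1, G2, C_add, C_sub, C_mul, C_pow, C_neg, map_ofNat]
  ring

theorem cert_t (a b : F) (u t s : F[X]) :
    C (-16 * (4 * a ^ 3 + 27 * b ^ 2)) * t ^ 4 =
      (C (384 * b) * s * t + C (64 * a ^ 2) * t * t + C (128 * a * b) * t * u) * G2 a b u t s
      + (C (-192 * b) * s * s + C (-32 * a ^ 2) * s * t + C (128 * a * b) * t * t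
        + C (-32 * a ^ 3) * t * u) * G1 a b u t s
      + (C (-256 * a * b) * s * t + C (-192 * b ^ 2) * s * u
        + C (-16 * (4 * a ^ 3 + 27 * b ^ 2)) * t * t) * G0 u t s := by
  simp only [G0, G1, G2, C_add, C_mul, C_pow, C_neg, map_ofNat]
  ring

theorem cert_u (a b : F) (u t s : F[X]) :
    C (-16 * (4 * a ^ 3 + 27 * b ^ 2)) * u ^ 4 =
      (C (-12) * t * t + C (-64 * a) * u * u) * G2 a b u t s
      + (C 6 * s * t + C (-10 * a) * t * u + C (-108 * b) * u * u) * G1 a b u t s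
      + (C (-16 * a) * s * u + C (-48 * b) * t * u + C (32 * a ^ 2) * u * u) * G0 u t s := by
  simp only [G0, G1, G2, C_add, C_mul, C_pow, C_neg, map_ofNat]
  ring

theorem qd (c : F) {p q : F[X]} {M : ℕ} (hp : p.natDegree ≤ M) (hq : q.natDegree ≤ M) :
    (C c * p * q).natDegree ≤ 2 * M := by
  refine natDegree_mul_le.trans ?_
  have : (C c * p).natDegree ≤ M := (natDegree_C_mul_le c p).trans hp
  omega

theorem md {p q : F[X]} {M N : ℕ} (hp : p.natDegree ≤ 2 * M) (hq : q.natDegree ≤ N) :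
    (p * q).natDegree ≤ 2 * M + N := natDegree_mul_le.trans (add_le_add hp hq)

theorem G_mh (a b : F) (h2 : (2 : F) ≠ 0) (hΔ : 4 * a ^ 3 + 27 * b ^ 2 ≠ 0) (u0 u1 u2 : F[X]) :
    mh3 (G0 u0 u1 u2) (G1 a b u0 u1 u2) (G2 a b u0 u1 u2) = 2 * mh3 u0 u1 u2 := by
  have hc : (-16 * (4 * a ^ 3 + 27 * b ^ 2) : F) ≠ 0 := by
    refine mul_ne_zero (neg_ne_zero.mpr ?_) hΔ
    have : (16 : F) = 2 ^ 4 := by norm_num
    rw [this]
    exact pow_ne_zero _ h2
  set M := mh3 u0 u1 u2 with hM
  have m0 : u0.natDegree ≤ M := le_max_left _ _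
  have m1 : u1.natDegree ≤ M := (le_max_left _ _).trans (le_max_right _ _)
  have m2 : u2.natDegree ≤ M := (le_max_right _ _).trans (le_max_right _ _)
  have hG0 : (G0 u0 u1 u2).natDegree ≤ 2 * M := by
    have e : G0 u0 u1 u2 = C 1 * u1 * u1 + C (-4) * u0 * u2 := by
      simp only [G0, C_neg, map_ofNat, map_one]; ring
    rw [e]
    exact natDegree_add_le_of_degree_le (qd _ m1 m1) (qd _ m0 m2)
  have hG1 : (G1 a b u0 u1 u2).natDegree ≤ 2 * M := by
    have e : G1 a b u0 u1 u2 = C 2 * u1 * u2 + C (2 * a) * u0 * u1 + C (4 * b) * u0 * u0 := by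
      simp only [G1, map_ofNat]; ring
    rw [e]
    exact natDegree_add_le_of_degree_le (natDegree_add_le_of_degree_le (qd _ m1 m2) (qd _ m0 m1))
      (qd _ m0 m0)
  have hG2 : (G2 a b u0 u1 u2).natDegree ≤ 2 * M := by
    have e : G2 a b u0 u1 u2 = C 1 * u2 * u2 + C (-2 * a) * u0 * u2 + C (a ^ 2) * u0 * u0
        + C (-4 * b) * u0 * u1 := by
      simp only [G2, C_neg, C_mul, C_pow, map_ofNat, map_one]; ring
    rw [e]
    exact natDegree_add_le_of_degree_le (natDegree_add_le_of_degree_le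
      (natDegree_add_le_of_degree_le (qd _ m2 m2) (qd _ m0 m2)) (qd _ m0 m0)) (qd _ m0 m1)
  apply le_antisymm
  · exact max_le hG0 (max_le hG1 hG2)
  · set N := mh3 (G0 u0 u1 u2) (G1 a b u0 u1 u2) (G2 a b u0 u1 u2) with hN
    have n0 : (G0 u0 u1 u2).natDegree ≤ N := le_max_left _ _
    have n1 : (G1 a b u0 u1 u2).natDegree ≤ N := (le_max_left _ _).trans (le_max_right _ _)
    have n2 : (G2 a b u0 u1 u2).natDegree ≤ N := (le_max_right _ _).trans (le_max_right _ _)
    have k0 : 4 * u0.natDegree ≤ 2 * M + N := by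
      rw [← natDegree_pow, ← natDegree_C_mul hc, cert_u a b u0 u1 u2]
      refine natDegree_add_le_of_degree_le (natDegree_add_le_of_degree_le
        (md ?_ n2) (md ?_ n1)) (md ?_ n0)
      · exact natDegree_add_le_of_degree_le (qd _ m1 m1) (qd _ m0 m0)
      · exact natDegree_add_le_of_degree_le (natDegree_add_le_of_degree_le (qd _ m2 m1)
          (qd _ m1 m0)) (qd _ m0 m0)
      · exact natDegree_add_le_of_degree_le (natDegree_add_le_of_degree_le (qd _ m2 m0)
          (qd _ m1 m0)) (qd _ m0 m0)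
    have k1 : 4 * u1.natDegree ≤ 2 * M + N := by
      rw [← natDegree_pow, ← natDegree_C_mul hc, cert_t a b u0 u1 u2]
      refine natDegree_add_le_of_degree_le (natDegree_add_le_of_degree_le
        (md ?_ n2) (md ?_ n1)) (md ?_ n0)
      · exact natDegree_add_le_of_degree_le (natDegree_add_le_of_degree_le (qd _ m2 m1)
          (qd _ m1 m1)) (qd _ m1 m0)
      · exact natDegree_add_le_of_degree_le (natDegree_add_le_of_degree_le
          (natDegree_add_le_of_degree_le (qd _ m2 m2) (qd _ m2 m1)) (qd _ m1 m1)) (qd _ m1 m0)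
      · exact natDegree_add_le_of_degree_le (natDegree_add_le_of_degree_le (qd _ m2 m1)
          (qd _ m2 m0)) (qd _ m1 m1)
    have k2 : 4 * u2.natDegree ≤ 2 * M + N := by
      rw [← natDegree_pow, ← natDegree_C_mul hc, cert_s a b u0 u1 u2]
      refine natDegree_add_le_of_degree_le (natDegree_add_le_of_degree_le
        (md ?_ n2) (md ?_ n1)) (md ?_ n0)
      · exact natDegree_add_le_of_degree_le (natDegree_add_le_of_degree_le
          (natDegree_add_le_of_degree_le (natDegree_add_le_of_degree_le (qd _ m2 m2)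
          (qd _ m2 m1)) (qd _ m2 m0)) (qd _ m1 m1)) (qd _ m1 m0)
      · exact natDegree_add_le_of_degree_le (natDegree_add_le_of_degree_le
          (natDegree_add_le_of_degree_le (natDegree_add_le_of_degree_le (qd _ m2 m2)
          (qd _ m2 m1)) (qd _ m2 m0)) (qd _ m1 m1)) (qd _ m1 m0)
      · exact natDegree_add_le_of_degree_le (natDegree_add_le_of_degree_le (qd _ m2 m2)
          (qd _ m2 m1)) (qd _ m2 m0)
    have hM4 : 4 * M ≤ 2 * M + N := by
      rw [hM, mh3]
      rcases le_total u0.natDegree (max u1.natDegree u2.natDegree) with h | h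
      · rw [max_eq_right h]
        rcases le_total u1.natDegree u2.natDegree with h' | h'
        · rw [max_eq_right h']
          calc 4 * u2.natDegree ≤ 2 * M + N := k2
            _ = _ := by rw [hM, mh3, max_eq_right h, max_eq_right h']
        · rw [max_eq_left h']
          calc 4 * u1.natDegree ≤ 2 * M + N := k1
            _ = _ := by rw [hM, mh3, max_eq_right h, max_eq_left h']
      · rw [max_eq_left h]
        calc 4 * u0.natDegree ≤ 2 * M + N := k0
          _ = _ := by rw [hM, mh3, max_eq_left h]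
    omega

theorem G_prim (a b : F) (h2 : (2 : F) ≠ 0) (hΔ : 4 * a ^ 3 + 27 * b ^ 2 ≠ 0) {u0 u1 u2 : F[X]}
    (hu : Prim3 u0 u1 u2) : Prim3 (G0 u0 u1 u2) (G1 a b u0 u1 u2) (G2 a b u0 u1 u2) := by
  have hc : (-16 * (4 * a ^ 3 + 27 * b ^ 2) : F) ≠ 0 := by
    refine mul_ne_zero (neg_ne_zero.mpr ?_) hΔ
    have : (16 : F) = 2 ^ 4 := by norm_num
    rw [this]
    exact pow_ne_zero _ h2
  apply prim3_of
  intro q hq q0 q1 q2
  have key : ∀ v : F[X], q ∣ C (-16 * (4 * a ^ 3 + 27 * b ^ 2)) * v ^ 4 → q ∣ v := by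
    intro v hv
    rcases hq.dvd_or_dvd hv with h | h
    · exact absurd (isUnit_of_dvd_unit h (isUnit_C.mpr (isUnit_iff_ne_zero.mpr hc))) hq.not_isUnit
    · exact hq.dvd_of_dvd_pow h
  have d0 : q ∣ u0 := key u0 (by
    rw [cert_u a b u0 u1 u2]
    exact dvd_add (dvd_add (q2.mul_left _) (q1.mul_left _)) (q0.mul_left _))
  have d1 : q ∣ u1 := key u1 (by
    rw [cert_t a b u0 u1 u2]
    exact dvd_add (dvd_add (q2.mul_left _) (q1.mul_left _)) (q0.mul_left _))
  have d2 : q ∣ u2 := key u2 (by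
    rw [cert_s a b u0 u1 u2]
    exact dvd_add (dvd_add (q2.mul_left _) (q1.mul_left _)) (q0.mul_left _))
  obtain ⟨r, s, t, h⟩ := hu
  apply hq.not_isUnit
  apply isUnit_of_dvd_one
  rw [← h]
  exact dvd_add (dvd_add (d0.mul_left _) (d1.mul_left _)) (d2.mul_left _)

end Pool.Agent.Q267.MW
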