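import Pool.Agent.Q267.MW.Good

set_option autoImplicit false

/-!
# Points of degree `p` which kill the differential
-/

namespace Pool.Agent.Q267.MW

open Polynomial WeierstrassCurve WeierstrassCurve.Affine WithZero

noncomputable section

section gen

variable {F : Type*} [Field F]

theorem TW_Δ {a b : F} (h2 : (2 : F) ≠ 0) (hΔ : 4 * a ^ 3 + 27 * b ^ 2 ≠ 0) :
    WeierstrassCurve.Δ (TW a b) ≠ 0 := by
  have hf := fk_ne a b
  have h2K := two_ne_K h2
  have e : WeierstrassCurve.Δ (TW a b) =
      -(2 ^ 4 * io (fp a b) ^ 6 * io (C (4 * a ^ 3 + 27 * b ^ 2))) := by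
    simp only [WeierstrassCurve.Δ, WeierstrassCurve.b₂, WeierstrassCurve.b₄, WeierstrassCurve.b₆,
      WeierstrassCurve.b₈, C_add, C_mul, C_pow, map_add, map_mul, map_pow, map_ofNat]
    ring
  rw [e]
  refine neg_ne_zero.mpr (mul_ne_zero (mul_ne_zero (pow_ne_zero _ h2K) (pow_ne_zero _ hf)) ?_)
  exact io_ne (C_ne_zero.mpr hΔ)

theorem pt_ns {a b : F} (h2 : (2 : F) ≠ 0) (hΔ : 4 * a ^ 3 + 27 * b ^ 2 ≠ 0) {X Y : RatFunc F}
    (h : io (fp a b) * Y ^ 2 = X ^ 3 + io (C a) * X + io (C b)) :
    (TW a b).Nonsingular (io (fp a b) * X) (io (fp a b) ^ 2 * Y) := by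
  rw [← equation_iff_nonsingular_of_Δ_ne_zero (TW_Δ h2 hΔ), equation_iff]
  simp only [zero_mul, add_zero]
  linear_combination (io (fp a b)) ^ 3 * h

/-- the point with given reduced coordinates -/
def pt {a b : F} (h2 : (2 : F) ≠ 0) (hΔ : 4 * a ^ 3 + 27 * b ^ 2 ≠ 0) {X Y : RatFunc F}
    (h : io (fp a b) * Y ^ 2 = X ^ 3 + io (C a) * X + io (C b)) : (TW a b).Point :=
  Point.some _ _ (pt_ns h2 hΔ h)

theorem pt_X {a b : F} (X : RatFunc F) : io (fp a b) * X / io (fp a b) = X := by
  have hf := fk_ne a b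
  field_simp

theorem pt_Y {a b : F} (Y : RatFunc F) : io (fp a b) ^ 2 * Y / io (fp a b) ^ 2 = Y := by
  have hf := fk_ne a b
  field_simp

/-- the generic point is a point -/
theorem P0_eq (a b : F) : io (fp a b) * (1 : RatFunc F) ^ 2 =
    (io X) ^ 3 + io (C a) * io X + io (C b) := by
  unfold fp
  rw [map_add, map_add, map_mul, map_pow]
  ring

theorem bez (a b : F) : (C (-18 * a) * X + C (27 * b)) * fp a b +
    (C (6 * a) * X ^ 2 - C (9 * b) * X + C (4 * a ^ 2)) * derivative (fp a b) =
      C (4 * a ^ 3 + 27 * b ^ 2) := by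
  unfold fp
  simp only [derivative_add, derivative_mul, derivative_C, derivative_X, derivative_X_pow, C_add,
    C_mul, C_pow, C_neg, map_ofNat]
  push_cast
  simp only [map_ofNat]
  ring

theorem fp_sep {a b : F} (hΔ : 4 * a ^ 3 + 27 * b ^ 2 ≠ 0) : (fp a b).Separable := by
  rw [separable_def']
  have hb := bez a b
  have hc : C (4 * a ^ 3 + 27 * b ^ 2)⁻¹ * C (4 * a ^ 3 + 27 * b ^ 2) = (1 : F[X]) := by
    rw [← C_mul, inv_mul_cancel₀ hΔ, C_1]
  refine ⟨C (4 * a ^ 3 + 27 * b ^ 2)⁻¹ * (C (-18 * a) * X + C (27 * b)),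
    C (4 * a ^ 3 + 27 * b ^ 2)⁻¹ * (C (6 * a) * X ^ 2 - C (9 * b) * X + C (4 * a ^ 2)), ?_⟩
  rw [← hc, ← hb]
  ring

theorem fp_deg (a b : F) : (fp a b).natDegree = 3 := by
  unfold fp
  compute_degree!

theorem vi_io {q : F[X]} (hq : q ≠ 0) : vi F (io q) = exp (q.natDegree : ℤ) := by
  classical
  unfold vi
  have := @RatFunc.inftyValuation.polynomial F _ (Classical.decEq _) q hq
  exact this

theorem deg_of_vi {x : RatFunc F} (h : 1 < vi F x) : x.denom.natDegree < x.num.natDegree := by
  have hd : x.denom ≠ 0 := RatFunc.denom_ne_zero x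
  have hx : x ≠ 0 := by
    rintro rfl
    rw [map_zero] at h
    exact absurd h (not_lt.mpr zero_le_one)
  have hn : x.num ≠ 0 := RatFunc.num_ne_zero hx
  have e : x * io x.denom = io x.num := by
    have := RatFunc.num_div_denom x
    rw [div_eq_iff (io_ne hd)] at this
    exact this.symm
  have e2 := congrArg (vi F) e
  rw [map_mul, vi_io hd, vi_io hn] at e2
  have h3 : exp (x.denom.natDegree : ℤ) < exp (x.num.natDegree : ℤ) := by
    rw [← e2]
    exact lt_mul_of_one_lt_left (by simp) h
  rw [exp_lt_exp] at h3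
  exact_mod_cast h3

end gen

variable {p : ℕ} [hp : Fact p.Prime]

theorem insep_poly {x : RatFunc (ZMod p)} (hd : rd x = 0) (hv : 1 < vi (ZMod p) x)
    (hh : mh x.num x.denom = p) : ∃ c e : ZMod p, c ≠ 0 ∧ x = io (C c * X ^ p + C e) := by
  have hd0 : x.denom ≠ 0 := RatFunc.denom_ne_zero x
  have hlt := deg_of_vi hv
  have hnum : derivative x.num * x.denom = x.num * derivative x.denom := by
    unfold rd at hd
    rw [div_eq_zero_iff] at hd
    have := hd.resolve_right (pow_ne_zero 2 (io_ne hd0))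
    rw [← map_mul, ← map_mul, ← map_sub] at this
    rw [← map_zero (io (F := ZMod p))] at this
    exact sub_eq_zero.mp (io_inj this)
  have hcop := RatFunc.isCoprime_num_denom x
  have hdd : x.denom ∣ derivative x.denom := by
    have : x.denom ∣ x.num * derivative x.denom := ⟨derivative x.num, by rw [← hnum]; ring⟩
    exact hcop.symm.dvd_of_dvd_mul_left this
  have hd' : derivative x.denom = 0 := by
    by_contra hne
    have h1 := natDegree_le_of_dvd hdd hne
    have h2 : (derivative x.denom).natDegree < x.denom.natDegree := by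
      apply natDegree_derivative_lt
      intro h0
      rw [eq_C_of_natDegree_eq_zero h0, derivative_C] at hne
      exact hne rfl
    omega
  have hn' : derivative x.num = 0 := by
    rw [hd', mul_zero] at hnum
    exact (mul_eq_zero.mp hnum).resolve_right hd0
  have hp0 : p ≠ 0 := hp.out.ne_zero
  have en := expand_contract p hn' hp0
  have ed := expand_contract p hd' hp0
  have dn : x.num.natDegree = (contract p x.num).natDegree * p := by
    conv_lhs => rw [← en]
    rw [natDegree_expand]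
  have dd : x.denom.natDegree = (contract p x.denom).natDegree * p := by
    conv_lhs => rw [← ed]
    rw [natDegree_expand]
  have hmax : x.num.natDegree = p := by
    unfold mh at hh
    rw [max_eq_left hlt.le] at hh
    exact hh
  have hppos : 0 < p := hp.out.pos
  have dn1 : (contract p x.num).natDegree = 1 := by
    rw [hmax] at dn
    have : 1 * p = (contract p x.num).natDegree * p := by rw [one_mul]; exact dn
    exact (Nat.eq_of_mul_eq_mul_right hppos this).symm
  have dd0 : (contract p x.denom).natDegree = 0 := by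
    rw [hmax] at hlt
    rw [dd] at hlt
    by_contra hne
    have : 1 * p ≤ (contract p x.denom).natDegree * p :=
      Nat.mul_le_mul_right p (Nat.one_le_iff_ne_zero.mpr hne)
    omega
  have hden : x.denom = 1 := by
    have hmon := RatFunc.monic_denom x
    have : x.denom.natDegree = 0 := by rw [dd, dd0, zero_mul]
    exact hmon.natDegree_eq_zero.mp this
  have hcn : contract p x.num = C ((contract p x.num).coeff 1) * X + C ((contract p x.num).coeff 0) :=
    eq_X_add_C_of_natDegree_le_one dn1.le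
  refine ⟨(contract p x.num).coeff 1, (contract p x.num).coeff 0, ?_, ?_⟩
  · have : (contract p x.num).leadingCoeff ≠ 0 := by
      rw [Ne, leadingCoeff_eq_zero]
      intro h0
      rw [h0, natDegree_zero] at dn1
      exact absurd dn1 (by norm_num)
    rw [leadingCoeff, dn1] at this
    exact this
  · have e1 : x = io x.num := by
      have := RatFunc.num_div_denom x
      rw [hden, map_one, div_one] at this
      exact this.symm
    have e2 : x.num = C ((contract p x.num).coeff 1) * X ^ p + C ((contract p x.num).coeff 0) := by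
      conv_lhs => rw [← en, hcn]
      rw [map_add, map_mul, expand_C, expand_C, expand_X]
    conv_lhs => rw [e1, e2]

theorem frob_poly (c e : ZMod p) : C c * X ^ p + C e = (C c * X + C e : (ZMod p)[X]) ^ p := by
  rw [add_pow_char, mul_pow, ← C_pow, ← C_pow, ZMod.pow_card, ZMod.pow_card]

theorem fp_frob (a b : ZMod p) : (fp a b) ^ p = (X ^ p) ^ 3 + C a * X ^ p + C b := by
  unfold fp
  rw [add_pow_char, add_pow_char, mul_pow, ← C_pow, ← C_pow, ZMod.pow_card, ZMod.pow_card,
    ← pow_mul, ← pow_mul, mul_comm 3 p]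

/-- the second coordinate of an inseparable point -/
theorem insep_Y {a b : ZMod p} (h3 : (3 : ZMod p) ≠ 0) (ha : a ≠ 0) (hb : b ≠ 0)
    (hΔ : 4 * a ^ 3 + 27 * b ^ 2 ≠ 0) {m : ℕ} (hm : p = 2 * m + 1) {c e : ZMod p} (hc : c ≠ 0)
    {Y : RatFunc (ZMod p)}
    (h : io (fp a b) * Y ^ 2 = (io (C c * X ^ p + C e)) ^ 3 + io (C a) * io (C c * X ^ p + C e)
      + io (C b)) :
    c = 1 ∧ e = 0 ∧ (Y = io (fp a b ^ m) ∨ Y = - io (fp a b ^ m)) := by
  have hd0 : Y.denom ≠ 0 := RatFunc.denom_ne_zero Y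
  have hf0 := fp_ne a b
  have hsf : Squarefree (fp a b) := (fp_sep hΔ).squarefree
  set g : (ZMod p)[X] := (C c * X ^ p + C e) ^ 3 + C a * (C c * X ^ p + C e) + C b with hg
  have hY : Y = io Y.num / io Y.denom := (RatFunc.num_div_denom Y).symm
  have e1 : fp a b * Y.num ^ 2 = g * Y.denom ^ 2 := by
    apply io_inj
    have hdk : io Y.denom ≠ 0 := io_ne hd0
    rw [hY] at h
    rw [map_mul, map_mul, map_pow, map_pow]
    have hgk : io g = (io (C c * X ^ p + C e)) ^ 3 + io (C a) * io (C c * X ^ p + C e)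
      + io (C b) := by rw [hg, map_add, map_add, map_mul, map_pow]
    rw [hgk, ← h]
    field_simp
  have hcop := RatFunc.isCoprime_num_denom Y
  have hdd : Y.denom * Y.denom ∣ fp a b := by
    have : Y.denom * Y.denom ∣ fp a b * Y.num ^ 2 := ⟨g, by rw [e1]; ring⟩
    refine IsCoprime.dvd_of_dvd_mul_right ?_ this
    rw [← sq]
    exact (hcop.symm.pow)
  have hdu := hsf Y.denom hdd
  have hd1 : Y.denom = 1 := (RatFunc.monic_denom Y).eq_one_of_isUnit hdu
  rw [hd1, one_pow, mul_one] at e1
  have hgp : g = ((C c * X + C e) ^ 3 + C a * (C c * X + C e) + C b) ^ p := by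
    rw [hg, frob_poly, add_pow_char (p := p) ((C c * X + C e) ^ 3 + C a * (C c * X + C e)) (C b),
      add_pow_char (p := p) ((C c * X + C e) ^ 3) (C a * (C c * X + C e)), mul_pow (C a), ← C_pow,
      ← C_pow, ZMod.pow_card, ZMod.pow_card, ← pow_mul, ← pow_mul, mul_comm 3 p]
  set k : (ZMod p)[X] := (C c * X + C e) ^ 3 + C a * (C c * X + C e) + C b with hk
  have hfk : fp a b ∣ k := by
    have : fp a b ∣ k ^ p := ⟨Y.num ^ 2, by rw [← hgp, e1]⟩
    exact (hsf.dvd_pow_iff_dvd hp.out.ne_zero).mp this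
  have hkexp : k = C (c ^ 3) * X ^ 3 + C (3 * c ^ 2 * e) * X ^ 2 + C (3 * c * e ^ 2 + a * c) * X
      + C (e ^ 3 + a * e + b) := by
    rw [hk]
    simp only [C_add, C_mul, C_pow, map_ofNat]
    ring
  obtain ⟨w, hw⟩ := hfk
  have hkdeg : k.natDegree ≤ 3 := by
    rw [hkexp]
    compute_degree
  have hwc : w = C (c ^ 3) := by
    have hk3 : k.coeff 3 = c ^ 3 := by
      rw [hkexp]
      simp only [coeff_add, coeff_C_mul, coeff_X_pow, coeff_C, coeff_X]
      norm_num
    have hk0 : k ≠ 0 := by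
      intro h0
      rw [h0, coeff_zero] at hk3
      exact pow_ne_zero 3 hc hk3.symm
    have hw0 : w ≠ 0 := by
      rintro rfl
      rw [mul_zero] at hw
      exact hk0 hw
    have hdeg : k.natDegree = 3 + w.natDegree := by
      rw [hw, natDegree_mul hf0 hw0, fp_deg]
    have hwd : w.natDegree = 0 := by omega
    rw [eq_C_of_natDegree_eq_zero hwd] at hw ⊢
    congr 1
    rw [← hk3, hw, coeff_mul_C]
    unfold fp
    simp only [coeff_add, coeff_C_mul, coeff_X_pow, coeff_C, coeff_X]
    norm_num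
  rw [hwc] at hw
  have hcoef : ∀ i, k.coeff i = (fp a b * C (c ^ 3)).coeff i := fun i => by rw [hw]
  have c2 := hcoef 2
  have c1 := hcoef 1
  have c0 := hcoef 0
  rw [hkexp, coeff_mul_C] at c2 c1 c0
  unfold fp at c2 c1 c0
  simp only [coeff_add, coeff_C_mul, coeff_X_pow, coeff_C, coeff_X] at c2 c1 c0
  norm_num at c2 c1 c0
  have he : e = 0 := by
    rcases c2 with h | h
    · rcases h with h | h
      · exact absurd h h3
      · exact absurd h hc
    · exact h
  subst he
  have hc3 : c ^ 3 = 1 := by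
    apply mul_left_cancel₀ hb
    linear_combination -c0
  have hc1 : c = 1 := by
    apply mul_left_cancel₀ ha
    linear_combination c1 + a * hc3
  subst hc1
  refine ⟨rfl, rfl, ?_⟩
  have e2 : fp a b * Y.num ^ 2 = fp a b * (fp a b ^ m) ^ 2 := by
    rw [e1, hg, C_0, C_1, one_mul, add_zero, ← fp_frob, ← pow_mul, ← pow_succ', mul_comm m 2, ← hm]
  have e3 := mul_left_cancel₀ hf0 e2
  have hY1 : Y = io Y.num := by
    rw [hd1, map_one, div_one] at hY
    exact hY
  rcases sq_eq_sq_iff_eq_or_eq_neg.mp e3 with h | h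
  · left
    rw [hY1, h]
  · right
    rw [hY1, h, map_neg]

/-- equation of the Frobenius point -/
theorem Q_eq {a b : ZMod p} {m : ℕ} (hm : p = 2 * m + 1) :
    io (fp a b) * (io (fp a b ^ m)) ^ 2 = (io (X ^ p)) ^ 3 + io (C a) * io (X ^ p) + io (C b) := by
  rw [← map_pow, ← map_mul, ← map_pow, ← map_mul, ← map_add, ← map_add, ← fp_frob, ← pow_mul,
    ← pow_succ', mul_comm m 2, ← hm]

/-- the Frobenius point -/
def FQ {a b : ZMod p} (h2 : (2 : ZMod p) ≠ 0) (hΔ : 4 * a ^ 3 + 27 * b ^ 2 ≠ 0) {m : ℕ}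
    (hm : p = 2 * m + 1) : (TW a b).Point := pt h2 hΔ (Q_eq hm)

theorem insep_main {a b : ZMod p} (h2 : (2 : ZMod p) ≠ 0) (h3 : (3 : ZMod p) ≠ 0) (ha : a ≠ 0)
    (hb : b ≠ 0) (hΔ : 4 * a ^ 3 + 27 * b ^ 2 ≠ 0) {m : ℕ} (hm : p = 2 * m + 1)
    (B : (TW a b).Point) (hg : Good 0 B) (hh : hgt B = p) :
    B = FQ h2 hΔ hm ∨ B = - FQ h2 hΔ hm := by
  cases B with
  | zero =>
    have := hgt_zero (a := a) (b := b)
    rw [show (Point.zero : (TW a b).Point) = 0 from rfl, this] at hh
    exact absurd hh.symm hp.out.ne_zero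
  | some x y h =>
    obtain ⟨h1, hd⟩ := (good_some h).mp hg
    rw [C_0, map_zero, zero_mul] at hd
    have hh' : mh (x / io (fp a b)).num (x / io (fp a b)).denom = p := hh
    obtain ⟨c, e, hc, hx⟩ := insep_poly hd h1 hh'
    have he := tw_eqn h
    rw [hx] at he
    obtain ⟨h1', h0, hY⟩ := insep_Y h3 ha hb hΔ hm hc he
    subst h1'
    subst h0
    rw [C_0, C_1, one_mul, add_zero] at hx
    have hf := fk_ne a b
    have hxx : x = io (fp a b) * io (X ^ p) := by
      rw [← hx]; field_simp
    rcases hY with hY | hY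
    · left
      have hyy : y = io (fp a b) ^ 2 * io (fp a b ^ m) := by
        rw [← hY]; field_simp
      subst hxx
      subst hyy
      rfl
    · right
      have hyy : y = -(io (fp a b) ^ 2 * io (fp a b ^ m)) := by
        have : y = io (fp a b) ^ 2 * (y / io (fp a b) ^ 2) := by field_simp
        rw [this, hY]; ring
      subst hxx
      subst hyy
      unfold FQ pt
      rw [Point.neg_some, Point.some.injEq]
      refine ⟨rfl, ?_⟩
      rw [negY_SW]

end

end Pool.Agent.Q267.MW
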