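import Mathlib

set_option autoImplicit false

/-!
# Quadratic functions from the parallelogram law
-/

namespace Pool.Agent.Q267.MW

variable {G : Type*} [AddCommGroup G] (h : G → ℤ)

theorem qf_zero (hp : ∀ P Q, h (P + Q) + h (P - Q) = 2 * (h P + h Q)) : h 0 = 0 := by
  have := hp 0 0
  rw [add_zero, sub_zero] at this
  omega

theorem qf_line (hp : ∀ P Q, h (P + Q) + h (P - Q) = 2 * (h P + h Q)) (P R : G) (m : ℤ) :
    h (m • P + R) = m ^ 2 * h P + m * (h (P + R) - h P - h R) + h R := by
  have step : ∀ m : ℤ, h ((m + 1) • P + R) + h ((m - 1) • P + R) = 2 * (h (m • P + R) + h P) := by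
    intro m
    have := hp (m • P + R) P
    rw [← this]
    congr 2
    · rw [add_smul, one_smul]; abel
    · rw [sub_smul, one_smul]; abel
  have key : ∀ n : ℕ, (h ((n : ℤ) • P + R) = (n : ℤ) ^ 2 * h P + n * (h (P + R) - h P - h R) + h R) ∧
      (h (((n : ℤ) + 1) • P + R) =
        ((n : ℤ) + 1) ^ 2 * h P + ((n : ℤ) + 1) * (h (P + R) - h P - h R) + h R) := by
    intro n
    induction n with
    | zero =>
      constructor
      · simp
      · simp
        ring
    | succ n ih =>
      refine ⟨by push_cast; exact ih.2, ?_⟩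
      have := step ((n : ℤ) + 1)
      rw [add_sub_cancel_right, ih.1, ih.2] at this
      push_cast
      linear_combination this
  have key' : ∀ n : ℕ, (h ((-(n : ℤ)) • P + R) = (-(n : ℤ)) ^ 2 * h P + (-(n : ℤ)) * (h (P + R) - h P - h R) + h R) ∧
      (h ((-(n : ℤ) + 1) • P + R) =
        (-(n : ℤ) + 1) ^ 2 * h P + (-(n : ℤ) + 1) * (h (P + R) - h P - h R) + h R) := by
    intro n
    induction n with
    | zero =>
      constructor
      · simp
      · simp
        ring
    | succ n ih =>
      have e1 : (-((n + 1 : ℕ) : ℤ)) = -(n : ℤ) - 1 := by push_cast; ring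
      have e2 : (-((n + 1 : ℕ) : ℤ)) + 1 = -(n : ℤ) := by push_cast; ring
      have := step (-(n : ℤ))
      rw [ih.1, ih.2] at this
      refine ⟨?_, ?_⟩
      · rw [e1]
        linear_combination this
      · rw [e2]
        exact ih.1
  rcases Int.eq_nat_or_neg m with ⟨n, rfl | rfl⟩
  · exact (key n).1
  · exact (key' n).1

theorem qf (hp : ∀ P Q, h (P + Q) + h (P - Q) = 2 * (h P + h Q)) (P Q : G) (m n : ℤ) :
    h (m • P + n • Q) = m ^ 2 * h P + m * n * (h (P + Q) - h P - h Q) + n ^ 2 * h Q := by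
  have h0 := qf_zero h hp
  have e1 := qf_line h hp P (n • Q) m
  have e2 := qf_line h hp Q P n
  have e3 := qf_line h hp Q 0 n
  rw [add_zero, add_zero, h0] at e3
  rw [e1, add_comm P (n • Q), e2, e3, add_comm Q P]
  ring

end Pool.Agent.Q267.MW
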