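import Pool.Agent.Q267.MW.Spec

set_option autoImplicit false

/-!
# The place at a rational point and the reduction of sums of points
-/

namespace Pool.Agent.Q267.MW

open Polynomial WeierstrassCurve WeierstrassCurve.Affine WithZero IsDedekindDomain

variable {F : Type*} [Field F]

noncomputable section

/-- the place of the rational function field at a point -/
def plc (e : F) : HeightOneSpectrum F[X] where
  asIdeal := Ideal.span {X - C e}
  isPrime := by
    rw [Ideal.span_singleton_prime (X_sub_C_ne_zero e)]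
    exact prime_X_sub_C e
  ne_bot := by
    rw [Ne, Ideal.span_singleton_eq_bot]
    exact X_sub_C_ne_zero e

/-- the valuation at a point -/
def vx (e : F) : Valuation (RatFunc F) ℤᵐ⁰ := (plc e).valuation (RatFunc F)

theorem vx_le (e : F) (q : F[X]) : vx e (io q) ≤ 1 := (plc e).valuation_le_one q

theorem vx_lt (e : F) (q : F[X]) : vx e (io q) < 1 ↔ q.eval e = 0 := by
  have h := (plc e).valuation_lt_one_iff_mem (K := RatFunc F) q
  unfold vx
  refine h.trans ?_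
  show q ∈ Ideal.span {X - C e} ↔ _
  rw [Ideal.mem_span_singleton, dvd_iff_isRoot, IsRoot.def]

theorem vx_eq (e : F) {q : F[X]} (h : q.eval e ≠ 0) : vx e (io q) = 1 :=
  le_antisymm (vx_le e q) (not_lt.mp fun h' => h ((vx_lt e q).mp h'))

theorem vx_div_le (e : F) (n : F[X]) {d : F[X]} (h : d.eval e ≠ 0) : vx e (io n / io d) ≤ 1 := by
  rw [map_div₀, vx_eq e h, div_one]
  exact vx_le e n

theorem vx_div_lt (e : F) {n d : F[X]} (hn : n.eval e = 0) (h : d.eval e ≠ 0) :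
    vx e (io n / io d) < 1 := by
  rw [map_div₀, vx_eq e h, div_one]
  exact (vx_lt e n).mpr hn

theorem vx_div_eq (e : F) {n d : F[X]} (hn : n.eval e ≠ 0) (h : d.eval e ≠ 0) :
    vx e (io n / io d) = 1 := by
  rw [map_div₀, vx_eq e h, vx_eq e hn, div_one]

theorem vx_C (e : F) {c : F} (h : c ≠ 0) : vx e (io (C c)) = 1 := vx_eq e (by rwa [eval_C])

theorem vx_C_le (e : F) (c : F) : vx e (io (C c)) ≤ 1 := vx_le e (C c)

section sums

variable (v : Valuation (RatFunc F) ℤᵐ⁰)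

open Classical in
theorem ker_sum {a b : F} (h2 : (2 : F) ≠ 0) (hΔ : 4 * a ^ 3 + 27 * b ^ 2 ≠ 0)
    {X1 Y1 X2 Y2 : RatFunc F}
    (h1 : io (fp a b) * Y1 ^ 2 = X1 ^ 3 + io (C a) * X1 + io (C b))
    (h2' : io (fp a b) * Y2 ^ 2 = X2 ^ 3 + io (C a) * X2 + io (C b)) (hx : X1 ≠ X2)
    (hf : v (io (fp a b)) = 1) (hX1 : v X1 ≤ 1) (hX2 : v X2 ≤ 1) (hd : v (X1 - X2) < 1)
    (hY : v (Y1 - Y2) = 1) : Ker v (pt h2 hΔ h1 + pt h2 hΔ h2') := by
  have hfk := fk_ne a b
  have hxx : io (fp a b) * X1 ≠ io (fp a b) * X2 := fun h => hx (mul_left_cancel₀ hfk h)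
  unfold pt
  rw [Point.add_of_X_ne hxx, ker_some, addX_eq hx]
  have hd0 : v (X1 - X2) ≠ 0 := (Valuation.ne_zero_iff v).mpr (sub_ne_zero.mpr hx)
  have e1 : 1 < v (io (fp a b) * ((Y1 - Y2) / (X1 - X2)) ^ 2) := by
    rw [map_mul, hf, one_mul, map_pow, map_div₀, hY, one_div]
    exact one_lt_pow₀ ((one_lt_inv₀ (zero_lt_iff.mpr hd0)).mpr hd) (by norm_num)
  rw [sub_sub, v.map_sub_eq_of_lt_left]
  · exact e1
  · exact lt_of_le_of_lt (v.map_add_le hX1 hX2) e1

open Classical in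
theorem ker_dbl {a b : F} (h2 : (2 : F) ≠ 0) (hΔ : 4 * a ^ 3 + 27 * b ^ 2 ≠ 0)
    {X1 Y1 : RatFunc F}
    (h1 : io (fp a b) * Y1 ^ 2 = X1 ^ 3 + io (C a) * X1 + io (C b)) (hY : Y1 ≠ 0) :
    Ker v (pt h2 hΔ h1 + pt h2 hΔ h1) ↔
      1 < v ((3 * X1 ^ 2 + io (C a)) ^ 2 / (4 * io (fp a b) * Y1 ^ 2) - 2 * X1) := by
  have hf := fk_ne a b
  have h2K := two_ne_K h2
  have h4K : (4 : RatFunc F) ≠ 0 := by
    have : (4 : RatFunc F) = 2 ^ 2 := by norm_num
    rw [this]; exact pow_ne_zero _ h2K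
  have hyy : io (fp a b) ^ 2 * Y1 ≠ (TW a b).negY (io (fp a b) * X1) (io (fp a b) ^ 2 * Y1) := by
    rw [negY_SW]
    intro h
    have h0 : (2 : RatFunc F) * (io (fp a b) ^ 2 * Y1) = 0 := by linear_combination h
    exact mul_ne_zero h2K (mul_ne_zero (pow_ne_zero 2 hf) hY) h0
  unfold pt
  rw [Point.add_self_of_Y_ne hyy, ker_some]
  have hsl : (TW a b).slope (io (fp a b) * X1) (io (fp a b) * X1) (io (fp a b) ^ 2 * Y1)
      (io (fp a b) ^ 2 * Y1) =
      (3 * (io (fp a b) * X1) ^ 2 + io (C a) * io (fp a b) ^ 2) / (2 * (io (fp a b) ^ 2 * Y1)) := by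
    rw [slope_of_Y_ne rfl hyy, negY_SW]
    congr 1
    · simp
    · ring
  have eX3 : (TW a b).addX (io (fp a b) * X1) (io (fp a b) * X1)
      ((TW a b).slope (io (fp a b) * X1) (io (fp a b) * X1) (io (fp a b) ^ 2 * Y1)
      (io (fp a b) ^ 2 * Y1)) / io (fp a b) =
      (3 * X1 ^ 2 + io (C a)) ^ 2 / (4 * io (fp a b) * Y1 ^ 2) - 2 * X1 := by
    rw [hsl]
    simp only [addX]
    field_simp
    ring
  rw [eX3]

end sums

end

end Pool.Agent.Q267.MW
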