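import Pool.Agent.Q267.MW.Sgn

set_option autoImplicit false

/-!
# The sign of the trace of the curve of discriminant `-7`
-/

namespace Pool.Agent.Q267.MW

open Polynomial WeierstrassCurve WeierstrassCurve.Affine WithZero IsDedekindDomain Finset

noncomputable section

section gen

variable {p : ℕ} [hp : Fact p.Prime]

open Classical in
/-- the trace of Frobenius together with the sign -/
theorem trace_endo' {a b : ZMod p} (h2 : (2 : ZMod p) ≠ 0) (h3 : (3 : ZMod p) ≠ 0) (ha : a ≠ 0)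
    (hb : b ≠ 0) (hΔ : 4 * a ^ 3 + 27 * b ^ 2 ≠ 0) {m : ℕ} (hm : p = 2 * m + 1) (al : ZMod p)
    (A : (TW a b).Point)
    (hA : Good al A) (N t : ℤ) (hN : (hgt A : ℤ) = N)
    (ht : (hgt (pt h2 hΔ (P0_eq a b) + A) : ℤ) = 1 + N + t) (r s : ℤ)
    (hrs : (p : ℤ) = r ^ 2 + r * s * t + s ^ 2 * N) (h0 : (r : ZMod p) + s * al = 0) :
    ∃ ε : ℤ, (ε = 1 ∨ ε = -1) ∧
      FQ h2 hΔ hm = ε • (r • pt h2 hΔ (P0_eq a b) + s • A) ∧
      ∑ x : ZMod p, quadraticChar (ZMod p) ((fp a b).eval x) = -ε * (2 * r + s * t) := by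
  have hm0 : 0 < m := by
    have := hp.out.two_le
    omega
  set P := pt h2 hΔ (P0_eq a b) with hPdef
  have hpar : ∀ P Q : (TW a b).Point, ((hgt (P + Q) : ℕ) : ℤ) + ((hgt (P - Q) : ℕ) : ℤ) =
      2 * (((hgt P : ℕ) : ℤ) + ((hgt Q : ℕ) : ℤ)) := by
    intro P Q
    exact_mod_cast par h2 hΔ P Q
  have hq := qf (fun P : (TW a b).Point => ((hgt P : ℕ) : ℤ)) hpar P A
  have hP1 : ((hgt P : ℕ) : ℤ) = 1 := by rw [hPdef, hgt_P0]; rfl
  have hquad : ∀ r s : ℤ, ((hgt (r • P + s • A) : ℕ) : ℤ) = r ^ 2 + r * s * t + s ^ 2 * N := by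
    intro r s
    rw [hq r s, hP1, hN, ht]
    ring
  have hgood : Good (0 : ZMod p) (r • P + s • A) := by
    have h1 := good_add h2 (good_zsmul h2 (good_P0 h2 hΔ) r) (good_zsmul h2 hA s)
    rw [mul_one, h0] at h1
    exact h1
  have hB : hgt (r • P + s • A) = p := by
    have := hquad r s
    rw [← hrs] at this
    exact_mod_cast this
  have hcount := count h2 hΔ hm hm0
  rw [← hPdef] at hcount
  rcases insep_main h2 h3 ha hb hΔ hm _ hgood hB with h | h
  · refine ⟨1, Or.inl rfl, ?_, ?_⟩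
    · rw [one_zsmul]; exact h.symm
    · rw [← h] at hcount
      have e : r • P + s • A - P = (r - 1) • P + s • A := by
        rw [sub_smul, one_smul]; abel
      rw [e, hquad] at hcount
      linarith
  · refine ⟨-1, Or.inr rfl, ?_, ?_⟩
    · rw [h, neg_smul, one_zsmul, neg_neg]
    · have e : FQ h2 hΔ hm - P = -((r + 1) • P + s • A) := by
        have h' : FQ h2 hΔ hm = -(r • P + s • A) := by rw [h, neg_neg]
        have h'' : (r + 1) • P = r • P + P := by rw [add_zsmul, one_zsmul]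
        rw [h', h'']; abel
      rw [e, hgt_neg, hquad] at hcount
      linarith

/-- the group theory behind the sign -/
theorem sgn_group {G : Type*} [AddCommGroup G] (K : AddSubgroup G) (P A Q : G) (ε χ r s : ℤ)
    (hr : r % 2 = 1) (hs : s % 2 = 0) (hε : ε = 1 ∨ ε = -1) (hχ : χ = 1 ∨ χ = -1)
    (hQ : Q = ε • (r • P + s • A)) (k1 : Q - χ • P ∈ K) (k2 : P + (P - A) ∈ K)
    (k3 : P + P ∉ K) (k4 : A + A ∈ K) : (4 : ℤ) ∣ ε * r - χ := by
  have e4 : (4 : ℤ) • P ∈ K := by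
    have e : (4 : ℤ) • P = (P + (P - A)) + (P + (P - A)) + (A + A) := by
      rw [show (4 : ℤ) = 1 + 1 + 1 + 1 by norm_num, add_zsmul, add_zsmul, add_zsmul, one_zsmul]
      abel
    rw [e]
    exact K.add_mem (K.add_mem k2 k2) k4
  have en : (ε * (r + 2 * s) - χ) • P ∈ K := by
    have e : (ε * (r + 2 * s) - χ) • P = (Q - χ • P) + (ε * s) • (P + (P - A)) := by
      rw [hQ]
      simp only [smul_add, smul_sub, add_smul, sub_smul, mul_add, mul_smul, two_smul]
      abel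
    rw [e]
    exact K.add_mem k1 (K.zsmul_mem k2 _)
  have hmod : (ε * (r + 2 * s) - χ) % 4 = 0 ∨ (ε * (r + 2 * s) - χ) % 4 = 2 := by
    rcases hε with rfl | rfl <;> rcases hχ with rfl | rfl <;> omega
  rcases hmod with h | h
  · rcases hε with rfl | rfl <;> rcases hχ with rfl | rfl <;> omega
  · exfalso
    apply k3
    obtain ⟨k, hk⟩ : ∃ k, ε * (r + 2 * s) - χ = 4 * k + 2 := ⟨(ε * (r + 2 * s) - χ) / 4, by omega⟩
    have e : P + P = (ε * (r + 2 * s) - χ) • P - k • ((4 : ℤ) • P) := by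
      rw [hk, add_smul, mul_smul, smul_comm, two_smul]
      abel
    rw [e]
    exact K.sub_mem en (K.zsmul_mem e4 k)

end gen

variable {F : Type*} [Field F]

open Classical in
/-- the points reducing to zero -/
def kerG {a b : F} (e : F) (h2 : (2 : F) ≠ 0) : AddSubgroup (TW a b).Point where
  carrier := {P : (TW a b).Point | Ker (vx e) P}
  add_mem' := fun h h' => ker_add (vx e) (vx_C_le e) (fun _ hc => vx_C e hc) h2 h h'
  zero_mem' := ker_zero (a := a) (b := b) (vx e)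
  neg_mem' := fun h => ker_neg (vx e) h

open Classical in
theorem mem_kerG {a b : F} (e : F) (h2 : (2 : F) ≠ 0) (P : (TW a b).Point) :
    P ∈ kerG (a := a) (b := b) e h2 ↔ Ker (vx e) P := Iff.rfl

-- REL hal al [al] al^2 - (al - 2)

section seven

variable {al : F} (hal : al ^ 2 = al - 2) (h2 : (2 : F) ≠ 0) (h7 : (7 : F) ≠ 0)

include hal in
theorem sq0 : (1 - 2 * al) ^ 2 = (-7 : F) := by linear_combination 4 * hal

include hal in
theorem fp0 : (fp (-35 : F) (-98)).eval (1 - 2 * al) = -28 * (5 - 3 * al) := by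
  unfold fp
  simp only [eval_add, eval_mul, eval_pow, eval_X, eval_C]
  linear_combination (-8 * al + 4) * hal

include hal in
theorem fp0' : (fp (-35 : F) (-98)).eval (1 - 2 * al) =
    (2 * (2 * al - 1) * (1 - al)) ^ 2 * (2 * al - 1) := by
  rw [fp0 hal]
  linear_combination (-32 * al ^ 3 + 80 * al ^ 2 - 8 * al - 68) * hal

include hal h2 h7 in
theorem al_five : (5 - 3 * al : F) ≠ 0 := by
  intro h
  have h28 : (2 : F) * 2 * 7 = 0 := by linear_combination (2 + 3 * al) * h + 9 * hal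
  exact mul_ne_zero (mul_ne_zero h2 h2) h7 h28

include hal h2 h7 in
theorem al_four : (4 - al : F) ≠ 0 := by
  intro h
  have h14 : (2 : F) * 7 = 0 := by linear_combination (3 + al) * h + hal
  exact mul_ne_zero h2 h7 h14

include hal h2 in
theorem al_ne : al ≠ 0 := by
  intro h
  rw [h] at hal
  apply h2
  linear_combination hal

include hal h2 in
theorem al_ne1 : (1 - al : F) ≠ 0 := by
  intro h
  apply h2
  linear_combination al * h + hal

include hal h7 in
theorem al_del : (2 * al - 1 : F) ≠ 0 := by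
  intro h
  apply h7
  linear_combination (1 - 2 * al) * h + 4 * hal

include hal h2 h7 in
theorem fp0_ne : (fp (-35 : F) (-98)).eval (1 - 2 * al) ≠ 0 := by
  rw [fp0' hal]
  exact mul_ne_zero (pow_ne_zero 2 (mul_ne_zero (mul_ne_zero h2 (al_del hal h7)) (al_ne1 hal h2)))
    (al_del hal h7)

include hal h2 h7 in
theorem vf0 : vx (1 - 2 * al) (io (fp (-35 : F) (-98))) = 1 := vx_eq _ (fp0_ne hal h2 h7)

include hal in
theorem hal1 : (1 - al) ^ 2 = (1 - al) - 2 := by linear_combination hal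

end seven

theorem third_eqn {a b : F} (h2 : (2 : F) ≠ 0) (hΔ : 4 * a ^ 3 + 27 * b ^ 2 ≠ 0)
    {X1 Y1 X2 Y2 : RatFunc F}
    (h1 : io (fp a b) * Y1 ^ 2 = X1 ^ 3 + io (C a) * X1 + io (C b))
    (h2' : io (fp a b) * Y2 ^ 2 = X2 ^ 3 + io (C a) * X2 + io (C b)) (hx : X1 ≠ X2)
    {X3 Y3 : RatFunc F}
    (eX : X3 = io (fp a b) * ((Y1 - Y2) / (X1 - X2)) ^ 2 - X1 - X2)
    (eY : Y3 = -(((Y1 - Y2) / (X1 - X2)) * (X3 - X1) + Y1)) :
    io (fp a b) * Y3 ^ 2 = X3 ^ 3 + io (C a) * X3 + io (C b) := by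
  classical
  have hf := fk_ne a b
  have hxx : io (fp a b) * X1 ≠ io (fp a b) * X2 := fun h => hx (mul_left_cancel₀ hf h)
  have hd : X1 - X2 ≠ 0 := sub_ne_zero.mpr hx
  have hns := nonsingular_add (pt_ns h2 hΔ h1) (pt_ns h2 hΔ h2') (fun h => hxx h.1)
  have e := tw_eqn hns
  have e1 := addX_eq (a := a) (b := b) (Y1 := Y1) (Y2 := Y2) hx
  rw [← eX] at e1
  rw [e1] at e
  have e1' : (TW a b).addX (io (fp a b) * X1) (io (fp a b) * X2)
      ((TW a b).slope (io (fp a b) * X1) (io (fp a b) * X2) (io (fp a b) ^ 2 * Y1)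
        (io (fp a b) ^ 2 * Y2)) = io (fp a b) * X3 := by
    rw [div_eq_iff hf] at e1
    rw [e1]; ring
  have e2 : (TW a b).addY (io (fp a b) * X1) (io (fp a b) * X2) (io (fp a b) ^ 2 * Y1)
      ((TW a b).slope (io (fp a b) * X1) (io (fp a b) * X2) (io (fp a b) ^ 2 * Y1)
        (io (fp a b) ^ 2 * Y2)) / io (fp a b) ^ 2 = Y3 := by
    simp only [addY, negAddY]
    rw [e1', negY_SW, eY, slope_of_X_ne hxx, ← mul_sub, ← mul_sub]
    field_simp
  rw [e2] at e
  exact e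

section seven

variable {al : F} (hal : al ^ 2 = al - 2) (h2 : (2 : F) ≠ 0) (h7 : (7 : F) ≠ 0)

include hal h2 h7 in
theorem d7_eval : (d7 (1 - al)).eval (1 - 2 * al) ≠ 0 := by
  unfold d7
  simp only [eval_mul, eval_sub, eval_X, eval_C]
  have e : 1 - 2 * al - (1 - al - 4) = 4 - al := by ring
  rw [e]
  exact mul_ne_zero (pow2_ne h2).1 (al_four hal h2 h7)

include hal in
theorem n7_eval : (X * d7 (1 - al) - n7 (1 - al)).eval (1 - 2 * al) = 0 := by
  unfold d7 n7
  simp only [eval_mul, eval_sub, eval_add, eval_X, eval_C]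
  linear_combination (-2 * al - 2) * hal

open Classical in
/-- `2 P - A` reduces to zero -/
theorem k2_seven (P A : (TW (-35 : F) (-98)).Point)
    (hP : P = pt h2 (hΔ7 h2 h7) (P0_eq (-35) (-98)))
    (hA : A = pt h2 (hΔ7 h2 h7) (eqA7 hal h2)) :
    Ker (vx (1 - 2 * al)) (P + (P - A)) := by
  obtain ⟨h4, h8, -⟩ := pow2_ne h2
  have hTx := Tx7 hal h2
  have hTx' := Tx7 (hal1 hal) h2
  have hlamv : (1 - -(y7 (io (C al)) (io X))) / (io X - x7 (io (C al)) (io X)) =
      io (X + C 7) / io (C 2 * (X ^ 2 + C 7 * X + C 14)) := by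
    rw [d7_lam (io X) (io (C al)) (halk hal) (two_ne_K h2) Te7 Te7' hTx]
    simp only [map_mul, map_add, map_pow, map_ofNat]
  have hXe : x7 (io (C (1 - al))) (io X) = io (fp (-35 : F) (-98)) *
      ((1 - -(y7 (io (C al)) (io X))) / (io X - x7 (io (C al)) (io X))) ^ 2 -
        io X - x7 (io (C al)) (io X) := by
    rw [fk7, d7_lam (io X) (io (C al)) (halk hal) (two_ne_K h2) Te7 Te7' hTx,
      d7_diff (io X) (io (C al)) (halk hal) (two_ne_K h2) Te7 Te7', C_sub, map_sub, C_1, map_one]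
  have hne : (io X : RatFunc F) ≠ x7 (io (C al)) (io X) := sub_ne_zero.mp hTx
  have hne' : (io X : RatFunc F) ≠ x7 (io (C (1 - al))) (io X) := sub_ne_zero.mp hTx'
  have h3 := third_eqn h2 (hΔ7 h2 h7) (P0_eq (-35) (-98)) (neg_eqn (eqA7 hal h2)) hne hXe rfl
  have hPA : P - A = pt h2 (hΔ7 h2 h7) h3 := by
    rw [sub_eq_add_neg, hP, hA, pt_neg]
    exact pt_add h2 (hΔ7 h2 h7) (P0_eq (-35) (-98)) (neg_eqn (eqA7 hal h2)) hne h3 hXe rfl
  rw [hPA, hP]
  have hd := d7_eval hal h2 h7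
  have hdiff : vx (1 - 2 * al) (io X - x7 (io (C (1 - al))) (io X)) < 1 := by
    have e : io X - x7 (io (C (1 - al))) (io X) =
        io (X * d7 (1 - al) - n7 (1 - al)) / io (d7 (1 - al)) := by
      rw [← nd7, map_sub, map_mul, sub_div, mul_div_assoc, div_self (io_ne (d7_ne h4)), mul_one]
    rw [e]
    exact vx_div_lt _ (n7_eval hal) hd
  refine ker_sum _ h2 (hΔ7 h2 h7) _ _ hne' (vf0 hal h2 h7) (vx_le _ X) ?_ hdiff ?_
  · rw [← nd7]; exact vx_div_le _ _ hd
  · have e : (1 : RatFunc F) - -((1 - -(y7 (io (C al)) (io X))) / (io X - x7 (io (C al)) (io X)) *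
        (x7 (io (C (1 - al))) (io X) - io X) + 1) =
        io (C 2) - io (X + C 7) / io (C 2 * (X ^ 2 + C 7 * X + C 14)) *
          (io X - x7 (io (C (1 - al))) (io X)) := by
      have c2 : io (C (2 : F)) = 2 := by rw [map_ofNat, map_ofNat]
      rw [hlamv, c2]; ring
    rw [e, Valuation.map_sub_eq_of_lt_left]
    · exact vx_C _ h2
    · rw [vx_C _ h2, map_mul]
      have hl : vx (1 - 2 * al) (io (X + C 7) / io (C 2 * (X ^ 2 + C 7 * X + C 14))) ≤ 1 := by
        apply vx_div_le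
        simp only [eval_mul, eval_add, eval_pow, eval_X, eval_C]
        have e : 2 * ((1 - 2 * al) ^ 2 + 7 * (1 - 2 * al) + 14) = 2 * 2 * 7 * (1 - al) := by
          linear_combination (8) * hal
        rw [e]
        exact mul_ne_zero (mul_ne_zero (mul_ne_zero h2 h2) h7) (al_ne1 hal h2)
      exact mul_lt_one_of_nonneg_of_lt_one_right hl zero_le hdiff

open Classical in
/-- `2 P` does not reduce to zero -/
theorem k3_seven (P : (TW (-35 : F) (-98)).Point)
    (hP : P = pt h2 (hΔ7 h2 h7) (P0_eq (-35) (-98))) (hal : al ^ 2 = al - 2) :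
    ¬ Ker (vx (1 - 2 * al)) (P + P) := by
  obtain ⟨h4, h8, -⟩ := pow2_ne h2
  rw [hP, ker_dbl _ h2 (hΔ7 h2 h7) (P0_eq (-35) (-98)) one_ne_zero, not_lt]
  have e : (3 * (io X : RatFunc F) ^ 2 + io (C (-35))) ^ 2 / (4 * io (fp (-35 : F) (-98)) * 1 ^ 2) -
      2 * io X = io ((C 3 * X ^ 2 + C (-35)) ^ 2) / io (C 4 * fp (-35 : F) (-98)) -
        io (C 2 * X) := by
    have c2 : io (C (2 : F)) = 2 := by rw [map_ofNat, map_ofNat]
    have c3 : io (C (3 : F)) = 3 := by rw [map_ofNat, map_ofNat]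
    have c4 : io (C (4 : F)) = 4 := by rw [map_ofNat, map_ofNat]
    rw [map_pow, map_add, map_mul, map_pow, map_mul io (C 4), map_mul io (C 2), c2, c3, c4,
      one_pow, mul_one]
  rw [e]
  refine Valuation.map_sub_le _ ?_ (vx_le _ _)
  apply vx_div_le
  rw [eval_mul, eval_C]
  exact mul_ne_zero h4 (fp0_ne hal h2 h7)

/-- numerator and denominator of the second coordinate -/
def ny7 (al : F) : F[X] := C (al - 3) * ((X - C (al - 4)) ^ 2 - C (7 * (1 - 3 * al)))

def dy7 (al : F) : F[X] := C 8 * (X - C (al - 4)) ^ 2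

theorem nyd7 (al : F) : io (ny7 al) / io (dy7 al) = y7 (io (C al)) (io X) := by
  unfold ny7 dy7 y7
  simp only [map_mul, map_sub, map_one, map_ofNat, map_pow]

include hal h2 h7 in
theorem dA_eval : (d7 al).eval (1 - 2 * al) ≠ 0 := by
  unfold d7
  simp only [eval_mul, eval_sub, eval_X, eval_C]
  have e : 1 - 2 * al - (al - 4) = 5 - 3 * al := by ring
  rw [e]
  exact mul_ne_zero (pow2_ne h2).1 (al_five hal h2 h7)

include hal h2 h7 in
theorem dyA_eval : (dy7 al).eval (1 - 2 * al) ≠ 0 := by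
  unfold dy7
  simp only [eval_mul, eval_sub, eval_X, eval_C, eval_pow]
  have e : 1 - 2 * al - (al - 4) = 5 - 3 * al := by ring
  rw [e]
  exact mul_ne_zero (pow2_ne h2).2.1 (pow_ne_zero 2 (al_five hal h2 h7))

include hal in
theorem nyA_eval : (ny7 al).eval (1 - 2 * al) = 0 := by
  unfold ny7
  simp only [eval_mul, eval_sub, eval_X, eval_C, eval_pow]
  linear_combination (9 * al - 27) * hal

include hal h2 h7 in
theorem numA_eval : (C 3 * (n7 al) ^ 2 + C (-35) * (d7 al) ^ 2).eval (1 - 2 * al) ≠ 0 := by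
  unfold n7 d7
  simp only [eval_mul, eval_sub, eval_X, eval_C, eval_pow, eval_add]
  have e : 3 * (-(1 + al) * ((1 - 2 * al) * (1 - 2 * al - (al - 4)) + 7 * (1 - 3 * al))) ^ 2 +
      -35 * (4 * (1 - 2 * al - (al - 4))) ^ 2 = (4 * (5 - 3 * al)) ^ 2 * (7 * (1 - 3 * al)) := by
    linear_combination (108 * al ^ 4 - 900 * al ^ 3 + 444 * al ^ 2 + 9396 * al - 8184) * hal
  rw [e]
  exact mul_ne_zero (pow_ne_zero 2 (mul_ne_zero (pow2_ne h2).1 (al_five hal h2 h7)))
    (al_v hal h2 h7)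

open Classical in
/-- `2 A` reduces to zero -/
theorem k4_seven (A : (TW (-35 : F) (-98)).Point)
    (hA : A = pt h2 (hΔ7 h2 h7) (eqA7 hal h2)) :
    Ker (vx (1 - 2 * al)) (A + A) := by
  obtain ⟨h4, h8, -⟩ := pow2_ne h2
  have hdA := dA_eval hal h2 h7
  have hdy := dyA_eval hal h2 h7
  have hd0 := io_ne (d7_ne (al := al) h4)
  have hYv : vx (1 - 2 * al) (y7 (io (C al)) (io X)) < 1 := by
    rw [← nyd7]; exact vx_div_lt _ (nyA_eval hal) hdy
  have hXv : vx (1 - 2 * al) (x7 (io (C al)) (io X)) ≤ 1 := by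
    rw [← nd7]; exact vx_div_le _ _ hdA
  have hny : ny7 al ≠ 0 := by
    intro h
    have h3 : al - 3 ≠ 0 := by
      intro h3
      have : (2 : F) ^ 3 = 0 := by linear_combination (al + 2) * h3 * (-1) + hal
      exact pow_ne_zero 3 h2 this
    have c2 : (ny7 al).coeff 2 = al - 3 := by
      unfold ny7
      have : (C (al - 3) * ((X - C (al - 4)) ^ 2 - C (7 * (1 - 3 * al))) : F[X]) =
          C (al - 3) * X ^ 2 + C (-2 * (al - 3) * (al - 4)) * X +
            C ((al - 3) * ((al - 4) ^ 2 - 7 * (1 - 3 * al))) := by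
        simp only [C_mul, C_neg, C_sub, C_pow, map_ofNat]; ring
      rw [this]
      simp only [coeff_add, coeff_C_mul, coeff_X_pow, coeff_X, coeff_C]
      norm_num
    rw [h, coeff_zero] at c2
    exact h3 c2.symm
  have hY0 : y7 (io (C al)) (io X) ≠ 0 := by
    rw [← nyd7]
    refine div_ne_zero (io_ne hny) (io_ne ?_)
    intro h
    rw [h, eval_zero] at hdy
    exact hdy rfl
  rw [hA, ker_dbl _ h2 (hΔ7 h2 h7) (eqA7 hal h2) hY0]
  have hnum : vx (1 - 2 * al) (3 * (x7 (io (C al)) (io X)) ^ 2 + io (C (-35))) = 1 := by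
    have e : 3 * (x7 (io (C al)) (io X)) ^ 2 + io (C (-35)) =
        io (C 3 * (n7 al) ^ 2 + C (-35) * (d7 al) ^ 2) / io ((d7 al) ^ 2) := by
      have c3 : io (C (3 : F)) = 3 := by rw [map_ofNat, map_ofNat]
      rw [← nd7, map_add, map_mul, map_mul, map_pow, map_pow, c3]
      field_simp
    rw [e]
    apply vx_div_eq
    · exact numA_eval hal h2 h7
    · rw [eval_pow]; exact pow_ne_zero 2 hdA
  have hv4 : vx (1 - 2 * al) 4 = 1 := by
    have : (4 : RatFunc F) = io (C 4) := by rw [map_ofNat, map_ofNat]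
    rw [this]; exact vx_C _ h4
  have hv2 : vx (1 - 2 * al) 2 = 1 := by
    have : (2 : RatFunc F) = io (C 2) := by rw [map_ofNat, map_ofNat]
    rw [this]; exact vx_C _ h2
  have hYn : vx (1 - 2 * al) (y7 (io (C al)) (io X)) ≠ 0 := (Valuation.ne_zero_iff _).mpr hY0
  have e1 : 1 < vx (1 - 2 * al) ((3 * (x7 (io (C al)) (io X)) ^ 2 + io (C (-35))) ^ 2 /
      (4 * io (fp (-35 : F) (-98)) * (y7 (io (C al)) (io X)) ^ 2)) := by
    rw [map_div₀, map_pow, hnum, map_mul, map_mul, map_pow, hv4, vf0 hal h2 h7, one_pow, one_mul,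
      one_mul, one_div, ← inv_pow]
    exact one_lt_pow₀ ((one_lt_inv₀ (zero_lt_iff.mpr hYn)).mpr hYv) (by norm_num)
  rw [Valuation.map_sub_eq_of_lt_left]
  · exact e1
  · refine lt_of_le_of_lt ?_ e1
    rw [map_mul, hv2, one_mul]
    exact hXv

end seven

variable {p : ℕ} [hp : Fact p.Prime]

/-- the character as a power -/
theorem chi_pow {m : ℕ} (hm : p = 2 * m + 1) (y : ZMod p) :
    ((quadraticChar (ZMod p) y : ℤ) : ZMod p) = y ^ m := by
  have h2 : ringChar (ZMod p) ≠ 2 := by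
    rw [ZMod.ringChar_zmod_n]
    omega
  have h1 := quadraticChar_eq_pow_of_char_ne_two' h2 y
  rw [ZMod.card, show p / 2 = m by omega] at h1
  exact h1

open Classical in
/-- the Frobenius point reduces to `± P` -/
theorem k1_seven {m : ℕ} (hm : p = 2 * m + 1) {al : ZMod p} (hal : al ^ 2 = al - 2)
    (h2 : (2 : ZMod p) ≠ 0) (h7 : (7 : ZMod p) ≠ 0) (P : (TW (-35 : ZMod p) (-98)).Point)
    (hP : P = pt h2 (hΔ7 h2 h7) (P0_eq (-35) (-98))) :
    Ker (vx (1 - 2 * al)) (FQ h2 (hΔ7 h2 h7) hm - quadraticChar (ZMod p) (2 * al - 1) • P) := by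
  have hf0 := fp0_ne hal h2 h7
  have hchi : quadraticChar (ZMod p) (2 * al - 1) =
      quadraticChar (ZMod p) ((fp (-35 : ZMod p) (-98)).eval (1 - 2 * al)) := by
    rw [fp0' hal, map_mul (quadraticChar (ZMod p)), map_pow, quadraticChar_sq_one, one_mul]
    exact mul_ne_zero (mul_ne_zero h2 (al_del hal h7)) (al_ne1 hal h2)
  have hpow := chi_pow hm ((fp (-35 : ZMod p) (-98)).eval (1 - 2 * al))
  rw [← hchi] at hpow
  have hp2 := hp.out.two_le
  have hne : (io (X ^ p) : RatFunc (ZMod p)) ≠ io X := by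
    intro h
    have h' := congrArg natDegree (io_inj h)
    rw [natDegree_X_pow, natDegree_X] at h'
    omega
  have hdv : vx (1 - 2 * al) (io (X ^ p) - io X) < 1 := by
    rw [← map_sub, vx_lt]
    simp only [eval_sub, eval_pow, eval_X, ZMod.pow_card, sub_self]
  rcases quadraticChar_dichotomy (al_del hal h7) with h | h
  · rw [h, one_smul, sub_eq_add_neg (FQ h2 (hΔ7 h2 h7) hm) P, hP, pt_neg]
    unfold FQ
    refine ker_sum _ h2 (hΔ7 h2 h7) _ _ hne (vf0 hal h2 h7) (vx_le _ _) (vx_le _ _) hdv ?_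
    have e : io (fp (-35 : ZMod p) (-98) ^ m) - -1 = io (fp (-35 : ZMod p) (-98) ^ m + 1) := by
      rw [map_add, map_one]; ring
    rw [e]
    apply vx_eq
    rw [eval_add, eval_pow, eval_one, ← hpow, h, Int.cast_one]
    intro h'
    apply h2
    linear_combination h'
  · rw [h, neg_smul, one_smul, sub_neg_eq_add, hP]
    unfold FQ
    refine ker_sum _ h2 (hΔ7 h2 h7) _ _ hne (vf0 hal h2 h7) (vx_le _ _) (vx_le _ _) hdv ?_
    have e : io (fp (-35 : ZMod p) (-98) ^ m) - 1 = io (fp (-35 : ZMod p) (-98) ^ m - 1) := by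
      rw [map_sub, map_one]
    rw [e]
    apply vx_eq
    rw [eval_sub, eval_pow, eval_one, ← hpow, h]
    push_cast
    intro h'
    apply h2
    linear_combination -h'

/-- **The trace of the curve of discriminant `-7`**, with its sign. -/
theorem sgn7 (p : ℕ) [hp : Fact p.Prime] (hp2 : p ≠ 2) (hp7 : p ≠ 7) (r s : ℤ)
    (hrs : (p : ℤ) = r ^ 2 + r * s + 2 * s ^ 2) (al : ZMod p) (hal : al ^ 2 = al - 2)
    (h0 : (r : ZMod p) + s * al = 0) :
    ∃ ε : ℤ, (ε = 1 ∨ ε = -1) ∧ (4 : ℤ) ∣ ε * r - quadraticChar (ZMod p) (2 * al - 1) ∧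
      ∑ x : ZMod p, quadraticChar (ZMod p) (x ^ 3 - 35 * x - 98) = -ε * (2 * r + s) := by
  classical
  have hprime : ∀ q : ℕ, q.Prime → p ≠ q → ((q : ℕ) : ZMod p) ≠ 0 := by
    intro q hq hne h0
    rw [ZMod.natCast_eq_zero_iff] at h0
    exact hne ((Nat.prime_dvd_prime_iff_eq hp.out hq).mp h0)
  have h2 : (2 : ZMod p) ≠ 0 := by exact_mod_cast hprime 2 Nat.prime_two hp2
  have h7 : (7 : ZMod p) ≠ 0 := by exact_mod_cast hprime 7 (by norm_num) hp7
  have hp3 : p ≠ 3 := by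
    rintro rfl
    have h1 : (r ^ 2 + r * s + 2 * s ^ 2) * 4 = 12 := by rw [← hrs]; norm_num
    have h2' : (2 * r + s) ^ 2 + 7 * s ^ 2 = 12 := by linear_combination h1
    have hs : s ^ 2 ≤ 1 := by nlinarith [sq_nonneg (2 * r + s)]
    have hs' : s ≤ 1 ∧ -1 ≤ s := by constructor <;> nlinarith
    have hr : (2 * r + s) ^ 2 ≤ 12 := by nlinarith [sq_nonneg s]
    have hr' : 2 * r + s ≤ 3 ∧ -3 ≤ 2 * r + s := by constructor <;> nlinarith
    obtain ⟨a1, a2⟩ := hs'
    obtain ⟨a3, a4⟩ := hr'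
    have b1 : r ≤ 2 := by omega
    have b2 : -2 ≤ r := by omega
    interval_cases s <;> interval_cases r <;> omega
  have hp5 : p ≠ 5 := by
    rintro rfl
    have h1 : (r ^ 2 + r * s + 2 * s ^ 2) * 4 = 20 := by rw [← hrs]; norm_num
    have h2' : (2 * r + s) ^ 2 + 7 * s ^ 2 = 20 := by linear_combination h1
    have hs : s ^ 2 ≤ 2 := by nlinarith [sq_nonneg (2 * r + s)]
    have hs' : s ≤ 1 ∧ -1 ≤ s := by constructor <;> nlinarith
    have hr : (2 * r + s) ^ 2 ≤ 20 := by nlinarith [sq_nonneg s]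
    have hr' : 2 * r + s ≤ 4 ∧ -4 ≤ 2 * r + s := by constructor <;> nlinarith
    obtain ⟨a1, a2⟩ := hs'
    obtain ⟨a3, a4⟩ := hr'
    have b1 : r ≤ 2 := by omega
    have b2 : -2 ≤ r := by omega
    interval_cases s <;> interval_cases r <;> omega
  have h3 : (3 : ZMod p) ≠ 0 := by exact_mod_cast hprime 3 (by norm_num) hp3
  have h5 : (5 : ZMod p) ≠ 0 := by exact_mod_cast hprime 5 (by norm_num) hp5
  have ha : (-35 : ZMod p) ≠ 0 := by
    have : (-35 : ZMod p) = -(5 * 7) := by norm_num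
    rw [this]
    exact neg_ne_zero.mpr (mul_ne_zero h5 h7)
  have hb : (-98 : ZMod p) ≠ 0 := by
    have : (-98 : ZMod p) = -(2 * 7 ^ 2) := by norm_num
    rw [this]
    exact neg_ne_zero.mpr (mul_ne_zero h2 (pow_ne_zero 2 h7))
  obtain ⟨m, hm⟩ : ∃ m, p = 2 * m + 1 := by
    rcases hp.out.eq_two_or_odd' with h | h
    · exact absurd h hp2
    · exact h
  obtain ⟨ε, hε, hQ, hsum⟩ := trace_endo' h2 h3 ha hb (hΔ7 h2 h7) hm al
    (pt h2 (hΔ7 h2 h7) (eqA7 hal h2))
    (goodA7 hal h2 h7) 2 1 (by rw [hgtA7 hal h2 h7]; rfl) (by rw [hgtS7 hal h2 h7]; rfl) r s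
    (by rw [hrs]; ring) h0
  have hev : ∀ x : ZMod p, (fp (-35 : ZMod p) (-98)).eval x = x ^ 3 - 35 * x - 98 := by
    intro x
    unfold fp
    simp only [eval_add, eval_mul, eval_pow, eval_X, eval_C]
    ring
  simp only [hev, mul_one] at hsum
  refine ⟨ε, hε, ?_, hsum⟩
  -- parities
  have hodd : (r ^ 2 + r * s + 2 * s ^ 2) % 2 = 1 := by rw [← hrs, hm]; push_cast; omega
  have hpar : r % 2 = 1 ∧ s % 2 = 0 := by
    rcases Int.emod_two_eq_zero_or_one r with h | h
    · exfalso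
      obtain ⟨k, hk⟩ : ∃ k, r = 2 * k := ⟨r / 2, by omega⟩
      have : r ^ 2 + r * s + 2 * s ^ 2 = 2 * (k * (2 * k) + k * s + s ^ 2) := by rw [hk]; ring
      rw [this] at hodd
      omega
    · refine ⟨h, ?_⟩
      rcases Int.emod_two_eq_zero_or_one s with h' | h'
      · exact h'
      · exfalso
        obtain ⟨k, hk⟩ : ∃ k, r = 2 * k + 1 := ⟨r / 2, by omega⟩
        obtain ⟨l, hl⟩ : ∃ l, s = 2 * l + 1 := ⟨s / 2, by omega⟩
        have : r ^ 2 + r * s + 2 * s ^ 2 = 2 * ((2 * k + 1) * (k + l + 1) + s ^ 2) := by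
          rw [hk, hl]; ring
        rw [this] at hodd
        omega
  have hchi : quadraticChar (ZMod p) (2 * al - 1) = 1 ∨ quadraticChar (ZMod p) (2 * al - 1) = -1 :=
    quadraticChar_dichotomy (al_del hal h7)
  exact sgn_group (kerG (1 - 2 * al) h2) _ _ _ ε _ r s hpar.1 hpar.2 hε hchi hQ
    (k1_seven hm hal h2 h7 _ rfl) (k2_seven hal h2 h7 _ _ rfl rfl) (k3_seven h2 h7 _ rfl hal)
    (k4_seven hal h2 h7 _ rfl)

end

end Pool.Agent.Q267.MW
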