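import Pool.Agent.Q267.MW.D7

set_option autoImplicit false

/-!
# Reduction of points of the generic twist at a place
-/

namespace Pool.Agent.Q267.MW

open Polynomial WeierstrassCurve WeierstrassCurve.Affine WithZero

variable {F : Type*} [Field F]

noncomputable section

section gen

variable (v : Valuation (RatFunc F) ℤᵐ⁰) (hv1 : ∀ c : F, v (io (C c)) ≤ 1)
  (hv2 : ∀ c : F, c ≠ 0 → v (io (C c)) = 1)

include hv1 in
theorem gpos_add (a b : F) {X1 X2 X3 : RatFunc F} (h1 : 1 < v X1) (h2 : 1 < v X2)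
    (h : (X1 - X2) ^ 2 * X3 ^ 2 - (2 * ((X1 + X2) * (X1 * X2 + io (C a)) + 2 * io (C b))) * X3
      + ((X1 * X2 - io (C a)) ^ 2 - 4 * io (C b) * (X1 + X2)) = 0) : 1 < v X3 := by
  by_contra hc
  push Not at hc
  set p := v X1 with hp
  set q := v X2 with hq
  have p0 : 0 < p := lt_trans zero_lt_one h1
  have q0 : 0 < q := lt_trans zero_lt_one h2
  have hpq1 : p < p * q := lt_mul_of_one_lt_right p0 h2
  have hpq2 : q < p * q := lt_mul_of_one_lt_left q0 h1
  have hpq : 1 < p * q := lt_trans h1 hpq1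
  have pq0 : 0 < p * q := lt_trans zero_lt_one hpq
  have hM : max p q < p * q := max_lt hpq1 hpq2
  have v2 : v 2 ≤ 1 := by
    have : (2 : RatFunc F) = io (C 2) := by rw [map_ofNat, map_ofNat]
    rw [this]; exact hv1 2
  have v4 : v 4 ≤ 1 := by
    have : (4 : RatFunc F) = io (C 4) := by rw [map_ofNat, map_ofNat]
    rw [this]; exact hv1 4
  have va : v (io (C a)) ≤ 1 := hv1 a
  have vb : v (io (C b)) ≤ 1 := hv1 b
  have vs : v (X1 + X2) ≤ max p q := v.map_add X1 X2
  have vd : v (X1 - X2) ≤ max p q := v.map_sub X1 X2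
  have vm : v (X1 * X2 + io (C a)) ≤ p * q := by
    refine v.map_add_le ?_ (va.trans hpq.le)
    rw [map_mul]
  have vm' : v (X1 * X2 - io (C a)) = p * q := by
    rw [v.map_sub_eq_of_lt_left]
    · rw [map_mul]
    · rw [map_mul]; exact lt_of_le_of_lt va hpq
  have vG2 : v ((X1 * X2 - io (C a)) ^ 2 - 4 * io (C b) * (X1 + X2)) = (p * q) * (p * q) := by
    rw [v.map_sub_eq_of_lt_left]
    · rw [map_pow, vm', sq]
    · rw [map_pow, vm', map_mul, map_mul]
      calc v 4 * v (io (C b)) * v (X1 + X2) ≤ 1 * 1 * max p q :=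
            mul_le_mul' (mul_le_mul' v4 vb) vs
        _ = max p q := by rw [one_mul, one_mul]
        _ < p * q := hM
        _ < (p * q) * (p * q) := lt_mul_of_one_lt_right pq0 hpq
        _ = (p * q) ^ 2 := by rw [sq]
  have vG1 : v ((2 * ((X1 + X2) * (X1 * X2 + io (C a)) + 2 * io (C b))) * X3) < (p * q) * (p * q) := by
    rw [map_mul, map_mul]
    have k : v ((X1 + X2) * (X1 * X2 + io (C a)) + 2 * io (C b)) ≤ max p q * (p * q) := by
      refine v.map_add_le ?_ ?_
      · rw [map_mul]; exact mul_le_mul' vs vm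
      · rw [map_mul]
        calc v 2 * v (io (C b)) ≤ 1 * 1 := mul_le_mul' v2 vb
          _ ≤ max p q * (p * q) := mul_le_mul' (h1.le.trans (le_max_left _ _)) hpq.le
    calc v 2 * v ((X1 + X2) * (X1 * X2 + io (C a)) + 2 * io (C b)) * v X3
        ≤ 1 * (max p q * (p * q)) * 1 := mul_le_mul' (mul_le_mul' v2 k) hc
      _ = max p q * (p * q) := by rw [one_mul, mul_one]
      _ < (p * q) * (p * q) := mul_lt_mul_of_pos_right hM pq0
  have vG0 : v ((X1 - X2) ^ 2 * X3 ^ 2) < (p * q) * (p * q) := by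
    rw [map_mul, map_pow, map_pow]
    calc v (X1 - X2) ^ 2 * v X3 ^ 2 ≤ (max p q) ^ 2 * 1 ^ 2 :=
          mul_le_mul' (pow_le_pow_left' vd 2) (pow_le_pow_left' hc 2)
      _ = max p q * max p q := by rw [one_pow, mul_one, sq]
      _ < (p * q) * (p * q) := mul_lt_mul'' hM hM zero_le zero_le
  have e : (X1 * X2 - io (C a)) ^ 2 - 4 * io (C b) * (X1 + X2) =
      (2 * ((X1 + X2) * (X1 * X2 + io (C a)) + 2 * io (C b))) * X3 - (X1 - X2) ^ 2 * X3 ^ 2 := by
    linear_combination h
  have := v.map_sub_lt vG1 vG0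
  rw [← e, vG2] at this
  exact lt_irrefl _ this

include hv1 in
theorem gpos_cub (a b : F) {X1 : RatFunc F} (h1 : 1 < v X1) :
    v (X1 ^ 3 + io (C a) * X1 + io (C b)) = v X1 ^ 3 := by
  set p := v X1 with hp
  have p0 : 0 < p := lt_trans zero_lt_one h1
  have va : v (io (C a)) ≤ 1 := hv1 a
  have vb : v (io (C b)) ≤ 1 := hv1 b
  have h2 : p < p * p := lt_mul_of_one_lt_right p0 h1
  have h3 : p * p < p * p * p := lt_mul_of_one_lt_right (mul_pos p0 p0) h1
  have e1 : v (X1 ^ 3 + io (C a) * X1) = p ^ 3 := by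
    rw [v.map_add_eq_of_lt_left]
    · rw [map_pow]
    · rw [map_pow, map_mul]
      calc v (io (C a)) * v X1 ≤ 1 * p := mul_le_mul' va le_rfl
        _ = p := one_mul _
        _ < p ^ 3 := by rw [pow_succ, sq]; exact lt_trans h2 h3
  rw [v.map_add_eq_of_lt_left]
  · exact e1
  · rw [e1]
    calc v (io (C b)) ≤ 1 := vb
      _ < p := h1
      _ < p ^ 3 := by rw [pow_succ, sq]; exact lt_trans h2 h3

include hv1 hv2 in
theorem gpos_dbl (a b : F) (h2 : (2 : F) ≠ 0) {X1 X3 : RatFunc F} (h1 : 1 < v X1)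
    (h : X3 * (4 * (X1 ^ 3 + io (C a) * X1 + io (C b))) =
      (X1 ^ 2 - io (C a)) ^ 2 - 8 * io (C b) * X1) : 1 < v X3 := by
  set p := v X1 with hp
  have p0 : 0 < p := lt_trans zero_lt_one h1
  have va : v (io (C a)) ≤ 1 := hv1 a
  have vb : v (io (C b)) ≤ 1 := hv1 b
  have v8 : v 8 ≤ 1 := by
    have : (8 : RatFunc F) = io (C 8) := by rw [map_ofNat, map_ofNat]
    rw [this]; exact hv1 8
  have v4 : v 4 = 1 := by
    have : (4 : RatFunc F) = io (C 4) := by rw [map_ofNat, map_ofNat]
    rw [this]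
    refine hv2 4 ?_
    have : (4 : F) = 2 * 2 := by norm_num
    rw [this]; exact mul_ne_zero h2 h2
  have hpp : 1 < p * p := lt_trans h1 (lt_mul_of_one_lt_right p0 h1)
  have hp2 : p < p * p := lt_mul_of_one_lt_right p0 h1
  have e1 : v (X1 ^ 2 - io (C a)) = p * p := by
    rw [v.map_sub_eq_of_lt_left]
    · rw [map_pow, sq]
    · rw [map_pow, sq]; exact lt_of_le_of_lt va hpp
  have e2 : v ((X1 ^ 2 - io (C a)) ^ 2 - 8 * io (C b) * X1) = (p * p) ^ 2 := by
    rw [v.map_sub_eq_of_lt_left]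
    · rw [map_pow, e1]
    · rw [map_pow, e1, map_mul, map_mul]
      calc v 8 * v (io (C b)) * v X1 ≤ 1 * 1 * p := mul_le_mul' (mul_le_mul' v8 vb) le_rfl
        _ = p := by rw [one_mul, one_mul]
        _ < p * p := hp2
        _ < (p * p) * (p * p) := lt_mul_of_one_lt_right (mul_pos p0 p0) hpp
        _ = (p * p) ^ 2 := by rw [sq]
  have e3 := congrArg v h
  rw [e2, map_mul, map_mul, v4, gpos_cub v hv1 a b h1, one_mul] at e3
  have e4 : v X3 = p := by
    have hp3 : p ^ 3 ≠ 0 := pow_ne_zero _ p0.ne'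
    apply mul_right_cancel₀ hp3
    rw [e3, ← sq, ← pow_mul, ← pow_succ']
  rw [e4]
  exact h1

/-- points that reduce to zero -/
def Ker {a b : F} : (TW a b).Point → Prop
  | .zero => True
  | .some x _ _ => 1 < v (x / io (fp a b))

theorem ker_zero {a b : F} : Ker v (0 : (TW a b).Point) := trivial

theorem ker_some {a b : F} {x y : RatFunc F} (h : (TW a b).Nonsingular x y) :
    Ker v (Point.some x y h) ↔ 1 < v (x / io (fp a b)) := Iff.rfl

theorem ker_neg {a b : F} {P : (TW a b).Point} (h : Ker v P) : Ker v (-P) := by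
  cases P with
  | zero => exact ker_zero v
  | some x y hxy =>
    rw [Point.neg_some, ker_some]
    exact h

include hv1 in
theorem ker_Y {a b : F} {x y : RatFunc F} (h : (TW a b).Nonsingular x y)
    (hg : 1 < v (x / io (fp a b))) : y / io (fp a b) ^ 2 ≠ 0 := by
  intro h0
  have he := tw_eqn h
  have hc := gpos_cub v hv1 a b hg
  rw [← he, h0] at hc
  simp only [ne_eq, OfNat.ofNat_ne_zero, not_false_eq_true, zero_pow, mul_zero, map_zero] at hc
  have h1 : v (x / io (fp a b)) ≠ 0 := (lt_trans zero_lt_one hg).ne'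
  exact pow_ne_zero 3 h1 hc.symm

open Classical in
include hv1 hv2 in
theorem ker_add {a b : F} (h2 : (2 : F) ≠ 0) {P Q : (TW a b).Point} (hP : Ker v P)
    (hQ : Ker v Q) : Ker v (P + Q) := by
  have hf := fk_ne a b
  have h2K := two_ne_K h2
  cases P with
  | zero =>
    rw [show (Point.zero : (TW a b).Point) = 0 from rfl, zero_add]
    exact hQ
  | some x1 y1 h1 =>
    cases Q with
    | zero =>
      rw [show (Point.zero : (TW a b).Point) = 0 from rfl, add_zero]
      exact hP
    | some x2 y2 h2' =>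
      rw [ker_some] at hP hQ
      have hY1 := ker_Y v hv1 h1 hP
      have E1 := tw_eqn h1
      have E2 := tw_eqn h2'
      by_cases hx : x1 = x2
      · by_cases hy : y1 = (TW a b).negY x2 y2
        · rw [Point.add_of_Y_eq hx hy]
          exact ker_zero v
        · subst hx
          have hyy : y1 = y2 := by
            rcases Y_eq_of_X_eq h1.1 h2'.1 rfl with h | h
            · exact h
            · exact absurd h hy
          subst hyy
          rw [Point.add_self_of_Y_ne hy, ker_some]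
          have hsl : (TW a b).slope x1 x1 y1 y1 =
              (3 * x1 ^ 2 + io (C a) * io (fp a b) ^ 2) / (2 * y1) := by
            rw [slope_of_Y_ne rfl hy, negY_SW]
            congr 1
            · simp
            · ring
          have hy0 : y1 ≠ 0 := by
            intro h0
            apply hY1
            rw [h0, zero_div]
          set X := x1 / io (fp a b) with hX
          set Y := y1 / io (fp a b) ^ 2 with hYd
          have ex : x1 = io (fp a b) * X := by rw [hX]; field_simp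
          have ey : y1 = io (fp a b) ^ 2 * Y := by rw [hYd]; field_simp
          have eX3 : (TW a b).addX x1 x1 ((TW a b).slope x1 x1 y1 y1) / io (fp a b) =
              io (fp a b) * ((3 * X ^ 2 + io (C a)) / (2 * io (fp a b) * Y)) ^ 2 - 2 * X := by
            rw [hsl]
            simp only [addX]
            rw [ex, ey]
            field_simp
            ring
          rw [eX3]
          apply gpos_dbl v hv1 hv2 a b h2 hP
          rw [← E1]
          have hB : io (C b) = io (fp a b) * Y ^ 2 - X ^ 3 - io (C a) * X := by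
            linear_combination -E1
          rw [hB]
          field_simp
          ring
      · rw [Point.add_of_X_ne hx, ker_some]
        set X1 := x1 / io (fp a b) with hX1
        set Y1 := y1 / io (fp a b) ^ 2 with hYd1
        set X2 := x2 / io (fp a b) with hX2
        set Y2 := y2 / io (fp a b) ^ 2 with hYd2
        have ex1 : x1 = io (fp a b) * X1 := by rw [hX1]; field_simp
        have ey1 : y1 = io (fp a b) ^ 2 * Y1 := by rw [hYd1]; field_simp
        have ex2 : x2 = io (fp a b) * X2 := by rw [hX2]; field_simp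
        have ey2 : y2 = io (fp a b) ^ 2 * Y2 := by rw [hYd2]; field_simp
        have hd : X1 - X2 ≠ 0 := by
          intro h0
          apply hx
          rw [ex1, ex2, sub_eq_zero.mp h0]
        have eX3 : (TW a b).addX x1 x2 ((TW a b).slope x1 x2 y1 y2) / io (fp a b) =
            io (fp a b) * ((Y1 - Y2) / (X1 - X2)) ^ 2 - X1 - X2 := by
          rw [slope_of_X_ne hx]
          simp only [addX]
          rw [ex1, ex2, ey1, ey2, ← mul_sub, ← mul_sub]
          field_simp
          ring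
        rw [eX3]
        apply gpos_add v hv1 a b hP hQ
        exact add_quad _ _ _ _ _ _ _ _ hd E1 E2 rfl

open Classical in
include hv1 hv2 in
theorem ker_nsmul {a b : F} (h2 : (2 : F) ≠ 0) {P : (TW a b).Point} (h : Ker v P) (n : ℕ) :
    Ker v (n • P) := by
  induction n with
  | zero => rw [zero_nsmul]; exact ker_zero v
  | succ n ih => rw [succ_nsmul]; exact ker_add v hv1 hv2 h2 ih h

open Classical in
include hv1 hv2 in
theorem ker_zsmul {a b : F} (h2 : (2 : F) ≠ 0) {P : (TW a b).Point} (h : Ker v P) (n : ℤ) :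
    Ker v (n • P) := by
  rcases Int.eq_nat_or_neg n with ⟨k, rfl | rfl⟩
  · rw [natCast_zsmul]; exact ker_nsmul v hv1 hv2 h2 h k
  · rw [neg_smul, natCast_zsmul]; exact ker_neg v (ker_nsmul v hv1 hv2 h2 h k)

theorem ker_pt {a b : F} (h2 : (2 : F) ≠ 0) (hΔ : 4 * a ^ 3 + 27 * b ^ 2 ≠ 0) {X Y : RatFunc F}
    (h : io (fp a b) * Y ^ 2 = X ^ 3 + io (C a) * X + io (C b)) :
    Ker v (pt h2 hΔ h) ↔ 1 < v X := by
  unfold pt
  rw [ker_some, pt_X]

open Classical in
/-- the sum of two points -/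
theorem pt_add {a b : F} (h2 : (2 : F) ≠ 0) (hΔ : 4 * a ^ 3 + 27 * b ^ 2 ≠ 0)
    {X1 Y1 X2 Y2 : RatFunc F}
    (h1 : io (fp a b) * Y1 ^ 2 = X1 ^ 3 + io (C a) * X1 + io (C b))
    (h2' : io (fp a b) * Y2 ^ 2 = X2 ^ 3 + io (C a) * X2 + io (C b)) (hx : X1 ≠ X2)
    {X3 Y3 : RatFunc F}
    (h3 : io (fp a b) * Y3 ^ 2 = X3 ^ 3 + io (C a) * X3 + io (C b))
    (eX : X3 = io (fp a b) * ((Y1 - Y2) / (X1 - X2)) ^ 2 - X1 - X2)
    (eY : Y3 = -(((Y1 - Y2) / (X1 - X2)) * (X3 - X1) + Y1)) :
    pt h2 hΔ h1 + pt h2 hΔ h2' = pt h2 hΔ h3 := by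
  have hf := fk_ne a b
  have hxx : io (fp a b) * X1 ≠ io (fp a b) * X2 := fun h => hx (mul_left_cancel₀ hf h)
  have hd : X1 - X2 ≠ 0 := sub_ne_zero.mpr hx
  unfold pt
  rw [Point.add_of_X_ne hxx, Point.some.injEq]
  have e1 := addX_eq (a := a) (b := b) (Y1 := Y1) (Y2 := Y2) hx
  rw [← eX, div_eq_iff hf] at e1
  have e1' : (TW a b).addX (io (fp a b) * X1) (io (fp a b) * X2)
      ((TW a b).slope (io (fp a b) * X1) (io (fp a b) * X2) (io (fp a b) ^ 2 * Y1)
        (io (fp a b) ^ 2 * Y2)) = io (fp a b) * X3 := by rw [e1]; ring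
  refine ⟨e1', ?_⟩
  simp only [addY, negAddY]
  rw [e1', negY_SW, eY, slope_of_X_ne hxx, ← mul_sub, ← mul_sub]
  field_simp

end gen

end

end Pool.Agent.Q267.MW
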