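import Pool.Agent.Q267.MW.Count
import Pool.Agent.Q267.MW.QF

set_option autoImplicit false

/-!
# The trace of Frobenius of a curve with an endomorphism
-/

namespace Pool.Agent.Q267.MW

open Polynomial WeierstrassCurve WeierstrassCurve.Affine WithZero Finset

noncomputable section

section gen

variable {F : Type*} [Field F]

theorem good_neg {a b c : F} {P : (TW a b).Point} (h : Good c P) : Good (-c) (-P) := by
  cases P with
  | zero =>
    have h0 : c = 0 := h
    rw [h0, neg_zero]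
    exact (good_zero (a := a) (b := b)).mpr rfl
  | some x y hxy =>
    obtain ⟨h1, hd⟩ := (good_some hxy).mp h
    rw [Point.neg_some, good_some]
    refine ⟨h1, ?_⟩
    rw [hd, negY_SW, C_neg, map_neg]
    ring

open Classical in
theorem good_nsmul {a b c : F} (h2 : (2 : F) ≠ 0) {P : (TW a b).Point} (h : Good c P) (n : ℕ) :
    Good ((n : F) * c) (n • P) := by
  induction n with
  | zero =>
    rw [Nat.cast_zero, zero_mul, zero_nsmul]
    exact (good_zero (a := a) (b := b)).mpr rfl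
  | succ n ih =>
    have := good_add h2 ih h
    rw [Nat.cast_succ, add_mul, one_mul, succ_nsmul]
    exact this

open Classical in
theorem good_zsmul {a b c : F} (h2 : (2 : F) ≠ 0) {P : (TW a b).Point} (h : Good c P) (n : ℤ) :
    Good ((n : F) * c) (n • P) := by
  rcases Int.eq_nat_or_neg n with ⟨k, rfl | rfl⟩
  · have := good_nsmul h2 h k
    rw [natCast_zsmul, Int.cast_natCast]
    exact this
  · have := good_neg (good_nsmul h2 h k)
    rw [neg_smul, natCast_zsmul, Int.cast_neg, Int.cast_natCast, neg_mul]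
    exact this

theorem good_pt {a b c : F} (h2 : (2 : F) ≠ 0) (hΔ : 4 * a ^ 3 + 27 * b ^ 2 ≠ 0) {X Y : RatFunc F}
    (h : io (fp a b) * Y ^ 2 = X ^ 3 + io (C a) * X + io (C b)) (h1 : 1 < vi F X)
    (hd : rd X = io (C c) * Y) : Good c (pt h2 hΔ h) := by
  unfold pt
  rw [good_some, pt_X, pt_Y]
  exact ⟨h1, hd⟩

theorem good_P0 {a b : F} (h2 : (2 : F) ≠ 0) (hΔ : 4 * a ^ 3 + 27 * b ^ 2 ≠ 0) :
    Good 1 (pt h2 hΔ (P0_eq a b)) := by
  apply good_pt
  · rw [vi_io X_ne_zero, natDegree_X, ← exp_zero, exp_lt_exp]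
    norm_num
  · rw [rd_io, derivative_X, C_1, map_one, mul_one]

theorem hgt_P0 {a b : F} (h2 : (2 : F) ≠ 0) (hΔ : 4 * a ^ 3 + 27 * b ^ 2 ≠ 0) :
    hgt (pt h2 hΔ (P0_eq a b)) = 1 := by
  unfold pt
  rw [hgt_of _ one_ne_zero isCoprime_one_right (n := X)]
  · unfold mh
    rw [natDegree_X, natDegree_one]
    rfl
  · rw [pt_X, map_one, div_one]

end gen

variable {p : ℕ} [hp : Fact p.Prime]

open Classical in
/-- the trace of Frobenius when the curve has an endomorphism of degree `N` and trace `t`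
acting on the differential as `al`, and `p = r² + r s t + s² N` with `r + s al = 0` -/
theorem trace_endo {a b : ZMod p} (h2 : (2 : ZMod p) ≠ 0) (h3 : (3 : ZMod p) ≠ 0) (ha : a ≠ 0)
    (hb : b ≠ 0) (hΔ : 4 * a ^ 3 + 27 * b ^ 2 ≠ 0) (al : ZMod p) (A : (TW a b).Point)
    (hA : Good al A) (N t : ℤ) (hN : (hgt A : ℤ) = N)
    (ht : (hgt (pt h2 hΔ (P0_eq a b) + A) : ℤ) = 1 + N + t) (r s : ℤ)
    (hrs : (p : ℤ) = r ^ 2 + r * s * t + s ^ 2 * N) (h0 : (r : ZMod p) + s * al = 0) :
    (∑ x : ZMod p, quadraticChar (ZMod p) ((fp a b).eval x) = 2 * r + s * t) ∨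
    (∑ x : ZMod p, quadraticChar (ZMod p) ((fp a b).eval x) = -(2 * r + s * t)) := by
  have hpodd : p ≠ 2 := by
    intro h
    apply h2
    have h' : ((2 : ℕ) : ZMod p) = 0 := by
      rw [← h]
      exact ZMod.natCast_self p
    exact_mod_cast h'
  obtain ⟨m, hm⟩ : ∃ m, p = 2 * m + 1 := by
    rcases hp.out.eq_two_or_odd' with h | h
    · exact absurd h hpodd
    · exact h
  have hm0 : 0 < m := by
    have := hp.out.two_le
    omega
  set P := pt h2 hΔ (P0_eq a b) with hPdef
  have hpar : ∀ P Q : (TW a b).Point, ((hgt (P + Q) : ℕ) : ℤ) + ((hgt (P - Q) : ℕ) : ℤ) =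
      2 * (((hgt P : ℕ) : ℤ) + ((hgt Q : ℕ) : ℤ)) := by
    intro P Q
    exact_mod_cast par h2 hΔ P Q
  have hq := qf (fun P : (TW a b).Point => ((hgt P : ℕ) : ℤ)) hpar P A
  have hP1 : ((hgt P : ℕ) : ℤ) = 1 := by rw [hPdef, hgt_P0]; rfl
  have hquad : ∀ r s : ℤ, ((hgt (r • P + s • A) : ℕ) : ℤ) = r ^ 2 + r * s * t + s ^ 2 * N := by
    intro r s
    rw [hq r s, hP1, hN, ht]
    ring
  have hgood : Good (0 : ZMod p) (r • P + s • A) := by
    have h1 := good_add h2 (good_zsmul h2 (good_P0 h2 hΔ) r) (good_zsmul h2 hA s)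
    rw [mul_one, h0] at h1
    exact h1
  have hB : hgt (r • P + s • A) = p := by
    have := hquad r s
    rw [← hrs] at this
    exact_mod_cast this
  have hcount := count h2 hΔ hm hm0
  rw [← hPdef] at hcount
  rcases insep_main h2 h3 ha hb hΔ hm _ hgood hB with h | h
  · right
    rw [← h] at hcount
    have e : r • P + s • A - P = (r - 1) • P + s • A := by
      rw [sub_smul, one_smul]; abel
    rw [e, hquad] at hcount
    linarith
  · left
    have e : FQ h2 hΔ hm - P = -((r + 1) • P + s • A) := by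
      have h' : FQ h2 hΔ hm = -(r • P + s • A) := by rw [h, neg_neg]
      have h'' : (r + 1) • P = r • P + P := by rw [add_zsmul, one_zsmul]
      rw [h', h'']; abel
    rw [e, hgt_neg, hquad] at hcount
    linarith

end

end Pool.Agent.Q267.MW
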